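import Pool.Agent.Lib.H92G.E2
import Pool.Agent.Lib.H15P.PB1
import Pool.Agent.Lib.H15P.TR2

/-!
# Chunk E4: the coefficients of the characters whose conductor has a prime factor in `P`
-/

open Finset

namespace Pool.Agent.Lib.H92G

open Pool.Agent.Lib.H15P

section independence

variable {ι J : Type} [Fintype ι] [DecidableEq ι] [Fintype J] [DecidableEq J]

theorem e4_one (q : ι → ℝ) (p : ι) (A0 : Finset ι) (h : p ∉ A0) :
    (1 - q p) * ∑ A ∈ univ.filter (fun A : Finset ι => A.erase p = A0), bw q A = bw q A0 := by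
  have hfil : univ.filter (fun A : Finset ι => A.erase p = A0) = {A0, insert p A0} := by
    ext A
    simp only [mem_filter, mem_univ, true_and, mem_insert, mem_singleton]
    constructor
    · intro hA
      by_cases hp : p ∈ A
      · right
        rw [← hA, Finset.insert_erase hp]
      · left
        rw [← hA, Finset.erase_eq_of_notMem hp]
    · rintro (rfl | rfl)
      · exact Finset.erase_eq_of_notMem h
      · exact Finset.erase_insert h
  have hne : A0 ≠ insert p A0 := by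
    intro he
    apply h
    rw [he]
    exact mem_insert_self _ _
  rw [hfil, Finset.sum_pair hne]
  unfold bw
  rw [← Finset.mul_prod_erase univ _ (mem_univ p), ← Finset.mul_prod_erase univ
    (fun i => if i ∈ insert p A0 then q i else 1 - q i) (mem_univ p)]
  have h1 : ∏ x ∈ univ.erase p, (if x ∈ insert p A0 then q x else 1 - q x) =
      ∏ x ∈ univ.erase p, (if x ∈ A0 then q x else 1 - q x) := by
    refine Finset.prod_congr rfl fun x hx => ?_
    have hxp : x ≠ p := Finset.ne_of_mem_erase hx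
    simp only [mem_insert, hxp, false_or]
  rw [h1, if_neg h, if_pos (mem_insert_self _ _)]
  ring

theorem e4_fib (q : ι → ℝ) (p : ι) (S0 : J → Finset ι) (h : ∀ j, p ∉ S0 j) :
    (1 - q p) ^ Fintype.card J *
      ∑ S ∈ univ.filter (fun S : J → Finset ι => (fun j => (S j).erase p) = S0),
        ∏ j, bw q (S j) = ∏ j, bw q (S0 j) := by
  have h1 : univ.filter (fun S : J → Finset ι => (fun j => (S j).erase p) = S0) =
      Fintype.piFinset (fun j => univ.filter (fun A : Finset ι => A.erase p = S0 j)) := by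
    ext S
    simp only [mem_filter, mem_univ, true_and, Fintype.mem_piFinset]
    constructor
    · intro hS j
      rw [← hS]
    · intro hS
      funext j
      exact hS j
  rw [h1, ← Finset.prod_univ_sum, ← Finset.card_univ, ← Finset.prod_const,
    ← Finset.prod_mul_distrib]
  exact Finset.prod_congr rfl fun j _ => e4_one q p (S0 j) (h j)

/-- The mean value of a function of the configuration without `p`. -/
theorem e4_erase (q : ι → ℝ) (p : ι) (F : (J → Finset ι) → ℝ) :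
    (1 - q p) ^ Fintype.card J * EX q (fun S : J → Finset ι => F (fun j => (S j).erase p)) =
      EX q (fun S => F S * (if ∃ j, p ∈ S j then 0 else 1)) := by
  unfold EX
  have hmaps : ∀ S ∈ (univ : Finset (J → Finset ι)), (fun j => (S j).erase p) ∈
      univ.filter (fun S : J → Finset ι => ∀ j, p ∉ S j) := by
    intro S _
    rw [mem_filter]
    exact ⟨mem_univ _, fun j => Finset.notMem_erase p (S j)⟩
  rw [← Finset.sum_fiberwise_of_maps_to hmaps, Finset.mul_sum]
  have h2 : ∀ S : J → Finset ι, (F S * (if ∃ j, p ∈ S j then 0 else 1)) * ∏ j, bw q (S j) =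
      if (∀ j, p ∉ S j) then F S * ∏ j, bw q (S j) else 0 := by
    intro S
    by_cases h : ∀ j, p ∉ S j
    · rw [if_pos h, if_neg (by push Not; exact h), mul_one]
    · rw [if_neg h, if_pos (by push Not at h; exact h)]
      ring
  rw [Finset.sum_congr rfl fun S _ => h2 S, ← Finset.sum_filter]
  refine Finset.sum_congr rfl fun S0 hS0 => ?_
  rw [mem_filter] at hS0
  rw [← e4_fib q p S0 hS0.2, Finset.mul_sum, Finset.mul_sum, Finset.mul_sum]
  refine Finset.sum_congr rfl fun S hS => ?_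
  rw [mem_filter] at hS
  change (1 - q p) ^ Fintype.card J * (F (fun j => (S j).erase p) * ∏ j, bw q (S j)) = _
  rw [hS.2]
  ring

theorem e4_EX_add (q : ι → ℝ) (F G : (J → Finset ι) → ℝ) :
    EX q (fun S => F S + G S) = EX q F + EX q G := by
  unfold EX
  rw [← Finset.sum_add_distrib]
  exact Finset.sum_congr rfl fun S _ => by ring

theorem e4_EX_le_sqrt (q : ι → ℝ) (h0 : ∀ i, 0 ≤ q i) (h1 : ∀ i, q i ≤ 1)
    (F : (J → Finset ι) → ℝ) : EX q F ≤ Real.sqrt (EX q (fun S => F S ^ 2)) := by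
  have h := EX_mul_le q h0 h1 F (fun _ : J → Finset ι => 1)
  simp only [mul_one, one_pow] at h
  rw [EX_one, Real.sqrt_one, mul_one] at h
  exact h

theorem e4_theta (q : ℝ) (n : ℕ) (h0 : 0 ≤ q) (h1 : q ≤ 1) : 1 - n * q ≤ (1 - q) ^ n := by
  have := one_add_mul_le_pow (a := -q) (by linarith) n
  calc 1 - n * q = 1 + n * (-q) := by ring
    _ ≤ (1 + -q) ^ n := this
    _ = (1 - q) ^ n := by ring_nf

end independence

variable {J : Type} [Fintype J] [DecidableEq J]

theorem e4_consts (P : Finset ℕ) (W K M : ℕ) (b : J → ℕ) (hF : Forms P W K M b)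
    (p : {p // p ∈ P}) :
    (∀ i, 0 ≤ qq P K i) ∧ (∀ i, qq P K i ≤ 1) ∧ 2 * (K : ℝ) / W ≤ 1 / 2 ∧ 0 ≤ 2 * (K : ℝ) / W ∧
      1 - 2 * (K : ℝ) / W ≤ (1 - qq P K p) ^ Fintype.card J := by
  have h0 : ∀ i, 0 ≤ qq P K i := qq_nonneg P K
  have h1 : ∀ i, qq P K i ≤ 1 := fun i => tr2_qq_le_one P W K hF.one_le hF.KW hF.big i
  have hK1 : (1 : ℝ) ≤ K := by exact_mod_cast hF.one_le
  have hKW : 4 * (K : ℝ) ^ 2 ≤ W := by exact_mod_cast hF.KW
  have hW0 : (0 : ℝ) < W := by nlinarith
  refine ⟨h0, h1, ?_, by positivity, ?_⟩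
  · rw [div_le_div_iff₀ hW0 (by norm_num)]
    nlinarith
  · have h2 := qq_le P W K hF.one_le hF.KW hF.big p
    have hWp : (W : ℝ) ≤ p.1 := by exact_mod_cast (hF.big p.1 p.2).le
    have hp0 : (0 : ℝ) < p.1 := lt_of_lt_of_le hW0 hWp
    have h3 : qq P K p ≤ 2 / W := h2.trans (by gcongr)
    have hc : (Fintype.card J : ℝ) ≤ K := by exact_mod_cast hF.card
    refine le_trans ?_ (e4_theta (qq P K p) (Fintype.card J) (h0 p) (h1 p))
    have h4 : (Fintype.card J : ℝ) * qq P K p ≤ K * (2 / W) := by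
      apply mul_le_mul hc h3 (h0 p) (by linarith)
    have h5 : (K : ℝ) * (2 / W) = 2 * K / W := by ring
    linarith

/-- The probability that `p` is in one of the sets is at most `|J| q_p`, so by Cauchy-Schwarz
(`EX_mul_le`) and `qq_le` (`q_p ≤ 2/p ≤ 2/W`). -/
theorem EX_mul_hit_le (P : Finset ℕ) (W K M : ℕ) (b : J → ℕ) (hF : Forms P W K M b)
    (F : (J → Finset {p // p ∈ P}) → ℝ) (h0 : ∀ S, 0 ≤ F S) (p : {p // p ∈ P}) :
    EX (qq P K) (fun S => F S * (if ∃ j, p ∈ S j then 1 else 0)) ≤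
      Real.sqrt (EX (qq P K) (fun S => F S ^ 2)) * Real.sqrt (2 * K / W) := by
  obtain ⟨q0, q1, _, _, hθ⟩ := e4_consts P W K M b hF p
  refine (EX_mul_le (qq P K) q0 q1 F (fun S => if ∃ j, p ∈ S j then 1 else 0)).trans ?_
  refine mul_le_mul_of_nonneg_left (Real.sqrt_le_sqrt ?_) (Real.sqrt_nonneg _)
  have h1 : (fun S : J → Finset {p // p ∈ P} => (if ∃ j, p ∈ S j then (1 : ℝ) else 0) ^ 2) =
      fun S => if ∃ j, p ∈ S j then (1 : ℝ) else 0 := by
    funext S
    split_ifs <;> norm_num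
  rw [h1]
  have h2 := e4_erase (J := J) (qq P K) p (fun _ => 1)
  simp only [one_mul] at h2
  rw [EX_one, mul_one] at h2
  have h3 : EX (qq P K) (fun S : J → Finset {p // p ∈ P} => (if ∃ j, p ∈ S j then (1 : ℝ) else 0)) +
      EX (qq P K) (fun S : J → Finset {p // p ∈ P} => (if ∃ j, p ∈ S j then (0 : ℝ) else 1)) = 1 := by
    rw [← e4_EX_add]
    refine Eq.trans ?_ (EX_one (J := J) (qq P K))
    congr 1
    funext S
    split_ifs <;> norm_num
  rw [← h2] at h3
  linarith

/-- The function `S ↦ F (S ∖ p)` does not depend on `p`: so it is independent of the event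
`∃ j, p ∈ S j` (probability at most `2 K/W ≤ 1/2`), and its mean value is the conditional mean
value of `F` if `p` is in none of the sets, `≤ EX F/(1 - 1/2)`. `EX F ≤ sqrt (EX F^2)`. -/
theorem EX_erase_mul_hit_le (P : Finset ℕ) (W K M : ℕ) (b : J → ℕ) (hF : Forms P W K M b)
    (F : (J → Finset {p // p ∈ P}) → ℝ) (h0 : ∀ S, 0 ≤ F S) (p : {p // p ∈ P}) :
    EX (qq P K) (fun S => F (fun j => (S j).erase p) * (if ∃ j, p ∈ S j then 1 else 0)) ≤
      2 * Real.sqrt (EX (qq P K) (fun S => F S ^ 2)) * (2 * K / W) := by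
  obtain ⟨q0, q1, hh, hh0, hθ⟩ := e4_consts P W K M b hF p
  have h1 := e4_erase (J := J) (qq P K) p F
  set θ := (1 - qq P K p) ^ Fintype.card J with hθdef
  have h2 : EX (qq P K) (fun S : J → Finset {p // p ∈ P} =>
        F (fun j => (S j).erase p) * (if ∃ j, p ∈ S j then 1 else 0)) +
      EX (qq P K) (fun S => F S * (if ∃ j, p ∈ S j then 0 else 1)) =
      EX (qq P K) (fun S : J → Finset {p // p ∈ P} => F (fun j => (S j).erase p)) := by
    rw [← e4_EX_add]
    congr 1
    funext S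
    by_cases h : ∃ j, p ∈ S j
    · rw [if_pos h, if_pos h]; ring
    · rw [if_neg h, if_neg h, mul_zero, zero_add, mul_one]
      congr 1
      funext j
      push Not at h
      exact (Finset.erase_eq_of_notMem (h j)).symm
  have h3 : EX (qq P K) (fun S => F S * (if ∃ j, p ∈ S j then 0 else 1)) ≤ EX (qq P K) F := by
    refine EX_mono (qq P K) q0 q1 _ _ fun S => ?_
    split_ifs
    · rw [mul_zero]; exact h0 S
    · rw [mul_one]
  have h4 := e4_EX_le_sqrt (J := J) (qq P K) q0 q1 F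
  have hE0 : 0 ≤ EX (qq P K) (fun S : J → Finset {p // p ∈ P} => F (fun j => (S j).erase p)) :=
    EX_nonneg (qq P K) q0 q1 _ fun S => h0 _
  set E1 := EX (qq P K) (fun S : J → Finset {p // p ∈ P} => F (fun j => (S j).erase p)) with hE1
  set E2 := EX (qq P K) (fun S : J → Finset {p // p ∈ P} =>
        F (fun j => (S j).erase p) * (if ∃ j, p ∈ S j then 1 else 0)) with hE2
  set E3 := EX (qq P K) (fun S => F S * (if ∃ j, p ∈ S j then 0 else 1)) with hE3
  set σ := Real.sqrt (EX (qq P K) (fun S => F S ^ 2)) with hσ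
  have hσ0 : 0 ≤ σ := Real.sqrt_nonneg _
  -- E1 ≤ 2 σ
  have h5 : E1 ≤ 2 * σ := by
    have : (1 / 2) * E1 ≤ θ * E1 := mul_le_mul_of_nonneg_right (by linarith) hE0
    linarith
  have h6 : E2 = (1 - θ) * E1 := by linarith
  rw [h6]
  calc (1 - θ) * E1 ≤ (2 * K / W) * E1 := mul_le_mul_of_nonneg_right (by linarith) hE0
    _ ≤ (2 * K / W) * (2 * σ) := mul_le_mul_of_nonneg_left h5 hh0
    _ = 2 * σ * (2 * K / W) := by ring

theorem e4_exp (W K : ℕ) (hK : 1 ≤ K) (hKW : 4 * K ^ 2 ≤ W) :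
    Real.exp (2 * (K : ℝ) ^ 2 / W) ≤ 2 := by
  have hK1 : (1 : ℝ) ≤ K := by exact_mod_cast hK
  have hKW' : 4 * (K : ℝ) ^ 2 ≤ W := by exact_mod_cast hKW
  have hW0 : (0 : ℝ) < W := by nlinarith
  have h1 : 2 * (K : ℝ) ^ 2 / W ≤ 1 / 2 := by
    rw [div_le_div_iff₀ hW0 (by norm_num)]
    nlinarith
  have h2 : Real.exp (1 / 2) ≤ 2 := by
    have h3 : Real.exp (1 / 2) * Real.exp (1 / 2) = Real.exp 1 := by
      rw [← Real.exp_add]; norm_num
    have h4 := Real.exp_one_lt_d9
    have h5 := Real.exp_pos (1 / 2)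
    nlinarith
  exact (Real.exp_le_exp.mpr h1).trans h2

theorem e4_prime (P : Finset ℕ) (M r : ℕ) (hprime : ∀ p ∈ P, p.Prime) (hr : r ∣ (∏ p ∈ P, p) * M)
    (hrM : ¬ r ∣ M) : ∃ p ∈ P, p ∣ r := by
  by_contra hc
  push Not at hc
  apply hrM
  have hcop : r.Coprime (∏ p ∈ P, p) := by
    refine Nat.Coprime.prod_right fun p hp => ?_
    exact ((Nat.Prime.coprime_iff_not_dvd (hprime p hp)).mpr (hc p hp)).symm
  exact hcop.dvd_of_dvd_mul_left hr

theorem e4_fiber_aux (P : Finset ℕ) (W K M Q : ℕ) (hQ : Q = ∏ p ∈ P, p) [NeZero (Q * M)]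
    (b : J → ℕ) (hF : Forms P W K M b) (F : (J → Finset {p // p ∈ P}) → ℝ) (h0 : ∀ S, 0 ≤ F S)
    (j0 : J) (hb : (b j0).Coprime M) (χ : DirichletCharacter ℂ (Q * M))
    (hχ : ¬ χ.conductor ∣ M) :
    ‖cf Q M (b j0) (fun t => F (fun j => hit P (b j + M * t))) χ‖ ≤
      7 * (Q : ℝ) * Real.sqrt (EX (qq P K) (fun S => F S ^ 2) * (K / W)) := by
  classical
  have hQM : Q.Coprime M := by
    rw [hQ]
    exact Nat.Coprime.prod_left fun p hp =>
      (Nat.Prime.coprime_iff_not_dvd (hF.prime p hp)).mpr (hF.cop p hp)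
  obtain ⟨p, hpP, hpr⟩ := e4_prime P M χ.conductor hF.prime
    (by rw [← hQ]; exact χ.conductor_dvd_level) hχ
  set Q' := ∏ q ∈ P.erase p, q with hQ'
  have hQp : Q = p * Q' := hQ.trans (Finset.mul_prod_erase P (fun q => q) hpP).symm
  have hQ'Q : Q' ∣ Q := Dvd.intro_left _ hQp.symm
  set pp : {p // p ∈ P} := ⟨p, hpP⟩ with hpp
  -- the function without p
  have hper : Function.Periodic
      (fun t => F (fun j => (hit P (b j + M * t)).erase pp)) Q' := by
    intro t
    simp only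
    congr 1
    funext j
    ext x
    simp only [Finset.mem_erase]
    refine and_congr_right fun hx => ?_
    have hxQ : x.1 ∣ Q' := by
      refine Finset.dvd_prod_of_mem (fun q => q) ?_
      rw [Finset.mem_erase]
      refine ⟨?_, x.2⟩
      intro h
      exact hx (Subtype.ext h)
    unfold hit
    simp only [mem_filter, mem_univ, true_and]
    have e1 : b j + M * (t + Q') = (b j + M * t) + M * Q' := by ring
    rw [e1]
    exact (Nat.dvd_add_iff_left (hxQ.mul_left M)).symm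
  have hzero : cf Q M (b j0) (fun t => F (fun j => (hit P (b j + M * t)).erase pp)) χ = 0 := by
    by_contra hne
    have h1 := cf_conductor Q M (b j0) Q' hQM hb hQ'Q _ hper χ hne
    have h2 : p ∣ Q' * M := hpr.trans h1
    rcases (Nat.Prime.dvd_mul (hF.prime p hpP)).mp h2 with h3 | h3
    · rw [hQ', (Nat.Prime.prime (hF.prime p hpP)).dvd_finsetProd_iff] at h3
      obtain ⟨q, hq, hpq⟩ := h3
      rw [Finset.mem_erase] at hq
      exact hq.1 ((Nat.prime_dvd_prime_iff_eq (hF.prime p hpP) (hF.prime q hq.2)).mp hpq).symm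
    · exact hF.cop p hpP h3
  have hsplit : cf Q M (b j0) (fun t => F (fun j => hit P (b j + M * t))) χ =
      cf Q M (b j0) (fun t => F (fun j => hit P (b j + M * t)) -
        F (fun j => (hit P (b j + M * t)).erase pp)) χ := by
    have h1 := cf_add Q M (b j0) (fun t => F (fun j => hit P (b j + M * t)) -
        F (fun j => (hit P (b j + M * t)).erase pp))
        (fun t => F (fun j => (hit P (b j + M * t)).erase pp)) χ
    rw [hzero, add_zero] at h1
    rw [← h1]
    congr 1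
    funext t
    ring
  rw [hsplit]
  refine (norm_cf_le Q M (b j0) _ χ).trans ?_
  obtain ⟨q0, q1, hh, hh0, hθ⟩ := e4_consts P W K M b hF pp
  have hK1 : (1 : ℝ) ≤ K := by exact_mod_cast hF.one_le
  have hKW : 4 * (K : ℝ) ^ 2 ≤ W := by exact_mod_cast hF.KW
  have hW0 : (0 : ℝ) < W := by nlinarith
  have hQ0 : (0 : ℝ) < (Q : ℝ) := by
    have h1 : Q ≠ 0 := by
      rw [hQ]
      exact Finset.prod_ne_zero_iff.mpr fun p hp => (hF.prime p hp).ne_zero
    exact_mod_cast Nat.pos_of_ne_zero h1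
  set F1 : (J → Finset {p // p ∈ P}) → ℝ := fun S => F S * (if ∃ j, pp ∈ S j then 1 else 0)
    with hF1
  set F2 : (J → Finset {p // p ∈ P}) → ℝ := fun S =>
    F (fun j => (S j).erase pp) * (if ∃ j, pp ∈ S j then 1 else 0) with hF2
  have hF1n : ∀ S, 0 ≤ F1 S := fun S => mul_nonneg (h0 S) (by split_ifs <;> norm_num)
  have hF2n : ∀ S, 0 ≤ F2 S := fun S => mul_nonneg (h0 _) (by split_ifs <;> norm_num)
  have hterm : ∀ t, |F (fun j => hit P (b j + M * t)) -
      F (fun j => (hit P (b j + M * t)).erase pp)| ≤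
      F1 (fun j => hit P (b j + M * t)) + F2 (fun j => hit P (b j + M * t)) := by
    intro t
    by_cases h : ∃ j, pp ∈ hit P (b j + M * t)
    · simp only [hF1, hF2]
      rw [if_pos h, mul_one, mul_one]
      have h1 := h0 (fun j => hit P (b j + M * t))
      have h2 := h0 (fun j => (hit P (b j + M * t)).erase pp)
      rw [abs_le]
      constructor <;> linarith
    · simp only [hF1, hF2]
      rw [if_neg h, mul_zero, mul_zero, add_zero]
      push Not at h
      have h3 : (fun j => (hit P (b j + M * t)).erase pp) = fun j => hit P (b j + M * t) := by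
        funext j
        exact Finset.erase_eq_of_notMem (h j)
      rw [h3, sub_self, abs_zero]
  have hsum : ∑ t ∈ (range Q).filter (fun t => (b j0 + M * t).Coprime Q),
      |F (fun j => hit P (b j + M * t)) - F (fun j => (hit P (b j + M * t)).erase pp)| ≤
      (Q : ℝ) * (EP P M b F1 + EP P M b F2) := by
    have h1 : (Q : ℝ) * (EP P M b F1 + EP P M b F2) =
        ∑ t ∈ range Q, (F1 (fun j => hit P (b j + M * t)) + F2 (fun j => hit P (b j + M * t))) := by
      unfold EP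
      rw [← hQ, Finset.sum_add_distrib, ← add_div, mul_div_cancel₀ _ hQ0.ne']
    rw [h1]
    refine (Finset.sum_le_sum_of_subset_of_nonneg (Finset.filter_subset _ _)
      fun t _ _ => abs_nonneg _).trans (Finset.sum_le_sum fun t _ => hterm t)
  refine hsum.trans ?_
  have hE1 := EP_le P W K M b hF F1 hF1n
  have hE2 := EP_le P W K M b hF F2 hF2n
  have hX1 := EX_mul_hit_le P W K M b hF F h0 pp
  have hX2 := EX_erase_mul_hit_le P W K M b hF F h0 pp
  have hexp := e4_exp W K hF.one_le hF.KW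
  have hX1' : EX (qq P K) F1 ≤ _ := hX1
  have hX2' : EX (qq P K) F2 ≤ _ := hX2
  have hX1n : 0 ≤ EX (qq P K) F1 := EX_nonneg (qq P K) q0 q1 _ hF1n
  have hX2n : 0 ≤ EX (qq P K) F2 := EX_nonneg (qq P K) q0 q1 _ hF2n
  have hC0 : 0 ≤ EX (qq P K) (fun S : J → Finset {p // p ∈ P} => F S ^ 2) :=
    EX_nonneg (qq P K) q0 q1 _ fun S => sq_nonneg _
  rw [Real.sqrt_mul hC0]
  set σ := Real.sqrt (EX (qq P K) (fun S : J → Finset {p // p ∈ P} => F S ^ 2)) with hσ
  have hσ0 : 0 ≤ σ := Real.sqrt_nonneg _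
  set s := Real.sqrt ((K : ℝ) / W) with hs
  have hs0 : 0 ≤ s := Real.sqrt_nonneg _
  have hss : s ^ 2 = (K : ℝ) / W := Real.sq_sqrt (by positivity)
  have hs2 : s ≤ 1 / 2 := by
    have h1 : (K : ℝ) / W ≤ 1 / 4 := by
      rw [div_le_div_iff₀ hW0 (by norm_num)]
      nlinarith
    rw [← hss] at h1
    nlinarith
  have hsq2 : Real.sqrt (2 * K / W) ≤ 1415 / 1000 * s := by
    rw [Real.sqrt_le_iff]
    refine ⟨by positivity, ?_⟩
    rw [mul_pow, hss]
    have h1 : (2 * (K : ℝ) / W) = 2 * (K / W) := by ring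
    rw [h1]
    have h2 : 0 ≤ (K : ℝ) / W := by positivity
    nlinarith
  have hK4 : 2 * (K : ℝ) / W = 2 * s ^ 2 := by rw [hss]; ring
  have hA : EX (qq P K) F1 ≤ σ * (1415 / 1000 * s) :=
    hX1'.trans (mul_le_mul_of_nonneg_left hsq2 hσ0)
  have hB : EX (qq P K) F2 ≤ σ * (2 * s) := by
    refine hX2'.trans ?_
    rw [hK4]
    have h1 : 2 * σ * (2 * s ^ 2) = σ * (4 * s * s) := by ring
    rw [h1]
    apply mul_le_mul_of_nonneg_left _ hσ0
    nlinarith
  have hP1 : EP P M b F1 ≤ 2 * (σ * (1415 / 1000 * s)) :=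
    hE1.trans (mul_le_mul hexp hA hX1n (by norm_num))
  have hP2 : EP P M b F2 ≤ 2 * (σ * (2 * s)) :=
    hE2.trans (mul_le_mul hexp hB hX2n (by norm_num))
  calc (Q : ℝ) * (EP P M b F1 + EP P M b F2)
      ≤ (Q : ℝ) * (2 * (σ * (1415 / 1000 * s)) + 2 * (σ * (2 * s))) := by gcongr
    _ = (Q : ℝ) * (σ * s) * (683 / 100) := by ring
    _ ≤ (Q : ℝ) * (σ * s) * 7 := by
        apply mul_le_mul_of_nonneg_left (by norm_num)
        positivity
    _ = 7 * (Q : ℝ) * (σ * s) := by ring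

/-- Chunk E4. Let `Q = ∏ P`. The conductor `r` of `χ` divides `Q M` but not `M`, so some prime
`p ∈ P` divides `r` (`Q` and `M` are coprime, `Q` is squarefree). The function
`t ↦ F (S(t) ∖ p)`, `S(t)_j = hit P (b j + M t)`, has the period `Q/p`, so its coefficient is `0`
(`cf_conductor`: `r ∤ (Q/p) M`). Subtract it: the difference `F (S(t)) - F (S(t) ∖ p)` vanishes
unless `p` divides one of the forms, so by `norm_cf_le`
`‖cf‖ ≤ ∑_{t < Q, p hits} (F(S(t)) + F(S(t) ∖ p)) = Q (EP (F 1_hit) + EP (F(· ∖ p) 1_hit))`,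
`EP_le`, `exp (2 K^2/W) ≤ e^(1/2) ≤ 2`, the two lemmas above, and `K/W ≤ 1/4`:
`2 (sqrt 2 s + 4 s^2) ≤ 7 s` for `s = sqrt (K/W) ≤ 1/2`. -/
theorem cf_fiber (P : Finset ℕ) (W K M : ℕ) [NeZero ((∏ p ∈ P, p) * M)] (b : J → ℕ)
    (hF : Forms P W K M b) (F : (J → Finset {p // p ∈ P}) → ℝ) (h0 : ∀ S, 0 ≤ F S) (j0 : J)
    (hb : (b j0).Coprime M) (χ : DirichletCharacter ℂ ((∏ p ∈ P, p) * M))
    (hχ : ¬ χ.conductor ∣ M) :
    ‖cf (∏ p ∈ P, p) M (b j0) (fun t => F (fun j => hit P (b j + M * t))) χ‖ ≤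
      7 * ((∏ p ∈ P, p : ℕ) : ℝ) *
        Real.sqrt (EX (qq P K) (fun S => F S ^ 2) * (K / W)) := by
  exact e4_fiber_aux P W K M _ rfl b hF F h0 j0 hb χ hχ

end Pool.Agent.Lib.H92G
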