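import Pool.Agent.Lib.H92G.E3
import Pool.Agent.Lib.H92G.E4

/-!
# Chunk E5: a nonnegative function of the configuration, summed over the primes of one form
-/

open Finset

namespace Pool.Agent.Lib.H92G

open Pool.Agent.Lib.H15P

variable {J : Type} [Fintype J] [DecidableEq J]

theorem e5_lpv_ne (X m : ℕ) (hX : 0 < X) (h : lpv X m ≠ 0) :
    m.Prime ∧ (X : ℝ) / 8 ≤ m ∧ m ≤ 60 * X := by
  unfold lpv at h
  split_ifs at h with hm
  · have hv : H68T.v X m ≠ 0 := by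
      intro h0
      rw [h0] at h
      simp at h
    exact ⟨hm, v_supp X m hX hv hm.pos⟩
  · exact absurd rfl h

/-- the sum of `lpv` over a progression -/
theorem e5_sum_lpv_le (X M b Y : ℕ) (hX : 0 < X) (hM : 0 < M) :
    ∑ t ∈ range Y, lpv X (b + M * t) ≤ ∑ m ∈ Icc 1 (60 * X), lpv X m := by
  classical
  have h1 : ∑ t ∈ range Y, lpv X (b + M * t)
      = ∑ m ∈ (range Y).image (fun t => b + M * t), lpv X m := by
    rw [sum_image]
    intro t _ t' _ h
    have : M * t = M * t' := by simpa using h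
    exact Nat.eq_of_mul_eq_mul_left hM this
  rw [h1]
  rw [← sum_filter_ne_zero]
  refine sum_le_sum_of_subset_of_nonneg ?_ (fun m _ _ => lpv_nonneg X m)
  intro m hm
  obtain ⟨hp, -, h3⟩ := e5_lpv_ne X m hX (mem_filter.1 hm).2
  exact mem_Icc.2 ⟨hp.pos, h3⟩

theorem e5_theta (X : ℕ) : ∑ m ∈ Icc 1 (60 * X), lpv X m
    = ∑ m ∈ (Icc 1 (60 * X)).filter Nat.Prime, Real.log m * H68T.v X m / m := by
  rw [sum_filter]
  rfl

/-- Chunk E5. Let `Q = ∏ P`, `G t = F (S(t))`, and let `G = G1 + G2` be the splitting `lev_split`.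
* `G2`: `|∑ G2 lpv| ≤ (lv/D) ∑_m lpv m ≤ 10 lv/D` (`t ↦ b + M t` is injective).
* `G1`: `expand`. The term of `χ = 1` is `(∑_{units} G1) θ`, `θ = ∑ lpv ∈ [1/2, 10]`,
  `∑_{units} G1 ≥ φ(Q) (EU G - lv/D)` and `≤ ..` (`card_units`).
* `χ ≠ 1`, conductor `∣ M`: `‖cf G1 χ‖ ≤ φ(Q) (EU G + lv/D)`; `sum_chars_dvd_le`.
* conductor `∤ M`: `cf G1 χ = 0` or the conductor is `≤ D M ≤ Q'`, and
  `‖cf G1 χ‖ ≤ ‖cf G χ‖ + ‖cf G2 χ‖ ≤ 7 Q sqrt (C2 K/W) + φ(Q) lv/D`; `sum_chars_le`.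
* `φ(Q M) = φ(Q) φ(M)`. -/
theorem prime_sum (P : Finset ℕ) (W K M X Y Q' D : ℕ) (b : J → ℕ)
    (hF : Forms P W K M b) (F : (J → Finset {p // p ∈ P}) → ℝ) (h0 : ∀ S, 0 ≤ F S) (j0 : J)
    (hM : 0 < M) (hb : (b j0).Coprime M) (hbX : 8 * b j0 ≤ X) (hX : 0 < X)
    (hPX : ∀ p ∈ P, 8 * p < X) (hMX : 8 * M < X) (hY : 60 * X < M * Y)
    (lv C2 A0 A1 : ℝ)
    (hlev : Lev (∏ p ∈ P, p) (fun t => F (fun j => hit P (b j + M * t))) lv)
    (hD : 1 ≤ D) (hDM : D * M ≤ Q')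
    (hC2 : EX (qq P K) (fun S => F S ^ 2) ≤ C2)
    (hA0 : A0s Q' X ≤ A0) (hA1 : A1s M X ≤ A1)
    (hm1 : 1 / 2 ≤ ∑ m ∈ (Icc 1 (60 * X)).filter Nat.Prime, Real.log m * H68T.v X m / m)
    (hm2 : ∑ m ∈ (Icc 1 (60 * X)).filter Nat.Prime, Real.log m * H68T.v X m / m ≤ 10) :
    (1 / (M.totient : ℝ)) * ((1 / 2 - A1) *
        EU P M (b j0) (fun t => F (fun j => hit P (b j + M * t))) -
        lv / D * (10 + A0 + A1) -
        7 * Real.sqrt (C2 * (K / W)) *
          (((∏ p ∈ P, p : ℕ) : ℝ) / ((∏ p ∈ P, p).totient : ℝ)) * A0) - 10 * lv / D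
      ≤ ∑ t ∈ range Y, F (fun j => hit P (b j + M * t)) * lpv X (b j0 + M * t) := by
  classical
  set Q := ∏ p ∈ P, p with hQdef
  set b0 := b j0 with hb0
  set G : ℕ → ℝ := fun t => F (fun j => hit P (b j + M * t)) with hG
  have hG0 : ∀ t, 0 ≤ G t := fun t => h0 _
  have hQ : 0 < Q := prod_pos fun p hp => (hF.prime p hp).pos
  have hQM : Q.Coprime M := by
    rw [hQdef, Nat.coprime_prod_left_iff]
    intro p hp
    exact (Nat.Prime.coprime_iff_not_dvd (hF.prime p hp)).2 (hF.cop p hp)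
  have : NeZero (Q * M) := ⟨(Nat.mul_pos hQ hM).ne'⟩
  have hbig : ∀ m, lpv X m ≠ 0 → m.Prime ∧ b0 ≤ m ∧ (∀ p ∈ P, p < m) ∧ M < m := by
    intro m hm
    obtain ⟨h1, h2, -⟩ := e5_lpv_ne X m hX hm
    have h3 : (X : ℝ) ≤ 8 * m := by linarith
    have h4 : X ≤ 8 * m := by exact_mod_cast h3
    refine ⟨h1, by omega, fun p hp => ?_, by omega⟩
    have := hPX p hp
    omega
  have hcop : ∀ m, lpv X m ≠ 0 → m.Coprime (Q * M) := by
    intro m hm
    obtain ⟨h1, -, h3, h4⟩ := hbig m hm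
    refine Nat.Coprime.mul_right ?_ ?_
    · rw [hQdef, Nat.coprime_prod_right_iff]
      intro p hp
      rw [Nat.coprime_primes h1 (hF.prime p hp)]
      exact (h3 p hp).ne'
    · rw [Nat.Prime.coprime_iff_not_dvd h1]
      intro hdvd
      exact absurd (Nat.le_of_dvd hM hdvd) (by omega)
  have hbX' : ∀ m, m < b0 → lpv X m = 0 := by
    intro m hm
    by_contra hne
    have := (hbig m hne).2.1
    omega
  obtain ⟨G1, G2, hsplit, hper1, hper2, hG2, hcond⟩ := lev_split hlev D hD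
  have hlvD : 0 ≤ lv / D := (abs_nonneg _).trans (hG2 0)
  set θ : ℝ := ∑ m ∈ Icc 1 (60 * X), lpv X m with hθ
  have hθ' := e5_theta X
  rw [← hθ] at hθ'
  rw [← hθ'] at hm1 hm2
  have hA0n : 0 ≤ A0 := (sum_nonneg fun _ _ => norm_nonneg _).trans hA0
  have hA1n : 0 ≤ A1 := (sum_nonneg fun _ _ => norm_nonneg _).trans hA1
  -- the part G2
  have hS2 : |∑ t ∈ range Y, G2 t * lpv X (b0 + M * t)| ≤ 10 * lv / D := by
    have h1 : |∑ t ∈ range Y, G2 t * lpv X (b0 + M * t)|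
        ≤ ∑ t ∈ range Y, lv / D * lpv X (b0 + M * t) := by
      refine (abs_sum_le_sum_abs _ _).trans (sum_le_sum fun t _ => ?_)
      rw [abs_mul, abs_of_nonneg (lpv_nonneg X _)]
      exact mul_le_mul_of_nonneg_right (hG2 t) (lpv_nonneg X _)
    rw [← mul_sum] at h1
    refine h1.trans ?_
    calc lv / D * ∑ t ∈ range Y, lpv X (b0 + M * t) ≤ lv / D * 10 :=
          mul_le_mul_of_nonneg_left ((e5_sum_lpv_le X M b0 Y hX hM).trans hm2) hlvD
      _ = 10 * lv / D := by ring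
  -- units
  set U : Finset ℕ := (range Q).filter (fun t => (b0 + M * t).Coprime Q) with hU
  have hUcard : U.card = Q.totient := card_units Q M b0 hQ hQM
  have hφQ : (0 : ℝ) < (Q.totient : ℝ) := by exact_mod_cast Nat.totient_pos.2 hQ
  have hφM : (0 : ℝ) < (M.totient : ℝ) := by exact_mod_cast Nat.totient_pos.2 hM
  have hEU : ∑ t ∈ U, G t = Q.totient * EU P M b0 G := by
    unfold EU
    rw [mul_div_cancel₀ _ hφQ.ne']
  have hUG2 : ∑ t ∈ U, |G2 t| ≤ Q.totient * (lv / D) := by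
    calc ∑ t ∈ U, |G2 t| ≤ ∑ _t ∈ U, lv / D := sum_le_sum fun t _ => hG2 t
      _ = Q.totient * (lv / D) := by rw [sum_const, hUcard, nsmul_eq_mul]
  have hG1eq : ∀ t, G1 t = G t - G2 t := fun t => by
    have : G t = G1 t + G2 t := hsplit t
    linarith
  have hEUn : 0 ≤ EU P M b0 G := by
    have h1 : 0 ≤ ∑ t ∈ U, G t := sum_nonneg fun t _ => hG0 t
    rw [hEU] at h1
    exact nonneg_of_mul_nonneg_right h1 hφQ
  set E := EU P M b0 G with hE
  have hUG1abs : ∑ t ∈ U, |G1 t| ≤ Q.totient * (E + lv / D) := by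
    calc ∑ t ∈ U, |G1 t| ≤ ∑ t ∈ U, (G t + |G2 t|) := by
          refine sum_le_sum fun t _ => ?_
          rw [hG1eq]
          exact (abs_sub _ _).trans (by rw [abs_of_nonneg (hG0 t)])
      _ = ∑ t ∈ U, G t + ∑ t ∈ U, |G2 t| := sum_add_distrib
      _ ≤ Q.totient * E + Q.totient * (lv / D) := by rw [hEU]; linarith
      _ = Q.totient * (E + lv / D) := by ring
  have hUG1 : Q.totient * E * (1 / 2) - Q.totient * (lv / D) * 10 ≤ (∑ t ∈ U, G1 t) * θ := by
    have h1 : ∑ t ∈ U, G1 t = Q.totient * E - ∑ t ∈ U, G2 t := by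
      rw [← hEU, ← sum_sub_distrib]
      exact sum_congr rfl fun t _ => hG1eq t
    have h2 : ∑ t ∈ U, G2 t ≤ Q.totient * (lv / D) :=
      (le_abs_self _).trans ((abs_sum_le_sum_abs _ _).trans hUG2)
    rw [h1]
    have h3 : 0 ≤ (Q.totient : ℝ) * E := mul_nonneg hφQ.le hEUn
    have h4 : (0 : ℝ) ≤ Q.totient * (lv / D) := mul_nonneg hφQ.le hlvD
    have h5 : (∑ t ∈ U, G2 t) * θ ≤ Q.totient * (lv / D) * 10 := by
      have h6 : 0 ≤ θ := by linarith
      calc (∑ t ∈ U, G2 t) * θ ≤ Q.totient * (lv / D) * θ := mul_le_mul_of_nonneg_right h2 h6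
        _ ≤ Q.totient * (lv / D) * 10 := mul_le_mul_of_nonneg_left hm2 h4
    have h7 : Q.totient * E * (1 / 2) ≤ Q.totient * E * θ := mul_le_mul_of_nonneg_left hm1 h3
    rw [sub_mul]
    linarith
  -- expansion
  have hexp := expand Q M b0 hQM hb G1 hper1 X Y hX hY hbX' hcop
  set T : DirichletCharacter ℂ (Q * M) → ℂ := fun χ => thP X (fun m => χ (m : ZMod (Q * M))) with hT
  set S1 : ℝ := ∑ t ∈ range Y, G1 t * lpv X (b0 + M * t) with hS1
  have hφ : ((Q * M).totient : ℂ) = (Q.totient : ℂ) * (M.totient : ℂ) := by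
    rw [Nat.totient_mul hQM]; push_cast; ring
  have hone : cf Q M b0 G1 1 * T 1 = (((∑ t ∈ U, G1 t) * θ : ℝ) : ℂ) := by
    have h1 : cf Q M b0 G1 1 = ((∑ t ∈ U, G1 t : ℝ) : ℂ) := by
      unfold cf
      push_cast
      refine sum_congr rfl fun t ht => ?_
      have hc : (b0 + M * t).Coprime (Q * M) := by
        refine Nat.Coprime.mul_right (mem_filter.1 ht).2 ?_
        have : (b0 + M * t).Coprime M ↔ b0.Coprime M := Nat.coprime_add_mul_left_left b0 M t
        exact this.2 hb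
      have h2 : (1 : DirichletCharacter ℂ (Q * M))⁻¹ ((b0 + M * t : ℕ) : ZMod (Q * M)) = 1 := by
        rw [inv_one]
        exact MulChar.one_apply ((ZMod.isUnit_iff_coprime _ _).2 hc)
      push_cast at h2
      rw [h2, mul_one]
    have h2 : T 1 = ((θ : ℝ) : ℂ) := by
      show thP X (fun m => (1 : DirichletCharacter ℂ (Q * M)) (m : ZMod (Q * M))) = _
      rw [thP_eq, hθ]
      push_cast
      refine sum_congr rfl fun m _ => ?_
      by_cases h : lpv X m = 0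
      · rw [h]; simp
      · have h3 : (1 : DirichletCharacter ℂ (Q * M)) (m : ZMod (Q * M)) = 1 :=
          MulChar.one_apply ((ZMod.isUnit_iff_coprime _ _).2 (hcop m h))
        rw [h3, mul_one]
    rw [h1, h2]
    push_cast
    ring
  -- the nontrivial characters
  set B1 : ℝ := Q.totient * (E + lv / D) with hB1
  set s : ℝ := Real.sqrt (C2 * (K / W)) with hs
  set B0 : ℝ := 7 * (Q : ℝ) * s + Q.totient * (lv / D) with hB0
  have hB1n : 0 ≤ B1 := mul_nonneg hφQ.le (add_nonneg hEUn hlvD)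
  have hsn : 0 ≤ s := Real.sqrt_nonneg _
  have hB0n : 0 ≤ B0 := by
    have h4 : (0 : ℝ) ≤ Q.totient * (lv / D) := mul_nonneg hφQ.le hlvD
    have h5 : 0 ≤ 7 * (Q : ℝ) * s := by positivity
    linarith
  have hsq : Real.sqrt (EX (qq P K) (fun S => F S ^ 2) * (K / W)) ≤ s :=
    Real.sqrt_le_sqrt (mul_le_mul_of_nonneg_right hC2 (by positivity))
  have hc1 : ∀ χ, ‖cf Q M b0 G1 χ‖ ≤ B1 := fun χ => (norm_cf_le Q M b0 G1 χ).trans hUG1abs
  have hc0 : ∀ χ : DirichletCharacter ℂ (Q * M), ¬ χ.conductor ∣ M → ‖cf Q M b0 G1 χ‖ ≤ B0 := by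
    intro χ hχ
    have h1 := cf_fiber P W K M b hF F h0 j0 hb χ hχ
    have h2 : cf Q M b0 G χ = cf Q M b0 G1 χ + cf Q M b0 G2 χ := by
      rw [← cf_add]
      congr 1
      funext t
      exact hsplit t
    have h3 : cf Q M b0 G1 χ = cf Q M b0 G χ - cf Q M b0 G2 χ := by rw [h2]; ring
    rw [h3]
    refine (norm_sub_le _ _).trans ?_
    have h4 : ‖cf Q M b0 G χ‖ ≤ 7 * (Q : ℝ) * s :=
      h1.trans (mul_le_mul_of_nonneg_left hsq (by positivity))
    have h5 : ‖cf Q M b0 G2 χ‖ ≤ Q.totient * (lv / D) := (norm_cf_le Q M b0 G2 χ).trans hUG2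
    linarith
  have hsum0 := sum_chars_le (Q * M) X Q' hcop
  have hsum1 := sum_chars_dvd_le (Q * M) X M hM hcop
  rw [sum_filter] at hsum0 hsum1
  have hrest : ‖∑ χ ∈ (univ : Finset (DirichletCharacter ℂ (Q * M))).erase 1,
      cf Q M b0 G1 χ * T χ‖ ≤ B1 * A1 + B0 * A0 := by
    refine (norm_sum_le _ _).trans ?_
    have h2 : ∑ χ ∈ (univ : Finset (DirichletCharacter ℂ (Q * M))).erase 1,
        ‖cf Q M b0 G1 χ * T χ‖ ≤ ∑ χ : DirichletCharacter ℂ (Q * M),
        (B1 * (if χ ≠ 1 ∧ χ.conductor ∣ M then ‖T χ‖ else 0) +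
          B0 * (if χ ≠ 1 ∧ χ.conductor ≤ Q' then ‖T χ‖ else 0)) := by
      refine (sum_le_sum (fun χ hχ => ?_)).trans (sum_le_sum_of_subset_of_nonneg
        (erase_subset _ _) (fun χ _ _ => ?_))
      · have hχ1 : χ ≠ 1 := (mem_erase.1 hχ).1
        rw [norm_mul]
        by_cases hd : χ.conductor ∣ M
        · rw [if_pos ⟨hχ1, hd⟩]
          have h3 : 0 ≤ B0 * (if χ ≠ 1 ∧ χ.conductor ≤ Q' then ‖T χ‖ else 0) :=
            mul_nonneg hB0n (by split_ifs <;> simp)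
          have h4 := mul_le_mul_of_nonneg_right (hc1 χ) (norm_nonneg (T χ))
          linarith
        · rw [if_neg (fun h => hd h.2), mul_zero, zero_add]
          by_cases hz : cf Q M b0 G1 χ = 0
          · rw [hz, norm_zero, zero_mul]
            exact mul_nonneg hB0n (by split_ifs <;> simp)
          · have h5 := hcond M b0 hQM hb χ hz
            rw [if_pos ⟨hχ1, h5.trans hDM⟩]
            exact mul_le_mul_of_nonneg_right (hc0 χ hd) (norm_nonneg _)
      · exact add_nonneg (mul_nonneg hB1n (by split_ifs <;> simp))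
          (mul_nonneg hB0n (by split_ifs <;> simp))
    refine h2.trans ?_
    rw [sum_add_distrib, ← mul_sum, ← mul_sum]
    have h6 : ∑ χ : DirichletCharacter ℂ (Q * M),
        (if χ ≠ 1 ∧ χ.conductor ∣ M then ‖T χ‖ else 0) ≤ A1 := by
      refine le_trans (le_of_eq ?_) (hsum1.trans hA1)
      refine sum_congr rfl fun χ _ => ?_
      congr
    have h7 : ∑ χ : DirichletCharacter ℂ (Q * M),
        (if χ ≠ 1 ∧ χ.conductor ≤ Q' then ‖T χ‖ else 0) ≤ A0 := by
      refine le_trans (le_of_eq ?_) (hsum0.trans hA0)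
      refine sum_congr rfl fun χ _ => ?_
      congr
    exact add_le_add (mul_le_mul_of_nonneg_left h6 hB1n) (mul_le_mul_of_nonneg_left h7 hB0n)
  -- assembly
  have hS1ge : (1 / ((Q.totient : ℝ) * M.totient)) *
      (Q.totient * E * (1 / 2) - Q.totient * (lv / D) * 10 - (B1 * A1 + B0 * A0)) ≤ S1 := by
    have h1 : (S1 : ℂ) = (1 / ((Q.totient : ℂ) * (M.totient : ℂ))) *
        ((((∑ t ∈ U, G1 t) * θ : ℝ) : ℂ) +
          ∑ χ ∈ (univ : Finset (DirichletCharacter ℂ (Q * M))).erase 1,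
            cf Q M b0 G1 χ * T χ) := by
      rw [hexp, hφ, ← hone, add_sum_erase univ (fun χ => cf Q M b0 G1 χ * T χ) (mem_univ _)]
    set R := ∑ χ ∈ (univ : Finset (DirichletCharacter ℂ (Q * M))).erase 1,
            cf Q M b0 G1 χ * T χ with hR
    have h2 : S1 = (1 / ((Q.totient : ℝ) * M.totient)) * ((∑ t ∈ U, G1 t) * θ + R.re) := by
      have h3 := congrArg Complex.re h1
      have h4 : (1 / ((Q.totient : ℂ) * (M.totient : ℂ)))
          = ((1 / ((Q.totient : ℝ) * M.totient) : ℝ) : ℂ) := by push_cast; ring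
      rw [h4, Complex.re_ofReal_mul, Complex.add_re, Complex.ofReal_re, Complex.ofReal_re] at h3
      exact h3
    rw [h2]
    refine mul_le_mul_of_nonneg_left ?_ (by positivity)
    have h5 : -(B1 * A1 + B0 * A0) ≤ R.re := by
      have h6 := Complex.abs_re_le_norm R
      have h7 := (abs_le.1 (h6.trans hrest)).1
      exact h7
    linarith
  have hSS : ∑ t ∈ range Y, F (fun j => hit P (b j + M * t)) * lpv X (b0 + M * t)
      = S1 + ∑ t ∈ range Y, G2 t * lpv X (b0 + M * t) := by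
    rw [hS1, ← sum_add_distrib]
    refine sum_congr rfl fun t _ => ?_
    have : G t = G1 t + G2 t := hsplit t
    rw [← add_mul, ← this]
  rw [hSS]
  have h8 := (abs_le.1 hS2).1
  have h9 : (1 / (M.totient : ℝ)) * ((1 / 2 - A1) * E - lv / D * (10 + A0 + A1) -
        7 * s * ((Q : ℝ) / (Q.totient : ℝ)) * A0)
      = (1 / ((Q.totient : ℝ) * M.totient)) *
      (Q.totient * E * (1 / 2) - Q.totient * (lv / D) * 10 - (B1 * A1 + B0 * A0)) := by
    rw [hB1, hB0]
    field_simp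
    ring
  linarith

end Pool.Agent.Lib.H92G
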