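import Pool.Agent.Lib.H92G.Defs
import Pool.Agent.Lib.H15P.TR3
import Pool.Agent.Lib.H15P.NT1

/-!
# Chunk E6: the mean value `EU`, and `Q/φ(Q)`
-/

open Finset

namespace Pool.Agent.Lib.H92G

open Pool.Agent.Lib.H15P

variable {J : Type} [Fintype J] [DecidableEq J]

theorem e6_totient (P : Finset ℕ) (hp : ∀ p ∈ P, p.Prime) :
    ((∏ p ∈ P, p).totient : ℝ) = ∏ p ∈ P, ((p : ℝ) - 1) := by
  induction P using Finset.induction_on with
  | empty => simp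
  | insert a s ha ih =>
    have hap := hp a (mem_insert_self a s)
    have hcop : Nat.Coprime a (∏ p ∈ s, p) := by
      rw [Nat.coprime_prod_right_iff]
      intro q hq
      rw [Nat.coprime_primes hap (hp q (mem_insert_of_mem hq))]
      rintro rfl
      exact ha hq
    rw [prod_insert ha, prod_insert ha, Nat.totient_mul hcop, Nat.totient_prime hap,
      Nat.cast_mul, ih (fun q hq => hp q (mem_insert_of_mem hq)), Nat.cast_sub hap.one_le,
      Nat.cast_one]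

theorem e6_ratio (P : Finset ℕ) (hp : ∀ p ∈ P, p.Prime) :
    ((∏ p ∈ P, p : ℕ) : ℝ) / ((∏ p ∈ P, p).totient : ℝ) = ∏ p ∈ P, (1 - 1 / (p : ℝ))⁻¹ := by
  rw [e6_totient P hp, Nat.cast_prod, ← prod_div_distrib]
  refine prod_congr rfl fun p hpP => ?_
  have h2 : (2 : ℝ) ≤ p := by exact_mod_cast (hp p hpP).two_le
  have h3 : (p : ℝ) - 1 ≠ 0 := by linarith
  have h4 : (p : ℝ) ≠ 0 := by linarith
  field_simp

theorem e6_hit (P : Finset ℕ) (hp : ∀ p ∈ P, p.Prime) (e : ℕ) :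
    hit P e = ∅ ↔ e.Coprime (∏ p ∈ P, p) := by
  rw [Nat.coprime_prod_right_iff]
  unfold hit
  rw [filter_eq_empty_iff]
  constructor
  · intro h p hpP
    rw [Nat.coprime_comm, Nat.Prime.coprime_iff_not_dvd (hp p hpP)]
    exact h (mem_univ ⟨p, hpP⟩)
  · intro h p _
    have := h p.1 p.2
    rwa [Nat.coprime_comm, Nat.Prime.coprime_iff_not_dvd (hp p.1 p.2)] at this

/-- `b j0 + M t` is prime to `∏ P` iff `hit P (b j0 + M t) = ∅` (the elements of `P` are primes), so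
`EU = (Q/φ(Q)) EP (F 1[S j0 = ∅])`; then `le_EP` for the nonnegative function
`F 1[S j0 = ∅] ≤ F`. -/
theorem EU_ge (P : Finset ℕ) (W K M : ℕ) (b : J → ℕ) (hF : Forms P W K M b)
    (F : (J → Finset {p // p ∈ P}) → ℝ) (h0 : ∀ S, 0 ≤ F S) (j0 : J) :
    (((∏ p ∈ P, p : ℕ) : ℝ) / ((∏ p ∈ P, p).totient : ℝ)) *
      ((1 - (K : ℝ) ^ 2 / W) * EX (qq P K) (fun S => F S * (if S j0 = ∅ then 1 else 0)) -
        40 * ((K : ℝ) / Real.sqrt W) * Real.sqrt (EX (qq P K) (fun S => F S ^ 2)))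
      ≤ EU P M (b j0) (fun t => F (fun j => hit P (b j + M * t))) := by
  have hq0 := qq_nonneg P K
  have hq1 := tr2_qq_le_one P W K hF.one_le hF.KW hF.big
  have hG0 : ∀ S, 0 ≤ F S * (if S j0 = ∅ then 1 else 0) := fun S =>
    mul_nonneg (h0 S) (by split_ifs <;> norm_num)
  have h1 := le_EP P W K M b hF (fun S => F S * (if S j0 = ∅ then 1 else 0)) hG0
  have h2 : EX (qq P K) (fun S => (F S * (if S j0 = ∅ then 1 else 0)) ^ 2)
      ≤ EX (qq P K) (fun S => F S ^ 2) := by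
    refine EX_mono _ hq0 hq1 _ _ fun S => ?_
    split_ifs
    · rw [mul_one]
    · rw [mul_zero]
      simp only [ne_eq, OfNat.ofNat_ne_zero, not_false_eq_true, zero_pow]
      positivity
  have h3 := Real.sqrt_le_sqrt h2
  have h4 : (0 : ℝ) ≤ 40 * ((K : ℝ) / Real.sqrt W) := by positivity
  have h5 := mul_le_mul_of_nonneg_left h3 h4
  have hQ : 0 < ∏ p ∈ P, p := prod_pos fun p hp => (hF.prime p hp).pos
  have hQr : (0 : ℝ) < ((∏ p ∈ P, p : ℕ) : ℝ) := by exact_mod_cast hQ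
  have hφ : (0 : ℝ) < ((∏ p ∈ P, p).totient : ℝ) := by exact_mod_cast Nat.totient_pos.2 hQ
  have h6 : (((∏ p ∈ P, p : ℕ) : ℝ) / ((∏ p ∈ P, p).totient : ℝ)) *
      EP P M b (fun S => F S * (if S j0 = ∅ then 1 else 0))
      = EU P M (b j0) (fun t => F (fun j => hit P (b j + M * t))) := by
    unfold EP EU
    rw [div_mul_div_comm, mul_comm ((∏ p ∈ P, p).totient : ℝ), mul_div_mul_left _ _ hQr.ne',
      sum_filter]
    congr 1
    refine sum_congr rfl fun t _ => ?_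
    have : hit P (b j0 + M * t) = ∅ ↔ (b j0 + M * t).Coprime (∏ p ∈ P, p) :=
      e6_hit P hF.prime _
    show F _ * (if hit P (b j0 + M * t) = ∅ then 1 else 0) = _
    by_cases h : hit P (b j0 + M * t) = ∅
    · rw [if_pos h, if_pos (this.1 h), mul_one]
    · rw [if_neg h, if_neg (fun h' => h (this.2 h')), mul_zero]
  rw [← h6]
  refine mul_le_mul_of_nonneg_left ?_ (div_pos hQr hφ).le
  linarith

theorem EU_nonneg (P : Finset ℕ) (M b : ℕ) (G : ℕ → ℝ) (h0 : ∀ t, 0 ≤ G t) :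
    0 ≤ EU P M b G :=
  div_nonneg (sum_nonneg fun t _ => h0 t) (Nat.cast_nonneg _)

/-- `φ(Q)/Q = ∏ (1 - 1/p)`, `1 - qq p = (1 - 1/p)/(1 + 2K/p^2)`, and
`∏ 1/(1 + 2K/p^2) ≥ 1 - ∑ 2K/p^2 ≥ 1 - 2K/W` (`sum_inv_sq_le`). -/
theorem p_empty_ge (P : Finset ℕ) (W K : ℕ) (hp : ∀ p ∈ P, p.Prime) (hK : 1 ≤ K)
    (hKW : 4 * K ^ 2 ≤ W) (hb : ∀ p ∈ P, W < p) :
    1 - 2 * (K : ℝ) / W ≤ (((∏ p ∈ P, p : ℕ) : ℝ) / ((∏ p ∈ P, p).totient : ℝ)) *
      ∏ i, (1 - qq P K i) := by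
  have hW1 : 1 ≤ W := by nlinarith
  have hK1 : (1 : ℝ) ≤ K := by exact_mod_cast hK
  have hpK : ∀ p ∈ P, 4 * (K : ℝ) ≤ p := by
    intro p hpP
    have := hb p hpP
    have h2 : 4 * K ≤ p := by nlinarith
    exact_mod_cast h2
  have e1 : ∏ i, (1 - qq P K i)
      = ∏ p ∈ P, ((1 - 1 / (p : ℝ)) / (1 + 2 * K / (p : ℝ) ^ 2)) := by
    rw [← prod_coe_sort P (fun p : ℕ => ((1 - 1 / (p : ℝ)) / (1 + 2 * K / (p : ℝ) ^ 2)))]
    refine prod_congr rfl fun i _ => ?_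
    have hx : (0 : ℝ) < (i.1 : ℝ) := by have := hpK i.1 i.2; linarith
    have hN : (0 : ℝ) < 1 + 2 * K / (i.1 : ℝ) ^ 2 := by positivity
    unfold qq
    rw [eq_div_iff hN.ne', sub_mul, div_mul_cancel₀ _ hN.ne']
    ring
  rw [e1, e6_ratio P hp, ← prod_mul_distrib]
  have e2 : ∀ p ∈ P, (1 - 1 / (p : ℝ))⁻¹ * ((1 - 1 / (p : ℝ)) / (1 + 2 * K / (p : ℝ) ^ 2))
      = 1 / (1 + 2 * K / (p : ℝ) ^ 2) := by
    intro p hpP
    have h2 : (2 : ℝ) ≤ p := by exact_mod_cast (hp p hpP).two_le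
    have h3 : (1 - 1 / (p : ℝ)) ≠ 0 := by
      have : 1 / (p : ℝ) ≤ 1 / 2 := one_div_le_one_div_of_le (by norm_num) h2
      linarith
    rw [← mul_div_assoc, inv_mul_cancel₀ h3]
  rw [prod_congr rfl e2]
  have h1 := tr3_prod_one_sub P (fun p => 2 * (K : ℝ) / (p : ℝ) ^ 2) (fun p _ => by positivity)
    (fun p hpP => by
      have h4 := hpK p hpP
      have hx : (0 : ℝ) < (p : ℝ) := by linarith
      rw [div_le_one (by positivity)]
      nlinarith)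
  have h2 : ∏ p ∈ P, (1 - 2 * (K : ℝ) / (p : ℝ) ^ 2) ≤ ∏ p ∈ P, (1 / (1 + 2 * K / (p : ℝ) ^ 2)) := by
    refine prod_le_prod (fun p hpP => ?_) (fun p hpP => ?_)
    · have h4 := hpK p hpP
      have hx : (0 : ℝ) < (p : ℝ) := by linarith
      rw [sub_nonneg, div_le_one (by positivity)]
      nlinarith
    · have h4 := hpK p hpP
      have hx : (0 : ℝ) < (p : ℝ) := by linarith
      set y := 2 * (K : ℝ) / (p : ℝ) ^ 2 with hy
      have hy0 : 0 ≤ y := by positivity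
      rw [le_div_iff₀ (by linarith)]
      nlinarith
  have h3 : ∑ p ∈ P, 2 * (K : ℝ) / (p : ℝ) ^ 2 ≤ 2 * (K : ℝ) / (W : ℝ) := by
    have h4 := sum_inv_sq_le P W hW1 hb
    calc ∑ p ∈ P, 2 * (K : ℝ) / (p : ℝ) ^ 2 = 2 * (K : ℝ) * ∑ p ∈ P, 1 / (p : ℝ) ^ 2 := by
          rw [mul_sum]; exact sum_congr rfl fun p _ => by ring
      _ ≤ 2 * (K : ℝ) * (1 / (W : ℝ)) := mul_le_mul_of_nonneg_left h4 (by positivity)
      _ = 2 * K / W := by ring
  linarith [h1.1]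

/-- `Q/φ(Q) = ∏_{W < p ≤ e^T} (1 - 1/p)^{-1} ≤ C T` (Mertens upper bound for the inverse product,
`Helper57.prod_one_sub_inv_inv_le`; for `e^T < 2` the product is empty; `T ≥ 1`). -/
theorem Q_div_totient_le : ∃ C : ℝ, 0 < C ∧ ∀ (W : ℕ) (T : ℝ), 1 ≤ T →
    ((∏ p ∈ PP W T, p : ℕ) : ℝ) / ((∏ p ∈ PP W T, p).totient : ℝ) ≤ C * T := by
  refine ⟨500, by norm_num, fun W T hT => ?_⟩
  have hp : ∀ p ∈ PP W T, p.Prime := fun p h => (mem_filter.1 h).2
  rw [e6_ratio _ hp]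
  set n := ⌊Real.exp T⌋₊ with hn
  have hn2 : 2 ≤ n := by
    rw [hn]
    apply Nat.le_floor
    have h1 := Real.add_one_le_exp T
    push_cast
    linarith
  have hsub : PP W T ⊆ Sieve.primesUpTo n := by
    intro p h
    rw [Sieve.mem_primesUpTo]
    have := mem_filter.1 h
    exact ⟨this.2, (mem_Ioc.1 this.1).2⟩
  have h1 : ∏ p ∈ PP W T, (1 - 1 / (p : ℝ))⁻¹ ≤ ∏ p ∈ Sieve.primesUpTo n, (1 - 1 / (p : ℝ))⁻¹ := by
    refine prod_le_prod_of_subset_of_one_le hsub (fun p h => ?_) (fun p h _ => ?_)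
    · exact inv_nonneg.2 (NT1_pos p (hp p h)).le
    · have hpr := (Sieve.mem_primesUpTo.1 h).1
      have h3 : (0 : ℝ) < p := by exact_mod_cast hpr.pos
      rw [one_le_inv₀ (NT1_pos p hpr)]
      have : 0 ≤ 1 / (p : ℝ) := by positivity
      linarith
  have h2 := Helper57.prod_one_sub_inv_inv_le n hn2
  have h3 : Real.log n ≤ T := by
    have : (n : ℝ) ≤ Real.exp T := Nat.floor_le (Real.exp_pos T).le
    calc Real.log n ≤ Real.log (Real.exp T) := Real.log_le_log (by positivity) this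
      _ = T := Real.log_exp T
  refine h1.trans (h2.trans ?_)
  linarith

end Pool.Agent.Lib.H92G
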