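import Pool.Agent.Lib.H92G.Defs
import Pool.Agent.Lib.H15P.PB1

/-!
# Chunk G1: second moments

Compare `H15P/PB2` (`ex_dd_dd`, `EX_sq_mul`).
-/

open Finset

namespace Pool.Agent.Lib.H92G

open Pool.Agent.Lib.H15P

variable {ι J I : Type} [Fintype ι] [DecidableEq ι] [Fintype J] [DecidableEq J] [Fintype I]
  [DecidableEq I]

omit [Fintype J] [DecidableEq J] [Fintype I] in
/-- Mean `0`, orthogonality. -/
theorem ex_dg_dg (q : ι → ℝ) (D : J → I → Finset ι → ℝ) (h : ℝ) (hg : GoodJ q D h) (j : J)
    (o o' : Option I) :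
    ex q (fun A => dg D j o A * dg D j o' A) = if o = o' then GJ q D j o else 0 := by
  rcases o with _ | i <;> rcases o' with _ | i'
  · simp only [dg, mul_one, if_true, GJ]
    exact ex_one q
  · simp only [dg, one_mul, reduceCtorEq, if_false]
    exact hg.mean j i'
  · simp only [dg, mul_one, reduceCtorEq, if_false]
    exact hg.mean j i
  · simp only [dg, Option.some.injEq, GJ]
    by_cases hii : i = i'
    · subst hii
      rw [if_pos rfl]
      congr 1
      funext A
      ring
    · rw [if_neg hii]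
      exact hg.orth j i i' hii

omit [Fintype J] [DecidableEq J] [Fintype I] [DecidableEq I] in
theorem GJ_nonneg (q : ι → ℝ) (D : J → I → Finset ι → ℝ) (h : ℝ) (hg : GoodJ q D h) (j : J)
    (o : Option I) : 0 ≤ GJ q D j o := by
  rcases o with _ | i
  · exact zero_le_one
  · exact ex_nonneg q hg.q0 hg.q1 _ fun A => sq_nonneg _

omit [DecidableEq I] in
theorem one_le_ZG (q : ι → ℝ) (D : J → I → Finset ι → ℝ) (h : ℝ) (hg : GoodJ q D h)
    (B : Finset J) : 1 ≤ ZG q D B := by
  unfold ZG
  have h1 : ∀ j ∈ B, (1 : ℝ) ≤ 1 + ∑ i, GJ q D j (some i) := by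
    intro j _
    have : 0 ≤ ∑ i, GJ q D j (some i) := Finset.sum_nonneg fun i _ => GJ_nonneg q D h hg j _
    linarith
  calc (1 : ℝ) = ∏ _j ∈ B, 1 := Finset.prod_const_one.symm
    _ ≤ ∏ j ∈ B, (1 + ∑ i, GJ q D j (some i)) :=
        Finset.prod_le_prod (fun _ _ => zero_le_one) h1

omit [DecidableEq I] in
theorem ZG_mono (q : ι → ℝ) (D : J → I → Finset ι → ℝ) (h : ℝ) (hg : GoodJ q D h)
    {B B' : Finset J} (hB : B ⊆ B') : ZG q D B ≤ ZG q D B' := by
  unfold ZG
  have h1 : ∀ j, (1 : ℝ) ≤ 1 + ∑ i, GJ q D j (some i) := by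
    intro j
    have : 0 ≤ ∑ i, GJ q D j (some i) := Finset.sum_nonneg fun i _ => GJ_nonneg q D h hg j _
    linarith
  apply Finset.prod_le_prod_of_subset_of_one_le hB
  · intro j _
    exact zero_le_one.trans (h1 j)
  · intro j _ _
    exact h1 j

/-- Square out, exchange, `EX_prod`; for `l ≠ l'` some factor `ex_dg_dg` is `0` (at the forms of
`Z` both labels are `none`, the factor is `ex F`). -/
theorem EX_LW_sq_mul (q : ι → ℝ) (D : J → I → Finset ι → ℝ) (h : ℝ) (hg : GoodJ q D h)
    (s : Finset (J → Option I)) (w : (J → Option I) → ℝ) (Z : Finset J)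
    (hZ : ∀ l ∈ s, ∀ j ∈ Z, l j = none) (F : Finset ι → ℝ) :
    EX q (fun S : J → Finset ι => LW D s w S ^ 2 * ∏ j ∈ Z, F (S j))
      = (∑ l ∈ s, w l ^ 2 * ∏ j, GJ q D j (l j)) * ex q F ^ Z.card := by
  have h1 : ∀ S : J → Finset ι,
      LW D s w S ^ 2 * ∏ j ∈ Z, F (S j) =
      ∑ l ∈ s, ∑ l' ∈ s, w l * w l' * ∏ j,
        (dg D j (l j) (S j) * dg D j (l' j) (S j) * if j ∈ Z then F (S j) else 1) := by
    intro S
    unfold LW
    rw [sq, sum_mul_sum, sum_mul]
    refine sum_congr rfl fun l _ => ?_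
    rw [sum_mul]
    refine sum_congr rfl fun l' _ => ?_
    rw [prod_mul_distrib, prod_mul_distrib]
    have e : ∏ j, (if j ∈ Z then F (S j) else 1) = ∏ j ∈ Z, F (S j) := by
      rw [Finset.prod_ite_mem, Finset.univ_inter]
    rw [e]
    ring
  simp only [h1]
  rw [EX_sum, sum_mul]
  refine sum_congr rfl fun l hl => ?_
  rw [EX_sum]
  have h3 : ∀ l' ∈ s, EX q (fun S : J → Finset ι => w l * w l' * ∏ j,
      (dg D j (l j) (S j) * dg D j (l' j) (S j) * if j ∈ Z then F (S j) else 1)) =
      if l' = l then w l ^ 2 * (∏ j, GJ q D j (l j)) * ex q F ^ Z.card else 0 := by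
    intro l' hl'
    rw [EX_const_mul, EX_prod q (fun j A => dg D j (l j) A * dg D j (l' j) A *
      if j ∈ Z then F A else 1)]
    by_cases hll : l' = l
    · subst hll
      rw [if_pos rfl]
      have e2 : ∏ j, ex q (fun A => dg D j (l' j) A * dg D j (l' j) A *
          if j ∈ Z then F A else 1) =
          ∏ j, (GJ q D j (l' j) * if j ∈ Z then ex q F else 1) := by
        refine prod_congr rfl fun j _ => ?_
        by_cases hj : j ∈ Z
        · rw [if_pos hj, hZ l' hl' j hj]
          have e3 : (fun A => dg D j none A * dg D j none A * if j ∈ Z then F A else 1) = F := by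
            funext A
            rw [if_pos hj]
            simp [dg]
          rw [e3]
          simp [GJ]
        · rw [if_neg hj, mul_one]
          have e3 : (fun A => dg D j (l' j) A * dg D j (l' j) A * if j ∈ Z then F A else 1) =
              fun A => dg D j (l' j) A * dg D j (l' j) A := by
            funext A
            rw [if_neg hj, mul_one]
          rw [e3, ex_dg_dg q D h hg, if_pos rfl]
      rw [e2, prod_mul_distrib, Finset.prod_ite_mem, Finset.univ_inter, Finset.prod_const]
      ring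
    · rw [if_neg hll]
      obtain ⟨j, hj⟩ := Function.ne_iff.1 hll
      have hjZ : j ∉ Z := by
        intro hjZ
        exact hj (by rw [hZ l hl j hjZ, hZ l' hl' j hjZ])
      have e1 : ex q (fun A => dg D j (l j) A * dg D j (l' j) A * if j ∈ Z then F A else 1) =
          0 := by
        have e3 : (fun A => dg D j (l j) A * dg D j (l' j) A * if j ∈ Z then F A else 1) =
            fun A => dg D j (l j) A * dg D j (l' j) A := by
          funext A
          rw [if_neg hjZ, mul_one]
        rw [e3, ex_dg_dg q D h hg, if_neg (fun hh => hj hh.symm)]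
      rw [prod_eq_zero (mem_univ j) e1, mul_zero]
  rw [sum_congr rfl h3, sum_ite_eq' s l, if_pos hl]

/-- `Z = ∅`. -/
theorem EX_LW_sq (q : ι → ℝ) (D : J → I → Finset ι → ℝ) (h : ℝ) (hg : GoodJ q D h)
    (s : Finset (J → Option I)) (w : (J → Option I) → ℝ) :
    EX q (fun S : J → Finset ι => LW D s w S ^ 2) =
      ∑ l ∈ s, w l ^ 2 * ∏ j, GJ q D j (l j) := by
  have h1 := EX_LW_sq_mul q D h hg s w ∅ (fun l _ j hj => absurd hj (Finset.notMem_empty j))
    (fun _ => 0)
  simp only [Finset.prod_empty, mul_one, Finset.card_empty, pow_zero] at h1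
  exact h1

end Pool.Agent.Lib.H92G
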