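import Pool.Agent.Lib.H92G.Defs
import Pool.Agent.Lib.H15P.PB3

/-!
# Chunk G0: sums over labelings with form dependent factors, tails

Compare `H15P/PB3` (`sum_supp`, `tail_supp`: the same with factors independent of the form).
-/

open Finset

namespace Pool.Agent.Lib.H92G

open Pool.Agent.Lib.H15P

variable {J I : Type} [Fintype J] [DecidableEq J] [Fintype I] [DecidableEq I]

/-- `Finset.prod_univ_sum` with the sets `univ` (`j ∈ B`) and `{none}` (`j ∉ B`). -/
theorem sum_suppJ (a : J → Option I → ℝ) (h0 : ∀ j, a j none = 1) (B : Finset J) :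
    ∑ l ∈ univ.filter (fun l : J → Option I => ∀ j, j ∉ B → l j = none), ∏ j, a j (l j)
      = ∏ j ∈ B, (1 + ∑ i, a j (some i)) := by
  classical
  set t : J → Finset (Option I) := fun j => if j ∈ B then univ else {none} with ht
  have h1 : univ.filter (fun l : J → Option I => ∀ j, j ∉ B → l j = none) =
      Fintype.piFinset t := by
    ext l
    simp only [mem_filter, mem_univ, true_and, Fintype.mem_piFinset, ht]
    constructor
    · intro h j
      by_cases hj : j ∈ B
      · rw [if_pos hj]; exact mem_univ _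
      · rw [if_neg hj, mem_singleton]; exact h j hj
    · intro h j hj
      have := h j
      rw [if_neg hj, mem_singleton] at this
      exact this
  rw [h1, ← Finset.prod_univ_sum t (fun j o => a j o)]
  have h2 : ∀ j, ∑ o ∈ t j, a j o = if j ∈ B then (1 + ∑ i, a j (some i)) else 1 := by
    intro j
    by_cases hj : j ∈ B
    · simp only [ht, if_pos hj]
      rw [Fintype.sum_option, h0]
    · simp only [ht, if_neg hj, sum_singleton, h0]
  rw [Finset.prod_congr rfl (fun j _ => h2 j), Finset.prod_ite_mem, Finset.univ_inter]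

/-- Chernoff: `1[m0 ≤ cnt l i0] ≤ e^(cnt l i0 - m0)` and `e^(cnt l i0) = ∏_j (e if l j = some i0
else 1)` (`pb3_exp_cnt`), so by `sum_suppJ` the sum is at most
`e^(-m0) ∏_{j ∈ B} (1 + ∑_i a_j i + (e - 1) a_j i0)
 ≤ e^(-m0) ∏_{j ∈ B} (1 + ∑_i a_j i) e^(2 a_j i0)`. -/
theorem tail_suppJ (a : J → Option I → ℝ) (ha : ∀ j o, 0 ≤ a j o) (h0 : ∀ j, a j none = 1)
    (B : Finset J) (i0 : I) (m0 : ℕ) (R : ℝ)
    (hm : 2 * ∑ j ∈ B, a j (some i0) + R ≤ m0) :
    ∑ l ∈ univ.filter (fun l : J → Option I => (∀ j, j ∉ B → l j = none) ∧ m0 ≤ cnt l i0),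
        ∏ j, a j (l j)
      ≤ Real.exp (-R) * ∏ j ∈ B, (1 + ∑ i, a j (some i)) := by
  classical
  set e : ℝ := Real.exp 1 with he
  have he2 : e - 1 ≤ 2 := by
    have := Real.exp_one_lt_d9
    rw [he]; linarith
  have he1 : 1 ≤ e := by
    rw [he]; exact Real.one_le_exp (by norm_num)
  set a' : J → Option I → ℝ := fun j o => a j o * (if o = some i0 then e else 1) with ha'
  have hprod : ∀ l : J → Option I, ∏ j, a' j (l j) = (∏ j, a j (l j)) * e ^ cnt l i0 := by
    intro l
    simp only [ha']
    rw [Finset.prod_mul_distrib, pb3_exp_cnt]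
  have hP0 : ∀ l : J → Option I, 0 ≤ ∏ j, a j (l j) := fun l =>
    Finset.prod_nonneg (fun j _ => ha _ _)
  have hexp : ∀ n : ℕ, e ^ n = Real.exp n := by
    intro n
    rw [he, ← Real.exp_nat_mul, mul_one]
  have step1 : ∑ l ∈ univ.filter (fun l : J → Option I => (∀ j, j ∉ B → l j = none) ∧
        m0 ≤ cnt l i0), ∏ j, a j (l j)
      ≤ ∑ l ∈ univ.filter (fun l : J → Option I => ∀ j, j ∉ B → l j = none),
        Real.exp (-(m0 : ℝ)) * ∏ j, a' j (l j) := by
    calc ∑ l ∈ univ.filter (fun l : J → Option I => (∀ j, j ∉ B → l j = none) ∧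
          m0 ≤ cnt l i0), ∏ j, a j (l j)
        ≤ ∑ l ∈ univ.filter (fun l : J → Option I => (∀ j, j ∉ B → l j = none) ∧
          m0 ≤ cnt l i0), Real.exp (-(m0 : ℝ)) * ∏ j, a' j (l j) := by
          apply Finset.sum_le_sum
          intro l hl
          have hl2 := (Finset.mem_filter.1 hl).2.2
          rw [hprod, hexp]
          have h1 : 1 ≤ Real.exp (-(m0 : ℝ)) * Real.exp (cnt l i0) := by
            rw [← Real.exp_add]
            apply Real.one_le_exp
            have : (m0 : ℝ) ≤ cnt l i0 := by exact_mod_cast hl2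
            linarith
          calc ∏ j, a j (l j) = 1 * ∏ j, a j (l j) := by ring
            _ ≤ (Real.exp (-(m0 : ℝ)) * Real.exp (cnt l i0)) * ∏ j, a j (l j) :=
                mul_le_mul_of_nonneg_right h1 (hP0 l)
            _ = _ := by ring
      _ ≤ ∑ l ∈ univ.filter (fun l : J → Option I => ∀ j, j ∉ B → l j = none),
            Real.exp (-(m0 : ℝ)) * ∏ j, a' j (l j) := by
          apply Finset.sum_le_sum_of_subset_of_nonneg
          · intro l hl
            have := (Finset.mem_filter.1 hl).2.1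
            exact Finset.mem_filter.2 ⟨Finset.mem_univ _, this⟩
          · intro l _ _
            rw [hprod]
            exact mul_nonneg (Real.exp_pos _).le
              (mul_nonneg (hP0 l) (pow_nonneg (by linarith) _))
  refine step1.trans ?_
  rw [← Finset.mul_sum, sum_suppJ a' (fun j => by simp [ha', h0]) B]
  have hsum : ∀ j, 1 + ∑ i, a' j (some i) = 1 + ∑ i, a j (some i) + (e - 1) * a j (some i0) := by
    intro j
    have h2 : ∀ i, a' j (some i) = a j (some i) +
        (if i = i0 then (e - 1) * a j (some i0) else 0) := by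
      intro i
      by_cases hi : i = i0
      · subst hi
        simp only [ha', if_true]
        ring
      · have : ¬ ((some i : Option I) = some i0) := fun h => hi (Option.some_inj.1 h)
        simp only [ha', if_neg hi, if_neg this]
        ring
    rw [Finset.sum_congr rfl (fun i _ => h2 i), Finset.sum_add_distrib,
      Finset.sum_ite_eq' univ i0 (fun _ => (e - 1) * a j (some i0)), if_pos (Finset.mem_univ _)]
    ring
  have h3 : ∏ j ∈ B, (1 + ∑ i, a' j (some i)) ≤
      (∏ j ∈ B, (1 + ∑ i, a j (some i))) * Real.exp (2 * ∑ j ∈ B, a j (some i0)) := by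
    rw [Finset.mul_sum, Real.exp_sum, ← Finset.prod_mul_distrib]
    apply Finset.prod_le_prod
    · intro j _
      have : 0 ≤ ∑ i, a' j (some i) := by
        apply Finset.sum_nonneg
        intro i _
        simp only [ha']
        have := ha j (some i)
        split_ifs
        · positivity
        · positivity
      linarith
    · intro j _
      rw [hsum]
      have hS1 : 1 ≤ 1 + ∑ i, a j (some i) := by
        have : 0 ≤ ∑ i, a j (some i) := Finset.sum_nonneg (fun i _ => ha _ _)
        linarith
      set S : ℝ := 1 + ∑ i, a j (some i) with hS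
      set α := a j (some i0) with hα
      have hα0 : 0 ≤ α := ha _ _
      have h4 : (e - 1) * α ≤ 2 * α := mul_le_mul_of_nonneg_right he2 hα0
      calc S + (e - 1) * α ≤ S * (1 + 2 * α) := by nlinarith
        _ ≤ S * Real.exp (2 * α) := by
            apply mul_le_mul_of_nonneg_left _ (by linarith)
            rw [add_comm]
            exact Real.add_one_le_exp _
  have hP : 0 ≤ ∏ j ∈ B, (1 + ∑ i, a j (some i)) := by
    apply Finset.prod_nonneg
    intro j _
    have : 0 ≤ ∑ i, a j (some i) := Finset.sum_nonneg (fun i _ => ha _ _)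
    linarith
  calc Real.exp (-(m0 : ℝ)) * ∏ j ∈ B, (1 + ∑ i, a' j (some i))
      ≤ Real.exp (-(m0 : ℝ)) * ((∏ j ∈ B, (1 + ∑ i, a j (some i))) *
          Real.exp (2 * ∑ j ∈ B, a j (some i0))) :=
        mul_le_mul_of_nonneg_left h3 (Real.exp_pos _).le
    _ = Real.exp (-(m0 : ℝ) + 2 * ∑ j ∈ B, a j (some i0)) *
          ∏ j ∈ B, (1 + ∑ i, a j (some i)) := by
        rw [Real.exp_add]
        ring
    _ ≤ Real.exp (-R) * ∏ j ∈ B, (1 + ∑ i, a j (some i)) := by
        apply mul_le_mul_of_nonneg_right _ hP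
        apply Real.exp_le_exp.2
        linarith

/-- Union bound: the labelings with a saturated label (`m i ≤ cnt l i` for some `i`) are removed. -/
theorem sum_unsat_ge (a : J → Option I → ℝ) (ha : ∀ j o, 0 ≤ a j o) (h0 : ∀ j, a j none = 1)
    (B : Finset J) (m : I → ℕ) (R : I → ℝ)
    (hm : ∀ i, 2 * ∑ j ∈ B, a j (some i) + R i ≤ m i) :
    (1 - ∑ i, Real.exp (-R i)) * ∏ j ∈ B, (1 + ∑ i, a j (some i)) ≤
      ∑ l ∈ univ.filter (fun l : J → Option I => (∀ j, j ∉ B → l j = none) ∧
        ∀ i, cnt l i < m i), ∏ j, a j (l j) := by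
  classical
  have hP0 : ∀ l : J → Option I, 0 ≤ ∏ j, a j (l j) := fun l =>
    Finset.prod_nonneg (fun j _ => ha _ _)
  have h1 : ∑ l ∈ univ.filter (fun l : J → Option I => ∀ j, j ∉ B → l j = none), ∏ j, a j (l j) ≤
      ∑ l ∈ univ.filter (fun l : J → Option I => (∀ j, j ∉ B → l j = none) ∧
        ∀ i, cnt l i < m i), ∏ j, a j (l j) +
      ∑ i, ∑ l ∈ univ.filter (fun l : J → Option I => (∀ j, j ∉ B → l j = none) ∧
        m i ≤ cnt l i), ∏ j, a j (l j) := by
    have e1 : ∑ i, ∑ l ∈ univ.filter (fun l : J → Option I => (∀ j, j ∉ B → l j = none) ∧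
        m i ≤ cnt l i), ∏ j, a j (l j) =
        ∑ l ∈ univ.filter (fun l : J → Option I => ∀ j, j ∉ B → l j = none),
          ∑ i, if m i ≤ cnt l i then ∏ j, a j (l j) else 0 := by
      rw [Finset.sum_comm]
      apply Finset.sum_congr rfl
      intro i _
      rw [← Finset.sum_filter, Finset.filter_filter]
    have e2 : ∑ l ∈ univ.filter (fun l : J → Option I => (∀ j, j ∉ B → l j = none) ∧
        ∀ i, cnt l i < m i), ∏ j, a j (l j) =
        ∑ l ∈ univ.filter (fun l : J → Option I => ∀ j, j ∉ B → l j = none),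
          if ∀ i, cnt l i < m i then ∏ j, a j (l j) else 0 := by
      rw [← Finset.sum_filter, Finset.filter_filter]
    rw [e1, e2, ← Finset.sum_add_distrib]
    apply Finset.sum_le_sum
    intro l _
    by_cases hl : ∀ i, cnt l i < m i
    · rw [if_pos hl]
      have : 0 ≤ ∑ i, if m i ≤ cnt l i then ∏ j, a j (l j) else 0 := by
        apply Finset.sum_nonneg
        intro i _
        split_ifs
        · exact hP0 l
        · exact le_rfl
      linarith
    · rw [if_neg hl, zero_add]
      push Not at hl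
      obtain ⟨i, hi⟩ := hl
      have h2 := Finset.single_le_sum (f := fun i => if m i ≤ cnt l i then ∏ j, a j (l j) else 0)
        (fun i _ => by
          show 0 ≤ if m i ≤ cnt l i then ∏ j, a j (l j) else 0
          split_ifs
          · exact hP0 l
          · exact le_rfl) (mem_univ i)
      simp only [if_pos hi] at h2
      exact h2
  have h2 : ∑ i, ∑ l ∈ univ.filter (fun l : J → Option I => (∀ j, j ∉ B → l j = none) ∧
        m i ≤ cnt l i), ∏ j, a j (l j) ≤
      ∑ i, Real.exp (-R i) * ∏ j ∈ B, (1 + ∑ i, a j (some i)) :=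
    Finset.sum_le_sum fun i _ => tail_suppJ a ha h0 B i (m i) (R i) (hm i)
  rw [sum_suppJ a h0 B] at h1
  rw [← Finset.sum_mul] at h2
  rw [sub_mul, one_mul]
  linarith

end Pool.Agent.Lib.H92G
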