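import Pool.Agent.Lib.H92G.Defs
import Pool.Agent.Lib.H92G.G0

/-!
# Chunk G3: configurations where no prime divides the forms of `Z`
-/

open Finset

namespace Pool.Agent.Lib.H92G

open Pool.Agent.Lib.H15P

variable {ι J I : Type} [Fintype J] [DecidableEq J] [Fintype I] [DecidableEq I]

omit [DecidableEq J] [Fintype I] in
theorem g3_cnt (Z : Finset J) (L l o : J → Option I) (h1 : ∀ j ∈ Z, l j = none)
    (h2 : ∀ j, j ∉ Z → l j = L j) (h3 : ∀ j ∈ Z, o j = L j) (h4 : ∀ j, j ∉ Z → o j = none) (i : I) :
    cnt L i = cnt l i + cnt o i := by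
  classical
  unfold cnt
  rw [← Finset.card_union_of_disjoint]
  · congr 1
    ext j
    simp only [mem_union, mem_filter, mem_univ, true_and]
    by_cases hj : j ∈ Z
    · rw [h1 j hj, h3 j hj]
      simp
    · rw [h2 j hj, h4 j hj]
      simp
  · rw [Finset.disjoint_left]
    intro j hj hj'
    simp only [mem_filter, mem_univ, true_and] at hj hj'
    by_cases hjZ : j ∈ Z
    · rw [h1 j hjZ] at hj
      simp at hj
    · rw [h4 j hjZ] at hj'
      simp at hj'

/-- A labeling `L ∈ adm B m` is the same as a pair (`l` = `L` outside `Z`, `none` in `Z`; `o` = `L`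
in `Z`, `none` outside `Z`) with `l` supported in `B \ Z`, `o` supported in `Z` and
`cnt L = cnt l + cnt o ≤ m`; then `l ∈ adm (B \ Z) m`. The product over all `j` of the factors of `L`
is the product of the factors of `l` over all `j` (`1` on `Z`) times the product of the factors of
`o` over `Z`, where `S j = ∅`. -/
theorem LG_restrict (D : J → I → Finset ι → ℝ) (m : I → ℕ) (B Z : Finset J) (hZ : Z ⊆ B)
    (S : J → Finset ι) (hS : ∀ j ∈ Z, S j = ∅) :
    LG D m B S = LW D (adm (B \ Z) m) (wZ D m Z) S := by
  classical
  unfold LG LW wZ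
  simp only [one_mul]
  have e1 : ∀ l : J → Option I, (∑ o ∈ univ.filter (fun o : J → Option I =>
      (∀ j, j ∉ Z → o j = none) ∧ ∀ i, cnt l i + cnt o i ≤ m i), ∏ j ∈ Z, dg D j (o j) ∅) *
      ∏ j, dg D j (l j) (S j) =
      ∑ o ∈ univ.filter (fun o : J → Option I =>
      (∀ j, j ∉ Z → o j = none) ∧ ∀ i, cnt l i + cnt o i ≤ m i),
        (∏ j ∈ Z, dg D j (o j) ∅) * ∏ j, dg D j (l j) (S j) := fun l => Finset.sum_mul _ _ _
  rw [Finset.sum_congr rfl (fun l _ => e1 l), Finset.sum_sigma']
  refine Finset.sum_bij' (fun L _ => ⟨fun j => if j ∈ Z then none else L j,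
    fun j => if j ∈ Z then L j else none⟩) (fun p _ => fun j => if j ∈ Z then p.2 j else p.1 j)
    ?_ ?_ ?_ ?_ ?_
  · intro L hL
    unfold adm at hL
    rw [mem_filter] at hL
    have hc := fun i => g3_cnt Z L (fun j => if j ∈ Z then none else L j)
      (fun j => if j ∈ Z then L j else none) (fun j hj => if_pos hj) (fun j hj => if_neg hj)
      (fun j hj => if_pos hj) (fun j hj => if_neg hj) i
    rw [mem_sigma]
    constructor
    · unfold adm
      rw [mem_filter]
      refine ⟨mem_univ _, ?_, ?_⟩
      · intro j hj
        show (if j ∈ Z then none else L j) = none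
        by_cases hjZ : j ∈ Z
        · rw [if_pos hjZ]
        · rw [if_neg hjZ]
          apply hL.2.1
          intro hjB
          exact hj (mem_sdiff.2 ⟨hjB, hjZ⟩)
      · intro i
        have := hL.2.2 i
        rw [hc i] at this
        show cnt (fun j => if j ∈ Z then none else L j) i ≤ m i
        omega
    · rw [mem_filter]
      refine ⟨mem_univ _, fun j hj => if_neg hj, ?_⟩
      intro i
      have := hL.2.2 i
      rw [hc i] at this
      exact this
  · rintro ⟨l, o⟩ hp
    rw [mem_sigma] at hp
    obtain ⟨hl, ho⟩ := hp
    simp only at hl ho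
    unfold adm at hl
    rw [mem_filter] at hl ho
    have hl0 : ∀ j ∈ Z, l j = none := fun j hj => hl.2.1 j (fun h => (mem_sdiff.1 h).2 hj)
    have hc := fun i => g3_cnt Z (fun j => if j ∈ Z then o j else l j) l o hl0
      (fun j hj => (if_neg hj).symm) (fun j hj => (if_pos hj).symm) ho.2.1 i
    unfold adm
    rw [mem_filter]
    refine ⟨mem_univ _, ?_, ?_⟩
    · intro j hj
      show (if j ∈ Z then o j else l j) = none
      have hjZ : j ∉ Z := fun h => hj (hZ h)
      rw [if_neg hjZ]
      exact hl.2.1 j (fun h => hj (mem_sdiff.1 h).1)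
    · intro i
      show cnt (fun j => if j ∈ Z then o j else l j) i ≤ m i
      rw [hc i]
      exact ho.2.2 i
  · intro L hL
    funext j
    show (if j ∈ Z then (if j ∈ Z then L j else none) else (if j ∈ Z then none else L j)) = L j
    by_cases hj : j ∈ Z
    · rw [if_pos hj, if_pos hj]
    · rw [if_neg hj, if_neg hj]
  · rintro ⟨l, o⟩ hp
    rw [mem_sigma] at hp
    obtain ⟨hl, ho⟩ := hp
    simp only at hl ho
    unfold adm at hl
    rw [mem_filter] at hl ho
    have hl0 : ∀ j ∈ Z, l j = none := fun j hj => hl.2.1 j (fun h => (mem_sdiff.1 h).2 hj)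
    have e2 : (fun j => if j ∈ Z then none else if j ∈ Z then o j else l j) = l := by
      funext j
      by_cases hj : j ∈ Z
      · rw [if_pos hj, hl0 j hj]
      · rw [if_neg hj, if_neg hj]
    have e3 : (fun j => if j ∈ Z then (if j ∈ Z then o j else l j) else none) = o := by
      funext j
      by_cases hj : j ∈ Z
      · rw [if_pos hj, if_pos hj]
      · rw [if_neg hj, ho.2.1 j hj]
    simp only [e2, e3]
  · intro L hL
    show ∏ j, dg D j (L j) (S j) = (∏ j ∈ Z, dg D j (if j ∈ Z then L j else none) ∅) *
      ∏ j, dg D j (if j ∈ Z then none else L j) (S j)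
    rw [← Finset.prod_mul_prod_compl Z (fun j => dg D j (L j) (S j)),
      ← Finset.prod_mul_prod_compl Z (fun j => dg D j (if j ∈ Z then none else L j) (S j))]
    have a1 : ∏ j ∈ Z, dg D j (if j ∈ Z then none else L j) (S j) = 1 := by
      apply Finset.prod_eq_one
      intro j hj
      rw [if_pos hj]
      rfl
    have a2 : ∏ j ∈ Zᶜ, dg D j (if j ∈ Z then none else L j) (S j) =
        ∏ j ∈ Zᶜ, dg D j (L j) (S j) := by
      apply Finset.prod_congr rfl
      intro j hj
      rw [if_neg (mem_compl.1 hj)]
    have a3 : ∏ j ∈ Z, dg D j (if j ∈ Z then L j else none) ∅ =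
        ∏ j ∈ Z, dg D j (L j) (S j) := by
      apply Finset.prod_congr rfl
      intro j hj
      rw [if_pos hj, hS j hj]
    rw [a1, a2, a3, one_mul]

/-- If the values `D j i ∅` are nonnegative (`j ∈ Z`), all terms are nonnegative and the sum is at
most the sum over all labelings `o` supported in `Z`, which is the product
(`Finset.prod_univ_sum`, compare `sum_suppJ` in `G0`). -/
theorem wZ_bounds (D : J → I → Finset ι → ℝ) (m : I → ℕ) (Z : Finset J) (l : J → Option I)
    (hD : ∀ j ∈ Z, ∀ i, 0 ≤ D j i ∅) :
    0 ≤ wZ D m Z l ∧ wZ D m Z l ≤ ∏ j ∈ Z, (1 + ∑ i, D j i ∅) := by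
  classical
  have h0 : ∀ o : J → Option I, 0 ≤ ∏ j ∈ Z, dg D j (o j) ∅ := by
    intro o
    apply Finset.prod_nonneg
    intro j hj
    cases o j with
    | none => exact zero_le_one
    | some i => exact hD j hj i
  unfold wZ
  constructor
  · exact Finset.sum_nonneg fun o _ => h0 o
  · have h1 := sum_suppJ (fun j o => dg D j o ∅) (fun j => rfl) Z
    have h2 : ∏ j ∈ Z, (1 + ∑ i, D j i ∅) =
        ∑ o ∈ univ.filter (fun o : J → Option I => ∀ j, j ∉ Z → o j = none),
          ∏ j ∈ Z, dg D j (o j) ∅ := by
      refine h1.symm.trans ?_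
      apply Finset.sum_congr rfl
      intro o ho
      rw [mem_filter] at ho
      rw [← Finset.prod_mul_prod_compl Z (fun j => dg D j (o j) ∅)]
      have : ∏ j ∈ Zᶜ, dg D j (o j) ∅ = 1 := by
        apply Finset.prod_eq_one
        intro j hj
        rw [ho.2 j (mem_compl.1 hj)]
        rfl
      rw [this, mul_one]
    rw [h2]
    apply Finset.sum_le_sum_of_subset_of_nonneg
    · intro o ho
      rw [mem_filter] at ho ⊢
      exact ⟨ho.1, ho.2.1⟩
    · intro o _ _
      exact h0 o

/-- One form: the labelings `o` of `{j0}` are `none` and the labels `i` with `cnt l i < m i`. -/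
theorem wZ_single (D : J → I → Finset ι → ℝ) (m : I → ℕ) (j0 : J) (l : J → Option I)
    (hl : ∀ i, cnt l i ≤ m i) :
    wZ D m {j0} l = 1 + ∑ i ∈ univ.filter (fun i => cnt l i < m i), D j0 i ∅ := by
  classical
  set φ : Option I → (J → Option I) := fun x => Function.update (fun _ => none) j0 x with hφ
  have hφi : Function.Injective φ := by
    intro x y h
    have := congrFun h j0
    simpa [hφ] using this
  have hcnt : ∀ (x : Option I) (i : I), cnt (φ x) i = if x = some i then 1 else 0 := by
    intro x i
    unfold cnt
    by_cases hx : x = some i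
    · rw [if_pos hx]
      have : univ.filter (fun j => φ x j = some i) = {j0} := by
        ext j
        rw [mem_filter, mem_singleton]
        constructor
        · rintro ⟨_, h⟩
          by_contra hj
          rw [hφ] at h
          simp only [Function.update_of_ne hj] at h
          simp at h
        · intro h
          subst h
          refine ⟨mem_univ _, ?_⟩
          rw [hφ]
          simp only [Function.update_self]
          exact hx
      rw [this, card_singleton]
    · rw [if_neg hx]
      rw [Finset.card_eq_zero, Finset.filter_eq_empty_iff]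
      intro j _ h
      by_cases hj : j = j0
      · subst hj
        rw [hφ] at h
        simp only [Function.update_self] at h
        exact hx h
      · rw [hφ] at h
        simp only [Function.update_of_ne hj] at h
        simp at h
  have hset : univ.filter (fun o : J → Option I => (∀ j, j ∉ ({j0} : Finset J) → o j = none) ∧
      ∀ i, cnt l i + cnt o i ≤ m i) =
      (univ.filter (fun x : Option I => ∀ i, x = some i → cnt l i < m i)).image φ := by
    ext o
    rw [mem_filter, mem_image]
    constructor
    · rintro ⟨_, h1, h2⟩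
      have e : φ (o j0) = o := by
        funext j
        by_cases hj : j = j0
        · subst hj
          rw [hφ]
          simp only [Function.update_self]
        · rw [hφ]
          simp only [Function.update_of_ne hj]
          exact (h1 j (by rw [mem_singleton]; exact hj)).symm
      refine ⟨o j0, ?_, e⟩
      rw [mem_filter]
      refine ⟨mem_univ _, ?_⟩
      intro i hi
      have h3 := h2 i
      rw [← e, hcnt, if_pos hi] at h3
      omega
    · rintro ⟨x, hx, rfl⟩
      rw [mem_filter] at hx
      refine ⟨mem_univ _, ?_, ?_⟩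
      · intro j hj
        rw [mem_singleton] at hj
        rw [hφ]
        simp only [Function.update_of_ne hj]
      · intro i
        rw [hcnt]
        by_cases h : x = some i
        · rw [if_pos h]
          exact hx.2 i h
        · rw [if_neg h, add_zero]
          exact hl i
  unfold wZ
  rw [hset, Finset.sum_image (fun a _ b _ h => hφi h), Finset.sum_filter, Fintype.sum_option]
  congr 1
  · rw [if_pos (by intro i hi; simp at hi), Finset.prod_singleton]
    rw [hφ]
    simp only [Function.update_self]
    rfl
  · rw [Finset.sum_filter]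
    apply Finset.sum_congr rfl
    intro i _
    have hiff : (∀ i', (some i : Option I) = some i' → cnt l i' < m i') ↔ cnt l i < m i := by
      constructor
      · intro h
        exact h i rfl
      · intro h i' hi'
        rw [← Option.some_inj.1 hi']
        exact h
    by_cases h : cnt l i < m i
    · rw [if_pos (hiff.2 h), if_pos h, Finset.prod_singleton]
      rw [hφ]
      simp only [Function.update_self]
      rfl
    · rw [if_neg (fun h' => h (hiff.1 h')), if_neg h]

end Pool.Agent.Lib.H92G
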