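import Pool.Agent.Lib.H92G.G0
import Pool.Agent.Lib.H92G.G1
import Pool.Agent.Lib.H92G.G3

/-!
# Chunk G5: the main moments of the weight
-/

open Finset

namespace Pool.Agent.Lib.H92G

open Pool.Agent.Lib.H15P

variable {ι J I : Type} [Fintype ι] [DecidableEq ι] [Fintype J] [DecidableEq J] [Fintype I]
  [DecidableEq I]

theorem g5_mem_adm {B : Finset J} {m : I → ℕ} {l : J → Option I} :
    l ∈ adm B m ↔ (∀ j, j ∉ B → l j = none) ∧ ∀ i, cnt l i ≤ m i := by
  unfold adm
  simp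

theorem g5_prod_nonneg (q : ι → ℝ) (D : J → I → Finset ι → ℝ) (h : ℝ) (hg : GoodJ q D h)
    (l : J → Option I) : 0 ≤ ∏ j, GJ q D j (l j) :=
  Finset.prod_nonneg fun j _ => GJ_nonneg q D h hg j _

/-- Sums over admissible labelings. -/
theorem g5_sum_adm_le (q : ι → ℝ) (D : J → I → Finset ι → ℝ) (h : ℝ) (hg : GoodJ q D h)
    (m : I → ℕ) (B : Finset J) : ∑ l ∈ adm B m, ∏ j, GJ q D j (l j) ≤ ZG q D B := by
  unfold ZG
  rw [← sum_suppJ (fun j o => GJ q D j o) (fun j => rfl) B]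
  apply Finset.sum_le_sum_of_subset_of_nonneg
  · intro l hl
    rw [g5_mem_adm] at hl
    rw [mem_filter]
    exact ⟨mem_univ _, hl.1⟩
  · intro l _ _
    exact g5_prod_nonneg q D h hg l

/-- `EX_LW_sq`, `adm B m` is a subset of the labelings supported in `B`, `sum_suppJ`. -/
theorem EX_LG_sq_le (q : ι → ℝ) (D : J → I → Finset ι → ℝ) (h : ℝ) (hg : GoodJ q D h)
    (m : I → ℕ) (B : Finset J) :
    EX q (fun S : J → Finset ι => LG D m B S ^ 2) ≤ ZG q D B := by
  unfold LG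
  rw [EX_LW_sq q D h hg]
  simp only [one_pow, one_mul]
  exact g5_sum_adm_le q D h hg m B

/-- The majorant used if no prime divides the forms of `Z`: `EX_LW_sq_mul` with `F = lm`;
`w^2 ≤ wm^2`; `sum_suppJ`; `ZG (B \ Z) ≤ ZG B`. -/
theorem EX_maj_le (q : ι → ℝ) (D : J → I → Finset ι → ℝ) (h : ℝ) (hg : GoodJ q D h)
    (m : I → ℕ) (B Z : Finset J) (wm : ℝ) (hw : ∀ l, |wZ D m Z l| ≤ wm)
    (lm : Finset ι → ℝ) (hlm : ∀ A, 0 ≤ lm A) :
    EX q (fun S : J → Finset ι => LW D (adm (B \ Z) m) (wZ D m Z) S ^ 2 * ∏ j ∈ Z, lm (S j))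
      ≤ wm ^ 2 * ZG q D B * ex q lm ^ Z.card := by
  have hZ : ∀ l ∈ adm (B \ Z) m, ∀ j ∈ Z, l j = none := by
    intro l hl j hj
    rw [g5_mem_adm] at hl
    exact hl.1 j (fun h => (mem_sdiff.1 h).2 hj)
  rw [EX_LW_sq_mul q D h hg (adm (B \ Z) m) (wZ D m Z) Z hZ lm]
  apply mul_le_mul_of_nonneg_right _ (pow_nonneg (ex_nonneg q hg.q0 hg.q1 _ hlm) _)
  calc ∑ l ∈ adm (B \ Z) m, wZ D m Z l ^ 2 * ∏ j, GJ q D j (l j)
      ≤ ∑ l ∈ adm (B \ Z) m, wm ^ 2 * ∏ j, GJ q D j (l j) := by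
        apply Finset.sum_le_sum
        intro l _
        apply mul_le_mul_of_nonneg_right _ (g5_prod_nonneg q D h hg l)
        rw [← sq_abs]
        exact pow_le_pow_left₀ (abs_nonneg _) (hw l) 2
    _ = wm ^ 2 * ∑ l ∈ adm (B \ Z) m, ∏ j, GJ q D j (l j) := by rw [Finset.mul_sum]
    _ ≤ wm ^ 2 * ZG q D B := by
        apply mul_le_mul_of_nonneg_left _ (sq_nonneg _)
        exact (g5_sum_adm_le q D h hg m _).trans (ZG_mono q D h hg sdiff_subset)

theorem g5_wZ_dis (D : J → I → Finset ι → ℝ) (m : I → ℕ) (j0 : J) (I0 : Finset I)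
    (hI0 : 0 < I0.card) (h1 : ∀ i ∈ I0, D j0 i ∅ = -1 / (I0.card : ℝ))
    (h2 : ∀ i, i ∉ I0 → D j0 i ∅ = 0) (l : J → Option I) (hl : ∀ i, cnt l i ≤ m i) :
    wZ D m {j0} l = ((I0.filter (fun i => m i ≤ cnt l i)).card : ℝ) / I0.card := by
  have hn : (0 : ℝ) < I0.card := by exact_mod_cast hI0
  rw [wZ_single D m j0 l hl]
  have e1 : ∑ i ∈ univ.filter (fun i => cnt l i < m i), D j0 i ∅ =
      ∑ i ∈ I0.filter (fun i => cnt l i < m i), (-1 / (I0.card : ℝ)) := by
    rw [Finset.sum_filter, Finset.sum_filter,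
      ← Finset.sum_subset (Finset.subset_univ I0) (f := fun i => if cnt l i < m i then
        D j0 i ∅ else 0)]
    · apply Finset.sum_congr rfl
      intro i hi
      rw [h1 i hi]
    · intro i _ hi
      rw [h2 i hi, ite_self]
  rw [e1, Finset.sum_const, nsmul_eq_mul]
  have e2 : (I0.filter (fun i => m i ≤ cnt l i)).card + (I0.filter (fun i => cnt l i < m i)).card
      = I0.card := by
    have := Finset.card_filter_add_card_filter_not (s := I0) (fun i => m i ≤ cnt l i)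
    simp only [not_le] at this
    exact this
  have e3 : ((I0.filter (fun i => m i ≤ cnt l i)).card : ℝ) +
      (I0.filter (fun i => cnt l i < m i)).card = I0.card := by exact_mod_cast e2
  rw [eq_div_iff hn.ne', add_mul, one_mul]
  have e4 : ((I0.filter (fun i => cnt l i < m i)).card : ℝ) * (-1 / (I0.card : ℝ)) *
      (I0.card : ℝ) = -((I0.filter (fun i => cnt l i < m i)).card : ℝ) := by
    field_simp
  rw [e4]
  linarith

/-- A disallowed form `j0`: the values `D j0 i ∅` are `-1/n` for the `n` labels `i ∈ I0` and `0` for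
the others. By `wZ_single` the coefficient is the proportion of the saturated labels of `I0`, so
`0 ≤ w ≤ 1` and `w^2 ≤ w ≤ ∑_{i ∈ I0} 1[m i ≤ cnt l i]`; `EX_LW_sq_mul`, `tail_suppJ` for the set
`B \ {j0}` (its sums `∑_{j ∈ B \ {j0}} GJ j i` are not larger than those over `B`), `ZG_mono`. -/
theorem EX_dis_le (q : ι → ℝ) (D : J → I → Finset ι → ℝ) (h : ℝ) (hg : GoodJ q D h)
    (m : I → ℕ) (B : Finset J) (R : I → ℝ)
    (hm : ∀ i, 2 * ∑ j ∈ B, GJ q D j (some i) + R i ≤ m i) (j0 : J) (I0 : Finset I)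
    (hI0 : 0 < I0.card) (h1 : ∀ i ∈ I0, D j0 i ∅ = -1 / (I0.card : ℝ))
    (h2 : ∀ i, i ∉ I0 → D j0 i ∅ = 0) (lm : Finset ι → ℝ) (hlm : ∀ A, 0 ≤ lm A) :
    EX q (fun S : J → Finset ι => LW D (adm (B \ {j0}) m) (wZ D m {j0}) S ^ 2 *
        ∏ j ∈ ({j0} : Finset J), lm (S j))
      ≤ (∑ i ∈ I0, Real.exp (-R i)) * ZG q D B * ex q lm := by
  have hn : (0 : ℝ) < I0.card := by exact_mod_cast hI0
  have hn1 : (1 : ℝ) ≤ I0.card := by exact_mod_cast hI0
  have hZ : ∀ l ∈ adm (B \ {j0}) m, ∀ j ∈ ({j0} : Finset J), l j = none := by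
    intro l hl j hj
    rw [g5_mem_adm] at hl
    exact hl.1 j (fun h => (mem_sdiff.1 h).2 hj)
  rw [EX_LW_sq_mul q D h hg (adm (B \ {j0}) m) (wZ D m {j0}) {j0} hZ lm, card_singleton, pow_one]
  apply mul_le_mul_of_nonneg_right _ (ex_nonneg q hg.q0 hg.q1 _ hlm)
  have hw : ∀ l ∈ adm (B \ {j0}) m, wZ D m {j0} l ^ 2 ≤
      ∑ i ∈ I0, if m i ≤ cnt l i then (1 : ℝ) else 0 := by
    intro l hl
    rw [g5_mem_adm] at hl
    rw [g5_wZ_dis D m j0 I0 hI0 h1 h2 l hl.2]
    have e1 : (∑ i ∈ I0, if m i ≤ cnt l i then (1 : ℝ) else 0) =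
        ((I0.filter (fun i => m i ≤ cnt l i)).card : ℝ) := by
      rw [← Finset.sum_filter, Finset.sum_const, nsmul_eq_mul, mul_one]
    rw [e1]
    set c : ℝ := ((I0.filter (fun i => m i ≤ cnt l i)).card : ℝ) with hc
    have hc0 : 0 ≤ c := by positivity
    have hcn : c ≤ I0.card := by
      rw [hc]
      exact_mod_cast Finset.card_filter_le _ _
    have h3 : c / I0.card ≤ 1 := (div_le_one hn).2 hcn
    have h4 : 0 ≤ c / I0.card := by positivity
    calc (c / I0.card) ^ 2 = c / I0.card * (c / I0.card) := sq _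
      _ ≤ c / I0.card * 1 := mul_le_mul_of_nonneg_left h3 h4
      _ ≤ c := by rw [mul_one]; exact div_le_self hc0 hn1
  have hPB : ∏ j ∈ B \ {j0}, (1 + ∑ i, GJ q D j (some i)) ≤ ZG q D B :=
    ZG_mono q D h hg sdiff_subset
  calc ∑ l ∈ adm (B \ {j0}) m, wZ D m {j0} l ^ 2 * ∏ j, GJ q D j (l j)
      ≤ ∑ l ∈ adm (B \ {j0}) m, (∑ i ∈ I0, if m i ≤ cnt l i then (1 : ℝ) else 0) *
          ∏ j, GJ q D j (l j) :=
        Finset.sum_le_sum fun l hl => mul_le_mul_of_nonneg_right (hw l hl)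
          (g5_prod_nonneg q D h hg l)
    _ = ∑ i ∈ I0, ∑ l ∈ adm (B \ {j0}) m, (if m i ≤ cnt l i then (1 : ℝ) else 0) *
          ∏ j, GJ q D j (l j) := by
        rw [Finset.sum_comm]
        apply Finset.sum_congr rfl
        intro l _
        rw [Finset.sum_mul]
    _ ≤ ∑ i ∈ I0, Real.exp (-R i) * ZG q D B := by
        apply Finset.sum_le_sum
        intro i _
        have h5 := tail_suppJ (fun j o => GJ q D j o) (fun j o => GJ_nonneg q D h hg j o)
          (fun j => rfl) (B \ {j0}) i (m i) (R i) (by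
            have h6 : ∑ j ∈ B \ {j0}, GJ q D j (some i) ≤ ∑ j ∈ B, GJ q D j (some i) :=
              Finset.sum_le_sum_of_subset_of_nonneg sdiff_subset
                (fun j _ _ => GJ_nonneg q D h hg j _)
            have := hm i
            linarith)
        calc ∑ l ∈ adm (B \ {j0}) m, (if m i ≤ cnt l i then (1 : ℝ) else 0) *
              ∏ j, GJ q D j (l j)
            = ∑ l ∈ (adm (B \ {j0}) m).filter (fun l => m i ≤ cnt l i),
                ∏ j, GJ q D j (l j) := by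
              rw [Finset.sum_filter]
              apply Finset.sum_congr rfl
              intro l _
              split_ifs
              · rw [one_mul]
              · rw [zero_mul]
          _ ≤ ∑ l ∈ univ.filter (fun l : J → Option I => (∀ j, j ∉ B \ {j0} → l j = none) ∧
                m i ≤ cnt l i), ∏ j, GJ q D j (l j) := by
              apply Finset.sum_le_sum_of_subset_of_nonneg
              · intro l hl
                rw [mem_filter, g5_mem_adm] at hl
                rw [mem_filter]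
                exact ⟨mem_univ _, hl.1.1, hl.2⟩
              · intro l _ _
                exact g5_prod_nonneg q D h hg l
          _ ≤ Real.exp (-R i) * ∏ j ∈ B \ {j0}, (1 + ∑ i, GJ q D j (some i)) := h5
          _ ≤ Real.exp (-R i) * ZG q D B := mul_le_mul_of_nonneg_left hPB (Real.exp_pos _).le
    _ = (∑ i ∈ I0, Real.exp (-R i)) * ZG q D B := by rw [Finset.sum_mul]

/-- The same coefficients are at most `1`. -/
theorem wZ_dis_le (D : J → I → Finset ι → ℝ) (m : I → ℕ) (j0 : J) (I0 : Finset I)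
    (hI0 : 0 < I0.card) (h1 : ∀ i ∈ I0, D j0 i ∅ = -1 / (I0.card : ℝ))
    (h2 : ∀ i, i ∉ I0 → D j0 i ∅ = 0) (l : J → Option I) (hl : ∀ i, cnt l i ≤ m i) :
    |wZ D m {j0} l| ≤ 1 := by
  have hn : (0 : ℝ) < I0.card := by exact_mod_cast hI0
  rw [g5_wZ_dis D m j0 I0 hI0 h1 h2 l hl, abs_of_nonneg (by positivity), div_le_one hn]
  exact_mod_cast Finset.card_filter_le _ _

/-- An allowed form `j0` (all values `D j0 i ∅ ≥ 0`), no prime divides it: `LG_restrict`,
`EX_LW_sq_mul` with `F = 1[A = ∅]` (mean value `∏ (1 - q i)`), and for the labelings `l` without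
saturated label the coefficient is `1 + ∑ D j0 i ∅` (`wZ_single`); `sum_unsat_ge` for the set
`B \ {j0}`. -/
theorem EX_prime_ge (q : ι → ℝ) (D : J → I → Finset ι → ℝ) (h : ℝ) (hg : GoodJ q D h)
    (m : I → ℕ) (B : Finset J) (R : I → ℝ)
    (hm : ∀ i, 2 * ∑ j ∈ B, GJ q D j (some i) + R i ≤ m i) (j0 : J) (hj0 : j0 ∈ B)
    (hD : ∀ i, 0 ≤ D j0 i ∅) :
    (1 + ∑ i, D j0 i ∅) ^ 2 * (1 - ∑ i, Real.exp (-R i)) * ZG q D (B.erase j0) *
        ∏ i, (1 - q i)
      ≤ EX q (fun S : J → Finset ι => LG D m B S ^ 2 * (if S j0 = ∅ then 1 else 0)) := by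
  classical
  have hZ : ∀ l ∈ adm (B \ {j0}) m, ∀ j ∈ ({j0} : Finset J), l j = none := by
    intro l hl j hj
    rw [g5_mem_adm] at hl
    exact hl.1 j (fun h => (mem_sdiff.1 h).2 hj)
  set F : Finset ι → ℝ := fun A => if A = ∅ then 1 else 0 with hF
  have e0 : (fun S : J → Finset ι => LG D m B S ^ 2 * (if S j0 = ∅ then (1 : ℝ) else 0)) =
      fun S => LW D (adm (B \ {j0}) m) (wZ D m {j0}) S ^ 2 * ∏ j ∈ ({j0} : Finset J), F (S j) := by
    funext S
    rw [Finset.prod_singleton]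
    by_cases hS : S j0 = ∅
    · rw [LG_restrict D m B {j0} (singleton_subset_iff.2 hj0) S
        (fun j hj => by rw [mem_singleton.1 hj]; exact hS)]
    · simp only [hF, if_neg hS, mul_zero]
  rw [e0, EX_LW_sq_mul q D h hg (adm (B \ {j0}) m) (wZ D m {j0}) {j0} hZ F, card_singleton,
    pow_one]
  have e1 : ex q F = ∏ i, (1 - q i) := by
    unfold ex
    rw [Finset.sum_eq_single (∅ : Finset ι)]
    · simp only [hF, if_true, one_mul]
      unfold bw
      simp
    · intro A _ hA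
      simp only [hF, if_neg hA, zero_mul]
    · intro hA
      exact absurd (mem_univ _) hA
  rw [e1]
  apply mul_le_mul_of_nonneg_right _
    (Finset.prod_nonneg fun i _ => by have := hg.q1 i; linarith)
  set g : ℝ := 1 + ∑ i, D j0 i ∅ with hgdef
  have h3 : ∀ i, 2 * ∑ j ∈ B \ {j0}, GJ q D j (some i) + R i ≤ m i := by
    intro i
    have h6 : ∑ j ∈ B \ {j0}, GJ q D j (some i) ≤ ∑ j ∈ B, GJ q D j (some i) :=
      Finset.sum_le_sum_of_subset_of_nonneg sdiff_subset (fun j _ _ => GJ_nonneg q D h hg j _)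
    have := hm i
    linarith
  have h4 := sum_unsat_ge (fun j o => GJ q D j o) (fun j o => GJ_nonneg q D h hg j o)
    (fun j => rfl) (B \ {j0}) m R h3
  have e2 : ∏ j ∈ B \ {j0}, (1 + ∑ i, GJ q D j (some i)) = ZG q D (B.erase j0) := by
    unfold ZG
    rw [Finset.sdiff_singleton_eq_erase]
  rw [e2] at h4
  calc g ^ 2 * (1 - ∑ i, Real.exp (-R i)) * ZG q D (B.erase j0)
      = g ^ 2 * ((1 - ∑ i, Real.exp (-R i)) * ZG q D (B.erase j0)) := by ring
    _ ≤ g ^ 2 * ∑ l ∈ univ.filter (fun l : J → Option I => (∀ j, j ∉ B \ {j0} → l j = none) ∧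
        ∀ i, cnt l i < m i), ∏ j, GJ q D j (l j) :=
        mul_le_mul_of_nonneg_left h4 (sq_nonneg _)
    _ = ∑ l ∈ univ.filter (fun l : J → Option I => (∀ j, j ∉ B \ {j0} → l j = none) ∧
        ∀ i, cnt l i < m i), wZ D m {j0} l ^ 2 * ∏ j, GJ q D j (l j) := by
        rw [Finset.mul_sum]
        apply Finset.sum_congr rfl
        intro l hl
        rw [mem_filter] at hl
        have e3 : wZ D m {j0} l = g := by
          rw [wZ_single D m j0 l (fun i => (hl.2.2 i).le)]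
          rw [Finset.filter_true_of_mem (fun i _ => hl.2.2 i)]
        rw [e3]
    _ ≤ ∑ l ∈ adm (B \ {j0}) m, wZ D m {j0} l ^ 2 * ∏ j, GJ q D j (l j) := by
        apply Finset.sum_le_sum_of_subset_of_nonneg
        · intro l hl
          rw [mem_filter] at hl
          rw [g5_mem_adm]
          exact ⟨hl.2.1, fun i => (hl.2.2 i).le⟩
        · intro l _ _
          exact mul_nonneg (sq_nonneg _) (g5_prod_nonneg q D h hg l)

end Pool.Agent.Lib.H92G
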