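import Pool.Agent.Lib.H92G.W1

/-!
# Chunk W2: upper bounds for the elements without prime factor in `P`

Compare `H15P/WIN3` (`win_rough`).
-/

open Finset

namespace Pool.Agent.Lib.H92G

open Pool.Agent.Lib.H15P

/-- Level of the majorant. -/
theorem w2_lev {w : WG} {A B : Finset ℕ} {M : ℕ} (h : w.Sys A B M)
    (Zs : Finset {b // b ∈ B}) (wm : ℝ) (hwm : 0 < wm)
    (hw : ∀ l ∈ adm (univ \ Zs) w.m, |wZ (w.Df A B) w.m Zs l| ≤ wm) :
    Lev (∏ p ∈ w.P, p) (fun t =>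
      LW (w.Df A B) (adm (univ \ Zs) w.m) (wZ (w.Df A B) w.m Zs)
        (fun j : {b // b ∈ B} => hit w.P (j.1 + M * t)) ^ 2 *
          ∏ j ∈ Zs, w.lm (hit w.P (j.1 + M * t)))
      (wm ^ 2 * w.lv ^ 2 * w.lv ^ Zs.card) := by
  have h1 : Lev (∏ p ∈ w.P, p) (fun t => ∏ j ∈ Zs, w.lm (hit w.P (j.1 + M * t)))
      (w.lv ^ Zs.card) := by
    have h2 := Lev.prod Zs (fun (j : {b // b ∈ B}) (t : ℕ) => w.lm (hit w.P (j.1 + M * t)))
      (fun _ => w.lv) (w1_Qpos w) (fun j _ => w.levlm M j.1)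
    rw [Finset.prod_const] at h2
    exact h2
  have h3 := w.levL {b // b ∈ B} (fun j => decide (j.1 ∈ A)) (univ \ Zs) M (fun j => j.1)
    (fun l => if l ∈ adm (univ \ Zs) w.m then wZ (w.Df A B) w.m Zs l / wm else 0)
    (by rw [Fintype.card_coe]; exact h.cardB) (by
      intro l
      split_ifs with hl
      · rw [abs_div, abs_of_pos hwm, div_le_one hwm]
        exact hw l hl
      · rw [abs_zero]
        exact zero_le_one)
  have h4 := Lev.const_mul h3 wm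
  rw [abs_of_pos hwm] at h4
  have h5 : (fun t : ℕ => wm * LW (fun j : {b // b ∈ B} => w.DJ (decide (j.1 ∈ A)))
      (adm (univ \ Zs) w.m)
      (fun l => if l ∈ adm (univ \ Zs) w.m then wZ (w.Df A B) w.m Zs l / wm else 0)
      (fun j => hit w.P (j.1 + M * t))) = fun t : ℕ =>
      LW (w.Df A B) (adm (univ \ Zs) w.m) (wZ (w.Df A B) w.m Zs)
        (fun j : {b // b ∈ B} => hit w.P (j.1 + M * t)) := by
    funext t
    unfold LW
    rw [Finset.mul_sum]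
    refine Finset.sum_congr rfl fun l hl => ?_
    beta_reduce
    rw [if_pos hl, ← mul_assoc, mul_div_cancel₀ _ hwm.ne']
    rfl
  rw [h5] at h4
  have h6 := Lev.mul (w1_Qpos w) (Lev.pow (w1_Qpos w) h4 2) h1
  rw [mul_pow] at h6
  exact h6

/-- General bound for the configurations where no prime divides the forms of `Zs`. -/
theorem w2_gen {w : WG} {A B : Finset ℕ} {M : ℕ} (h : w.Sys A B M) (Y : ℕ)
    (Zs : Finset {b // b ∈ B}) (wm : ℝ) (hwm : 0 < wm)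
    (hw : ∀ l ∈ adm (univ \ Zs) w.m, |wZ (w.Df A B) w.m Zs l| ≤ wm) (E : ℝ)
    (hE : EX (qq w.P w.K) (fun S : {b // b ∈ B} → Finset {p // p ∈ w.P} =>
      LW (w.Df A B) (adm (univ \ Zs) w.m) (wZ (w.Df A B) w.m Zs) S ^ 2 *
        ∏ j ∈ Zs, w.lm (S j)) ≤ E * ZG (qq w.P w.K) (w.Df A B) univ) :
    ∑ t ∈ range Y, w.nu A B M t *
        (if ∀ j ∈ Zs, hit w.P (j.1 + M * t) = ∅ then 1 else 0) ≤
      Y * ((1 + w.e) * E) + 2 * (wm ^ 2 * w.lv ^ 2 * w.lv ^ Zs.card) := by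
  set Z := ZG (qq w.P w.K) (w.Df A B) univ with hZ
  have hZ1 : 1 ≤ Z := w1_one_le_ZG w A B
  have hZpos : 0 < Z := by linarith
  set F : ({b // b ∈ B} → Finset {p // p ∈ w.P}) → ℝ := fun S =>
    LW (w.Df A B) (adm (univ \ Zs) w.m) (wZ (w.Df A B) w.m Zs) S ^ 2 *
        ∏ j ∈ Zs, w.lm (S j) with hF
  have hF0 : ∀ S, 0 ≤ F S := fun S =>
    mul_nonneg (sq_nonneg _) (Finset.prod_nonneg fun j _ => w.lm0 _)
  have hterm : ∀ t, w.nu A B M t * (if ∀ j ∈ Zs, hit w.P (j.1 + M * t) = ∅ then 1 else 0) ≤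
      F (fun j => hit w.P (j.1 + M * t)) / Z := by
    intro t
    split_ifs with hh
    · rw [mul_one]
      unfold WG.nu
      rw [← hZ]
      apply div_le_div_of_nonneg_right _ hZpos.le
      rw [LG_restrict (w.Df A B) w.m univ Zs (Finset.subset_univ _)
        (fun j => hit w.P (j.1 + M * t)) hh]
      show _ ≤ LW (w.Df A B) (adm (univ \ Zs) w.m) (wZ (w.Df A B) w.m Zs)
        (fun j => hit w.P (j.1 + M * t)) ^ 2 * ∏ j ∈ Zs, w.lm (hit w.P (j.1 + M * t))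
      rw [Finset.prod_congr rfl (fun j hj => by rw [hh j hj, w.lm1]), Finset.prod_const_one,
        mul_one]
    · rw [mul_zero]
      exact div_nonneg (hF0 _) hZpos.le
  have havg := h.avg_le F hF0 _ (w2_lev h Zs wm hwm hw) Y
  refine (Finset.sum_le_sum fun t _ => hterm t).trans ?_
  rw [← Finset.sum_div, div_le_iff₀ hZpos]
  refine havg.trans ?_
  have he0 := w.e0
  have h1 := mul_le_mul_of_nonneg_left hE (by linarith : 0 ≤ 1 + w.e)
  have h2 := mul_le_mul_of_nonneg_left h1 (Nat.cast_nonneg Y : (0 : ℝ) ≤ Y)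
  have h3 : 0 ≤ 2 * (wm ^ 2 * w.lv ^ 2 * w.lv ^ Zs.card) := by
    have := zero_le_one.trans w.lv1
    positivity
  have h4 := mul_le_mul_of_nonneg_left hZ1 h3
  nlinarith

/-- Disallowed forms. For `b ∈ B \ A` and the `t` with `hit P (b + M t) = ∅`:
`nu = LW(wZ {b})^2/ZG` (`LG_restrict`), and `1 ≤ lm (hit ..) = lm ∅`; the function
`LW(wZ {b})^2 lm(S b)` is nonnegative, of level `lv^2 lv` (`levL` with the coefficients
`wZ`, which are at most `1` on `adm` by `wZ_dis_le`; replace them by `0` outside `adm`), mean value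
at most `(∑ e^(-R (inr i))) ZG el` by `EX_dis_le` with `I0` = the labels `inr i`. Sum over at most
`K` forms, `w.hlm`, and `2 K lv^3 ≤ e Y`. -/
theorem WG.Sys.dis_le {w : WG} {A B : Finset ℕ} {M : ℕ} (h : w.Sys A B M) (Y : ℕ)
    (hY : w.Long Y) :
    ∑ t ∈ range Y, w.nu A B M t *
        (((B \ A).filter (fun b => hit w.P (b + M * t) = ∅)).card : ℝ) ≤ 3 * w.e * Y := by
  set ER := ∑ i : Fin w.nD, Real.exp (-w.R (Sum.inr i)) with hER
  have hER0 : 0 ≤ ER := Finset.sum_nonneg fun i _ => (Real.exp_pos _).le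
  have hX0 : 0 ≤ ex (qq w.P w.K) w.lm := ex_nonneg _ w.good.q0 w.good.q1 _ w.lm0
  have hone : ∀ b ∈ B \ A, ∑ t ∈ range Y, w.nu A B M t *
      (if hit w.P (b + M * t) = ∅ then 1 else 0) ≤
        Y * ((1 + w.e) * (ER * w.el)) + 2 * w.lv ^ 3 := by
    intro b hb
    obtain ⟨hbB, hbA⟩ := Finset.mem_sdiff.1 hb
    have hD : w.Df A B ⟨b, hbB⟩ = w.DJ false := by
      unfold WG.Df
      rw [decide_eq_false hbA]
    set I0 : Finset (Fin w.nA ⊕ Fin w.nD) := univ.map ⟨Sum.inr, Sum.inr_injective⟩ with hI0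
    have hcard : I0.card = w.nD := by
      rw [hI0, Finset.card_map, Finset.card_univ, Fintype.card_fin]
    have hI1 : ∀ i ∈ I0, w.Df A B ⟨b, hbB⟩ i ∅ = -1 / (I0.card : ℝ) := by
      intro i hi
      obtain ⟨k, _, rfl⟩ := Finset.mem_map.1 hi
      rw [hD, hcard]
      exact w.flr k
    have hI2 : ∀ i, i ∉ I0 → w.Df A B ⟨b, hbB⟩ i ∅ = 0 := by
      rintro (i | i) hi
      · rw [hD, w.fll]
      · exact absurd (Finset.mem_map.2 ⟨i, Finset.mem_univ _, rfl⟩) hi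
    have hIc : 0 < I0.card := by
      rw [hcard]
      exact w.nDpos
    have hw : ∀ l ∈ adm (univ \ {(⟨b, hbB⟩ : {b // b ∈ B})}) w.m,
        |wZ (w.Df A B) w.m {(⟨b, hbB⟩ : {b // b ∈ B})} l| ≤ 1 := by
      intro l hl
      exact wZ_dis_le _ _ _ I0 hIc hI1 hI2 l (Finset.mem_filter.1 hl).2.2
    have hE := EX_dis_le (qq w.P w.K) (w.Df A B) w.h (w.good_Df A B) w.m univ w.R h.hm
      ⟨b, hbB⟩ I0 hIc hI1 hI2 w.lm w.lm0
    have hs : ∑ i ∈ I0, Real.exp (-w.R i) = ER := by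
      rw [hI0, Finset.sum_map]
      rfl
    rw [hs] at hE
    have hE2 : ER * ZG (qq w.P w.K) (w.Df A B) univ * ex (qq w.P w.K) w.lm ≤
        ER * w.el * ZG (qq w.P w.K) (w.Df A B) univ := by
      have h1 := w1_one_le_ZG w A B
      have h2 : 0 ≤ ER * ZG (qq w.P w.K) (w.Df A B) univ := mul_nonneg hER0 (by linarith)
      have h3 := mul_le_mul_of_nonneg_left w.lmel h2
      nlinarith
    have h1 := w2_gen h Y {(⟨b, hbB⟩ : {b // b ∈ B})} 1 zero_lt_one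
    have h2 := h1 hw (ER * w.el)
    have h1 := h2 (hE.trans hE2)
    simp only [Finset.mem_singleton, forall_eq, one_pow, one_mul, Finset.card_singleton,
      pow_one] at h1
    have h2 : w.lv ^ 2 * w.lv = w.lv ^ 3 := by ring
    rw [h2] at h1
    exact h1
  have htot : ∑ t ∈ range Y, w.nu A B M t *
        (((B \ A).filter (fun b => hit w.P (b + M * t) = ∅)).card : ℝ) =
      ∑ b ∈ B \ A, ∑ t ∈ range Y, w.nu A B M t *
        (if hit w.P (b + M * t) = ∅ then 1 else 0) := by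
    rw [Finset.sum_comm]
    refine Finset.sum_congr rfl fun t _ => ?_
    rw [← Finset.mul_sum, Finset.card_filter]
    push_cast
    rfl
  rw [htot]
  have he0 := w.e0
  have he1 := w.e1
  have hel0 := w.el0
  have hYr : (0 : ℝ) ≤ Y := Nat.cast_nonneg Y
  have hlv0 : 0 ≤ w.lv ^ 3 := pow_nonneg (zero_le_one.trans w.lv1) 3
  have hbd0 : 0 ≤ Y * ((1 + w.e) * (ER * w.el)) + 2 * w.lv ^ 3 := by positivity
  have hcN : (B \ A).card ≤ w.K :=
    (Finset.card_le_card (Finset.sdiff_subset : B \ A ⊆ B)).trans h.cardB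
  have hcB : (((B \ A).card : ℕ) : ℝ) ≤ w.K := Nat.cast_le.2 hcN
  have h1 : ∑ b ∈ B \ A, ∑ t ∈ range Y, w.nu A B M t *
        (if hit w.P (b + M * t) = ∅ then 1 else 0) ≤
      w.K * (Y * ((1 + w.e) * (ER * w.el)) + 2 * w.lv ^ 3) := by
    refine (Finset.sum_le_card_nsmul _ _ _ hone).trans ?_
    rw [nsmul_eq_mul]
    exact mul_le_mul_of_nonneg_right hcB hbd0
  refine h1.trans ?_
  have herr := (w1_err1 w Y hY 0 3 (by norm_num) (by norm_num)).2.1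
  rw [pow_zero, one_mul] at herr
  have h4 : w.K * ER * w.el ≤ w.e := w.hlm
  have h5 : (Y * (1 + w.e)) * (w.K * ER * w.el) ≤ (Y * (1 + w.e)) * w.e :=
    mul_le_mul_of_nonneg_left h4 (by positivity)
  have h6 : Y * w.e * w.e ≤ Y * w.e * (1 / 10) := mul_le_mul_of_nonneg_left he1 (by positivity)
  have h7 : 0 ≤ Y * w.e := by positivity
  nlinarith

/-- Allowed forms. -/
theorem w2_allowed {w : WG} {A B : Finset ℕ} {M : ℕ} (h : w.Sys A B M) (Y : ℕ)
    (Zs : Finset {b // b ∈ B}) (hZs : ∀ j ∈ Zs, j.1 ∈ A) :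
    ∑ t ∈ range Y, w.nu A B M t *
        (if ∀ j ∈ Zs, hit w.P (j.1 + M * t) = ∅ then 1 else 0) ≤
      Y * ((1 + w.e) * ((w.g ^ Zs.card) ^ 2 * w.el ^ Zs.card)) +
        2 * ((w.g ^ Zs.card) ^ 2 * w.lv ^ 2 * w.lv ^ Zs.card) := by
  have hg0 : 0 < w.g := zero_lt_one.trans_le w.one_le_g
  have hX0 : 0 ≤ ex (qq w.P w.K) w.lm := ex_nonneg _ w.good.q0 w.good.q1 _ w.lm0
  have hw : ∀ l, |wZ (w.Df A B) w.m Zs l| ≤ w.g ^ Zs.card := by
    intro l
    obtain ⟨h1, h2⟩ := wZ_bounds (w.Df A B) w.m Zs l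
      (fun j hj => (w.sum_allowed A B j (hZs j hj)).1)
    rw [abs_of_nonneg h1]
    refine h2.trans (le_of_eq ?_)
    rw [Finset.prod_congr rfl (fun j hj => (w.sum_allowed A B j (hZs j hj)).2),
      Finset.prod_const]
  refine w2_gen h Y Zs (w.g ^ Zs.card) (pow_pos hg0 _) (fun l _ => hw l) _ ?_
  refine (EX_maj_le (qq w.P w.K) (w.Df A B) w.h (w.good_Df A B) w.m univ Zs (w.g ^ Zs.card) hw
    w.lm w.lm0).trans ?_
  have h1 := w1_one_le_ZG w A B
  have h2 : ex (qq w.P w.K) w.lm ^ Zs.card ≤ w.el ^ Zs.card :=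
    pow_le_pow_left₀ hX0 w.lmel _
  have h3 : 0 ≤ (w.g ^ Zs.card) ^ 2 * ZG (qq w.P w.K) (w.Df A B) univ :=
    mul_nonneg (sq_nonneg _) (by linarith)
  have h4 := mul_le_mul_of_nonneg_left h2 h3
  nlinarith

/-- One allowed form. The coefficients `wZ {b}` are in `[0, g]` (`wZ_bounds`, `sum_allowed`);
`EX_maj_le` with `wm = g`; level of `LW(wZ)^2 lm`: `g^2 lv^2 lv` (`levL` for `wZ/g`). -/
theorem WG.Sys.one_le {w : WG} {A B : Finset ℕ} {M : ℕ} (h : w.Sys A B M) (Y : ℕ)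
    (hY : w.Long Y) (b : ℕ) (hb : b ∈ A) :
    ∑ t ∈ range Y, w.nu A B M t * (if hit w.P (b + M * t) = ∅ then 1 else 0) ≤
      2 * w.g ^ 2 * w.el * Y := by
  have h1 := w2_allowed h Y {(⟨b, h.AB hb⟩ : {b // b ∈ B})} (by
    intro j hj
    rw [Finset.mem_singleton.1 hj]
    exact hb)
  simp only [Finset.mem_singleton, forall_eq, Finset.card_singleton, pow_one] at h1
  refine h1.trans ?_
  have herr := (w1_err1 w Y hY 2 3 (by norm_num) (by norm_num)).2.2.1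
  have hg := w.one_le_g
  have hg2 : 1 ≤ w.g ^ 2 := one_le_pow₀ hg
  have he0 := w.e0
  have he1 := w.e1
  have hYr : (0 : ℝ) ≤ Y := Nat.cast_nonneg Y
  have h0 : 0 ≤ w.el * Y := mul_nonneg w.el0.le hYr
  have h2 : w.el * Y ≤ w.g ^ 2 * (w.el * Y) := le_mul_of_one_le_left h0 hg2
  have h3 : w.e * (w.g ^ 2 * (w.el * Y)) ≤ 1 / 10 * (w.g ^ 2 * (w.el * Y)) :=
    mul_le_mul_of_nonneg_right he1 (by positivity)
  have h4 : w.e * (w.el * Y) ≤ 1 / 10 * (w.el * Y) := mul_le_mul_of_nonneg_right he1 h0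
  nlinarith

/-- Two allowed forms: `Z = {b, b'}`, `wZ ≤ g^2`, `EX_maj_le`: mean value at most
`g^4 ZG el^2`; level `g^4 lv^2 lv^2`. -/
theorem WG.Sys.two_le {w : WG} {A B : Finset ℕ} {M : ℕ} (h : w.Sys A B M) (Y : ℕ)
    (hY : w.Long Y) (b b' : ℕ) (hb : b ∈ A) (hb' : b' ∈ A) (hne : b ≠ b') :
    ∑ t ∈ range Y, w.nu A B M t *
        (if hit w.P (b + M * t) = ∅ ∧ hit w.P (b' + M * t) = ∅ then 1 else 0) ≤
      2 * w.g ^ 4 * w.el ^ 2 * Y := by
  have h1 := w2_allowed h Y {(⟨b, h.AB hb⟩ : {b // b ∈ B}), ⟨b', h.AB hb'⟩} (by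
    intro j hj
    rcases Finset.mem_insert.1 hj with hj | hj
    · rw [hj]
      exact hb
    · rw [Finset.mem_singleton.1 hj]
      exact hb')
  have hc : ({(⟨b, h.AB hb⟩ : {b // b ∈ B}), ⟨b', h.AB hb'⟩} : Finset {b // b ∈ B}).card = 2 := by
    apply Finset.card_pair
    intro hh
    exact hne (congrArg Subtype.val hh)
  rw [hc] at h1
  simp only [Finset.mem_insert, Finset.mem_singleton, forall_eq_or_imp, forall_eq] at h1
  refine h1.trans ?_
  have herr := (w1_err w Y hY 4 4 le_rfl le_rfl).2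
  have hg := w.one_le_g
  have hg4 : 1 ≤ w.g ^ 4 := one_le_pow₀ hg
  have he0 := w.e0
  have he1 := w.e1
  have hYr : (0 : ℝ) ≤ Y := Nat.cast_nonneg Y
  have h0 : 0 ≤ w.el ^ 2 * Y := mul_nonneg (sq_nonneg _) hYr
  have h2 : w.el ^ 2 * Y ≤ w.g ^ 4 * (w.el ^ 2 * Y) := le_mul_of_one_le_left h0 hg4
  have h3 : w.e * (w.g ^ 4 * (w.el ^ 2 * Y)) ≤ 1 / 10 * (w.g ^ 4 * (w.el ^ 2 * Y)) :=
    mul_le_mul_of_nonneg_right he1 (by positivity)
  have h4 : w.e * (w.el ^ 2 * Y) ≤ 1 / 10 * (w.el ^ 2 * Y) := mul_le_mul_of_nonneg_right he1 h0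
  have h5 : (w.g ^ 2) ^ 2 * w.lv ^ 2 * w.lv ^ 2 = w.g ^ 4 * w.lv ^ 4 := by ring
  rw [h5]
  nlinarith

end Pool.Agent.Lib.H92G
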