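import Pool.Agent.Lib.H92G.W1
import Pool.Agent.Lib.H92G.E5
import Pool.Agent.Lib.H92G.E6

/-!
# Chunk W3: lower bound for the primes of an allowed form
-/

open Finset

namespace Pool.Agent.Lib.H92G

open Pool.Agent.Lib.H15P

/-- The analytic and numerical hypotheses for one value of `x` (`X` = scale, `D` = bound for the
periods, `Q'` = bound for the conductors). -/
structure WG.Prm (w : WG) (M X Y Q' D : ℕ) (A0 A1 : ℝ) : Prop where
  M0 : 0 < M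
  X0 : 0 < X
  PX : ∀ p ∈ w.P, 8 * p < X
  MX : 8 * M < X
  YX : 60 * X < M * Y
  D1 : 1 ≤ D
  DM : D * M ≤ Q'
  A0nn : 0 ≤ A0
  hA0 : A0s Q' X ≤ A0
  hA1 : A1s M X ≤ A1
  m1 : 1 / 2 ≤ ∑ m ∈ (Icc 1 (60 * X)).filter Nat.Prime, Real.log m * H68T.v X m / m
  m2 : ∑ m ∈ (Icc 1 (60 * X)).filter Nat.Prime, Real.log m * H68T.v X m / m ≤ 10
  n1 : (w.K : ℝ) ^ 2 / w.W ≤ 1 / 200
  n2 : (((∏ p ∈ w.P, p : ℕ) : ℝ) / ((∏ p ∈ w.P, p).totient : ℝ)) *
    (40 * ((w.K : ℝ) / Real.sqrt w.W) * Real.sqrt w.C) ≤ 1 / 100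
  n3 : A1 ≤ 1 / 100
  n4 : w.lv ^ 2 / D * (10 + A0 + A1 + 10 * M) ≤ 1 / 100
  n5 : 7 * Real.sqrt (w.C * (w.K / w.W)) *
    (((∏ p ∈ w.P, p : ℕ) : ℝ) / ((∏ p ∈ w.P, p).totient : ℝ)) * A0 ≤ 1 / 100

theorem w3_num (g EU A1 x y z ph M L : ℝ) (hg : 1 ≤ g) (hEU : 7 / 20 * g ^ 2 ≤ EU)
    (hA1 : A1 ≤ 1 / 100) (hph : 0 < ph) (hphM : ph ≤ M) (hx : L * (x + 10 * M) ≤ 1 / 100)
    (hL : 0 ≤ L) (hy : y ≤ 1 / 100) (hz : z = 10 * L) :
    g ^ 2 / (8 * ph) ≤ (1 / ph) * ((1 / 2 - A1) * EU - L * x - y) - z := by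
  have h1 : z ≤ (1 / ph) * (L * (10 * M)) := by
    rw [hz, one_div, inv_mul_eq_div, le_div_iff₀ hph]
    have := mul_le_mul_of_nonneg_left hphM hL
    nlinarith
  have h2 : g ^ 2 / (8 * ph) = (1 / ph) * (g ^ 2 / 8) := by
    field_simp
  have hg2 : 1 ≤ g ^ 2 := one_le_pow₀ hg
  have h3 : 49 / 100 * EU ≤ (1 / 2 - A1) * EU := by
    apply mul_le_mul_of_nonneg_right _ (by nlinarith)
    linarith
  have h4 : g ^ 2 / 8 ≤ (1 / 2 - A1) * EU - L * x - y - L * (10 * M) := by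
    nlinarith
  have h5 := mul_le_mul_of_nonneg_left h4 (one_div_pos.2 hph).le
  rw [h2]
  nlinarith

/-- Chunk W3. `prime_sum` for `F = LG^2/ZG` (level `lv^2`, `EX F^2 ≤ C` by `EX_LG_four_le`,
`ZG ≥ 1`). `EU F ≥ (1 - 2K/W)(1 - K^2/W) g^2 (3/4) ZG(erase)/ZG - 1/100` by `EU_ge`,
`EX_prime_ge`, `p_empty_ge`, `hR`; `ZG univ = ZG (erase) (1 + ∑ GJ) ≤ 2 ZG (erase)` by `hG`. So
`EU F ≥ (99/100)^2 (3/8) g^2 - 1/100 ≥ (7/20) g^2` (`g ≥ 1`), and the whole is at least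
`(1/φ(M)) ((49/100) (7/20) g^2 - 2/100) ≥ g^2/(8 φ(M))` (`φ(M) ≤ M`). -/
theorem WG.Sys.prime_ge {w : WG} {A B : Finset ℕ} {M : ℕ} (h : w.Sys A B M)
    {X Y Q' D : ℕ} {A0 A1 : ℝ} (hp : w.Prm M X Y Q' D A0 A1) (b : ℕ) (hb : b ∈ A)
    (hbM : b.Coprime M) (hbX : 8 * b ≤ X) :
    w.g ^ 2 / (8 * (M.totient : ℝ)) ≤ ∑ t ∈ range Y, w.nu A B M t * lpv X (b + M * t) := by
  set j0 : {b // b ∈ B} := ⟨b, h.AB hb⟩ with hj0
  set Z := ZG (qq w.P w.K) (w.Df A B) univ with hZ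
  have hZ1 : 1 ≤ Z := w1_one_le_ZG w A B
  have hZpos : 0 < Z := by linarith
  set F : ({b // b ∈ B} → Finset {p // p ∈ w.P}) → ℝ := fun S =>
    LG (w.Df A B) w.m univ S ^ 2 / Z with hF
  have hF0 : ∀ S, 0 ≤ F S := fun S => div_nonneg (sq_nonneg _) hZpos.le
  have hlev : Lev (∏ p ∈ w.P, p)
      (fun t => F (fun j : {b // b ∈ B} => hit w.P (j.1 + M * t))) (w.lv ^ 2) := by
    have h1 := Lev.const_mul (w1_lev h 2) Z⁻¹
    rw [abs_of_pos (inv_pos.2 hZpos)] at h1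
    have h2 : Z⁻¹ * w.lv ^ 2 ≤ w.lv ^ 2 :=
      mul_le_of_le_one_left (sq_nonneg _) (inv_le_one_of_one_le₀ hZ1)
    have h3 := Lev.mono _ _ _ h1 h2
    have h4 : (fun t : ℕ => Z⁻¹ * LG (w.Df A B) w.m (univ : Finset {b // b ∈ B})
        (fun j => hit w.P (j.1 + M * t)) ^ 2) =
        fun t => F (fun j : {b // b ∈ B} => hit w.P (j.1 + M * t)) := by
      funext t
      rw [hF]
      beta_reduce
      rw [div_eq_inv_mul]
    rw [h4] at h3
    exact h3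
  have hEXF2 : EX (qq w.P w.K) (fun S => F S ^ 2) ≤ w.C := by
    have h1 : EX (qq w.P w.K)
        (fun S => LG (w.Df A B) w.m (univ : Finset {b // b ∈ B}) S ^ 4) ≤ w.C := by
      refine (EX_LG_four_le (qq w.P w.K) (w.Df A B) w.h (w.good_Df A B) w.h0 w.m
        (univ : Finset {b // b ∈ B})).trans (le_trans ?_ w.hC)
      apply Real.exp_le_exp.2
      have h1 : ((univ : Finset {b // b ∈ B}).card : ℝ) ≤ w.K := by
        rw [Finset.card_univ, Fintype.card_coe]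
        exact Nat.cast_le.2 h.cardB
      have h2 := w.h0
      rw [Fintype.card_sum, Fintype.card_fin, Fintype.card_fin]
      exact mul_le_mul_of_nonneg_left h1 (by positivity)
    refine le_trans ?_ h1
    refine EX_mono _ w.good.q0 w.good.q1 _ _ fun S => ?_
    rw [hF]
    beta_reduce
    rw [div_pow, ← pow_mul]
    exact div_le_self (Even.pow_nonneg ⟨2, rfl⟩ _) (one_le_pow₀ hZ1)
  have hsum := prime_sum w.P w.W w.K M X Y Q' D (fun j : {b // b ∈ B} => j.1) h.forms F hF0 j0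
    hp.M0 hbM hbX hp.X0 hp.PX hp.MX hp.YX (w.lv ^ 2) w.C A0 A1 hlev hp.D1 hp.DM hEXF2 hp.hA0
    hp.hA1 hp.m1 hp.m2
  have hnu : ∀ t, w.nu A B M t = F (fun j : {b // b ∈ B} => hit w.P (j.1 + M * t)) :=
    fun t => rfl
  have hgoal : ∑ t ∈ range Y, w.nu A B M t * lpv X (b + M * t) =
      ∑ t ∈ range Y, F (fun j : {b // b ∈ B} => hit w.P (j.1 + M * t)) *
        lpv X (b + M * t) := Finset.sum_congr rfl fun t _ => by rw [hnu t]
  rw [hgoal]
  refine le_trans ?_ hsum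
  -- the mean value
  set QQ := (((∏ p ∈ w.P, p : ℕ) : ℝ) / ((∏ p ∈ w.P, p).totient : ℝ)) with hQQ
  have hQQ0 : 0 ≤ QQ := by positivity
  set pe := ∏ i, (1 - qq w.P w.K i) with hpe
  have hpe0 : 0 ≤ pe := Finset.prod_nonneg fun i _ => sub_nonneg.2 (w.good.q1 i)
  have hWpos : (0 : ℝ) < w.W := by
    have h1 := w.KW
    have h2 := w.Kpos
    have h3 : 0 < w.W := by nlinarith
    exact_mod_cast h3
  have hK1 : (1 : ℝ) ≤ w.K := by exact_mod_cast w.Kpos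
  have hn1 := hp.n1
  have hpeQ : 99 / 100 ≤ QQ * pe := by
    have h1 := p_empty_ge w.P w.W w.K w.prime w.Kpos w.KW w.big
    have h2 : 2 * (w.K : ℝ) / w.W ≤ 2 * ((w.K : ℝ) ^ 2 / w.W) := by
      rw [← mul_div_assoc]
      apply div_le_div_of_nonneg_right _ hWpos.le
      nlinarith
    linarith
  have hZe : Z ≤ 2 * ZG (qq w.P w.K) (w.Df A B) (univ.erase j0) := by
    have h1 : Z = (1 + ∑ i, GJ (qq w.P w.K) (w.Df A B) j0 (some i)) *
        ZG (qq w.P w.K) (w.Df A B) (univ.erase j0) := by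
      rw [hZ]
      unfold ZG
      rw [Finset.mul_prod_erase univ
        (fun j => 1 + ∑ i, GJ (qq w.P w.K) (w.Df A B) j (some i)) (Finset.mem_univ j0)]
    rw [h1]
    have h2 : ∑ i, GJ (qq w.P w.K) (w.Df A B) j0 (some i) ≤ 1 := by
      have h3 := w.hG (decide (j0.1 ∈ A))
      have h4 : ∑ i, GJ (qq w.P w.K) (w.Df A B) j0 (some i) =
          ∑ i, GJ (qq w.P w.K) w.DJ (decide (j0.1 ∈ A)) (some i) :=
        Finset.sum_congr rfl fun i _ => w1_GJ w A B j0 (some i)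
      rw [h4]
      exact h3
    have h3 : 0 ≤ ZG (qq w.P w.K) (w.Df A B) (univ.erase j0) :=
      zero_le_one.trans (one_le_ZG _ _ _ (w.good_Df A B) _)
    exact mul_le_mul_of_nonneg_right (by linarith) h3
  have hEXp : 3 / 8 * w.g ^ 2 * pe ≤
      EX (qq w.P w.K) (fun S => F S * (if S j0 = ∅ then 1 else 0)) := by
    obtain ⟨hpos, hgsum⟩ := w.sum_allowed A B j0 hb
    have h1 := EX_prime_ge (qq w.P w.K) (w.Df A B) w.h (w.good_Df A B) w.m univ w.R h.hm j0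
      (Finset.mem_univ _) hpos
    rw [hgsum] at h1
    have h2 : EX (qq w.P w.K) (fun S => F S * (if S j0 = ∅ then 1 else 0)) =
        Z⁻¹ * EX (qq w.P w.K) (fun S : {b // b ∈ B} → Finset {p // p ∈ w.P} =>
          LG (w.Df A B) w.m univ S ^ 2 * (if S j0 = ∅ then 1 else 0)) := by
      rw [← EX_const_mul]
      congr 1
      funext S
      rw [hF]
      beta_reduce
      rw [div_eq_inv_mul, mul_assoc]
    rw [h2, inv_mul_eq_div, le_div_iff₀ hZpos]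
    refine le_trans ?_ h1
    have hR := w.hR
    set ze := ZG (qq w.P w.K) (w.Df A B) (univ.erase j0) with hze
    have hze0 : 0 ≤ ze := zero_le_one.trans (one_le_ZG _ _ _ (w.good_Df A B) _)
    have h3 : 0 ≤ w.g ^ 2 * pe := mul_nonneg (sq_nonneg _) hpe0
    have h4 : 3 / 8 * w.g ^ 2 * pe * Z ≤ 3 / 8 * w.g ^ 2 * pe * (2 * ze) :=
      mul_le_mul_of_nonneg_left hZe (by nlinarith)
    have h5 : (3 / 4) * (w.g ^ 2 * pe * ze) ≤
        (1 - ∑ i, Real.exp (-w.R i)) * (w.g ^ 2 * pe * ze) :=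
      mul_le_mul_of_nonneg_right (by linarith) (mul_nonneg h3 hze0)
    nlinarith
  have hEU := EU_ge w.P w.W w.K M (fun j : {b // b ∈ B} => j.1) h.forms F hF0 j0
  rw [← hQQ] at hEU
  have hn2 := hp.n2
  rw [← hQQ] at hn2
  have hEU2 : 7 / 20 * w.g ^ 2 ≤
      EU w.P M j0.1 (fun t => F (fun j : {b // b ∈ B} => hit w.P (j.1 + M * t))) := by
    refine le_trans ?_ hEU
    have hg2 : 1 ≤ w.g ^ 2 := one_le_pow₀ w.one_le_g
    have hsq : Real.sqrt (EX (qq w.P w.K) (fun S => F S ^ 2)) ≤ Real.sqrt w.C :=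
      Real.sqrt_le_sqrt hEXF2
    have h1 : QQ * (40 * ((w.K : ℝ) / Real.sqrt w.W) *
        Real.sqrt (EX (qq w.P w.K) (fun S => F S ^ 2))) ≤ 1 / 100 := by
      refine le_trans ?_ hn2
      apply mul_le_mul_of_nonneg_left _ hQQ0
      exact mul_le_mul_of_nonneg_left hsq (by positivity)
    set EE := EX (qq w.P w.K) (fun S => F S * (if S j0 = ∅ then 1 else 0)) with hEE
    have hEE0 : 0 ≤ EE := le_trans (by positivity) hEXp
    have h2 : QQ * ((199 / 200) * (3 / 8 * w.g ^ 2 * pe)) ≤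
        QQ * ((1 - (w.K : ℝ) ^ 2 / w.W) * EE) := by
      apply mul_le_mul_of_nonneg_left _ hQQ0
      apply mul_le_mul _ hEXp (by positivity) (by linarith)
      linarith
    have h3 : (99 / 100) * ((199 / 200) * (3 / 8 * w.g ^ 2)) ≤
        QQ * pe * ((199 / 200) * (3 / 8 * w.g ^ 2)) :=
      mul_le_mul_of_nonneg_right hpeQ (by positivity)
    nlinarith
  have hn4 := hp.n4
  have hn5 := hp.n5
  rw [← hQQ] at hn5
  have hphpos : (0 : ℝ) < (M.totient : ℝ) := by exact_mod_cast Nat.totient_pos.2 hp.M0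
  have hphM : (M.totient : ℝ) ≤ M := by exact_mod_cast Nat.totient_le M
  have hD0 : (0 : ℝ) < D := by
    have := hp.D1
    exact_mod_cast this
  exact w3_num w.g _ A1 (10 + A0 + A1) (7 * Real.sqrt (w.C * (w.K / w.W)) * QQ * A0)
    (10 * w.lv ^ 2 / D) _ M (w.lv ^ 2 / D) w.one_le_g hEU2 hp.n3 hphpos hphM hn4
    (by positivity) hn5 (by rw [mul_div_assoc])

end Pool.Agent.Lib.H92G
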