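import Pool.Agent.Lib.H92G.K4
import Pool.Agent.Lib.H92G.W2
import Pool.Agent.Lib.H92G.W3

/-!
# Chunk K5: sums over all `n < M Y`

`n = a + M t` with `a = n % M`, `t = n / M` (compare `H15P.sum_classes`).
-/

open Finset

namespace Pool.Agent.Lib.H92G

open Pool.Agent.Lib.H15P

/-- Sum over `n < M Y`, class by class. -/
theorem sum_range_classes (M Y : ℕ) (hM : 0 < M) (F : ℕ → ℝ) :
    ∑ n ∈ range (M * Y), F n = ∑ a ∈ range M, ∑ t ∈ range Y, F (a + M * t) := by
  rw [sum_comm]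
  induction Y with
  | zero => simp
  | succ Y ih =>
    rw [Finset.sum_range_succ (fun t => ∑ a ∈ range M, F (a + M * t)), ← ih, Nat.mul_succ,
      Finset.sum_range_add]
    congr 1
    exact sum_congr rfl fun a _ => by rw [add_comm]

/-- The forms of a good class are a system; distinct elements of `Ac M (Icc 1 H) a` differ by at
most `H ≤ W`. -/
theorem CS.sys {w : WG} {M H Y : ℕ} {S : Finset ℕ} (h : CS w M H Y S) (a : ℕ)
    (ha : okc w M H S a) : w.Sys (Ac M S a) (Ac M (Icc 1 H) a) M := by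
  refine ⟨?_, ha.1, ha.2, ?_, h.cop⟩
  · unfold Ac
    exact image_subset_image (filter_subset_filter _ h.SH)
  · intro b hb b' hb'
    obtain ⟨x, hx, rfl⟩ := mem_image.1 hb
    obtain ⟨y, hy, rfl⟩ := mem_image.1 hb'
    have h1 := (mem_Icc.1 (mem_filter.1 hx).1)
    have h2 := (mem_Icc.1 (mem_filter.1 hy).1)
    have h3 := h.HW
    omega

theorem wn_nonneg (w : WG) (M H : ℕ) (S : Finset ℕ) (n : ℕ) : 0 ≤ wn w M H S n := by
  unfold wn
  split_ifs
  · exact w.nu_nonneg _ _ _ _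
  · exact le_rfl

/-- the sum over all `n`, class by class -/
theorem k5_classes {w : WG} {M H Y : ℕ} {S : Finset ℕ} (hM : 0 < M) (G : ℕ → ℝ → ℝ)
    (hG : ∀ n, G n 0 = 0) :
    ∑ n ∈ range (M * Y), G n (wn w M H S n) =
      ∑ a ∈ (range M).filter (okc w M H S), ∑ t ∈ range Y,
        G (a + M * t) (w.nu (Ac M S a) (Ac M (Icc 1 H) a) M t) := by
  rw [sum_range_classes M Y hM, sum_filter]
  refine sum_congr rfl fun a ha => ?_
  have haM : a < M := mem_range.1 ha
  have h1 : ∀ t, (a + M * t) % M = a := by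
    intro t
    rw [Nat.add_mul_mod_self_left, Nat.mod_eq_of_lt haM]
  have h2 : ∀ t, (a + M * t) / M = t := by
    intro t
    rw [Nat.add_mul_div_left _ _ hM, Nat.div_eq_of_lt haM, zero_add]
  split_ifs with hok
  · refine sum_congr rfl fun t _ => ?_
    congr 1
    unfold wn
    rw [h1, h2, if_pos hok]
  · refine sum_eq_zero fun t _ => ?_
    have : wn w M H S (a + M * t) = 0 := by
      unfold wn
      rw [h1, if_neg hok]
    rw [this, hG]

theorem k5_count (M : ℕ) (Q : ℕ → Prop) [DecidablePred Q] (c : ℝ) (hc : 0 ≤ c) :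
    ∑ _a ∈ (range M).filter Q, c ≤ c * M := by
  rw [sum_const, nsmul_eq_mul, mul_comm]
  refine mul_le_mul_of_nonneg_left ?_ hc
  have h1 : ((range M).filter Q).card ≤ M := by
    have := card_filter_le (range M) Q
    rwa [card_range] at this
  exact_mod_cast h1

theorem CS.sum_le {w : WG} {M H Y : ℕ} {S : Finset ℕ} (h : CS w M H Y S) :
    ∑ n ∈ range (M * Y), wn w M H S n ≤ (1 + 3 * w.e) * (M * Y : ℕ) := by
  have he := w.e0
  rw [k5_classes h.M0 (fun _ x => x) (fun _ => rfl)]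
  have h1 : ∀ a ∈ (range M).filter (okc w M H S), ∑ t ∈ range Y,
      w.nu (Ac M S a) (Ac M (Icc 1 H) a) M t ≤ (1 + 3 * w.e) * Y := fun a ha =>
    (h.sys a (mem_filter.1 ha).2).mean_le Y h.long
  refine (sum_le_sum h1).trans ((k5_count M _ _ (by positivity)).trans (le_of_eq ?_))
  push_cast
  ring

theorem CS.sum_sq_le {w : WG} {M H Y : ℕ} {S : Finset ℕ} (h : CS w M H Y S) :
    ∑ n ∈ range (M * Y), wn w M H S n ^ 2 ≤ 2 * w.C * (M * Y : ℕ) := by
  have hC := w.one_le_C
  rw [k5_classes h.M0 (fun _ x => x ^ 2) (fun _ => by norm_num)]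
  have h1 : ∀ a ∈ (range M).filter (okc w M H S), ∑ t ∈ range Y,
      w.nu (Ac M S a) (Ac M (Icc 1 H) a) M t ^ 2 ≤ 2 * w.C * Y := fun a ha =>
    (h.sys a (mem_filter.1 ha).2).sq_le Y h.long
  refine (sum_le_sum h1).trans ((k5_count M _ _ (by positivity)).trans (le_of_eq ?_))
  push_cast
  ring

theorem k5_cop (M a t h : ℕ) : (a + M * t + h).Coprime M ↔ (a + h).Coprime M := by
  have e : a + M * t + h = a + h + M * t := by ring
  rw [e, Nat.coprime_add_mul_left_left]

theorem k5_rg (w : WG) (M a t h : ℕ) :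
    rg w M (a + M * t) h ↔ (a + h).Coprime M ∧ hit w.P (a + h + M * t) = ∅ := by
  unfold rg
  rw [k5_cop]
  have e : a + M * t + h = a + h + M * t := by ring
  rw [e]

theorem k5_mem_Ac {M a h : ℕ} {S : Finset ℕ} : a + h ∈ Ac M S a ↔ h ∈ S ∧ (a + h).Coprime M := by
  unfold Ac
  rw [mem_image]
  constructor
  · rintro ⟨x, hx, hxe⟩
    have : x = h := by omega
    subst this
    exact mem_filter.1 hx
  · rintro ⟨h1, h2⟩
    exact ⟨h, mem_filter.2 ⟨h1, h2⟩, rfl⟩

/-- `dis_le`: for `n = a + M t` the `h ∈ Icc 1 H \ S` with `n + h` rough correspond to the elements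
`b = a + h` of `Ac M (Icc 1 H) a \ Ac M S a` with `hit P (b + M t) = ∅`. -/
theorem CS.sum_dis_le {w : WG} {M H Y : ℕ} {S : Finset ℕ} (h : CS w M H Y S) :
    ∑ n ∈ range (M * Y), wn w M H S n * rgh w M (Icc 1 H \ S) n ≤
      3 * w.e * (M * Y : ℕ) := by
  have he := w.e0
  rw [k5_classes h.M0 (fun n x => x * rgh w M (Icc 1 H \ S) n) (fun _ => zero_mul _)]
  have h1 : ∀ a ∈ (range M).filter (okc w M H S), ∑ t ∈ range Y,
      w.nu (Ac M S a) (Ac M (Icc 1 H) a) M t * rgh w M (Icc 1 H \ S) (a + M * t) ≤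
        3 * w.e * Y := by
    intro a ha
    refine le_trans (sum_le_sum fun t _ => ?_) ((h.sys a (mem_filter.1 ha).2).dis_le Y h.long)
    refine mul_le_mul_of_nonneg_left ?_ (w.nu_nonneg _ _ _ _)
    have h2 : rgh w M (Icc 1 H \ S) (a + M * t) ≤
        ((Ac M (Icc 1 H) a \ Ac M S a).filter (fun b => hit w.P (b + M * t) = ∅)).card := by
      unfold rgh
      refine card_le_card_of_injOn (fun x => a + x) ?_ ?_
      · intro x hx
        have hx' := mem_filter.1 (Finset.mem_coe.1 hx)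
        have hx1 := mem_sdiff.1 hx'.1
        have hx2 := (k5_rg w M a t x).1 hx'.2
        refine Finset.mem_coe.2 (mem_filter.2 ⟨mem_sdiff.2 ⟨k5_mem_Ac.2 ⟨hx1.1, hx2.1⟩, ?_⟩, hx2.2⟩)
        intro hmem
        exact hx1.2 (k5_mem_Ac.1 hmem).1
      · intro x _ y _ hxy
        have : a + x = a + y := hxy
        omega
    exact_mod_cast h2
  refine (sum_le_sum h1).trans ((k5_count M _ _ (by positivity)).trans (le_of_eq ?_))
  push_cast
  ring

/-- `one_le`, `one_point`. -/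
theorem CS.sum_one_le {w : WG} {M H Y : ℕ} {S : Finset ℕ} (h : CS w M H Y S) :
    ∑ n ∈ range (M * Y), wn w M H S n * rgh w M S n ≤
      2 * w.g ^ 2 * w.el * Y * (S.card * M.totient) := by
  have hg := w.one_le_g
  have hel := w.el0
  rw [k5_classes h.M0 (fun n x => x * rgh w M S n) (fun _ => zero_mul _)]
  have h1 : ∀ a ∈ (range M).filter (okc w M H S), ∑ t ∈ range Y,
      w.nu (Ac M S a) (Ac M (Icc 1 H) a) M t * rgh w M S (a + M * t) ≤
        ((Ac M S a).card : ℝ) * (2 * w.g ^ 2 * w.el * Y) := by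
    intro a ha
    have hsys := h.sys a (mem_filter.1 ha).2
    have h2 : ∀ b ∈ Ac M S a, ∑ t ∈ range Y, w.nu (Ac M S a) (Ac M (Icc 1 H) a) M t *
        (if hit w.P (b + M * t) = ∅ then 1 else 0) ≤ 2 * w.g ^ 2 * w.el * Y := fun b hb =>
      hsys.one_le Y h.long b hb
    have h3 := sum_le_sum h2
    rw [sum_const, nsmul_eq_mul, sum_comm] at h3
    refine le_trans (sum_le_sum fun t _ => ?_) h3
    rw [← mul_sum]
    refine mul_le_mul_of_nonneg_left ?_ (w.nu_nonneg _ _ _ _)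
    rw [← Finset.sum_filter, sum_const, nsmul_eq_mul, mul_one]
    have h4 : rgh w M S (a + M * t) ≤
        ((Ac M S a).filter (fun b => hit w.P (b + M * t) = ∅)).card := by
      unfold rgh
      refine card_le_card_of_injOn (fun x => a + x) ?_ ?_
      · intro x hx
        have hx' := mem_filter.1 (Finset.mem_coe.1 hx)
        have hx2 := (k5_rg w M a t x).1 hx'.2
        exact Finset.mem_coe.2 (mem_filter.2 ⟨k5_mem_Ac.2 ⟨hx'.1, hx2.1⟩, hx2.2⟩)
      · intro x _ y _ hxy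
        have : a + x = a + y := hxy
        omega
    exact_mod_cast h4
  refine (sum_le_sum h1).trans ?_
  rw [← sum_mul, mul_comm]
  refine mul_le_mul_of_nonneg_left ?_ (by positivity)
  have h5 : ∑ a ∈ (range M).filter (okc w M H S), (Ac M S a).card ≤ S.card * M.totient := by
    rw [← sum_card_Ac M S h.M0]
    exact sum_le_sum_of_subset (filter_subset _ _)
  exact_mod_cast h5

/-- `two_le`, `sum_pairs_le`; `T ⊆ S`. -/
theorem CS.sum_two_le {w : WG} {M H Y : ℕ} {S : Finset ℕ} (h : CS w M H Y S) (T : Finset ℕ)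
    (hT : T ⊆ S) :
    ∑ n ∈ range (M * Y), wn w M H S n * rgp w M T n ≤
      2 * w.g ^ 4 * w.el ^ 2 * Y * ((M.totient : ℝ) ^ 2 / M * psum T) := by
  have hg := w.one_le_g
  have hel := w.el0
  rw [k5_classes h.M0 (fun n x => x * rgp w M T n) (fun _ => zero_mul _)]
  set Pa : ℕ → Finset (ℕ × ℕ) := fun a => (T ×ˢ T).filter (fun z => z.1 ≠ z.2 ∧
    (a + z.1).Coprime M ∧ (a + z.2).Coprime M) with hPa
  have h1 : ∀ a ∈ (range M).filter (okc w M H S), ∑ t ∈ range Y,
      w.nu (Ac M S a) (Ac M (Icc 1 H) a) M t * rgp w M T (a + M * t) ≤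
        ((Pa a).card : ℝ) * (2 * w.g ^ 4 * w.el ^ 2 * Y) := by
    intro a ha
    have hsys := h.sys a (mem_filter.1 ha).2
    have h2 : ∀ z ∈ Pa a, ∑ t ∈ range Y, w.nu (Ac M S a) (Ac M (Icc 1 H) a) M t *
        (if hit w.P (a + z.1 + M * t) = ∅ ∧ hit w.P (a + z.2 + M * t) = ∅ then 1 else 0) ≤
          2 * w.g ^ 4 * w.el ^ 2 * Y := by
      intro z hz
      have hz' := mem_filter.1 hz
      have hzT := mem_product.1 hz'.1
      refine hsys.two_le Y h.long (a + z.1) (a + z.2) (k5_mem_Ac.2 ⟨hT hzT.1, hz'.2.2.1⟩)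
        (k5_mem_Ac.2 ⟨hT hzT.2, hz'.2.2.2⟩) ?_
      intro he
      exact hz'.2.1 (by omega)
    have h3 := sum_le_sum h2
    rw [sum_const, nsmul_eq_mul, sum_comm] at h3
    refine le_trans (sum_le_sum fun t _ => ?_) h3
    rw [← mul_sum]
    refine mul_le_mul_of_nonneg_left ?_ (w.nu_nonneg _ _ _ _)
    rw [← Finset.sum_filter, sum_const, nsmul_eq_mul, mul_one]
    have h4 : rgp w M T (a + M * t) ≤ ((Pa a).filter (fun z => hit w.P (a + z.1 + M * t) = ∅ ∧
        hit w.P (a + z.2 + M * t) = ∅)).card := by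
      unfold rgp
      refine card_le_card ?_
      intro z hz
      have hz' := mem_filter.1 hz
      have h5 := (k5_rg w M a t z.1).1 hz'.2.2.1
      have h6 := (k5_rg w M a t z.2).1 hz'.2.2.2
      exact mem_filter.2 ⟨mem_filter.2 ⟨hz'.1, hz'.2.1, h5.1, h6.1⟩, h5.2, h6.2⟩
    exact_mod_cast h4
  refine (sum_le_sum h1).trans ?_
  rw [← sum_mul, mul_comm]
  refine mul_le_mul_of_nonneg_left ?_ (by positivity)
  refine le_trans ?_ (sum_pairs_le M h.sqf T)
  exact sum_le_sum_of_subset_of_nonneg (filter_subset _ _) fun _ _ _ => Nat.cast_nonneg _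

/-- `prime_ge` for every good class and every `b = a + h ∈ Ac M S a` (`8 (M + H) ≤ X`). -/
theorem CS.sum_prime_ge {w : WG} {M H Y : ℕ} {S : Finset ℕ} (h : CS w M H Y S)
    {X Q' D : ℕ} {A0 A1 : ℝ} (hp : w.Prm M X Y Q' D A0 A1) (hX : 8 * (M + H) ≤ X)
    (hg : 9 / 10 * (S.card * (M.totient : ℝ)) ≤
      ∑ a ∈ (range M).filter (okc w M H S), ((Ac M S a).card : ℝ)) :
    w.g ^ 2 / 10 * S.card ≤ ∑ n ∈ range (M * Y), wn w M H S n * ∑ h ∈ S, lpv X (n + h) := by
  have hg1 := w.one_le_g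
  have htot : (0 : ℝ) < M.totient := Nat.cast_pos.2 (Nat.totient_pos.2 h.M0)
  rw [k5_classes h.M0 (fun n x => x * ∑ h ∈ S, lpv X (n + h)) (fun _ => zero_mul _)]
  have h1 : ∀ a ∈ (range M).filter (okc w M H S),
      ((Ac M S a).card : ℝ) * (w.g ^ 2 / (8 * (M.totient : ℝ))) ≤
      ∑ t ∈ range Y, w.nu (Ac M S a) (Ac M (Icc 1 H) a) M t *
        ∑ h ∈ S, lpv X (a + M * t + h) := by
    intro a ha
    have ha' := mem_filter.1 ha
    have haM := mem_range.1 ha'.1
    have hsys := h.sys a ha'.2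
    have h2 : ∀ b ∈ Ac M S a, w.g ^ 2 / (8 * (M.totient : ℝ)) ≤
        ∑ t ∈ range Y, w.nu (Ac M S a) (Ac M (Icc 1 H) a) M t * lpv X (b + M * t) := by
      intro b hb
      obtain ⟨x, hx, rfl⟩ := mem_image.1 hb
      have hx' := mem_filter.1 hx
      have hxH := mem_Icc.1 (h.SH hx'.1)
      exact hsys.prime_ge hp (a + x) hb hx'.2 (by omega)
    have h3 := sum_le_sum h2
    rw [sum_const, nsmul_eq_mul, sum_comm] at h3
    refine h3.trans (sum_le_sum fun t _ => ?_)
    rw [← mul_sum]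
    refine mul_le_mul_of_nonneg_left ?_ (w.nu_nonneg _ _ _ _)
    have h4 : ∑ b ∈ Ac M S a, lpv X (b + M * t) =
        ∑ x ∈ S.filter (fun x => (a + x).Coprime M), lpv X (a + M * t + x) := by
      unfold Ac
      rw [sum_image (fun x _ y _ hxy => by
        have : a + x = a + y := hxy
        omega)]
      refine sum_congr rfl fun x _ => ?_
      congr 1
      ring
    rw [h4]
    exact sum_le_sum_of_subset_of_nonneg (filter_subset _ _) fun _ _ _ => lpv_nonneg X _
  refine le_trans ?_ (sum_le_sum h1)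
  rw [← sum_mul]
  have h5 := mul_le_mul_of_nonneg_right hg
    (show 0 ≤ w.g ^ 2 / (8 * (M.totient : ℝ)) by positivity)
  refine le_trans ?_ h5
  have h6 : 9 / 10 * (S.card * (M.totient : ℝ)) * (w.g ^ 2 / (8 * (M.totient : ℝ))) =
      9 / 80 * (w.g ^ 2 * S.card) := by
    field_simp
    ring
  rw [h6]
  have h7 : 0 ≤ w.g ^ 2 * (S.card : ℝ) := by positivity
  linarith

end Pool.Agent.Lib.H92G
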