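import Pool.Agent.Lib.H92G.N4
import Pool.Agent.Lib.H92G.K5

/-!
# Chunk N5: everything for large `x`
-/

open Finset

namespace Pool.Agent.Lib.H92G

open Pool.Agent.Lib.H15P

/-- All facts for one value of `x` (`L = log x`). -/
structure AllX (c : Cons) (Λ C x : ℝ) (w : WG) (M X Y Q' D : ℕ) (A0 A1 : ℝ) : Prop where
  nA : w.nA = c.nA
  cA : w.cA = c.cA
  C : w.C = C
  e : w.e = c.e
  el : w.el ≤ 2000 * (c.Bn + 1) * Real.log (Real.log x) / (c.τ * Real.log x)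
  KA : c.αA * Real.log x / (2 * Real.log (Real.log x)) ≤ w.KA
  K : c.α * Real.log x / (2 * Real.log (Real.log x)) ≤ w.K
  M0 : 0 < M
  sqf : Squarefree M
  tot : (M.totient : ℝ) ≤ 400 / Real.log (Real.log x) * M
  prm : w.Prm M X Y Q' D A0 A1
  HW : ⌊Λ * Real.log x⌋₊ ≤ w.W
  cop : ∀ p ∈ w.P, ¬ p ∣ M
  long : w.Long Y
  X8 : 8 * (M + ⌊Λ * Real.log x⌋₊) ≤ X
  MY1 : (M : ℝ) * Y ≤ x
  MY2 : x / 2 ≤ (M : ℝ) * Y
  X1 : x / 121 ≤ X
  X2 : Real.log (60 * X) ≤ Real.log x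
  P4 : ∀ p ∈ w.P, (p : ℝ) ≤ x ^ (1 / 4 : ℝ)
  M4 : (M : ℝ) ≤ x ^ (1 / 4 : ℝ)
  Pt : ∀ p ∈ w.P, (p : ℝ) ≤ x ^ c.τ
  Mt : (M : ℝ) ≤ Real.exp (2 * Real.log x ^ (1 / 100 : ℝ))
  L1 : 1 ≤ Real.log (Real.log x)

/-- `log ⌈L^Bn⌉ ≤ (Bn + 1) log L`. -/
theorem n5_logW (Bn : ℕ) (L : ℝ) (hL : 2 ≤ L) :
    Real.log (⌈L ^ Bn⌉₊ : ℕ) ≤ ((Bn : ℝ) + 1) * Real.log L := by
  have hLpos : 0 < L := by linarith
  have h1 : ((⌈L ^ Bn⌉₊ : ℕ) : ℝ) < L ^ Bn + 1 := Nat.ceil_lt_add_one (by positivity)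
  have h2 : (1 : ℝ) ≤ L ^ Bn := one_le_pow₀ (by linarith)
  have h3 : ((⌈L ^ Bn⌉₊ : ℕ) : ℝ) ≤ L ^ (Bn + 1) := by
    rw [pow_succ]
    nlinarith
  have h4 : (0 : ℝ) < ((⌈L ^ Bn⌉₊ : ℕ) : ℝ) := by
    have : L ^ Bn ≤ ((⌈L ^ Bn⌉₊ : ℕ) : ℝ) := Nat.le_ceil _
    linarith
  have h5 := Real.log_le_log h4 h3
  rw [Real.log_pow] at h5
  push_cast at h5
  exact h5

theorem n5_floor (z : ℝ) (hz : 2 ≤ z) : z / 2 ≤ ((⌊z⌋₊ : ℕ) : ℝ) := by
  have := Nat.lt_floor_add_one z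
  linarith

theorem n5_log_le (c : ℝ) (hc : 0 < c) : ∀ᶠ L : ℝ in Filter.atTop, Real.log L ≤ c * L := by
  have h := Real.isLittleO_log_id_atTop.def hc
  filter_upwards [h, Filter.eventually_ge_atTop 1] with L hL hL1
  rwa [Real.norm_of_nonneg (Real.log_nonneg hL1), id, Real.norm_of_nonneg (by linarith)] at hL

/-- Everything that is needed for large `L`. -/
theorem n5_large (Λ K0 η τ α αA B : ℝ) (hα : 0 < α) (hαA : 0 < αA) (hη : 0 < η) (hτ : 0 < τ)
    (hK0 : 1 ≤ K0) (hΛ : 0 < Λ) :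
    ∃ L0 : ℝ, ∀ L : ℝ, L0 ≤ L → B ≤ L ∧ 200 ≤ L ∧ Λ ≤ L ∧ 2 * Real.log L ≤ αA * L ∧
      2 * Real.log L ≤ α * L ∧ 1 ≤ τ * L ∧ K0 * Real.log L + 1 ≤ η * L ∧
      K0 * (2 * L ^ (1 / 100 : ℝ)) + 5 + L / 4 ≤ L ∧ Real.exp K0 ≤ L - 5 ∧
      100000 ≤ Real.exp (L / 4) ∧ Λ * L ≤ Real.exp L / 100000 := by
  have a1 : ∀ᶠ L : ℝ in Filter.atTop, B ≤ L := Filter.eventually_ge_atTop _
  have a2 : ∀ᶠ L : ℝ in Filter.atTop, 200 ≤ L := Filter.eventually_ge_atTop _
  have a3 : ∀ᶠ L : ℝ in Filter.atTop, Λ ≤ L := Filter.eventually_ge_atTop _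
  have a4 := n5_log_le (αA / 2) (by positivity)
  have a5 := n5_log_le (α / 2) (by positivity)
  have a6 : ∀ᶠ L : ℝ in Filter.atTop, 1 / τ ≤ L := Filter.eventually_ge_atTop _
  have a7 := n5_log_le (η / (2 * K0)) (by positivity)
  have a7' : ∀ᶠ L : ℝ in Filter.atTop, 2 / η ≤ L := Filter.eventually_ge_atTop _
  have a8 := n4_rpow_le_rpow (1 / 100) 1 (4 * K0) (by norm_num)
  have a9 : ∀ᶠ L : ℝ in Filter.atTop, Real.exp K0 + 5 ≤ L := Filter.eventually_ge_atTop _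
  have a10 : ∀ᶠ L : ℝ in Filter.atTop, 400000 ≤ L := Filter.eventually_ge_atTop _
  have a11 := n4_rpow_le_exp 1 1 (1 / (100000 * Λ)) one_pos (by positivity)
  obtain ⟨L0, hL0⟩ := Filter.eventually_atTop.1
    (a1.and (a2.and (a3.and (a4.and (a5.and (a6.and (a7.and (a7'.and (a8.and (a9.and
      (a10.and a11)))))))))))
  refine ⟨L0, fun L hL => ?_⟩
  obtain ⟨h1, h2, h3, h4, h5, h6, h7, h7', h8, h9, h10, h11⟩ := hL0 L hL
  rw [Real.rpow_one] at h8 h11
  refine ⟨h1, h2, h3, by linarith, by linarith, ?_, ?_, ?_, by linarith, ?_, ?_⟩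
  · rw [div_le_iff₀ hτ] at h6
    linarith
  · have e1 : K0 * Real.log L ≤ K0 * (η / (2 * K0) * L) := by gcongr
    have e2 : K0 * (η / (2 * K0) * L) = η / 2 * L := by field_simp
    rw [div_le_iff₀ hη] at h7'
    linarith
  · linarith
  · have := Real.add_one_le_exp (L / 4)
    linarith
  · rw [one_mul] at h11
    have e1 : Λ * L ≤ Λ * (1 / (100000 * Λ) * Real.exp L) := by gcongr
    have e2 : Λ * (1 / (100000 * Λ) * Real.exp L) = Real.exp L / 100000 := by field_simp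
    linarith

/-- The inequalities for the regime. -/
theorem n5_RegP {K0 η L : ℝ} {D M X : ℕ} (hK0 : 1 ≤ K0) (hη : η ≤ 1 / (4 * K0))
    (hD : 1 ≤ D) (hM : 0 < M) (hD1 : Real.exp (η * L) / 2 ≤ D) (hD2 : (D : ℝ) ≤ Real.exp (η * L))
    (hM2 : (M : ℝ) ≤ Real.exp (2 * L ^ (1 / 100 : ℝ))) (hL : 200 ≤ L)
    (h1 : K0 * Real.log L + 1 ≤ η * L) (h2 : K0 * (2 * L ^ (1 / 100 : ℝ)) + 5 + L / 4 ≤ L)
    (h3 : Real.exp K0 ≤ L - 5) (hX1 : L - 5 ≤ Real.log X) (hX2 : Real.log X ≤ L) :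
    RegP K0 (D * M) X := by
  have hDr : (1 : ℝ) ≤ D := by exact_mod_cast hD
  have hMr : (1 : ℝ) ≤ M := by exact_mod_cast hM
  have hlogQ : Real.log ((D * M : ℕ) : ℝ) = Real.log D + Real.log M := by
    push_cast
    rw [Real.log_mul (by positivity) (by positivity)]
  have hlogM0 : 0 ≤ Real.log M := Real.log_nonneg hMr
  have hlogM : Real.log M ≤ 2 * L ^ (1 / 100 : ℝ) := by
    have := Real.log_le_log (by positivity) hM2
    rwa [Real.log_exp] at this
  have hlogD : Real.log D ≤ η * L := by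
    have := Real.log_le_log (by positivity) hD2
    rwa [Real.log_exp] at this
  have hlogD2 : η * L - 1 ≤ Real.log D := by
    have h4 := Real.log_le_log (by positivity) hD1
    rw [Real.log_div (Real.exp_pos _).ne' two_ne_zero, Real.log_exp] at h4
    have := Real.log_two_lt_d9
    linarith
  have hXpos : 0 < Real.log X := by linarith
  refine ⟨?_, ?_, ?_⟩
  · rw [Real.le_log_iff_exp_le hXpos]
    linarith
  · rw [hlogQ]
    have h4 : Real.log (Real.log X) ≤ Real.log L := Real.log_le_log hXpos hX2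
    have h5 : K0 * Real.log (Real.log X) ≤ K0 * Real.log L := by gcongr
    linarith
  · rw [hlogQ]
    have h4 : K0 * (η * L) ≤ L / 4 := by
      have h5 : K0 * η ≤ 1 / 4 := by
        have h6 := mul_le_mul_of_nonneg_left hη (by linarith : 0 ≤ K0)
        have h7 : K0 * (1 / (4 * K0)) = 1 / 4 := by
          have : K0 ≠ 0 := by linarith
          field_simp
        linarith
      have h6 := mul_le_mul_of_nonneg_right h5 (by linarith : (0 : ℝ) ≤ L)
      linarith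
    have h5 : K0 * (Real.log D + Real.log M) ≤ K0 * (η * L + 2 * L ^ (1 / 100 : ℝ)) := by
      gcongr
    have h6 : K0 * (η * L + 2 * L ^ (1 / 100 : ℝ)) = K0 * (η * L) + K0 * (2 * L ^ (1 / 100 : ℝ)) := by
      ring
    linarith

/-- Chunk N5. `L = log x`, `X = ⌊x/120⌋`, `p1` from `an_small` at `X`, `M = pM ⌊L^(1/100)⌋ p1`,
`Y = ⌊x/M⌋`, `D = ⌊exp (η L)⌋`, `Q' = D M`, `A0 = (log X)^C0`, `A1 = 1/log X`.
`exists_WG`, `Q_div_totient_le` (`T = τ L ≥ 1`), `asym_list`, `asym_long`, `modulus`.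
`RegP K0 Q' X`: `log Q' ≤ η L + 2 L^(1/100) ≤ (1/K0) log X` as `η ≤ 1/(4 K0)`, and
`log X ≥ L - 5`; `log Q' ≥ η L/2 ≥ K0 log L`. `p ∤ M` for `p ∈ P`: `p > W ≥ L ≥ y`. -/
theorem exists_all (c : Cons) (Λ C0 K0 : ℝ) (hΛ : 0 < Λ) (hC0 : 0 < C0) (hK0 : 1 ≤ K0)
    (hall : ∀ Q X : ℕ, RegP K0 Q X → A0s Q X ≤ Real.log X ^ C0)
    (hsmall : ∃ X0 : ℕ, ∀ X : ℕ, X0 ≤ X → ∃ p1 : ℕ, p1.Prime ∧ ∀ M : ℕ, 0 < M →
      (M : ℝ) ≤ Real.exp (Real.log X ^ (1 / 10 : ℝ)) → ¬ p1 ∣ M → A1s M X ≤ 1 / Real.log X)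
    (hmain : ∃ X0 : ℕ, ∀ X : ℕ, X0 ≤ X →
      1 / 2 ≤ ∑ m ∈ (Icc 1 (60 * X)).filter Nat.Prime, Real.log m * H68T.v X m / m ∧
      ∑ m ∈ (Icc 1 (60 * X)).filter Nat.Prime, Real.log m * H68T.v X m / m ≤ 10)
    (hη : c.η ≤ 1 / (4 * K0)) (hBn : 2 * C0 + 6 ≤ c.Bn) (hτ : c.τ ≤ 1 / 4) :
    ∃ C x0 : ℝ, 1 ≤ C ∧ ∀ x : ℝ, x0 ≤ x → ∃ (w : WG) (M X Y Q' D : ℕ) (A0 A1 : ℝ),
      AllX c Λ C x w M X Y Q' D A0 A1 := by
  obtain ⟨C, LW, hC, hLW, hWG⟩ := exists_WG c
  obtain ⟨XS, hXS⟩ := hsmall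
  obtain ⟨XM, hXM⟩ := hmain
  obtain ⟨CM, hCM, hQt⟩ := Q_div_totient_le
  obtain ⟨LM, hLM⟩ := modulus (1 / 4) (by norm_num)
  obtain ⟨LA, hLA1, hLA⟩ := asym_list c.η c.τ c.α C0 C CM c.Bn c.hη c.hτ c.hα hC0.le hC hCM hBn
  have hη1 : c.η ≤ 1 := by
    refine hη.trans ?_
    rw [div_le_one (by positivity)]
    linarith
  have hg1 : 1 ≤ 1 + (c.nA : ℝ) * c.cA := by
    have := mul_nonneg (Nat.cast_nonneg c.nA) c.hcA
    linarith
  obtain ⟨LB, hLB1, hLB⟩ := asym_long c.η c.α c.e (1 + (c.nA : ℝ) * c.cA) c.hη hη1 c.hα c.he0 hg1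
  obtain ⟨LE, hLE⟩ := n5_large Λ K0 c.η c.τ c.α c.αA (max (max LW LM) (max LA LB)) c.hα c.hαA c.hη
    c.hτ hK0 hΛ
  refine ⟨C, max (Real.exp LE) (max 1 (121 * (max XS XM : ℕ))), hC, fun x hx => ?_⟩
  have hxE : Real.exp LE ≤ x := (le_max_left _ _).trans hx
  have hx1 : 1 ≤ x := ((le_max_left _ _).trans (le_max_right _ _)).trans hx
  have hxS : (121 : ℝ) * ((max XS XM : ℕ) : ℝ) ≤ x :=
    ((le_max_right _ _).trans (le_max_right _ _)).trans hx
  have hx0 : 0 < x := by linarith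
  set L := Real.log x with hLdef
  have hxL : Real.exp L = x := Real.exp_log hx0
  have hLE' : LE ≤ L := by
    rw [hLdef, Real.le_log_iff_exp_le hx0]
    exact hxE
  obtain ⟨b1, b2, b3, b4, b5, b6, b7, b8, b9, b10, b11⟩ := hLE L hLE'
  have bW : LW ≤ L := (le_max_left _ _).trans ((le_max_left _ _).trans b1)
  have bM : LM ≤ L := (le_max_right _ _).trans ((le_max_left _ _).trans b1)
  have bA : LA ≤ L := (le_max_left _ _).trans ((le_max_right _ _).trans b1)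
  have bB : LB ≤ L := (le_max_right _ _).trans ((le_max_right _ _).trans b1)
  have hLpos : 0 < L := by linarith
  have hlogL1 : 1 ≤ Real.log L := by
    rw [Real.le_log_iff_exp_le hLpos]
    have := Real.exp_one_lt_d9
    linarith
  -- powers of `x`
  set u := Real.exp (L / 4) with hu
  have hu4 : u ^ 4 = x := by
    rw [hu, ← Real.exp_nat_mul, ← hxL]
    congr 1
    push_cast
    ring
  have hux : x ^ (1 / 4 : ℝ) = u := by
    rw [Real.rpow_def_of_pos hx0, hu]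
    congr 1
    ring
  have hupos : 0 < u := Real.exp_pos _
  have hu3 : 100000 ≤ u := b10
  have hu2x : 100000 * (100000 * (100000 * u)) ≤ x := by
    rw [← hu4]
    have e1 : 100000 * u ≤ u * u := by gcongr
    have e2 : 100000 * (100000 * u) ≤ u * (u * u) :=
      mul_le_mul hu3 e1 (by positivity) hupos.le
    have e3 : 100000 * (100000 * (100000 * u)) ≤ u * (u * (u * u)) :=
      mul_le_mul hu3 e2 (by positivity) hupos.le
    calc _ ≤ _ := e3
      _ = u ^ 4 := by ring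
  have hxbig : 100000 * (100000 * (100000 * 100000)) ≤ x := by
    refine le_trans ?_ hu2x
    gcongr
  -- the scale
  set X := ⌊x / 120⌋₊ with hX
  have hX1 : x / 121 ≤ X := by
    have := Nat.lt_floor_add_one (x / 120)
    rw [← hX] at this
    linarith
  have hX2 : (X : ℝ) ≤ x / 120 := Nat.floor_le (by positivity)
  have hXr : (0 : ℝ) < X := by
    have : 0 < x / 121 := by positivity
    linarith
  have hXpos : 0 < X := by exact_mod_cast hXr
  have hXSM : max XS XM ≤ X := by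
    have : ((max XS XM : ℕ) : ℝ) ≤ X := by linarith
    exact_mod_cast this
  have hlogX1 : L - 5 ≤ Real.log X := by
    have h1 := Real.log_le_log (by positivity) hX1
    rw [Real.log_div hx0.ne' (by norm_num), ← hLdef] at h1
    have h2 : Real.log 121 ≤ 5 := by
      rw [Real.log_le_iff_le_exp (by norm_num)]
      have h3 : (121 : ℝ) ≤ 2.7 ^ 5 := by norm_num
      have h4 : (2.7 : ℝ) ^ 5 ≤ Real.exp 1 ^ 5 := by
        have := Real.exp_one_gt_d9
        gcongr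
        linarith
      have h5 : Real.exp 1 ^ 5 = Real.exp 5 := by
        rw [← Real.exp_nat_mul]
        norm_num
      linarith
    linarith
  have hlogX2 : Real.log X ≤ L := Real.log_le_log hXr (by linarith)
  -- the modulus
  obtain ⟨p1, hp1, hp1'⟩ := hXS X ((le_max_left _ _).trans hXSM)
  obtain ⟨m1, m2, m3, m4, m5⟩ := hLM L bM p1 hp1
  set M := pM ⌊L ^ (1 / 100 : ℝ)⌋₊ p1 with hM
  have hMpos : 0 < M := pM_pos _ _
  have hMr : (1 : ℝ) ≤ M := by exact_mod_cast hMpos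
  have hMu : (M : ℝ) ≤ u := by
    rw [hu]
    refine m2.trans (le_of_eq ?_)
    congr 1
    ring
  set Y := ⌊x / M⌋₊ with hY
  have hY1 : (M : ℝ) * Y ≤ x := by
    have h1 : (Y : ℝ) ≤ x / M := Nat.floor_le (by positivity)
    calc (M : ℝ) * Y ≤ M * (x / M) := by gcongr
      _ = x := by field_simp
  have hY2 : x - M ≤ (M : ℝ) * Y := by
    have h1 : x / M < (Y : ℝ) + 1 := Nat.lt_floor_add_one _
    rw [div_lt_iff₀ (by linarith)] at h1
    linarith
  have hYu : Real.exp (L / 2) ≤ Y := by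
    have e1 : Real.exp (L / 2) = u ^ 2 := by
      rw [hu, ← Real.exp_nat_mul]
      congr 1
      push_cast
      ring
    rw [e1]
    have h1 : x / M < (Y : ℝ) + 1 := Nat.lt_floor_add_one _
    have h2 : u ^ 3 ≤ x / M := by
      rw [le_div_iff₀ (by linarith)]
      calc u ^ 3 * M ≤ u ^ 3 * u := by gcongr
        _ = u ^ 4 := by ring
        _ = x := hu4
    have h3 : u ^ 2 + 1 ≤ u ^ 3 := by
      have : u ^ 3 = u * u ^ 2 := by ring
      nlinarith [sq_nonneg u]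
    linarith
  -- the periods
  set D := ⌊Real.exp (c.η * L)⌋₊ with hD
  have hexp1 : 1 ≤ Real.exp (c.η * L) := Real.one_le_exp (by have := c.hη; positivity)
  have hD1 : 1 ≤ D := Nat.le_floor (by exact_mod_cast hexp1)
  have hD2 : (D : ℝ) ≤ Real.exp (c.η * L) := Nat.floor_le (Real.exp_pos _).le
  have hD3 : Real.exp (c.η * L) / 2 ≤ D := by
    have h1 := Nat.lt_floor_add_one (Real.exp (c.η * L))
    rw [← hD] at h1
    have h2 : (1 : ℝ) ≤ D := by exact_mod_cast hD1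
    linarith
  have hReg : RegP K0 (D * M) X :=
    n5_RegP hK0 hη hD1 hMpos hD3 hD2 m1 b2 b7 b8 b9 hlogX1 hlogX2
  -- the weights
  obtain ⟨w, wP, wW, wKA, wK, wnA, wcA, wC, wlv, we, wel⟩ := hWG L bW
  have hWL : L ^ c.Bn ≤ (w.W : ℝ) := by rw [wW]; exact Nat.le_ceil _
  have hL3 : L ^ 3 ≤ L ^ c.Bn := pow_le_pow_right₀ (by linarith) c.hBn
  have hLL : L ≤ L ^ 3 := by
    calc L = L ^ 1 := (pow_one L).symm
      _ ≤ L ^ 3 := pow_le_pow_right₀ (by linarith) (by norm_num)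
  have hLL2 : Λ * L ≤ L ^ 3 := by
    have e1 : Λ * L ≤ L * L := by gcongr
    have e2 : L * L ≤ L ^ 3 := by
      have : L ^ 3 = L * L * L := by ring
      rw [this]
      have h3 : 0 ≤ L * L := by positivity
      nlinarith
    linarith
  have hWpos : (0 : ℝ) < w.W := by linarith [hWL, hL3, hLL]
  have hWnat : L ≤ (w.W : ℝ) := by linarith
  have hKle : (w.K : ℝ) ≤ c.α * L := by
    rw [wK]
    have h1 : ((⌊c.α * L / Real.log L⌋₊ : ℕ) : ℝ) ≤ c.α * L / Real.log L :=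
      Nat.floor_le (by have := c.hα; positivity)
    refine h1.trans (div_le_self (by have := c.hα; positivity) hlogL1)
  have hτL : 0 < c.τ * L := by linarith
  have hpP : ∀ p ∈ w.P, p.Prime ∧ w.W < p ∧ (p : ℝ) ≤ u := by
    intro p hp
    rw [wP] at hp
    unfold PP at hp
    obtain ⟨h1, h2⟩ := mem_filter.1 hp
    obtain ⟨h3, h4⟩ := mem_Ioc.1 h1
    refine ⟨h2, h3, ?_⟩
    have h5 : (p : ℝ) ≤ Real.exp (c.τ * L) := by
      have h6 : ((⌊Real.exp (c.τ * L)⌋₊ : ℕ) : ℝ) ≤ Real.exp (c.τ * L) :=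
        Nat.floor_le (Real.exp_pos _).le
      have h7 : (p : ℝ) ≤ ((⌊Real.exp (c.τ * L)⌋₊ : ℕ) : ℝ) := by exact_mod_cast h4
      linarith
    refine h5.trans (Real.exp_le_exp.2 ?_)
    have := mul_le_mul_of_nonneg_right hτ hLpos.le
    linarith
  have hA0pos : 0 ≤ Real.log X ^ C0 := Real.rpow_nonneg (by linarith) _
  have hA0L : Real.log X ^ C0 ≤ L ^ C0 := Real.rpow_le_rpow (by linarith) hlogX2 hC0.le
  obtain ⟨n1, n2, n3, n4⟩ := hLA L bA w.K w.W M D (Real.log X ^ C0) (Nat.cast_nonneg _) hKle hWL hMr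
    m1 hD3 hA0pos hA0L
  have hQ1 : ((∏ p ∈ w.P, p : ℕ) : ℝ) / ((∏ p ∈ w.P, p).totient : ℝ) ≤ CM * (c.τ * L) := by
    rw [wP]
    exact hQt w.W (c.τ * L) b6
  have hA1le : 1 / Real.log X ≤ 1 / 100 := by
    apply one_div_le_one_div_of_le (by norm_num)
    linarith
  have hΛL : ((⌊Λ * L⌋₊ : ℕ) : ℝ) ≤ x / 100000 := by
    have h1 : ((⌊Λ * L⌋₊ : ℕ) : ℝ) ≤ Λ * L := Nat.floor_le (by positivity)
    rw [hxL] at b11
    linarith
  refine ⟨w, M, X, Y, D * M, D, Real.log X ^ C0, 1 / Real.log X, ?_⟩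
  refine
    { nA := wnA
      cA := wcA
      C := wC
      e := we
      el := ?_
      KA := ?_
      K := ?_
      M0 := hMpos
      sqf := pM_squarefree _ _
      tot := m3
      prm := ?_
      HW := ?_
      cop := ?_
      long := ?_
      X8 := ?_
      MY1 := hY1
      MY2 := by linarith
      X1 := hX1
      X2 := ?_
      P4 := ?_
      M4 := by rw [hux]; exact hMu
      Pt := by
        intro p hp
        rw [wP] at hp
        unfold PP at hp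
        obtain ⟨h1, h2⟩ := mem_filter.1 hp
        obtain ⟨h3, h4⟩ := mem_Ioc.1 h1
        have h6 : ((⌊Real.exp (c.τ * L)⌋₊ : ℕ) : ℝ) ≤ Real.exp (c.τ * L) :=
          Nat.floor_le (Real.exp_pos _).le
        have h7 : (p : ℝ) ≤ ((⌊Real.exp (c.τ * L)⌋₊ : ℕ) : ℝ) := by exact_mod_cast h4
        rw [Real.rpow_def_of_pos hx0, mul_comm (Real.log x)]
        exact h7.trans h6
      Mt := m1
      L1 := hlogL1 }
  · rw [wel, wW]
    have h1 := n5_logW c.Bn L (by linarith)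
    have h2 : 2000 * Real.log (⌈L ^ c.Bn⌉₊ : ℕ) ≤ 2000 * ((c.Bn : ℝ) + 1) * Real.log L := by
      linarith
    exact div_le_div_of_nonneg_right h2 hτL.le
  · rw [wKA]
    have h1 : 2 ≤ c.αA * L / Real.log L := by
      rw [le_div_iff₀ (by linarith)]
      exact b4
    refine le_trans (le_of_eq ?_) (n5_floor _ h1)
    rw [div_div, mul_comm 2 (Real.log L)]
  · rw [wK]
    have h1 : 2 ≤ c.α * L / Real.log L := by
      rw [le_div_iff₀ (by linarith)]
      exact b5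
    refine le_trans (le_of_eq ?_) (n5_floor _ h1)
    rw [div_div, mul_comm 2 (Real.log L)]
  · refine
      { M0 := hMpos
        X0 := hXpos
        PX := ?_
        MX := ?_
        YX := ?_
        D1 := hD1
        DM := le_rfl
        A0nn := hA0pos
        hA0 := hall _ _ hReg
        hA1 := ?_
        m1 := (hXM X ((le_max_right _ _).trans hXSM)).1
        m2 := (hXM X ((le_max_right _ _).trans hXSM)).2
        n1 := n1
        n2 := ?_
        n3 := hA1le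
        n4 := ?_
        n5 := ?_ }
    · intro p hp
      have h1 := (hpP p hp).2.2
      have h2 : 8 * (p : ℝ) < X := by linarith
      exact_mod_cast h2
    · have h2 : 8 * (M : ℝ) < X := by linarith
      exact_mod_cast h2
    · have h2 : 60 * (X : ℝ) < M * Y := by linarith
      exact_mod_cast h2
    · refine hp1' M hMpos ?_ ?_
      · refine m1.trans (m5.trans (Real.exp_le_exp.2 ?_))
        exact Real.rpow_le_rpow (by linarith) (by linarith) (by norm_num)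
      · rw [hM, prime_dvd_pM _ _ _ hp1]
        exact fun h => h.2 rfl
    · rw [wC]
      refine le_trans ?_ n2
      exact mul_le_mul_of_nonneg_right hQ1 (by positivity)
    · rw [wlv]
      refine le_trans ?_ n3
      refine mul_le_mul_of_nonneg_left ?_ (by positivity)
      linarith
    · rw [wC]
      refine le_trans ?_ n4
      refine mul_le_mul_of_nonneg_right ?_ hA0pos
      exact mul_le_mul_of_nonneg_left hQ1 (by positivity)
  · have h1 : ((⌊Λ * L⌋₊ : ℕ) : ℝ) ≤ Λ * L := Nat.floor_le (by positivity)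
    have h2 : ((⌊Λ * L⌋₊ : ℕ) : ℝ) ≤ w.W := by linarith
    exact_mod_cast h2
  · intro p hp hdvd
    obtain ⟨h1, h2, _⟩ := hpP p hp
    rw [hM, prime_dvd_pM _ _ _ h1] at hdvd
    have h3 : (p : ℝ) ≤ ((⌊L ^ (1 / 100 : ℝ)⌋₊ : ℕ) : ℝ) := by exact_mod_cast hdvd.1
    have h4 : (w.W : ℝ) < p := by exact_mod_cast h2
    linarith
  · unfold WG.Long
    have hel : 1 / L ^ 2 ≤ w.el := by
      rw [wel]
      have h1 : Real.log L ≤ Real.log w.W := Real.log_le_log hLpos hWnat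
      rw [div_le_div_iff₀ (by positivity) hτL]
      have h2 : c.τ * L ≤ 1 / 4 * L := mul_le_mul_of_nonneg_right hτ hLpos.le
      have h3 : L ≤ L ^ 2 := by nlinarith
      have h4 : 1 * L ^ 2 ≤ (2000 * Real.log w.W) * L ^ 2 := by
        apply mul_le_mul_of_nonneg_right _ (by positivity)
        linarith
      linarith
    have h1 := hLB L bB w.K w.el Y (Nat.cast_nonneg _) hKle hel hYu
    rw [wlv, we]
    unfold WG.g
    rw [wnA, wcA]
    exact h1
  · have h2 : 8 * ((M : ℝ) + ((⌊Λ * L⌋₊ : ℕ) : ℝ)) ≤ X := by linarith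
    exact_mod_cast h2
  · apply Real.log_le_log (by positivity)
    linarith
  · intro p hp
    rw [hux]
    exact (hpP p hp).2.2

end Pool.Agent.Lib.H92G
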