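import Pool.Agent.Lib.H92G.Defs
import Pool.Agent.Lib.H15P.LV1
import Pool.Agent.Lib.H15P.LV4

/-!
# Chunk G4: the level

Compare `H15P/LV4` (`lv4_main`, `card_adm_le`).
-/

open Finset

namespace Pool.Agent.Lib.H92G

open Pool.Agent.Lib.H15P

variable {J I : Type} [Fintype J] [DecidableEq J] [Fintype I] [DecidableEq I]

/-- Every term has level at most `|w l| ∏_i KD_i^(cnt l i) ≤ wm ∏_i KD_i^(m i)` (`KD ≥ 1`; a label
`none` contributes the constant `1`, of level `1`: `Lev.const`). `card_adm_le` for the number of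
terms. -/
theorem lev_LW (P : Finset ℕ) (hP : ∀ p ∈ P, p.Prime) (D : J → I → Finset {p // p ∈ P} → ℝ)
    (KD : I → ℝ) (hK : ∀ i, 1 ≤ KD i) (hD : ∀ j i, LevS P (D j i) (KD i)) (m : I → ℕ)
    (B : Finset J) (M : ℕ) (b : J → ℕ) (w : (J → Option I) → ℝ) (wm : ℝ) (hw0 : 0 ≤ wm)
    (hw : ∀ l, |w l| ≤ wm) :
    Lev (∏ p ∈ P, p) (fun t => LW D (adm B m) w (fun j => hit P (b j + M * t)))
      (wm * (3 * ((Fintype.card I : ℝ) * Fintype.card J + 1) ^ (∑ i, m i) *
        ∏ i, KD i ^ m i)) := by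
  have hQ : 0 < ∏ p ∈ P, p := Finset.prod_pos fun p hp => (hP p hp).pos
  have hfac : ∀ (o : Option I) (j : J), Lev (∏ p ∈ P, p)
      (fun t => dg D j o (hit P (b j + M * t))) (o.elim 1 KD) := by
    intro o j
    cases o with
    | none =>
      have h1 := Lev.const hQ 1
      rw [abs_one] at h1
      exact h1
    | some i => exact hD j i M (b j)
  have hterm : ∀ l ∈ adm B m, Lev (∏ p ∈ P, p)
      (fun t => w l * ∏ j, dg D j (l j) (hit P (b j + M * t))) (wm * ∏ i, KD i ^ m i) := by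
    intro l hl
    rw [lv4_mem_adm] at hl
    have h1 := Lev.prod (univ : Finset J) (fun j t => dg D j (l j) (hit P (b j + M * t)))
      (fun j => (l j).elim 1 KD) hQ (fun j _ => hfac (l j) j)
    have h2 := h1.const_mul (w l)
    refine Lev.mono _ _ _ h2 ?_
    rw [lv4_prod_kd]
    have h3 : ∏ i, KD i ^ cnt l i ≤ ∏ i, KD i ^ m i := by
      apply Finset.prod_le_prod
      · intro i _
        exact pow_nonneg (by linarith [hK i]) _
      · intro i _
        exact pow_le_pow_right₀ (hK i) (hl.2 i)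
    have h4 : 0 ≤ ∏ i, KD i ^ cnt l i :=
      Finset.prod_nonneg fun i _ => pow_nonneg (by linarith [hK i]) _
    calc |w l| * ∏ i, KD i ^ cnt l i ≤ wm * ∏ i, KD i ^ cnt l i :=
          mul_le_mul_of_nonneg_right (hw l) h4
      _ ≤ wm * ∏ i, KD i ^ m i := mul_le_mul_of_nonneg_left h3 hw0
  have hs := Lev.sum (adm B m) (fun l t => w l * ∏ j, dg D j (l j) (hit P (b j + M * t)))
    (fun _ => wm * ∏ i, KD i ^ m i) hQ hterm
  unfold LW
  refine Lev.mono _ _ _ hs ?_
  rw [Finset.sum_const, nsmul_eq_mul]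
  have h5 : 0 ≤ wm * ∏ i, KD i ^ m i :=
    mul_nonneg hw0 (Finset.prod_nonneg fun i _ => pow_nonneg (by linarith [hK i]) _)
  calc ((adm B m).card : ℝ) * (wm * ∏ i, KD i ^ m i)
      ≤ (3 * ((Fintype.card I : ℝ) * Fintype.card J + 1) ^ (∑ i, m i)) *
        (wm * ∏ i, KD i ^ m i) := mul_le_mul_of_nonneg_right (card_adm_le B m) h5
    _ = _ := by ring

end Pool.Agent.Lib.H92G
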