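import Pool.Agent.Lib.H92G.Defs
import Pool.Agent.Lib.H15P.PB3
import Pool.Agent.Lib.H15P.PB6

/-!
# Chunk G2: the fourth moment

Compare `H15P/PB6` (`EX_LL_four_le`).
-/

open Finset

namespace Pool.Agent.Lib.H92G

open Pool.Agent.Lib.H15P

variable {ι J I : Type} [Fintype ι] [DecidableEq ι] [Fintype J] [DecidableEq J] [Fintype I]
  [DecidableEq I]

omit [Fintype J] [DecidableEq J] [Fintype I] [DecidableEq I] in
theorem g2_L1 (q : ι → ℝ) (D : J → I → Finset ι → ℝ) (h : ℝ) (hg : GoodJ q D h)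
    (hh : 0 ≤ h) (j : J) (i : I) : |ex q (fun A => D j i A)| ≤ h := by
  have e : ex q (fun A => D j i A) = 0 := hg.mean j i
  rw [e, abs_zero]
  exact hh

omit [Fintype J] [DecidableEq J] [Fintype I] [DecidableEq I] in
theorem g2_L2 (q : ι → ℝ) (D : J → I → Finset ι → ℝ) (h : ℝ) (hg : GoodJ q D h)
    (j : J) (i i' : I) : |ex q (fun A => D j i A * D j i' A)| ≤ h := by
  refine (pb6_abs_ex_le q hg.q0 hg.q1 _ (fun A => (1 / 2) * D j i A ^ 2 + (1 / 2) * D j i' A ^ 2)
    (fun A => ?_)).trans ?_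
  · rw [abs_mul]
    exact pb6_two _ _
  · rw [ex_add, ex_const_mul, ex_const_mul]
    have h1 := hg.sq j i
    have h2 := hg.sq j i'
    linarith

omit [Fintype J] [DecidableEq J] [Fintype I] [DecidableEq I] in
theorem g2_L3 (q : ι → ℝ) (D : J → I → Finset ι → ℝ) (h : ℝ) (hg : GoodJ q D h)
    (j : J) (i i' i'' : I) : |ex q (fun A => D j i A * D j i' A * D j i'' A)| ≤ h := by
  refine (pb6_abs_ex_le q hg.q0 hg.q1 _ (fun A => (1 / 2) * D j i A ^ 2 +
    ((1 / 4) * D j i' A ^ 4 + (1 / 4) * D j i'' A ^ 4)) (fun A => ?_)).trans ?_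
  · rw [abs_mul, abs_mul]
    exact pb6_three _ _ _
  · rw [ex_add, ex_const_mul, ex_add, ex_const_mul, ex_const_mul]
    have h1 := hg.sq j i
    have h2 := hg.fourth j i'
    have h3 := hg.fourth j i''
    linarith

omit [Fintype J] [DecidableEq J] [Fintype I] [DecidableEq I] in
theorem g2_L4 (q : ι → ℝ) (D : J → I → Finset ι → ℝ) (h : ℝ) (hg : GoodJ q D h)
    (j : J) (i i' i'' i''' : I) :
    |ex q (fun A => D j i A * D j i' A * D j i'' A * D j i''' A)| ≤ h := by
  refine (pb6_abs_ex_le q hg.q0 hg.q1 _ (fun A => ((1 / 4) * D j i A ^ 4 +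
    (1 / 4) * D j i' A ^ 4) + ((1 / 4) * D j i'' A ^ 4 + (1 / 4) * D j i''' A ^ 4))
    (fun A => ?_)).trans ?_
  · rw [abs_mul, abs_mul, abs_mul]
    exact pb6_four _ _ _ _
  · rw [ex_add, ex_add, ex_const_mul, ex_const_mul, ex_add, ex_const_mul, ex_const_mul]
    have h1 := hg.fourth j i
    have h2 := hg.fourth j i'
    have h3 := hg.fourth j i''
    have h4 := hg.fourth j i'''
    linarith

omit [Fintype J] [DecidableEq J] [Fintype I] [DecidableEq I] in
/-- Moments of products of at most four factors of the same form, not all of them trivial. One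
factor: mean `0`. Two, three, four factors: `|ab| ≤ (a^2 + b^2)/2`, `|abc| ≤ (a^2 + (bc)^2)/2`,
`(bc)^2 ≤ (b^4 + c^4)/2`, `|abcd| ≤ (a^4 + b^4 + c^4 + d^4)/4` (`pb6_two`, `pb6_three`,
`pb6_four`). -/
theorem abs_ex_four_leJ (q : ι → ℝ) (D : J → I → Finset ι → ℝ) (h : ℝ) (hg : GoodJ q D h)
    (hh : 0 ≤ h) (j : J) (o : Fin 4 → Option I) (ho : ∃ k, o k ≠ none) :
    |ex q (fun A => ∏ k, dg D j (o k) A)| ≤ h := by
  simp only [Fin.prod_univ_four]
  rcases h0 : o 0 with _ | i0 <;> rcases h1 : o 1 with _ | i1 <;>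
    rcases h2 : o 2 with _ | i2 <;> rcases h3 : o 3 with _ | i3 <;>
    simp only [dg, one_mul, mul_one]
  · exfalso
    obtain ⟨k, hk⟩ := ho
    fin_cases k
    · exact hk h0
    · exact hk h1
    · exact hk h2
    · exact hk h3
  · exact g2_L1 q D h hg hh j i3
  · exact g2_L1 q D h hg hh j i2
  · exact g2_L2 q D h hg j i2 i3
  · exact g2_L1 q D h hg hh j i1
  · exact g2_L2 q D h hg j i1 i3
  · exact g2_L2 q D h hg j i1 i2
  · exact g2_L3 q D h hg j i1 i2 i3
  · exact g2_L1 q D h hg hh j i0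
  · exact g2_L2 q D h hg j i0 i3
  · exact g2_L2 q D h hg j i0 i2
  · exact g2_L3 q D h hg j i0 i2 i3
  · exact g2_L2 q D h hg j i0 i1
  · exact g2_L3 q D h hg j i0 i1 i3
  · exact g2_L3 q D h hg j i0 i1 i2
  · exact g2_L4 q D h hg j i0 i1 i2 i3

/-- `LG^4 = ∑_{l : Fin 4 → adm B m} ∏_j ∏_k dg D j (l k j) (S j)`; by `EX_prod` the mean value is
`∑_l ∏_j ex (∏_k dg D j (l k j))`, at most `∑ ∏_j E (fun k => l k j)` over all families supported
in `B` with `E(o) = 1` if all `o k = none`, else `h`. As a sum over `J → (Fin 4 → Option I)`,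
`sum_supp` gives `(1 + ((|I|+1)^4 - 1) h)^|B| ≤ exp ((|I|+1)^4 h |B|)`. -/
theorem EX_LG_four_le (q : ι → ℝ) (D : J → I → Finset ι → ℝ) (h : ℝ) (hg : GoodJ q D h)
    (hh : 0 ≤ h) (m : I → ℕ) (B : Finset J) :
    EX q (fun S : J → Finset ι => LG D m B S ^ 4)
      ≤ Real.exp (((Fintype.card I : ℝ) + 1) ^ 4 * h * B.card) := by
  classical
  set E : (Fin 4 → Option I) → ℝ := fun o => if o = (fun _ => none) then 1 else h with hE
  have hE0 : ∀ o, 0 ≤ E o := by
    intro o
    simp only [hE]
    split_ifs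
    · exact zero_le_one
    · exact hh
  have h4 : ∀ S : J → Finset ι, LG D m B S ^ 4 =
      ∑ x ∈ Fintype.piFinset (fun _ : Fin 4 => adm B m), ∏ j, ∏ k, dg D j (x k j) (S j) := by
    intro S
    have e1 : LG D m B S ^ 4 = ∏ _k : Fin 4, ∑ l ∈ adm B m, ∏ j, dg D j (l j) (S j) := by
      rw [Finset.prod_const, Finset.card_univ, Fintype.card_fin]
      unfold LG LW
      simp only [one_mul]
    rw [e1, Finset.prod_univ_sum]
    refine Finset.sum_congr rfl (fun x _ => ?_)
    rw [Finset.prod_comm]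
  have h5 : EX q (fun S : J → Finset ι => LG D m B S ^ 4) =
      ∑ x ∈ Fintype.piFinset (fun _ : Fin 4 => adm B m),
        ∏ j, ex q (fun A => ∏ k, dg D j (x k j) A) := by
    have e2 : (fun S : J → Finset ι => LG D m B S ^ 4) = (fun S : J → Finset ι =>
        ∑ x ∈ Fintype.piFinset (fun _ : Fin 4 => adm B m), ∏ j, ∏ k, dg D j (x k j) (S j)) :=
      funext h4
    rw [e2, EX_sum]
    refine Finset.sum_congr rfl (fun x _ => ?_)
    exact EX_prod q (fun j A => ∏ k, dg D j (x k j) A)
  have h6 : ∀ (j : J) (o : Fin 4 → Option I), |ex q (fun A => ∏ k, dg D j (o k) A)| ≤ E o := by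
    intro j o
    by_cases ho : o = (fun _ => none)
    · subst ho
      simp only [hE, if_true, dg, Finset.prod_const_one]
      rw [ex_one, abs_one]
    · have ho' : ∃ k, o k ≠ none := by
        by_contra hcon
        push Not at hcon
        exact ho (funext hcon)
      simp only [hE, if_neg ho]
      exact abs_ex_four_leJ q D h hg hh j o ho'
  have hinj : Function.Injective
      (fun (x : Fin 4 → J → Option I) (j : J) (k : Fin 4) => x k j) := by
    intro x y hxy
    funext k j
    exact congrFun (congrFun hxy j) k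
  have hcard : ∑ ω, E ω ≤ 1 + ((Fintype.card I : ℝ) + 1) ^ 4 * h := by
    rw [← Finset.add_sum_erase univ E (Finset.mem_univ (fun _ => none))]
    have e3 : E (fun _ => none) = 1 := by simp only [hE, if_true]
    have e4 : ∑ ω ∈ univ.erase (fun _ : Fin 4 => (none : Option I)), E ω
        = ∑ ω ∈ univ.erase (fun _ : Fin 4 => (none : Option I)), h := by
      refine Finset.sum_congr rfl (fun ω hω => ?_)
      simp only [hE, if_neg (Finset.ne_of_mem_erase hω)]
    rw [e3, e4, Finset.sum_const, nsmul_eq_mul]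
    have e5 : ((univ.erase (fun _ : Fin 4 => (none : Option I))).card : ℝ)
        ≤ ((Fintype.card I : ℝ) + 1) ^ 4 := by
      have : (univ.erase (fun _ : Fin 4 => (none : Option I))).card
          ≤ (Fintype.card I + 1) ^ 4 := by
        refine (Finset.card_erase_le).trans ?_
        rw [Finset.card_univ, Fintype.card_fun, Fintype.card_option, Fintype.card_fin]
      exact_mod_cast this
    have := mul_le_mul_of_nonneg_right e5 hh
    linarith
  rw [h5]
  calc ∑ x ∈ Fintype.piFinset (fun _ : Fin 4 => adm B m),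
        ∏ j, ex q (fun A => ∏ k, dg D j (x k j) A)
      ≤ ∑ x ∈ Fintype.piFinset (fun _ : Fin 4 => adm B m), ∏ j, E (fun k => x k j) := by
        apply Finset.sum_le_sum
        intro x _
        refine (le_abs_self _).trans ?_
        rw [Finset.abs_prod]
        exact Finset.prod_le_prod (fun j _ => abs_nonneg _) (fun j _ => h6 j _)
    _ = ∑ y ∈ (Fintype.piFinset (fun _ : Fin 4 => adm B m)).image
          (fun (x : Fin 4 → J → Option I) (j : J) (k : Fin 4) => x k j), ∏ j, E (y j) := by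
        rw [Finset.sum_image (fun a _ b _ hab => hinj hab)]
    _ ≤ ∑ y ∈ univ.filter (fun y : J → (Fin 4 → Option I) => ∀ j, j ∉ B → y j = fun _ => none),
          ∏ j, E (y j) := by
        apply Finset.sum_le_sum_of_subset_of_nonneg
        · intro y hy
          obtain ⟨x, hx, rfl⟩ := Finset.mem_image.1 hy
          refine Finset.mem_filter.2 ⟨Finset.mem_univ _, ?_⟩
          intro j hj
          funext k
          have h7 := (Fintype.mem_piFinset.1 hx) k
          unfold adm at h7
          exact (Finset.mem_filter.1 h7).2.1 j hj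
        · intro y _ _
          exact Finset.prod_nonneg (fun j _ => hE0 _)
    _ = (∑ ω, E ω) ^ B.card :=
        sum_supp (fun _ : Fin 4 => (none : Option I)) E (by simp only [hE, if_true]) B
    _ ≤ (Real.exp (((Fintype.card I : ℝ) + 1) ^ 4 * h)) ^ B.card := by
        apply pow_le_pow_left₀ (Finset.sum_nonneg (fun ω _ => hE0 ω))
        refine hcard.trans ?_
        rw [add_comm]
        exact Real.add_one_le_exp _
    _ = Real.exp (((Fintype.card I : ℝ) + 1) ^ 4 * h * B.card) := by
        rw [← Real.exp_nat_mul]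
        congr 1
        ring

end Pool.Agent.Lib.H92G
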