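import Pool.Agent.Lib.H92G.WG
import Pool.Agent.Lib.H92G.G2
import Pool.Agent.Lib.H92G.G5
import Pool.Agent.Lib.H15P.TR2
import Pool.Agent.Lib.H15P.TR3
import Pool.Agent.Lib.H15P.LV1

/-!
# Chunk W1: basic facts on a system of forms, mean value and mean square of the weight

Compare `H15P/WIN1`, `H15P/WIN2`.
-/

open Finset

namespace Pool.Agent.Lib.H92G

open Pool.Agent.Lib.H15P

/-- Distinct `b, b' ∈ B` differ by at most `W < p`. -/
theorem WG.Sys.forms {w : WG} {A B : Finset ℕ} {M : ℕ} (h : w.Sys A B M) :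
    Forms w.P w.W w.K M (fun j : {b // b ∈ B} => j.1) := by
  refine ⟨w.prime, w.big, h.cop, ?_, w.Kpos, ?_, w.KW⟩
  · intro p hp j j' hne hm
    apply hne
    apply Subtype.ext
    have h1 := h.dist j.1 j.2 j'.1 j'.2
    have h2 := h.dist j'.1 j'.2 j.1 j.2
    have h3 := w.big p hp
    rcases le_total j.1 j'.1 with h4 | h4
    · have h5 := (Nat.modEq_iff_dvd' h4).1 hm
      have h6 := Nat.eq_zero_of_dvd_of_lt h5 (by omega)
      omega
    · have h5 := (Nat.modEq_iff_dvd' h4).1 hm.symm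
      have h6 := Nat.eq_zero_of_dvd_of_lt h5 (by omega)
      omega
  · rw [Fintype.card_coe]
    exact h.cardB

theorem WG.good_Df (w : WG) (A B : Finset ℕ) : GoodJ (qq w.P w.K) (w.Df A B) w.h where
  q0 := w.good.q0
  q1 := w.good.q1
  mean := fun _ i => w.good.mean _ i
  orth := fun _ i i' hi => w.good.orth _ i i' hi
  sq := fun _ i => w.good.sq _ i
  fourth := fun _ i => w.good.fourth _ i

theorem WG.one_le_g (w : WG) : 1 ≤ w.g := by
  unfold WG.g
  have h1 := mul_nonneg (Nat.cast_nonneg w.nA : (0 : ℝ) ≤ w.nA) w.cA0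
  linarith

theorem WG.one_le_C (w : WG) : 1 ≤ w.C := by
  refine le_trans ?_ w.hC
  apply Real.one_le_exp
  have := w.h0
  positivity

theorem w1_GJ (w : WG) (A B : Finset ℕ) (j : {b // b ∈ B}) (o : Option (Fin w.nA ⊕ Fin w.nD)) :
    GJ (qq w.P w.K) (w.Df A B) j o = GJ (qq w.P w.K) w.DJ (decide (j.1 ∈ A)) o := by
  cases o <;> rfl

theorem w1_GJ_nonneg (w : WG) (a : Bool) (o : Option (Fin w.nA ⊕ Fin w.nD)) :
    0 ≤ GJ (qq w.P w.K) w.DJ a o := GJ_nonneg _ _ _ w.good _ _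

theorem w1_card_filter (A B : Finset ℕ) (hAB : A ⊆ B) :
    ((univ : Finset {b // b ∈ B}).filter (fun j => j.1 ∈ A)).card = A.card := by
  rw [← Finset.card_map (Function.Embedding.subtype (fun b => b ∈ B))]
  congr 1
  ext x
  simp only [Finset.mem_map, Finset.mem_filter, Finset.mem_univ, true_and,
    Function.Embedding.coe_subtype]
  constructor
  · rintro ⟨a, ha, rfl⟩
    exact ha
  · intro hx
    exact ⟨⟨x, hAB hx⟩, hx, rfl⟩

/-- The sums of second moments: at most `KA` forms are allowed, at most `K` are not. -/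
theorem WG.Sys.hm {w : WG} {A B : Finset ℕ} {M : ℕ} (h : w.Sys A B M)
    (i : Fin w.nA ⊕ Fin w.nD) :
    2 * ∑ j ∈ (univ : Finset {b // b ∈ B}), GJ (qq w.P w.K) (w.Df A B) j (some i) + w.R i
      ≤ w.m i := by
  refine le_trans ?_ (w.hm i)
  have h0 : ∑ j ∈ (univ : Finset {b // b ∈ B}), GJ (qq w.P w.K) (w.Df A B) j (some i) ≤
      w.KA * GJ (qq w.P w.K) w.DJ true (some i) + w.K * GJ (qq w.P w.K) w.DJ false (some i) := by
    rw [← Finset.sum_filter_add_sum_filter_not (univ : Finset {b // b ∈ B}) (fun j => j.1 ∈ A)]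
    have h1 : ∑ j ∈ (univ : Finset {b // b ∈ B}).filter (fun j => j.1 ∈ A),
        GJ (qq w.P w.K) (w.Df A B) j (some i) =
          (A.card : ℝ) * GJ (qq w.P w.K) w.DJ true (some i) := by
      rw [← w1_card_filter A B h.AB, ← nsmul_eq_mul]
      refine Finset.sum_eq_card_nsmul fun j hj => ?_
      rw [w1_GJ, decide_eq_true (Finset.mem_filter.1 hj).2]
    have h2 : ∑ j ∈ (univ : Finset {b // b ∈ B}).filter (fun j => ¬ j.1 ∈ A),
        GJ (qq w.P w.K) (w.Df A B) j (some i) =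
          (((univ : Finset {b // b ∈ B}).filter (fun j => ¬ j.1 ∈ A)).card : ℝ) *
            GJ (qq w.P w.K) w.DJ false (some i) := by
      rw [← nsmul_eq_mul]
      refine Finset.sum_eq_card_nsmul fun j hj => ?_
      rw [w1_GJ, decide_eq_false (Finset.mem_filter.1 hj).2]
    rw [h1, h2]
    have h3 : (A.card : ℝ) ≤ w.KA := by exact_mod_cast h.cardA
    have h4 : ((((univ : Finset {b // b ∈ B}).filter (fun j => ¬ j.1 ∈ A)).card : ℕ) : ℝ) ≤ w.K := by
      have h5 := Finset.card_filter_le (univ : Finset {b // b ∈ B}) (fun j => ¬ j.1 ∈ A)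
      rw [Finset.card_univ, Fintype.card_coe] at h5
      exact_mod_cast h5.trans h.cardB
    exact add_le_add (mul_le_mul_of_nonneg_right h3 (w1_GJ_nonneg w _ _))
      (mul_le_mul_of_nonneg_right h4 (w1_GJ_nonneg w _ _))
  linarith

/-- The values at `∅` of the factors of an allowed form. -/
theorem WG.sum_allowed (w : WG) (A B : Finset ℕ) (j : {b // b ∈ B}) (hj : j.1 ∈ A) :
    (∀ i, 0 ≤ w.Df A B j i ∅) ∧ 1 + ∑ i, w.Df A B j i ∅ = w.g := by
  have h1 : w.Df A B j = w.DJ true := by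
    unfold WG.Df
    rw [decide_eq_true hj]
  rw [h1]
  constructor
  · rintro (i | i)
    · rw [w.trl]
      exact w.cA0
    · rw [w.trr]
  · rw [Fintype.sum_sum_type]
    simp only [w.trl, w.trr]
    rw [Finset.sum_const, Finset.sum_const_zero, Finset.card_univ, Fintype.card_fin, nsmul_eq_mul,
      add_zero]
    rfl

theorem w1_Qpos (w : WG) : 0 < ∏ p ∈ w.P, p :=
  Finset.prod_pos fun p hp => (w.prime p hp).pos

/-- Sum over `t < Y` of a nonnegative function of the configuration of level `L`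
(`Lev.avg` with `a = 0`, `EP_le`, `w.hKW`). -/
theorem WG.Sys.avg_le {w : WG} {A B : Finset ℕ} {M : ℕ} (h : w.Sys A B M)
    (F : ({b // b ∈ B} → Finset {p // p ∈ w.P}) → ℝ) (h0 : ∀ S, 0 ≤ F S) (L : ℝ)
    (hL : Lev (∏ p ∈ w.P, p) (fun t => F (fun j => hit w.P (j.1 + M * t))) L) (Y : ℕ) :
    ∑ t ∈ range Y, F (fun j => hit w.P (j.1 + M * t)) ≤
      Y * ((1 + w.e) * EX (qq w.P w.K) F) + 2 * L := by
  have h1 := Lev.avg (w1_Qpos w) hL 0 Y
  rw [zero_add, ← Finset.range_eq_Ico] at h1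
  have h2 : EP w.P M (fun j : {b // b ∈ B} => j.1) F ≤ (1 + w.e) * EX (qq w.P w.K) F :=
    (EP_le w.P w.W w.K M _ h.forms F h0).trans
      (mul_le_mul_of_nonneg_right w.hKW (EX_nonneg _ w.good.q0 w.good.q1 F h0))
  have h3 := mul_le_mul_of_nonneg_left h2 (Nat.cast_nonneg Y : (0 : ℝ) ≤ Y)
  have h4 : |∑ t ∈ range Y, F (fun j => hit w.P (j.1 + M * t)) -
      Y * EP w.P M (fun j : {b // b ∈ B} => j.1) F| ≤ 2 * L := h1
  rw [abs_le] at h4
  linarith [h4.2]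

theorem w1_one_le_ZG (w : WG) (A B : Finset ℕ) : 1 ≤ ZG (qq w.P w.K) (w.Df A B) univ :=
  one_le_ZG _ _ _ (w.good_Df A B) _

theorem WG.nu_nonneg (w : WG) (A B : Finset ℕ) (M t : ℕ) : 0 ≤ w.nu A B M t :=
  div_nonneg (sq_nonneg _) (zero_le_one.trans (w1_one_le_ZG w A B))

/-- the level of the weight -/
theorem w1_lev {w : WG} {A B : Finset ℕ} {M : ℕ} (h : w.Sys A B M) (k : ℕ) :
    Lev (∏ p ∈ w.P, p) (fun t => LG (w.Df A B) w.m (univ : Finset {b // b ∈ B})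
      (fun j => hit w.P (j.1 + M * t)) ^ k) (w.lv ^ k) :=
  Lev.pow (w1_Qpos w) (w.levL {b // b ∈ B} (fun j => decide (j.1 ∈ A)) univ M (fun j => j.1)
    (fun _ => 1) (by rw [Fintype.card_coe]; exact h.cardB) (fun _ => by rw [abs_one])) k

/-- the error terms -/
theorem w1_err (w : WG) (Y : ℕ) (hY : w.Long Y) (a k : ℕ) (ha : a ≤ 4) (hk : k ≤ 4) :
    2 * w.K * (w.g ^ a * w.lv ^ k) ≤ w.e * w.el ^ 2 * Y / 4 ∧
      2 * (w.g ^ a * w.lv ^ k) ≤ w.e * w.el ^ 2 * Y / 4 := by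
  have h1 : w.g ^ a * w.lv ^ k ≤ w.g ^ 4 * w.lv ^ 4 :=
    mul_le_mul (pow_le_pow_right₀ w.one_le_g ha) (pow_le_pow_right₀ w.lv1 hk)
      (pow_nonneg (zero_le_one.trans w.lv1) _) (pow_nonneg (zero_le_one.trans w.one_le_g) _)
  have h2 : (1 : ℝ) ≤ w.K := by exact_mod_cast w.Kpos
  have h3 : 0 ≤ w.g ^ a * w.lv ^ k := mul_nonneg (pow_nonneg (zero_le_one.trans w.one_le_g) _)
    (pow_nonneg (zero_le_one.trans w.lv1) _)
  have h4 : (w.K : ℝ) * (w.g ^ a * w.lv ^ k) ≤ w.K * (w.g ^ 4 * w.lv ^ 4) :=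
    mul_le_mul_of_nonneg_left h1 (by linarith)
  have h5 : w.g ^ a * w.lv ^ k ≤ w.K * (w.g ^ a * w.lv ^ k) := le_mul_of_one_le_left h3 h2
  have h6 : 8 * w.K * w.g ^ 4 * w.lv ^ 4 ≤ w.e * w.el ^ 2 * Y := hY
  constructor <;> nlinarith

theorem w1_err1 (w : WG) (Y : ℕ) (hY : w.Long Y) (a k : ℕ) (ha : a ≤ 4) (hk : k ≤ 4) :
    2 * w.K * (w.g ^ a * w.lv ^ k) ≤ w.e * w.el * Y / 4 ∧
      2 * w.K * (w.g ^ a * w.lv ^ k) ≤ w.e * Y / 4 ∧
      2 * (w.g ^ a * w.lv ^ k) ≤ w.e * w.el * Y / 4 ∧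
      2 * (w.g ^ a * w.lv ^ k) ≤ w.e * Y / 4 := by
  obtain ⟨h1, h2⟩ := w1_err w Y hY a k ha hk
  have h3 : w.el ^ 2 ≤ w.el := by
    have := mul_le_mul_of_nonneg_left w.el1 w.el0.le
    nlinarith
  have h5 : 0 ≤ w.e * Y := mul_nonneg w.e0.le (Nat.cast_nonneg Y)
  have h6 : w.e * w.el ^ 2 * Y ≤ w.e * w.el * Y := by
    have := mul_le_mul_of_nonneg_left h3 h5
    nlinarith
  have h7 : w.e * w.el * Y ≤ w.e * Y := by
    have := mul_le_mul_of_nonneg_left w.el1 h5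
    nlinarith
  refine ⟨?_, ?_, ?_, ?_⟩ <;> linarith

/-- Mean value: `EX_LG_sq_le`, level `lv^2`, `ZG ≥ 1`; `2 lv^2 ≤ e Y` by `Long`. -/
theorem WG.Sys.mean_le {w : WG} {A B : Finset ℕ} {M : ℕ} (h : w.Sys A B M) (Y : ℕ)
    (hY : w.Long Y) : ∑ t ∈ range Y, w.nu A B M t ≤ (1 + 3 * w.e) * Y := by
  set Z := ZG (qq w.P w.K) (w.Df A B) univ with hZ
  have hZ1 : 1 ≤ Z := w1_one_le_ZG w A B
  have hZpos : 0 < Z := by linarith
  have hsum : ∑ t ∈ range Y, w.nu A B M t =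
      (∑ t ∈ range Y, LG (w.Df A B) w.m (univ : Finset {b // b ∈ B})
        (fun j => hit w.P (j.1 + M * t)) ^ 2) / Z := by
    rw [Finset.sum_div]
    rfl
  have havg := h.avg_le (fun S => LG (w.Df A B) w.m (univ : Finset {b // b ∈ B}) S ^ 2)
    (fun S => sq_nonneg _) _ (w1_lev h 2) Y
  have hEX := EX_LG_sq_le (qq w.P w.K) (w.Df A B) w.h (w.good_Df A B) w.m
    (univ : Finset {b // b ∈ B})
  have herr := (w1_err1 w Y hY 0 2 (by norm_num) (by norm_num)).2.2.2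
  rw [pow_zero, one_mul] at herr
  have he0 := w.e0
  have hYr : (0 : ℝ) ≤ Y := Nat.cast_nonneg Y
  rw [hsum, div_le_iff₀ hZpos]
  refine havg.trans ?_
  have h1 := mul_le_mul_of_nonneg_left hEX (by linarith : 0 ≤ 1 + w.e)
  have h2 := mul_le_mul_of_nonneg_left h1 hYr
  rw [← hZ] at h2
  have h3 : w.e * Y * 1 ≤ w.e * Y * Z := mul_le_mul_of_nonneg_left hZ1 (by positivity)
  nlinarith

/-- Mean square: `EX_LG_four_le`, level `lv^4`, `ZG ≥ 1`, `C ≥ 1`. -/
theorem WG.Sys.sq_le {w : WG} {A B : Finset ℕ} {M : ℕ} (h : w.Sys A B M) (Y : ℕ)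
    (hY : w.Long Y) : ∑ t ∈ range Y, w.nu A B M t ^ 2 ≤ 2 * w.C * Y := by
  set Z := ZG (qq w.P w.K) (w.Df A B) univ with hZ
  have hZ1 : 1 ≤ Z := w1_one_le_ZG w A B
  have hsum : ∑ t ∈ range Y, w.nu A B M t ^ 2 ≤
      ∑ t ∈ range Y, LG (w.Df A B) w.m (univ : Finset {b // b ∈ B})
        (fun j => hit w.P (j.1 + M * t)) ^ 4 := by
    refine Finset.sum_le_sum fun t _ => ?_
    unfold WG.nu
    rw [div_pow, ← hZ, ← pow_mul]
    exact div_le_self (Even.pow_nonneg ⟨2, rfl⟩ _) (one_le_pow₀ hZ1)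
  have havg := h.avg_le (fun S => LG (w.Df A B) w.m (univ : Finset {b // b ∈ B}) S ^ 4)
    (fun S => by positivity) _ (w1_lev h 4) Y
  have hEX : EX (qq w.P w.K)
      (fun S => LG (w.Df A B) w.m (univ : Finset {b // b ∈ B}) S ^ 4) ≤ w.C := by
    refine (EX_LG_four_le (qq w.P w.K) (w.Df A B) w.h (w.good_Df A B) w.h0 w.m
      (univ : Finset {b // b ∈ B})).trans (le_trans ?_ w.hC)
    apply Real.exp_le_exp.2
    have h1 : ((univ : Finset {b // b ∈ B}).card : ℝ) ≤ w.K := by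
      rw [Finset.card_univ, Fintype.card_coe]
      exact_mod_cast h.cardB
    have h2 := w.h0
    rw [Fintype.card_sum, Fintype.card_fin, Fintype.card_fin]
    exact mul_le_mul_of_nonneg_left h1 (by positivity)
  have herr := (w1_err1 w Y hY 0 4 (by norm_num) (by norm_num)).2.2.2
  rw [pow_zero, one_mul] at herr
  have he0 := w.e0
  have he1 := w.e1
  have hC := w.one_le_C
  have hYr : (0 : ℝ) ≤ Y := Nat.cast_nonneg Y
  have h1 := mul_le_mul_of_nonneg_left hEX (by linarith : 0 ≤ 1 + w.e)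
  have h2 := mul_le_mul_of_nonneg_left h1 hYr
  have h3 : w.e * Y * 1 ≤ w.e * Y * w.C := mul_le_mul_of_nonneg_left hC (by positivity)
  have h4 : (w.e * Y) * w.C ≤ (1 / 10 * Y) * w.C := by
    apply mul_le_mul_of_nonneg_right _ (by linarith)
    exact mul_le_mul_of_nonneg_right he1 hYr
  have h5 : 0 ≤ Y * w.C := by positivity
  refine hsum.trans (havg.trans ?_)
  nlinarith

end Pool.Agent.Lib.H92G
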