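import Pool.Agent.Lib.H92G.Defs
import Pool.Agent.Lib.H5C.AN3
import Pool.Agent.Lib.H5C.AN4
import Pool.Agent.Lib.H5C.AN5
import Pool.Agent.Lib.H5C.AN6a
import Pool.Agent.Lib.H5C.AN6b

/-!
# AN: the analytic input, derived from `Lib/H5C/AN*`
-/

open Finset

namespace Pool.Agent.Lib.H92G

open Pool.Agent.Lib.H5C (PC1 Bad SP PCh SP_sub_FL)
open Pool.Agent.Lib.H68T (PC FL F0 Mu v)

theorem an_thP (X : ℕ) (f : ℕ → ℂ) : thP X f = SP X f := by
  unfold thP SP
  rw [sum_filter]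
  refine sum_congr rfl fun m _ => ?_
  unfold Pool.Agent.Lib.H68T.lp
  rw [Int.toNat_natCast]
  by_cases h : m.Prime
  · rw [if_pos h, if_pos h]
    norm_num
  · rw [if_neg h, if_neg h]
    norm_num

theorem an_PC1 (Q : ℕ) : (open Classical in (PC Q).erase H68T.p0) = PC1 Q := by
  classical
  ext p
  unfold PC1
  rw [mem_erase, mem_filter]
  tauto

/-- From the primes to the prime powers. -/
theorem an_norm_le : ∃ X₀ : ℕ, ∀ X : ℕ, X₀ ≤ X → ∀ p : PCh, 1 ≤ p.1 →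
    ‖thP X (fun m => p.2 (m : ZMod p.1))‖ ≤ ‖FL X p 0‖ + (X : ℝ) ^ (-(1 / 3) : ℝ) := by
  obtain ⟨X₀, h⟩ := SP_sub_FL
  refine ⟨X₀, fun X hX p hp => ?_⟩
  have h1 := h X hX p hp
  rw [an_thP]
  have h2 : SP X (fun P => p.2 (P : ZMod p.1)) =
      FL X p 0 + (SP X (fun P => p.2 (P : ZMod p.1)) - FL X p 0) := by ring
  rw [h2]
  exact (norm_add_le _ _).trans (by linarith)

theorem an_PC_pos {Q : ℕ} {p : PCh} (h : p ∈ PC1 Q) : 1 ≤ p.1 ∧ p.1 ≤ Q := by
  classical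
  unfold PC1 at h
  rw [mem_filter, Pool.Agent.Lib.H68T.mem_PC] at h
  exact ⟨h.1.1, h.1.2.1⟩

theorem an_sum_le : ∃ X₀ : ℕ, ∀ X : ℕ, X₀ ≤ X → ∀ (Q : ℕ) (S : Finset PCh), S ⊆ PC1 Q →
    ∑ p ∈ S, ‖thP X (fun m => p.2 (m : ZMod p.1))‖ ≤
      ∑ p ∈ S, ‖FL X p 0‖ + (Q : ℝ) ^ 2 * (X : ℝ) ^ (-(1 / 3) : ℝ) := by
  classical
  obtain ⟨X₀, h⟩ := an_norm_le
  refine ⟨X₀, fun X hX Q S hS => ?_⟩
  have h1 : ∑ p ∈ S, ‖thP X (fun m => p.2 (m : ZMod p.1))‖ ≤
      ∑ p ∈ S, (‖FL X p 0‖ + (X : ℝ) ^ (-(1 / 3) : ℝ)) :=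
    sum_le_sum fun p hp => h X hX p (an_PC_pos (hS hp)).1
  refine h1.trans ?_
  rw [sum_add_distrib, sum_const, nsmul_eq_mul]
  have h2 : (S.card : ℝ) ≤ (Q : ℝ) ^ 2 := by
    have h3 : S.card ≤ (PC Q).card := by
      refine card_le_card (hS.trans ?_)
      unfold PC1
      exact filter_subset _ _
    have h4 := h3.trans (Pool.Agent.Lib.H68T.card_PC_le Q)
    exact_mod_cast h4
  have h3 : 0 ≤ (X : ℝ) ^ (-(1 / 3) : ℝ) := Real.rpow_nonneg (Nat.cast_nonneg _) _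
  have := mul_le_mul_of_nonneg_right h2 h3
  linarith

/-- (A0): all nontrivial characters of conductor up to a small power of `X`. -/
theorem an_all : ∃ C K : ℝ, 0 < C ∧ 1 ≤ K ∧ ∀ Q X : ℕ, RegP K Q X →
    A0s Q X ≤ Real.log X ^ C := by
  classical
  obtain ⟨K1, hK1, h1⟩ := H5C.all_sum
  obtain ⟨X₀, h2⟩ := an_sum_le
  refine ⟨10, K1 + X₀ + 10, by norm_num, by have : (0 : ℝ) ≤ X₀ := Nat.cast_nonneg _
                                            linarith, ?_⟩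
  intro Q X hR
  have hX0 : (0 : ℝ) ≤ X₀ := Nat.cast_nonneg _
  have hR' : H5C.RegP (K1 + X₀ + 10) Q X := hR
  have hK : 0 < K1 + X₀ + 10 := by linarith
  have hR1 : H5C.RegP K1 Q X := hR'.mono hK.le (by linarith)
  have hXge : X₀ ≤ X := by
    have h3 := hR'.X_ge hK
    have h4 : (X₀ : ℝ) ≤ X := by linarith
    exact_mod_cast h4
  have hXpos := hR'.X_pos hK
  have hXr : (0 : ℝ) < X := by exact_mod_cast hXpos
  have hLge := hR'.logX_ge hK
  have hLpos := hR'.logX_pos hK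
  have hexp := Real.add_one_le_exp (K1 + X₀ + 10)
  set L := Real.log X with hL
  have hL10 : 10 ≤ L := by linarith
  have h3 := h1 Q X hR1
  have h4 := h2 X hXge Q (PC1 Q) (Subset.refl _)
  have h5 : A0s Q X = ∑ p ∈ PC1 Q, ‖thP X (fun m => p.2 (m : ZMod p.1))‖ := by
    unfold A0s
    rw [← an_PC1 Q]
  rw [h5]
  have hQlog : 0 ≤ Real.log Q := by
    have := hR'.logQ_ge (by linarith)
    linarith
  have hQpos : (0 : ℝ) < Q := by
    rcases Nat.eq_zero_or_pos Q with h0 | h0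
    · have := hR'.logQ_ge (by linarith)
      rw [h0] at this
      simp at this
      linarith
    · exact_mod_cast h0
  have h6 : (Q : ℝ) ^ 2 * (X : ℝ) ^ (-(1 / 3) : ℝ) ≤ 1 := by
    have e1 : (Q : ℝ) ^ 2 = Real.exp (2 * Real.log Q) := by
      rw [two_mul, Real.exp_add, Real.exp_log hQpos]; ring
    rw [e1, Real.rpow_def_of_pos hXr, ← Real.exp_add]
    have h7 : 2 * Real.log Q + Real.log X * (-(1 / 3)) ≤ 0 := by
      have h8 := hR'.2.2
      have h9 : 10 * Real.log Q ≤ (K1 + X₀ + 10) * Real.log Q :=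
        mul_le_mul_of_nonneg_right (by linarith) hQlog
      linarith
    calc Real.exp (2 * Real.log Q + Real.log X * (-(1 / 3))) ≤ Real.exp 0 :=
          Real.exp_le_exp.mpr h7
      _ = 1 := Real.exp_zero
  have h7 : L ^ (10 : ℝ) = L ^ 10 := by
    rw [← Real.rpow_natCast]; norm_num
  rw [h7]
  have h8 : L ^ 9 + 1 ≤ L ^ 10 := by
    have h9 : (1 : ℝ) ≤ L ^ 9 := one_le_pow₀ (by linarith)
    have h10 : L ^ 10 = L * L ^ 9 := by ring
    nlinarith
  linarith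

/-- `good_sum` with a better exponent. -/
theorem an_good : ∃ K : ℝ, 1 ≤ K ∧ ∀ Q X : ℕ, H5C.RegP K Q X → ∀ S : Finset PCh,
    S ⊆ PC1 Q → (∀ p ∈ S, p ∉ Bad Q X) → ∑ p ∈ S, ‖FL X p 0‖ ≤ (Real.log X ^ 2)⁻¹ := by
  obtain ⟨C, K1, hC, hK1, h1⟩ := H5C.AN3_main
  obtain ⟨K2, hK2, h2⟩ := H5C.regp_log_le 1 1 1 (by norm_num)
  refine ⟨K1 + K2 + 1000 * C + 1000, by linarith, fun Q X hR S hS hbad => ?_⟩
  have hK0 : 0 ≤ K1 + K2 + 1000 * C + 1000 := by linarith
  have hR1 : H5C.RegP K1 Q X := hR.mono hK0 (by linarith)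
  have hR2 : H5C.RegP K2 Q X := hR.mono hK0 (by linarith)
  have hL1 : 1000 * C + 1000 ≤ Real.log X := by
    have h2 := hR.logX_ge (by linarith)
    have h3 := Real.add_one_le_exp (K1 + K2 + 1000 * C + 1000)
    linarith
  have hQL : Real.log X ≤ Q := by
    have h3 := h2 Q X hR2
    simpa using h3
  have hMu : ∀ p ∈ S, ∀ t : ℝ, |t| ≤ (Real.log X) ^ 10 → ‖Mu X p t‖ ≤ ((Real.log X) ^ 10)⁻¹ := by
    intro p hp t ht
    by_contra hcon
    push Not at hcon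
    apply hbad p hp
    classical
    unfold Bad
    exact Finset.mem_filter.2 ⟨hS hp, t, ht, hcon⟩
  have hL : 1 ≤ Real.log X := by linarith
  have h := h1 Q X hR1 S ((Real.log X) ^ 10)⁻¹ hS (by positivity) hMu
  set L := Real.log X with hLdef
  refine h.trans ?_
  have hL0 : 0 < L := by linarith
  have hQ8 : ((Q : ℝ) ^ 8)⁻¹ ≤ (L ^ 8)⁻¹ := by
    apply inv_anti₀ (by positivity)
    exact pow_le_pow_left₀ hL0.le hQL 8
  have h19 : (L ^ 19)⁻¹ ≤ (L ^ 10)⁻¹ := by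
    apply inv_anti₀ (by positivity)
    exact pow_le_pow_right₀ hL (by norm_num)
  have h5 : ((L ^ 10)⁻¹ + 2 * (L ^ 19)⁻¹) * (100 * L ^ 3) ≤ (3 * (L ^ 10)⁻¹) * (100 * L ^ 3) :=
    mul_le_mul_of_nonneg_right (by linarith) (by positivity)
  have e1 : (3 * (L ^ 10)⁻¹) * (100 * L ^ 3) = 300 * (L ^ 7)⁻¹ := by
    field_simp
    norm_num
  have h87 : (L ^ 8)⁻¹ ≤ (L ^ 7)⁻¹ := by
    apply inv_anti₀ (by positivity)
    exact pow_le_pow_right₀ hL (by norm_num)
  have h82 : (L ^ 8)⁻¹ ≤ (L ^ 3)⁻¹ := by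
    apply inv_anti₀ (by positivity)
    exact pow_le_pow_right₀ hL (by norm_num)
  have h6 : ((L ^ 10)⁻¹ + 2 * (L ^ 19)⁻¹) * (100 * L ^ 3) + ((Q : ℝ) ^ 8)⁻¹ ≤
      301 * (L ^ 7)⁻¹ := by
    linarith
  have hA : 0 ≤ C * L ^ 4 := by positivity
  have h7 := mul_le_mul_of_nonneg_left h6 hA
  have e2 : C * L ^ 4 * (301 * (L ^ 7)⁻¹) = 301 * C * (L ^ 3)⁻¹ := by
    field_simp
  calc C * L ^ 4 * (((L ^ 10)⁻¹ + 2 * (L ^ 19)⁻¹) * (100 * L ^ 3) + ((Q : ℝ) ^ 8)⁻¹) +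
        ((Q : ℝ) ^ 8)⁻¹ ≤ (301 * C + 1) * (L ^ 3)⁻¹ := by linarith
    _ ≤ L * (L ^ 3)⁻¹ := mul_le_mul_of_nonneg_right (by linarith) (by positivity)
    _ = (L ^ 2)⁻¹ := by field_simp

/-- Asymptotic facts used in `an_small`. -/
theorem an_asym (K K1 : ℝ) (hK : 1 ≤ K) (hK1 : 1 ≤ K1) : ∃ L0 : ℝ, ∀ L : ℝ, L0 ≤ L →
    2 ≤ L ∧ K ≤ Real.log L ∧ K * Real.log L + 1 ≤ L / (2 * K) ∧
    L ^ (1 / 10 : ℝ) < L / (K1 * Real.log L) ∧ L ^ (1 / 10 : ℝ) ≤ L / (2 * K) ∧
    Real.exp (L / (2 * K)) / 2 ≤ Real.exp (L / (2 * K)) - 1 ∧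
    2 * L ^ (1 / 10 : ℝ) - L / 3 ≤ - (2 * Real.log L) := by
  have e1 : ∀ᶠ L : ℝ in Filter.atTop, K ≤ Real.log L :=
    Real.tendsto_log_atTop.eventually_ge_atTop _
  have e2 : ∀ᶠ L : ℝ in Filter.atTop, ‖Real.log L‖ ≤ (1 / (100 * K ^ 2 * K1)) * ‖L ^ (1 / 2 : ℝ)‖ :=
    (isLittleO_log_rpow_atTop (by norm_num : (0 : ℝ) < 1 / 2)).bound (by positivity)
  have e3 : ∀ᶠ L : ℝ in Filter.atTop, (100 * K * K1) ≤ L ^ (2 / 5 : ℝ) :=
    (tendsto_rpow_atTop (by norm_num : (0 : ℝ) < 2 / 5)).eventually_ge_atTop _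
  obtain ⟨B, hB⟩ := Filter.eventually_atTop.mp
    (e1.and (e2.and (e3.and (Filter.eventually_ge_atTop (max 4 (4 * K))))))
  refine ⟨B, fun L hL => ?_⟩
  obtain ⟨a1, a2, a3, a4⟩ := hB L hL
  have hL4 : 4 ≤ L := (le_max_left _ _).trans a4
  have hLK : 4 * K ≤ L := (le_max_right _ _).trans a4
  have hL0 : 0 < L := by linarith
  have hL1 : 1 ≤ L := by linarith
  have hl0 : 0 < Real.log L := by linarith
  rw [Real.norm_of_nonneg hl0.le, Real.norm_of_nonneg (Real.rpow_nonneg hL0.le _)] at a2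
  have hh : L ^ (1 / 2 : ℝ) * L ^ (1 / 2 : ℝ) = L := by
    rw [← Real.rpow_add hL0]; norm_num
  have hh2 : L ^ (1 / 10 : ℝ) * L ^ (2 / 5 : ℝ) = L ^ (1 / 2 : ℝ) := by
    rw [← Real.rpow_add hL0]; norm_num
  have hs1 : 1 ≤ L ^ (1 / 2 : ℝ) := Real.one_le_rpow hL1 (by norm_num)
  have ht0 : 0 < L ^ (1 / 10 : ℝ) := Real.rpow_pos_of_pos hL0 _
  have hK2 : 1 ≤ K ^ 2 := one_le_pow₀ hK
  set s := L ^ (1 / 2 : ℝ) with hs
  set t := L ^ (1 / 10 : ℝ) with ht
  have ht1 : t * (100 * K * K1) ≤ s := by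
    rw [← hh2]
    exact mul_le_mul_of_nonneg_left a3 ht0.le
  have hKK : 1 ≤ K * K1 := by nlinarith
  have hpos : 0 < 100 * K ^ 2 * K1 := by positivity
  have hl1 : Real.log L * (100 * K ^ 2 * K1) ≤ s := by
    calc Real.log L * (100 * K ^ 2 * K1) ≤ (1 / (100 * K ^ 2 * K1) * s) * (100 * K ^ 2 * K1) :=
          mul_le_mul_of_nonneg_right a2 hpos.le
      _ = s := by field_simp
  have hss : s ≤ L := by nlinarith
  have hlK : Real.log L * (100 * K ^ 2) ≤ L := by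
    refine le_trans ?_ (hl1.trans hss)
    have : 100 * K ^ 2 * 1 ≤ 100 * K ^ 2 * K1 := mul_le_mul_of_nonneg_left hK1 (by positivity)
    nlinarith
  have htK : t * (100 * K) ≤ L := by
    refine le_trans ?_ (ht1.trans hss)
    have : 100 * K * 1 ≤ 100 * K * K1 := mul_le_mul_of_nonneg_left hK1 (by positivity)
    nlinarith
  refine ⟨by linarith, a1, ?_, ?_, ?_, ?_, ?_⟩
  · rw [le_div_iff₀ (by positivity)]
    have : (K * Real.log L + 1) * (2 * K) = 2 * (Real.log L * K ^ 2) + 2 * K := by ring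
    have h3 : Real.log L * K ^ 2 * 100 ≤ L := by linarith
    linarith
  · rw [lt_div_iff₀ (by positivity)]
    have h1 : t ≤ s / 100 := by
      have : t * (100 * 1) ≤ t * (100 * K * K1) := by
        apply mul_le_mul_of_nonneg_left _ ht0.le
        nlinarith
      linarith
    have h2 : K1 * Real.log L ≤ s / 100 := by
      have : Real.log L * (100 * 1 * K1) ≤ Real.log L * (100 * K ^ 2 * K1) := by
        apply mul_le_mul_of_nonneg_left _ hl0.le
        apply mul_le_mul_of_nonneg_right _ (by linarith)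
        linarith
      linarith
    calc t * (K1 * Real.log L) ≤ (s / 100) * (s / 100) :=
          mul_le_mul h1 h2 (by positivity) (by positivity)
      _ = L / 10000 := by rw [← hh]; ring
      _ < L := by linarith
  · rw [le_div_iff₀ (by positivity)]
    nlinarith
  · have h1 : 2 ≤ L / (2 * K) := by
      rw [le_div_iff₀ (by positivity)]
      linarith
    have h2 := Real.add_one_le_exp (L / (2 * K))
    linarith
  · have h1 : t * 100 ≤ L := by nlinarith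
    have h2 : Real.log L * 100 ≤ L := by nlinarith
    linarith

/-- (A2), (A3): the characters modulo a small modulus which is prime to one exceptional prime. -/
theorem an_small : ∃ X0 : ℕ, ∀ X : ℕ, X0 ≤ X → ∃ p1 : ℕ, p1.Prime ∧ ∀ M : ℕ, 0 < M →
    (M : ℝ) ≤ Real.exp (Real.log X ^ (1 / 10 : ℝ)) → ¬ p1 ∣ M → A1s M X ≤ 1 / Real.log X := by
  classical
  obtain ⟨K, hK, hgood⟩ := an_good
  obtain ⟨K1, hK1, X1, hsmall⟩ := H5C.small_cond
  obtain ⟨L0, hasym⟩ := an_asym K K1 hK hK1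
  obtain ⟨X2, hsum⟩ := an_sum_le
  have h1 : Filter.Tendsto (fun X : ℕ => Real.log X) Filter.atTop Filter.atTop :=
    Real.tendsto_log_atTop.comp tendsto_natCast_atTop_atTop
  obtain ⟨X3, hX3⟩ := Filter.eventually_atTop.mp (h1.eventually_ge_atTop L0)
  refine ⟨X1 + X2 + X3 + 1, fun X hX => ?_⟩
  obtain ⟨a0, a1, a2, a3, a4, a5, a6⟩ := hasym _ (hX3 X (by omega))
  obtain ⟨pe, hpe, hpe2⟩ := hsmall X (by omega)
  have hXpos : (0 : ℝ) < X := by
    have : 0 < X := by omega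
    exact_mod_cast this
  set L := Real.log X with hL
  have hL0 : 0 < L := by linarith
  have hL1 : 1 ≤ L := by linarith
  -- the prime `p1`
  obtain ⟨p1, hp1, hp1d⟩ : ∃ p1 : ℕ, p1.Prime ∧ (pe.1 ≠ 1 → p1 ∣ pe.1) := by
    by_cases h : pe.1 = 1
    · exact ⟨2, Nat.prime_two, fun h2 => absurd h h2⟩
    · exact ⟨pe.1.minFac, Nat.minFac_prime h, fun _ => Nat.minFac_dvd _⟩
  refine ⟨p1, hp1, fun M hM hMle hMp => ?_⟩
  set Q := ⌊Real.exp (L / (2 * K))⌋₊ with hQ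
  have hK0 : 0 < K := by linarith
  have hQle : (Q : ℝ) ≤ Real.exp (L / (2 * K)) := Nat.floor_le (Real.exp_pos _).le
  have hQge : Real.exp (L / (2 * K)) / 2 ≤ Q := by
    have := Nat.lt_floor_add_one (Real.exp (L / (2 * K)))
    rw [← hQ] at this
    linarith
  have hQpos : (0 : ℝ) < Q := lt_of_lt_of_le (by positivity) hQge
  have hlogQ : Real.log Q ≤ L / (2 * K) := by
    calc Real.log Q ≤ Real.log (Real.exp (L / (2 * K))) := Real.log_le_log hQpos hQle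
      _ = _ := Real.log_exp _
  have hlogQ2 : L / (2 * K) - 1 ≤ Real.log Q := by
    have h4 : Real.log (Real.exp (L / (2 * K)) / 2) ≤ Real.log Q :=
      Real.log_le_log (by positivity) hQge
    rw [Real.log_div (Real.exp_pos _).ne' (by norm_num), Real.log_exp] at h4
    have := Real.log_two_lt_d9
    linarith
  have hR : H5C.RegP K Q X := by
    refine ⟨a1, by linarith, ?_⟩
    calc K * Real.log Q ≤ K * (L / (2 * K)) := mul_le_mul_of_nonneg_left hlogQ hK0.le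
      _ = L / 2 := by field_simp
      _ ≤ L := by linarith
  have hMQ : M ≤ Q := by
    apply Nat.le_floor
    exact hMle.trans (Real.exp_le_exp.mpr a4)
  set S : Finset PCh := ((PC M).erase H68T.p0).filter (fun p => p.1 ∣ M) with hS
  have hS1 : S ⊆ PC1 M := by
    intro p hp
    rw [hS, mem_filter, mem_erase] at hp
    unfold PC1
    rw [mem_filter]
    exact ⟨hp.1.2, hp.1.1⟩
  have hSQ : S ⊆ PC1 Q := by
    intro p hp
    have h2 := hS1 hp
    unfold PC1 at h2 ⊢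
    rw [mem_filter, Pool.Agent.Lib.H68T.mem_PC] at h2 ⊢
    exact ⟨⟨h2.1.1, h2.1.2.1.trans hMQ, h2.1.2.2⟩, h2.2⟩
  have hMpos : (0 : ℝ) < M := by exact_mod_cast hM
  have hbad : ∀ p ∈ S, p ∉ Bad Q X := by
    intro p hp hb
    have hp' := hp
    rw [hS, mem_filter, mem_erase] at hp'
    by_cases hpp : p = pe
    · subst hpp
      by_cases h1 : p.1 = 1
      · exact hp'.1.1 (H5C.AN5_eq_p0 h1)
      · exact hMp ((hp1d h1).trans hp'.2)
    · have h2 := hpe2 Q p hb hpp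
      have h3 : (p.1 : ℝ) ≤ M := by
        exact_mod_cast Nat.le_of_dvd hM hp'.2
      have h4 : Real.exp (L ^ (1 / 10 : ℝ)) < Real.exp (L / (K1 * Real.log L)) :=
        Real.exp_lt_exp.mpr a3
      linarith
  have e1 := hgood Q X hR S hSQ hbad
  have e2 := hsum X (by omega) M S hS1
  have e3 : A1s M X = ∑ p ∈ S, ‖thP X (fun m => p.2 (m : ZMod p.1))‖ := by
    unfold A1s
    rw [hS]
  rw [e3]
  have e4 : (M : ℝ) ^ 2 * (X : ℝ) ^ (-(1 / 3) : ℝ) ≤ (L ^ 2)⁻¹ := by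
    calc (M : ℝ) ^ 2 * (X : ℝ) ^ (-(1 / 3) : ℝ)
        ≤ Real.exp (L ^ (1 / 10 : ℝ)) ^ 2 * (X : ℝ) ^ (-(1 / 3) : ℝ) := by
          apply mul_le_mul_of_nonneg_right _ (Real.rpow_nonneg hXpos.le _)
          exact pow_le_pow_left₀ hMpos.le hMle 2
      _ = Real.exp (2 * L ^ (1 / 10 : ℝ) - L / 3) := by
          rw [Real.rpow_def_of_pos hXpos, ← Real.exp_nat_mul, ← Real.exp_add]
          congr 1
          push_cast
          ring
      _ ≤ Real.exp (-(2 * Real.log L)) := Real.exp_le_exp.mpr a6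
      _ = (L ^ 2)⁻¹ := by
          rw [Real.exp_neg, two_mul, Real.exp_add, Real.exp_log hL0, pow_two]
  have e5 : 2 * (L ^ 2)⁻¹ ≤ 1 / L := by
    rw [← div_eq_mul_inv, div_le_div_iff₀ (by positivity) hL0]
    nlinarith
  linarith

theorem an_F0_le (X : ℕ) (hX : 1 ≤ X) : (F0 X 0).re ≤ 8 := by
  have hX' : (0 : ℝ) < X := by exact_mod_cast hX
  have h1 : (F0 X 0).re = ∑ m ∈ Icc 1 (60 * X), v X m / m := by
    unfold Pool.Agent.Lib.H68T.F0 Pool.Agent.Lib.H68T.FF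
    rw [Complex.re_sum]
    refine Finset.sum_congr rfl fun m hm => ?_
    have h1 : (m : ℂ) ^ (-(1 + ((0 : ℝ) : ℂ) * Complex.I)) = (m : ℂ)⁻¹ := by
      rw [Complex.ofReal_zero, zero_mul, add_zero, Complex.cpow_neg_one]
    rw [h1, one_mul]
    have h2 : (v X m : ℂ) * (m : ℂ)⁻¹ = ((v X m / m : ℝ) : ℂ) := by push_cast; ring
    rw [h2, Complex.ofReal_re]
  rw [h1]
  have h2 : ∑ m ∈ Icc 1 (60 * X), v X m / m ≤ ∑ m ∈ Ioc (X / 8) (60 * X), 1 / (m : ℝ) := by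
    have h3 : ∑ m ∈ Icc 1 (60 * X), v X m / m = ∑ m ∈ Ioc (X / 8) (60 * X), v X m / m := by
      symm
      apply Finset.sum_subset
      · intro m hm
        rw [mem_Ioc] at hm
        rw [mem_Icc]
        omega
      · intro m hm hm2
        rw [mem_Icc] at hm
        rw [mem_Ioc] at hm2
        by_contra hc
        have hv : v X m ≠ 0 := by
          intro h0
          apply hc
          rw [h0, zero_div]
        have h4 := H5C.an6_v_pos hX hm.1 hv
        apply hm2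
        refine ⟨?_, hm.2⟩
        have h5 : (X : ℝ) < m * 8 := by linarith
        have h6 : X < m * 8 := by exact_mod_cast h5
        exact (Nat.div_lt_iff_lt_mul (by norm_num)).mpr h6
    rw [h3]
    refine sum_le_sum fun m hm => ?_
    rw [mem_Ioc] at hm
    have hm0 : (0 : ℝ) < m := by
      have : 0 < m := by omega
      exact_mod_cast this
    exact div_le_div_of_nonneg_right (Pool.Agent.Lib.H68T.BPS_v_le_one X m) hm0.le
  refine h2.trans ?_
  have hharm : ∀ n : ℕ, ((harmonic n : ℚ) : ℝ) = ∑ m ∈ Icc 1 n, 1 / (m : ℝ) := by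
    intro n
    rw [harmonic_eq_sum_Icc]
    push_cast
    refine sum_congr rfl fun m _ => ?_
    rw [one_div]
  have h4 : ∑ m ∈ Ioc (X / 8) (60 * X), 1 / (m : ℝ) =
      ((harmonic (60 * X) : ℚ) : ℝ) - ((harmonic (X / 8) : ℚ) : ℝ) := by
    rw [hharm, hharm]
    have h5 : Icc 1 (60 * X) = Icc 1 (X / 8) ∪ Ioc (X / 8) (60 * X) := by
      ext m
      rw [mem_union, mem_Icc, mem_Icc, mem_Ioc]
      omega
    have h6 : Disjoint (Icc 1 (X / 8)) (Ioc (X / 8) (60 * X)) := by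
      rw [disjoint_left]
      intro m hm hm2
      rw [mem_Icc] at hm
      rw [mem_Ioc] at hm2
      omega
    rw [h5, sum_union h6]
    ring
  rw [h4]
  have h5 := harmonic_le_one_add_log (60 * X)
  have h6 := log_add_one_le_harmonic (X / 8)
  have h7 : Real.log ((60 * X : ℕ) : ℝ) - Real.log ((X / 8 : ℕ) + 1 : ℝ) ≤ 7 := by
    have h8 : (X : ℝ) / 8 ≤ ((X / 8 : ℕ) : ℝ) + 1 := by
      have h9 : X < (X / 8 + 1) * 8 := by omega
      have h10 : (X : ℝ) < ((X / 8 : ℕ) + 1) * 8 := by exact_mod_cast h9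
      linarith
    have h9 : Real.log ((X : ℝ) / 8) ≤ Real.log ((X / 8 : ℕ) + 1 : ℝ) :=
      Real.log_le_log (by positivity) h8
    have h10 : Real.log ((60 * X : ℕ) : ℝ) = Real.log 480 + Real.log ((X : ℝ) / 8) := by
      rw [← Real.log_mul (by norm_num) (by positivity)]
      congr 1
      push_cast
      ring
    have h11 : Real.log 480 ≤ 7 := by
      rw [Real.log_le_iff_le_exp (by norm_num)]
      have h12 := Real.exp_one_gt_d9
      have h13 : Real.exp 7 = Real.exp 1 ^ 7 := by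
        rw [← Real.exp_nat_mul]; norm_num
      rw [h13]
      calc (480 : ℝ) ≤ 2.7 ^ 7 := by norm_num
        _ ≤ Real.exp 1 ^ 7 := by
            apply pow_le_pow_left₀ (by norm_num)
            linarith
    linarith
  push_cast at h5 h6 h7 ⊢
  linarith

/-- The main term (prime number theorem). -/
theorem an_main : ∃ X0 : ℕ, ∀ X : ℕ, X0 ≤ X →
    1 / 2 ≤ ∑ m ∈ (Icc 1 (60 * X)).filter Nat.Prime, Real.log m * H68T.v X m / m ∧
    ∑ m ∈ (Icc 1 (60 * X)).filter Nat.Prime, Real.log m * H68T.v X m / m ≤ 10 := by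
  obtain ⟨K, hK⟩ := Pool.Agent.Lib.H68T.FL_sub_F0_le 1
  obtain ⟨L₀, hL₀⟩ := H5C.an6_reg K
  obtain ⟨X1, hX1⟩ := SP_sub_FL
  have h1 : Filter.Tendsto (fun X : ℕ => Real.log X) Filter.atTop Filter.atTop :=
    Real.tendsto_log_atTop.comp tendsto_natCast_atTop_atTop
  have h2 : ∀ᶠ X : ℕ in Filter.atTop, max L₀ 12 ≤ Real.log X := h1.eventually_ge_atTop _
  obtain ⟨X₀, hX₀⟩ := Filter.eventually_atTop.mp h2
  refine ⟨X₀ + X1 + 1, fun X hX => ?_⟩
  have h3 := hX₀ X (by omega)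
  have hL1 : L₀ ≤ Real.log X := (le_max_left _ _).trans h3
  have hL4 : 12 ≤ Real.log X := (le_max_right _ _).trans h3
  have hXpos : (0 : ℝ) < X := by
    have : 0 < X := by omega
    exact_mod_cast this
  have h4 := hK _ X (hL₀ X hL1) 0
  rw [abs_zero, add_zero, one_mul, Real.rpow_neg_one] at h4
  have h5 : (Real.log X)⁻¹ ≤ 1 / 12 := by
    rw [one_div]
    exact inv_anti₀ (by norm_num) hL4
  have h6 := H5C.an6_F0_re X (by omega)
  have h6' := an_F0_le X (by omega)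
  have h7 : |(FL X H68T.p0 0 - F0 X 0).re| ≤ ‖FL X H68T.p0 0 - F0 X 0‖ := Complex.abs_re_le_norm _
  have h8 := abs_le.mp (h7.trans (h4.trans h5))
  rw [Complex.sub_re] at h8
  have h9 := hX1 X (by omega) H68T.p0 le_rfl
  have h10 : (X : ℝ) ^ (-(1 / 3) : ℝ) ≤ 1 / 10 := by
    rw [Real.rpow_def_of_pos hXpos]
    have h11 : Real.log X * (-(1 / 3)) ≤ -4 := by linarith
    have h12 : (10 : ℝ) ≤ Real.exp 4 := by
      have h12 := Real.exp_one_gt_d9
      have h13 : Real.exp 4 = Real.exp 1 ^ 4 := by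
        rw [← Real.exp_nat_mul]; norm_num
      rw [h13]
      calc (10 : ℝ) ≤ 2.7 ^ 4 := by norm_num
        _ ≤ Real.exp 1 ^ 4 := by
            apply pow_le_pow_left₀ (by norm_num)
            linarith
    calc Real.exp (Real.log X * (-(1 / 3))) ≤ Real.exp (-4) := Real.exp_le_exp.mpr h11
      _ = (Real.exp 4)⁻¹ := Real.exp_neg 4
      _ ≤ 1 / 10 := by
          rw [one_div]
          exact inv_anti₀ (by norm_num) h12
  have h11 : |(SP X (fun P => H68T.p0.2 (P : ZMod H68T.p0.1)) - FL X H68T.p0 0).re| ≤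
      ‖SP X (fun P => H68T.p0.2 (P : ZMod H68T.p0.1)) - FL X H68T.p0 0‖ :=
    Complex.abs_re_le_norm _
  have h12 := abs_le.mp (h11.trans (h9.trans h10))
  rw [Complex.sub_re] at h12
  have h13 : (SP X (fun P => H68T.p0.2 (P : ZMod H68T.p0.1))).re =
      ∑ m ∈ (Icc 1 (60 * X)).filter Nat.Prime, Real.log m * H68T.v X m / m := by
    rw [← an_thP]
    unfold thP
    rw [Complex.re_sum]
    refine sum_congr rfl fun m _ => ?_
    have h14 : H68T.p0.2 (m : ZMod H68T.p0.1) = 1 := by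
      unfold H68T.p0
      have : IsUnit ((m : ℕ) : ZMod 1) := isUnit_of_subsingleton _
      exact MulChar.one_apply this
    beta_reduce
    rw [h14, mul_one, Complex.ofReal_re]
  rw [h13] at h12
  constructor <;> linarith

end Pool.Agent.Lib.H92G
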