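import Pool.Agent.Lib.H92G.C1

/-!
# The main theorem with rough numbers: all integers of the window without prime factor `≤ x^δ`
-/

open Finset

namespace Pool.Agent.Lib.H92G

open Pool.Agent.Lib.H15P

/-- `exists_first` with `τ ≤ δ`. -/
theorem exists_firstR (k Bn r0 : ℕ) (η Γ δ : ℝ) (hη : 0 < η) (hΓ : 0 < Γ) (hδ : 0 < δ) :
    ∃ (cs : ℝ) (nA : ℕ) (RA τ : ℝ), 0 < cs ∧ cs ≤ 1 ∧ 1 ≤ nA ∧
      10000 * ((k : ℝ) + 2) ≤ nA * cs ∧
      0 ≤ RA ∧ nA * Real.exp (-RA) ≤ 1 / 8 ∧ 0 < τ ∧ τ ≤ 1 / 4 ∧ τ ≤ δ ∧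
      12 * ((r0 : ℝ) + 1) * (32000000 * (Bn + 1) * (Γ * cs) + 2 * (RA + 1) * τ) ≤ η / 64 ∧
      12 * ((r0 : ℝ) + 1) * τ ≤ η / 64 := by
  set A : ℝ := 12 * ((r0 : ℝ) + 1) * (32000000 * (Bn + 1) * Γ) with hA
  have hA0 : 0 < A := by positivity
  obtain ⟨cs, hcs0, hcs1, hcs2⟩ : ∃ cs : ℝ, 0 < cs ∧ cs ≤ 1 ∧ A * cs ≤ η / 128 := by
    refine ⟨min 1 (η / 128 / A), lt_min one_pos (by positivity), min_le_left _ _, ?_⟩
    calc A * min 1 (η / 128 / A) ≤ A * (η / 128 / A) :=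
          mul_le_mul_of_nonneg_left (min_le_right _ _) hA0.le
      _ = η / 128 := by field_simp
  set nA : ℕ := ⌈10000 * ((k : ℝ) + 2) / cs⌉₊ + 1 with hnA
  have h1 : 10000 * ((k : ℝ) + 2) / cs ≤ nA := by
    rw [hnA]
    push_cast
    have := Nat.le_ceil (10000 * ((k : ℝ) + 2) / cs)
    linarith
  have hnA1 : 1 ≤ nA := by omega
  have hnA0 : (1 : ℝ) ≤ nA := by exact_mod_cast hnA1
  have h2 : 10000 * ((k : ℝ) + 2) ≤ nA * cs := by rwa [div_le_iff₀ hcs0] at h1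
  set RA : ℝ := Real.log (8 * nA) with hRA
  have hRA0 : 0 ≤ RA := Real.log_nonneg (by linarith)
  have h3 : nA * Real.exp (-RA) ≤ 1 / 8 := by
    rw [hRA, Real.exp_neg, Real.exp_log (by linarith)]
    apply le_of_eq
    field_simp
  set B : ℝ := 12 * ((r0 : ℝ) + 1) * (2 * (RA + 1)) with hB
  have hB0 : 0 < B := by positivity
  obtain ⟨τ, hτ0, hτ1, hτδ, hτ2⟩ : ∃ τ : ℝ, 0 < τ ∧ τ ≤ 1 / 4 ∧ τ ≤ δ ∧ B * τ ≤ η / 128 := by
    refine ⟨min (min (1 / 4) δ) (η / 128 / B), lt_min (lt_min (by norm_num) hδ) (by positivity),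
      (min_le_left _ _).trans (min_le_left _ _), (min_le_left _ _).trans (min_le_right _ _), ?_⟩
    calc B * min (min (1 / 4) δ) (η / 128 / B) ≤ B * (η / 128 / B) :=
          mul_le_mul_of_nonneg_left (min_le_right _ _) hB0.le
      _ = η / 128 := by field_simp
  refine ⟨cs, nA, RA, τ, hcs0, hcs1, hnA1, h2, hRA0, h3, hτ0, hτ1, hτδ, ?_, ?_⟩
  · have e : 12 * ((r0 : ℝ) + 1) * (32000000 * (Bn + 1) * (Γ * cs) + 2 * (RA + 1) * τ) =
        A * cs + B * τ := by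
      rw [hA, hB]; ring
    rw [e]
    linarith
  · have e : 12 * ((r0 : ℝ) + 1) * τ ≤ B * τ := by
      apply mul_le_mul_of_nonneg_right _ hτ0.le
      rw [hB]
      have : (0 : ℝ) ≤ 12 * ((r0 : ℝ) + 1) := by positivity
      nlinarith
    linarith

/-- The property of `n` in the main theorem, with rough numbers: all `n + h`, `1 ≤ h ≤ Λ L`, without
prime factor `≤ z` are in the allowed intervals, at most one in each interval, and there are at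
least `k + 1` primes. -/
def GoodR {J : ℕ} (β : Fin J → ℝ) (ε Λ L : ℝ) (k z n : ℕ) : Prop :=
  (∀ h ∈ Icc 1 ⌊Λ * L⌋₊, z < (n + h).minFac → h ∈ AL β ε L) ∧
    (∀ j, ((IJ β ε L j).filter (fun h => z < (n + h).minFac)).card ≤ 1) ∧
      k + 1 ≤ ((AL β ε L).filter (fun h => (n + h).Prime)).card ∧ z ≤ n

theorem rg_of_rough (w : WG) (M Z0 n h : ℕ) (hM : 0 < M) (hP : ∀ p ∈ w.P, p ≤ Z0)
    (hMZ : M ≤ Z0) (hz : Z0 < (n + h).minFac) : rg w M n h := by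
  refine ⟨?_, ?_⟩
  · rw [Nat.coprime_iff_gcd_eq_one]
    by_contra hne
    obtain ⟨q, hq, hqd⟩ := Nat.exists_prime_and_dvd hne
    have h1 : q ∣ n + h := hqd.trans (Nat.gcd_dvd_left _ _)
    have h2 : q ∣ M := hqd.trans (Nat.gcd_dvd_right _ _)
    have h3 := Nat.le_of_dvd hM h2
    have h4 := Nat.minFac_le_of_dvd hq.two_le h1
    omega
  · unfold hit
    rw [Finset.filter_eq_empty_iff]
    intro p _ hd
    have h1 := Nat.minFac_le_of_dvd (w.prime p.1 p.2).two_le hd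
    have h2 := hP p.1 p.2
    omega

theorem count_geR {w : WG} {M H X Y Q' D Z0 : ℕ} {A0 A1 : ℝ} {J : ℕ} {β : Fin J → ℝ}
    {ε Λ L CE δ : ℝ} (hH : H = ⌊Λ * L⌋₊)
    (hcs : CS w M H Y (AL β ε L)) (hp : w.Prm M X Y Q' D A0 A1) (hX : 8 * (M + H) ≤ X)
    (hX2 : 8 * (Z0 + H + 1) < X) (hP : ∀ p ∈ w.P, p ≤ Z0) (hMZ : M ≤ Z0)
    (hg : 9 / 10 * ((AL β ε L).card * (M.totient : ℝ)) ≤
      ∑ a ∈ (range M).filter (okc w M H (AL β ε L)), ((Ac M (AL β ε L) a).card : ℝ))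
    (k : ℕ)
    (ha : ((k : ℝ) + 2) * (M * Y : ℕ) * (8 * Real.log (60 * X) / X) ≤
      w.g ^ 2 / 10 * (AL β ε L).card)
    (hb : 2 * w.g ^ 2 * w.el * Y * ((AL β ε L).card * M.totient) +
      2 * w.g ^ 4 * w.el ^ 2 * Y * ((M.totient : ℝ) ^ 2 / M * psum (AL β ε L)) ≤
        CE * (M * Y : ℕ))
    (hc : 3 * w.e * (M * Y : ℕ) +
      2 * w.g ^ 4 * w.el ^ 2 * Y * ((M.totient : ℝ) ^ 2 / M * ∑ j, psum (IJ β ε L j)) ≤
        δ * (M * Y : ℕ))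
    (he : 3 * w.e * k ≤ 1) (hδ : 2 * CE * δ ≤ 1) (hCE : 0 < CE) :
    ∃ s : Finset ℕ, s ⊆ range (M * Y) ∧ (∀ n ∈ s, GoodR β ε Λ L k Z0 n) ∧
      (M * Y : ℕ) / (8 * CE ^ 2 * w.C) ≤ (s.card : ℝ) := by
  classical
  set S := AL β ε L with hS
  have hX0 : 0 < X := hp.X0
  have hXr : (1 : ℝ) ≤ X := by exact_mod_cast hX0
  have hM : 0 < M := hcs.M0
  have hfn : ∀ n, 0 ≤ wn w M H S n := wn_nonneg w M H S
  have hN : (0 : ℝ) < ((M * Y : ℕ) : ℝ) := by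
    have := hp.YX
    exact_mod_cast (by omega : 0 < M * Y)
  have hC : 0 < w.C := lt_of_lt_of_le (Real.exp_pos _) w.hC
  have hcc : 0 < 8 * Real.log (60 * X) / X := by
    have h1 : 0 < Real.log (60 * X) := Real.log_pos (by linarith)
    positivity
  have hIS : ∀ j, IJ β ε L j ⊆ S := fun j =>
    Finset.subset_biUnion_of_mem (IJ β ε L) (Finset.mem_univ j)
  have h3 : ((k : ℝ) + 2) * (M * Y : ℕ) ≤
      ∑ n ∈ range (M * Y), wn w M H S n * (f2_q S Z0 n : ℝ) := by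
    have h := hcs.sum_prime_ge hp hX hg
    have h' : ∑ n ∈ range (M * Y), wn w M H S n * ∑ h ∈ S, lpv X (n + h) ≤
        (∑ n ∈ range (M * Y), wn w M H S n * (f2_q S Z0 n : ℝ)) *
          (8 * Real.log (60 * X) / X) := by
      rw [Finset.sum_mul]
      refine Finset.sum_le_sum fun n _ => ?_
      rw [mul_assoc]
      exact mul_le_mul_of_nonneg_left (f2_lpv S H X Z0 n hcs.SH hX0 hX2) (hfn n)
    exact le_of_mul_le_mul_right (ha.trans (h.trans h')) hcc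
  have h4 : ∑ n ∈ range (M * Y), wn w M H S n * (f2_q S Z0 n : ℝ) ^ 2 ≤
      CE * (M * Y : ℕ) := by
    have h1 := hcs.sum_one_le
    have h2 := hcs.sum_two_le S (Finset.Subset.refl S)
    refine le_trans ?_ ((add_le_add h1 h2).trans hb)
    rw [← Finset.sum_add_distrib]
    refine Finset.sum_le_sum fun n _ => ?_
    rw [← mul_add]
    refine mul_le_mul_of_nonneg_left ?_ (hfn n)
    have h5 := f2_q_le w M H S Z0 n hcs.SH hM hP hMZ
    have h6 : f2_q S Z0 n ^ 2 ≤ rgh w M S n + rgp w M S n := by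
      rw [← f2_sq]
      exact Nat.pow_le_pow_left h5 2
    exact_mod_cast h6
  have h5 : ∑ n ∈ range (M * Y), wn w M H S n *
      (f2_bad w M H S (IJ β ε L) n : ℝ) ≤ δ * (M * Y : ℕ) := by
    refine le_trans ?_ hc
    have h1 := hcs.sum_dis_le
    have h2 : ∑ n ∈ range (M * Y), wn w M H S n * (f2_bad w M H S (IJ β ε L) n : ℝ) =
        ∑ n ∈ range (M * Y), wn w M H S n * (rgh w M (Icc 1 H \ S) n : ℝ) +
        ∑ j, ∑ n ∈ range (M * Y), wn w M H S n * (rgp w M (IJ β ε L j) n : ℝ) := by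
      rw [Finset.sum_comm, ← Finset.sum_add_distrib]
      refine Finset.sum_congr rfl fun n _ => ?_
      unfold f2_bad
      push_cast
      rw [mul_add, Finset.mul_sum]
    rw [h2]
    refine add_le_add h1 ?_
    rw [Finset.mul_sum, Finset.mul_sum]
    exact Finset.sum_le_sum fun j _ => hcs.sum_two_le _ (hIS j)
  have key := cs_final (range (M * Y)) (wn w M H S) (f2_q S Z0)
    (f2_bad w M H S (IJ β ε L)) k (M * Y : ℕ) w.e CE w.C δ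
    (fun n _ => hfn n) hN hcs.sum_le hcs.sum_sq_le h3 h4 h5 he hδ hCE hC
  refine ⟨_, Finset.filter_subset _ _, ?_, key⟩
  intro n hn
  obtain ⟨-, hq, hbad⟩ := Finset.mem_filter.1 hn
  have hZn : Z0 ≤ n := by
    by_contra hlt
    unfold f2_q at hq
    rw [if_neg hlt] at hq
    omega
  have hrg : ∀ h, Z0 < (n + h).minFac → rg w M n h := fun h hz =>
    rg_of_rough w M Z0 n h hM hP hMZ hz
  unfold f2_bad at hbad
  have hb1 : rgh w M (Icc 1 H \ S) n = 0 := by omega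
  have hb2 : ∀ j, rgp w M (IJ β ε L j) n = 0 := by
    have : ∑ j, rgp w M (IJ β ε L j) n = 0 := by omega
    intro j
    exact Finset.sum_eq_zero_iff.1 this j (Finset.mem_univ j)
  refine ⟨?_, ?_, ?_, hZn⟩
  · intro h hh hpr
    by_contra hnS
    unfold rgh at hb1
    rw [Finset.card_eq_zero, Finset.filter_eq_empty_iff] at hb1
    refine hb1 (x := h) ?_ (hrg h hpr)
    rw [Finset.mem_sdiff, hH]
    exact ⟨hh, hnS⟩
  · intro j
    by_contra hgt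
    push Not at hgt
    obtain ⟨a, ha', b, hb', hab⟩ := Finset.one_lt_card.1 hgt
    rw [Finset.mem_filter] at ha' hb'
    have h2 := hb2 j
    unfold rgp at h2
    rw [Finset.card_eq_zero, Finset.filter_eq_empty_iff] at h2
    exact h2 (x := (a, b)) (Finset.mem_product.2 ⟨ha'.1, hb'.1⟩)
      ⟨hab, hrg a ha'.2, hrg b hb'.2⟩
  · unfold f2_q at hq
    rw [if_pos hZn] at hq
    exact hq

/-- facts for large `x`: `exp (2 (log x)^(1/100)) ≤ x^δ`, `x^δ ≥ 1`. -/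
theorem r_large (δ : ℝ) (hδ : 0 < δ) : ∃ x0 : ℝ, ∀ x : ℝ, x0 ≤ x → 1 ≤ x ∧
    Real.exp (2 * Real.log x ^ (1 / 100 : ℝ)) ≤ x ^ δ := by
  have a6 : ∀ᶠ L : ℝ in Filter.atTop, (2 / δ) * L ^ (1 / 100 : ℝ) ≤ L ^ (1 : ℝ) :=
    n4_rpow_le_rpow (1 / 100) 1 (2 / δ) (by norm_num)
  have a7 := Real.tendsto_log_atTop.eventually a6
  obtain ⟨x0, hx0⟩ := Filter.eventually_atTop.1 (a7.and (Filter.eventually_ge_atTop 1))
  refine ⟨x0, fun x hx => ?_⟩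
  obtain ⟨h1, h2⟩ := hx0 x hx
  refine ⟨h2, ?_⟩
  have hx0' : 0 < x := by linarith
  have hxd : x ^ δ = Real.exp (Real.log x * δ) := Real.rpow_def_of_pos hx0' δ
  rw [hxd, Real.exp_le_exp]
  rw [Real.rpow_one] at h1
  have h3 : δ * ((2 / δ) * Real.log x ^ (1 / 100 : ℝ)) ≤ δ * Real.log x :=
    mul_le_mul_of_nonneg_left h1 hδ.le
  have h4 : δ * ((2 / δ) * Real.log x ^ (1 / 100 : ℝ)) = 2 * Real.log x ^ (1 / 100 : ℝ) := by
    field_simp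
  linarith

/-- `key_small` with rough numbers. -/
theorem key_smallR (k : ℕ) (δ : ℝ) (hδ : 0 < δ) (hδ4 : δ ≤ 1 / 4) : ∃ J0 : ℕ, 1 ≤ J0 ∧ ∀ (J : ℕ) (β : Fin J → ℝ) (ε Λ : ℝ), J0 ≤ J →
    Conf J β ε Λ → ε ≤ 1 / J → ∃ c : ℝ, 0 < c ∧ ∃ x0 : ℝ, ∀ x : ℝ, x0 ≤ x →
      ∃ s : Finset ℕ, s ⊆ Icc 1 ⌊x⌋₊ ∧ (∀ n ∈ s, GoodR β ε Λ (Real.log x) k ⌊x ^ δ⌋₊ n) ∧
        c * x ≤ (s.card : ℝ) := by
  obtain ⟨C0, K0, hC0, hK0, hall⟩ := an_all
  obtain ⟨η, hη⟩ : ∃ η : ℝ, η = 1 / (4 * K0) := ⟨_, rfl⟩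
  have hη0 : 0 < η := by rw [hη]; positivity
  obtain ⟨Bn, hBn3, hBnC⟩ : ∃ Bn : ℕ, 3 ≤ Bn ∧ 2 * C0 + 6 ≤ Bn := by
    refine ⟨max 3 ⌈2 * C0 + 6⌉₊, le_max_left _ _, ?_⟩
    refine (Nat.le_ceil _).trans ?_
    exact_mod_cast le_max_right _ _
  have hsig : 0 ≤ sig := by
    unfold sig
    have : 0 ≤ Real.log (1000 * (4000 : ℕ)) := Real.log_nonneg (by norm_num)
    linarith
  obtain ⟨r0, hr0⟩ := exists_r0 sig hsig
  obtain ⟨CG, hCG1, hAL⟩ := AL_facts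
  have hCG0 : 0 < CG := by linarith
  obtain ⟨cs, nA, RA, τ, hcs0, hcs1, hnA1, hk, hRA, hnRA, hτ0, hτ1, hτδ, hc1, hc5⟩ :=
    exists_firstR k Bn r0 η (25000 * CG) δ hη0 (by positivity) hδ
  have hnA0 : (0 : ℝ) < nA := by exact_mod_cast hnA1
  have hBn0 : (0 : ℝ) ≤ Bn := Nat.cast_nonneg _
  obtain ⟨C1, hC1⟩ : ∃ C1 : ℝ, C1 = 10 ^ 7 * ((Bn : ℝ) + 1) * (nA * cs) / τ := ⟨_, rfl⟩
  obtain ⟨C2, hC2⟩ : ∃ C2 : ℝ, C2 = 10 ^ 14 * ((Bn : ℝ) + 1) ^ 2 * (nA * cs) ^ 2 * CG / τ ^ 2 :=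
    ⟨_, rfl⟩
  have hC1p : 0 < C1 := by rw [hC1]; positivity
  have hC2p : 0 < C2 := by rw [hC2]; positivity
  obtain ⟨J0, e, hJ01, he0, he1, hek, hJe⟩ := exists_second k C1 C2 hC1p hC2p
  refine ⟨J0, hJ01, fun J β ε Λ hJ hconf hεJ => ?_⟩
  have hJ1 : 1 ≤ J := hJ01.trans hJ
  have hJr : (0 : ℝ) < J := by exact_mod_cast hJ1
  have hε := hconf.e0
  have hΛ : 0 < Λ := by
    have h1 := hconf.b0 ⟨0, hJ1⟩
    have h2 := hconf.bL ⟨0, hJ1⟩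
    linarith
  obtain ⟨u, hu⟩ : ∃ u : ℝ, u = J * ε := ⟨_, rfl⟩
  have hu0 : 0 < u := by rw [hu]; positivity
  have hu1 : u ≤ 1 := by
    rw [hu]
    calc (J : ℝ) * ε ≤ J * (1 / J) := mul_le_mul_of_nonneg_left hεJ hJr.le
      _ = 1 := by field_simp
  obtain ⟨cA, hcA0, hcA2⟩ : ∃ cA : ℝ, 0 ≤ cA ∧ cA ^ 2 * u * nA = cs := by
    refine ⟨Real.sqrt (cs / (u * nA)), Real.sqrt_nonneg _, ?_⟩
    rw [Real.sq_sqrt (by positivity)]
    field_simp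
  obtain ⟨αA, hαA⟩ : ∃ αA : ℝ, αA = 25000 * CG * u := ⟨_, rfl⟩
  have hαA0 : 0 < αA := by rw [hαA]; positivity
  obtain ⟨α, hα⟩ : ∃ α : ℝ, α = 25000 * CG * Λ := ⟨_, rfl⟩
  have hα0 : 0 < α := by rw [hα]; positivity
  obtain ⟨nD, b0, RD, hnD, hRD, hnRD, hc4, hc2⟩ := exists_third Bn r0 η τ α e hη0 hτ0 hα0 he0
  have hc1' : 12 * ((r0 : ℝ) + 1) * (32000000 * (Bn + 1) * (αA * cA ^ 2 * nA) +
      2 * (RA + 1) * τ) ≤ η / 64 := by
    have h1 : αA * cA ^ 2 * nA = 25000 * CG * cs := by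
      rw [hαA, ← hcA2]
      ring
    rw [h1]
    exact hc1
  obtain ⟨c, hcdef⟩ : ∃ c : Cons, c = ⟨Bn, r0, nA, nD, b0, η, τ, cA, α, αA, RA, RD, e, hBn3,
    hr0, hnD, hη0, hτ0, hcA0, hα0, hαA0, hRA, hRD, he0, he1, hc1', hc2, by linarith, hc4,
    hc5⟩ := ⟨_, rfl⟩
  obtain ⟨C, x1, hC, hx1⟩ := exists_all c Λ C0 K0 hΛ hC0 hK0 hall an_small an_main
    (by rw [hcdef]; exact hη.le) (by rw [hcdef]; exact hBnC) (by rw [hcdef]; exact hτ1)
  obtain ⟨L0, hL0⟩ := hAL J β ε Λ hJ1 hconf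
  obtain ⟨CE, hCE⟩ : ∃ CE : ℝ, CE = C1 + C2 := ⟨_, rfl⟩
  have hCE0 : 0 < CE := by rw [hCE]; linarith
  have hCpos : 0 < C := by linarith
  obtain ⟨x2, hx2⟩ := f4_large αA α Λ (32 * CE ^ 2 * C) L0 hαA0 hα0 (by positivity)
  obtain ⟨x3, hx3⟩ := r_large δ hδ
  refine ⟨1 / (32 * CE ^ 2 * C), by positivity, max (max x1 x2) x3, fun x hx => ?_⟩
  obtain ⟨w, M, X, Y, Q', D, A0, A1, hA⟩ :=
    hx1 x ((le_max_left _ _).trans ((le_max_left _ _).trans hx))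
  obtain ⟨hx1', hLL0, hL1, hlA, hl, h121, hDx⟩ :=
    hx2 x ((le_max_right _ _).trans ((le_max_left _ _).trans hx))
  obtain ⟨-, hMδ⟩ := hx3 x ((le_max_right _ _).trans hx)
  obtain ⟨f1, f2, f3, f4, f5⟩ := hL0 (Real.log x) hLL0
  obtain ⟨L, hL⟩ : ∃ L : ℝ, L = Real.log x := ⟨_, rfl⟩
  obtain ⟨l, hldef⟩ : ∃ l : ℝ, l = Real.log L := ⟨_, rfl⟩
  have aKA := hA.KA
  have aK := hA.K
  have ael := hA.el
  have atot := hA.tot
  have aHW := hA.HW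
  have aX8 := hA.X8
  have aX2 := hA.X2
  have aL1 := hA.L1
  have anA := hA.nA
  have acA := hA.cA
  have aC := hA.C
  have ae := hA.e
  rw [hcdef] at aKA aK ael anA acA ae
  simp only at aKA aK ael anA acA ae
  rw [← hL] at aKA aK ael atot aHW aX8 aX2 aL1 hL1 hlA hl h121 f1 f2 f3 f4 f5
  rw [← hldef] at aKA aK ael atot aL1 hlA hl
  have hJu : (J : ℝ) * ε * L = u * L := by rw [hu]
  rw [hJu] at f1 f2 f3 f5
  have hL0' : 0 ≤ L := by linarith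
  obtain ⟨S, hS⟩ : ∃ S : Finset ℕ, S = AL β ε L := ⟨_, rfl⟩
  obtain ⟨H, hH⟩ : ∃ H : ℕ, H = ⌊Λ * L⌋₊ := ⟨_, rfl⟩
  rw [← hS] at f1 f2 f3 f5
  rw [← hH] at aHW aX8 f5
  have hSH : S ⊆ Icc 1 H := by
    rw [hS, hH]
    exact AL_subset hconf L hL0'
  have hM0 : (0 : ℝ) < M := by exact_mod_cast hA.M0
  have htot0 : (0 : ℝ) ≤ M.totient := Nat.cast_nonneg _
  have hcs' : CS w M H Y S := ⟨hA.M0, hA.sqf, hSH, aHW, hA.cop, hA.long⟩
  have hl0 : 0 < l := by linarith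
  have hKApos : (0 : ℝ) < w.KA := lt_of_lt_of_le (by positivity) aKA
  have hKA : 0 < w.KA := by exact_mod_cast hKApos
  have hg : w.g = 1 + nA * cA := by
    unfold WG.g
    rw [anA, acA]
  have hpt0 : 0 ≤ ∑ h ∈ S, ∑ h' ∈ (Icc 1 H).erase h, Gd h h' :=
    Finset.sum_nonneg fun _ _ => Finset.sum_nonneg fun _ _ => f4_Gd_nonneg _ _
  have hucs : u ≤ nA * cs := by
    have : (0 : ℝ) ≤ k := Nat.cast_nonneg _
    linarith
  have nh := num_h CG u Λ αA α S.card L l M.totient M (psum S)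
    (∑ h ∈ S, ∑ h' ∈ (Icc 1 H).erase h, Gd h h') w.KA w.K hCG1 hu0 hΛ hαA.symm.le hα.symm.le
    hL1 aL1 hlA hl htot0 atot hM0 f1 (f4_psum_nonneg S) f3 hpt0 f5 aKA aK
  have hgp := good_pairs_ge w M H hA.sqf S hSH hKA nh
  have hX0 : 0 < X := hA.prm.X0
  have hXr : (0 : ℝ) < X := by exact_mod_cast hX0
  have hN : (((M * Y : ℕ)) : ℝ) = (M : ℝ) * Y := by push_cast; ring
  have ha := num_a k x X ((M : ℝ) * Y) w.g u cs nA cA S.card L (Nat.cast_nonneg _) hXr hA.X1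
    hA.MY1 (by positivity) hL1 aX2 (by linarith) hu0 hnA0.le hcA0 hg hcA2 f1 hk
  have hel0 := w.el0.le
  have hb := num_b Bn τ CG w.g u cs nA cA S.card L l w.el M.totient M Y (psum S) hBn0 hτ0
    hCG0.le hu0 hnA0.le hcA0 hg hcA2 hucs hL1 aL1 hel0 ael htot0 atot hM0 (Nat.cast_nonneg _)
    (Nat.cast_nonneg _) f2 (f4_psum_nonneg S) f3
  have hc := num_c Bn τ CG w.g u cs nA cA L l w.el M.totient M Y
    (∑ j, psum (IJ β ε L j)) J ε hBn0 hτ0 hCG0.le hJr hε hu hnA0.le hcA0 hg hcA2 hucs hL1 aL1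
    hel0 ael htot0 atot hM0 (Nat.cast_nonneg _)
    (Finset.sum_nonneg fun j _ => f4_psum_nonneg _) f4
  rw [← hC1, ← hC2, ← hCE] at hb
  rw [← hC2] at hc
  obtain ⟨Z0, hZ0⟩ : ∃ Z0 : ℕ, Z0 = ⌊x ^ δ⌋₊ := ⟨_, rfl⟩
  have hxδ : x ^ δ ≤ x ^ (1 / 4 : ℝ) := Real.rpow_le_rpow_of_exponent_le hx1' hδ4
  have hxδ0 : 0 ≤ x ^ δ := Real.rpow_nonneg (by linarith) _
  have hx14 : 0 ≤ x ^ (1 / 4 : ℝ) := Real.rpow_nonneg (by linarith) _
  have hPZ : ∀ p ∈ w.P, p ≤ Z0 := by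
    intro p hp
    rw [hZ0]
    apply Nat.le_floor
    refine (hA.Pt p hp).trans ?_
    rw [hcdef]
    exact Real.rpow_le_rpow_of_exponent_le hx1' hτδ
  have hMZ : M ≤ Z0 := by
    rw [hZ0]
    apply Nat.le_floor
    refine (hA.Mt).trans hMδ
  have hX2' : 8 * (Z0 + H + 1) < X := by
    have h1 : (8 : ℝ) * (Z0 + H + 1) < X := by
      have h2 : (Z0 : ℝ) ≤ x ^ (1 / 4 : ℝ) := by
        rw [hZ0]
        exact (Nat.floor_le hxδ0).trans hxδ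
      have h3 : (H : ℝ) ≤ Λ * L := by
        rw [hH]
        exact Nat.floor_le (by positivity)
      have h4 := hA.X1
      linarith
    exact_mod_cast h1
  have hfin := count_geR (w := w) (M := M) (H := H) (X := X) (Y := Y) (Q' := Q') (D := D)
    (Z0 := Z0) (A0 := A0) (A1 := A1) (β := β) (ε := ε) (Λ := Λ) (L := L) (CE := CE)
    (δ := 3 * e + C2 / J) hH (by rw [← hS]; exact hcs') hA.prm aX8 hX2' hPZ hMZ
    (by rw [← hS]; exact hgp) k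
    (by rw [← hS, hN]; exact ha)
    (by rw [← hS, hN]; exact hb)
    (by rw [hN, ae, add_mul]; exact add_le_add_right hc _)
    (by rw [ae]; exact hek) (by rw [hCE]; exact hJe J hJ) hCE0
  obtain ⟨s, hs1, hs2, hs3⟩ := hfin
  rw [hN, aC] at hs3
  refine ⟨s.erase 0, ?_, ?_, ?_⟩
  · intro n hn
    rw [Finset.mem_erase] at hn
    have h1 := Finset.mem_range.1 (hs1 hn.2)
    rw [Finset.mem_Icc]
    refine ⟨Nat.one_le_iff_ne_zero.2 hn.1, Nat.le_floor ?_⟩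
    have h2 : (n : ℝ) ≤ ((M * Y : ℕ) : ℝ) := by exact_mod_cast h1.le
    rw [hN] at h2
    exact h2.trans hA.MY1
  · intro n hn
    rw [← hL, ← hZ0]
    exact hs2 n (Finset.mem_of_mem_erase hn)
  · have h1 : (s.card : ℝ) - 1 ≤ ((s.erase 0).card : ℝ) := by
      have h2 := Finset.pred_card_le_card_erase (s := s) (a := 0)
      have h3 : s.card ≤ (s.erase 0).card + 1 := by omega
      have h4 : (s.card : ℝ) ≤ (s.erase 0).card + 1 := by exact_mod_cast h3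
      linarith
    have h5 : x / 2 / (8 * CE ^ 2 * C) ≤ (M : ℝ) * Y / (8 * CE ^ 2 * C) :=
      div_le_div_of_nonneg_right hA.MY2 (by positivity)
    have h6 : 1 ≤ 1 / (32 * CE ^ 2 * C) * x := by
      rw [one_div, inv_mul_eq_div, le_div_iff₀ (by positivity), one_mul]
      exact hDx
    have h7 : x / 2 / (8 * CE ^ 2 * C) = 2 * (1 / (32 * CE ^ 2 * C) * x) := by
      field_simp
      norm_num
    linarith

/-- If `ε' ≤ ε`, `GoodN` for `ε'` implies `GoodN` for `ε`: the primes `n + h`, `h ≤ ⌊Λ L⌋`, are all in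
the smaller intervals, and the larger intervals are disjoint. -/
theorem GoodR_mono {J : ℕ} {β : Fin J → ℝ} {ε ε' Λ L : ℝ} (h : Conf J β ε Λ) (h0 : 0 < ε')
    (hε : ε' ≤ ε) (hL : 0 ≤ L) (k z n : ℕ) (hn : GoodR β ε' Λ L k z n) : GoodR β ε Λ L k z n := by
  obtain ⟨h1, h2, h3, h3'⟩ := hn
  have hsub : ∀ j, IJ β ε' L j ⊆ IJ β ε L j := f4_IJ_mono β hε hL
  have hAL : AL β ε' L ⊆ AL β ε L := by
    intro x hx
    unfold AL at hx ⊢
    rw [Finset.mem_biUnion] at hx ⊢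
    obtain ⟨j, hj, hxj⟩ := hx
    exact ⟨j, hj, hsub j hxj⟩
  refine ⟨fun x hx hp => hAL (h1 x hx hp), fun j => ?_, ?_, h3'⟩
  · refine le_trans (Finset.card_le_card ?_) (h2 j)
    intro x hx
    rw [Finset.mem_filter] at hx ⊢
    refine ⟨?_, hx.2⟩
    have hxA : x ∈ AL β ε L := Finset.mem_biUnion.2 ⟨j, Finset.mem_univ j, hx.1⟩
    have h4 := h1 x (AL_subset h L hL hxA) hx.2
    unfold AL at h4
    rw [Finset.mem_biUnion] at h4
    obtain ⟨j', _, hj'⟩ := h4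
    by_cases hjj : j = j'
    · rw [hjj]
      exact hj'
    · exact absurd (hsub j' hj') (Finset.disjoint_left.1 (IJ_disjoint h L hL hjj) hx.1)
  · exact h3.trans (Finset.card_le_card (Finset.filter_subset_filter _ hAL))

/-- The main theorem. -/
theorem keyR (k : ℕ) (δ : ℝ) (hδ : 0 < δ) (hδ4 : δ ≤ 1 / 4) : ∃ J0 : ℕ, 1 ≤ J0 ∧ ∀ (J : ℕ) (β : Fin J → ℝ) (ε Λ : ℝ), J0 ≤ J →
    Conf J β ε Λ → ∃ c : ℝ, 0 < c ∧ ∃ x0 : ℝ, ∀ x : ℝ, x0 ≤ x →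
      ∃ s : Finset ℕ, s ⊆ Icc 1 ⌊x⌋₊ ∧ (∀ n ∈ s, GoodR β ε Λ (Real.log x) k ⌊x ^ δ⌋₊ n) ∧
        c * x ≤ (s.card : ℝ) := by
  obtain ⟨J0, hJ0, hk⟩ := key_smallR k δ hδ hδ4
  refine ⟨J0, hJ0, fun J β ε Λ hJ hconf => ?_⟩
  have hJr : (0 : ℝ) < J := by exact_mod_cast hJ0.trans hJ
  have hmin : 0 < min ε (1 / J) := lt_min hconf.e0 (by positivity)
  have hconf' : Conf J β (min ε (1 / J)) Λ := by
    refine ⟨hmin, hconf.b0, fun j => ?_, fun j j' hjj => ?_⟩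
    · have := hconf.bL j
      have := min_le_left ε (1 / (J : ℝ))
      linarith
    · have := hconf.sep j j' hjj
      have := min_le_left ε (1 / (J : ℝ))
      linarith
  obtain ⟨c, hc, x0, hx0⟩ := hk J β _ Λ hJ hconf' (min_le_right _ _)
  refine ⟨c, hc, max 1 x0, fun x hx => ?_⟩
  obtain ⟨s, hs1, hs2, hs3⟩ := hx0 x ((le_max_right _ _).trans hx)
  have hx1 : 1 ≤ x := (le_max_left _ _).trans hx
  exact ⟨s, hs1, fun n hn => GoodR_mono hconf hmin (min_le_left _ _) (Real.log_nonneg hx1) k _ n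
    (hs2 n hn), hs3⟩

/-- `key_real` for the integers which are prime or have no prime factor `≤ x^δ`. -/
theorem key_realR (k : ℕ) (δ : ℝ) (hδ : 0 < δ) : ∃ J0 : ℕ, 1 ≤ J0 ∧
    ∀ (J : ℕ) (β : Fin J → ℝ) (ε Λ : ℝ), J0 ≤ J →
    Conf J β ε Λ → ∃ c : ℝ, 0 < c ∧ ∃ x0 : ℝ, ∀ x : ℝ, x0 ≤ x →
      ∃ s : Finset ℕ, s ⊆ Icc 1 ⌊x⌋₊ ∧ c * x ≤ (s.card : ℝ) ∧ ∀ n ∈ s,
        (∀ p : ℕ, (p.Prime ∨ x ^ δ < (p.minFac : ℝ)) → n < p → (p : ℝ) ≤ n + Λ * Real.log x →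
          ∃ j, (n : ℝ) + β j * Real.log x < p ∧ (p : ℝ) ≤ n + (β j + ε) * Real.log x) ∧
        (∀ j, ∀ p p' : ℕ, (p.Prime ∨ x ^ δ < (p.minFac : ℝ)) →
          (p'.Prime ∨ x ^ δ < (p'.minFac : ℝ)) → (n : ℝ) + β j * Real.log x < p →
          (p : ℝ) ≤ n + (β j + ε) * Real.log x → (n : ℝ) + β j * Real.log x < p' →
          (p' : ℝ) ≤ n + (β j + ε) * Real.log x → p = p') ∧
        k + 1 ≤ ((Ioc n (n + ⌊Λ * Real.log x⌋₊)).filter Nat.Prime).card := by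
  have hδ' : 0 < min δ (1 / 4) := lt_min hδ (by norm_num)
  obtain ⟨J0, hJ0, hkey⟩ := keyR k (min δ (1 / 4)) hδ' (min_le_right _ _)
  refine ⟨J0, hJ0, fun J β ε Λ hJ hC => ?_⟩
  obtain ⟨c, hc, x0, hx0⟩ := hkey J β ε Λ hJ hC
  refine ⟨c, hc, max x0 1, fun x hx => ?_⟩
  obtain ⟨s, hs1, hs2, hs3⟩ := hx0 x ((le_max_left _ _).trans hx)
  have hx1 : 1 ≤ x := (le_max_right _ _).trans hx
  have hL : 0 ≤ Real.log x := Real.log_nonneg hx1
  have hxδ : x ^ min δ (1 / 4) ≤ x ^ δ :=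
    Real.rpow_le_rpow_of_exponent_le hx1 (min_le_left _ _)
  have hxδ0 : 0 ≤ x ^ min δ (1 / 4) := Real.rpow_nonneg (by linarith) _
  obtain ⟨z, hz⟩ : ∃ z : ℕ, z = ⌊x ^ min δ (1 / 4)⌋₊ := ⟨_, rfl⟩
  rw [← hz] at hs2
  set L := Real.log x with hLdef
  have hIJ : ∀ (j : Fin J) (h : ℕ), h ∈ IJ β ε L j ↔ β j * L < h ∧ (h : ℝ) ≤ (β j + ε) * L := by
    intro j h
    unfold IJ
    rw [mem_Ioc, Nat.floor_lt (mul_nonneg (hC.b0 j) hL),
      Nat.le_floor_iff (mul_nonneg (add_nonneg (hC.b0 j) hC.e0.le) hL)]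
  refine ⟨s, hs1, hs3, fun n hn => ?_⟩
  obtain ⟨g1, g2, g3, g4⟩ := hs2 n hn
  have hR : ∀ p : ℕ, (p.Prime ∨ x ^ δ < (p.minFac : ℝ)) → n < p → z < p.minFac := by
    intro p hp hnp
    rcases hp with hp | hp
    · rw [hp.minFac_eq]
      omega
    · rw [hz, Nat.floor_lt hxδ0]
      exact lt_of_le_of_lt hxδ hp
  refine ⟨?_, ?_, ?_⟩
  · intro p hp hnp hpL
    have hzp := hR p hp hnp
    obtain ⟨h, rfl⟩ := Nat.exists_eq_add_of_lt hnp
    have hΛ : 0 ≤ Λ * L := by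
      push_cast at hpL
      have : (0 : ℝ) ≤ h := Nat.cast_nonneg h
      linarith
    have hmem : h + 1 ∈ Icc 1 ⌊Λ * L⌋₊ := by
      rw [mem_Icc]
      refine ⟨by omega, Nat.le_floor ?_⟩
      push_cast at hpL ⊢
      linarith
    have h2 := g1 (h + 1) hmem (by rwa [← add_assoc])
    unfold AL at h2
    rw [mem_biUnion] at h2
    obtain ⟨j, -, hj⟩ := h2
    rw [hIJ] at hj
    refine ⟨j, ?_, ?_⟩
    · push_cast at hj ⊢
      linarith [hj.1]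
    · push_cast at hj ⊢
      linarith [hj.2]
  · intro j p p' hp hp' h1 h2 h3 h4
    have hb : 0 ≤ β j * L := mul_nonneg (hC.b0 j) hL
    have hnp : n < p := by
      have : (n : ℝ) < p := by linarith
      exact_mod_cast this
    have hnp' : n < p' := by
      have : (n : ℝ) < p' := by linarith
      exact_mod_cast this
    have hcard := g2 j
    rw [Finset.card_le_one] at hcard
    have key1 : ∀ q : ℕ, z < q.minFac → n < q → (n : ℝ) + β j * L < q →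
        (q : ℝ) ≤ n + (β j + ε) * L →
        q - n ∈ (IJ β ε L j).filter (fun h => z < (n + h).minFac) := by
      intro q hq hnq ha hb
      rw [mem_filter, hIJ, Nat.cast_sub hnq.le, Nat.add_sub_cancel' hnq.le]
      exact ⟨⟨by linarith, by linarith⟩, hq⟩
    have := hcard _ (key1 p (hR p hp hnp) hnp h1 h2) _ (key1 p' (hR p' hp' hnp') hnp' h3 h4)
    omega
  · refine g3.trans ?_
    apply Finset.card_le_card_of_injOn (fun h => n + h)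
    · intro h hh
      rw [mem_coe, mem_filter] at hh
      obtain ⟨hh1, hh2⟩ := hh
      unfold AL at hh1
      rw [mem_biUnion] at hh1
      obtain ⟨j, -, hj⟩ := hh1
      rw [hIJ] at hj
      have hh0 : 0 < h := by
        have h5 : (0 : ℝ) < h := lt_of_le_of_lt (mul_nonneg (hC.b0 j) hL) hj.1
        exact_mod_cast h5
      have hhL : h ≤ ⌊Λ * L⌋₊ :=
        Nat.le_floor (hj.2.trans (mul_le_mul_of_nonneg_right (hC.bL j) hL))
      rw [mem_coe, mem_filter, mem_Ioc]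
      refine ⟨⟨?_, ?_⟩, hh2⟩
      · show n < n + h
        omega
      · show n + h ≤ n + ⌊Λ * L⌋₊
        omega
    · intro a _ b _ hab
      exact Nat.add_left_cancel hab

end Pool.Agent.Lib.H92G
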