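import Pool.Agent.Lib.H92G.F4

/-!
# Chunk C1: chains of large gaps in positive proportion
-/

open Finset

namespace Pool.Agent.Lib.H92G

/-- The main theorem with real intervals. For `n` in `s`: the primes of `(n, n + Λ L]` (`L = log x`)
are the `n + h`, `h ∈ Icc 1 ⌊Λ L⌋`; `h ∈ IJ j` iff `β j L < h ≤ (β j + ε) L` (`Nat.floor_lt`,
`Nat.le_floor_iff`). -/
theorem key_real (k : ℕ) : ∃ J0 : ℕ, 1 ≤ J0 ∧ ∀ (J : ℕ) (β : Fin J → ℝ) (ε Λ : ℝ), J0 ≤ J →
    Conf J β ε Λ → ∃ c : ℝ, 0 < c ∧ ∃ x0 : ℝ, ∀ x : ℝ, x0 ≤ x →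
      ∃ s : Finset ℕ, s ⊆ Icc 1 ⌊x⌋₊ ∧ c * x ≤ (s.card : ℝ) ∧ ∀ n ∈ s,
        (∀ p : ℕ, p.Prime → n < p → (p : ℝ) ≤ n + Λ * Real.log x →
          ∃ j, (n : ℝ) + β j * Real.log x < p ∧ (p : ℝ) ≤ n + (β j + ε) * Real.log x) ∧
        (∀ j, ∀ p p' : ℕ, p.Prime → p'.Prime → (n : ℝ) + β j * Real.log x < p →
          (p : ℝ) ≤ n + (β j + ε) * Real.log x → (n : ℝ) + β j * Real.log x < p' →
          (p' : ℝ) ≤ n + (β j + ε) * Real.log x → p = p') ∧
        k + 1 ≤ ((Ioc n (n + ⌊Λ * Real.log x⌋₊)).filter Nat.Prime).card := by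
  obtain ⟨J0, hJ0, hkey⟩ := key k
  refine ⟨J0, hJ0, fun J β ε Λ hJ hC => ?_⟩
  obtain ⟨c, hc, x0, hx0⟩ := hkey J β ε Λ hJ hC
  refine ⟨c, hc, max x0 1, fun x hx => ?_⟩
  obtain ⟨s, hs1, hs2, hs3⟩ := hx0 x ((le_max_left _ _).trans hx)
  have hx1 : 1 ≤ x := (le_max_right _ _).trans hx
  have hL : 0 ≤ Real.log x := Real.log_nonneg hx1
  set L := Real.log x with hLdef
  have hIJ : ∀ (j : Fin J) (h : ℕ), h ∈ IJ β ε L j ↔ β j * L < h ∧ (h : ℝ) ≤ (β j + ε) * L := by
    intro j h
    unfold IJ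
    rw [mem_Ioc, Nat.floor_lt (mul_nonneg (hC.b0 j) hL),
      Nat.le_floor_iff (mul_nonneg (add_nonneg (hC.b0 j) hC.e0.le) hL)]
  refine ⟨s, hs1, hs3, fun n hn => ?_⟩
  obtain ⟨g1, g2, g3⟩ := hs2 n hn
  refine ⟨?_, ?_, ?_⟩
  · intro p hp hnp hpL
    obtain ⟨h, rfl⟩ := Nat.exists_eq_add_of_lt hnp
    have hΛ : 0 ≤ Λ * L := by
      push_cast at hpL
      have : (0 : ℝ) ≤ h := Nat.cast_nonneg h
      linarith
    have hmem : h + 1 ∈ Icc 1 ⌊Λ * L⌋₊ := by
      rw [mem_Icc]
      refine ⟨by omega, Nat.le_floor ?_⟩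
      push_cast at hpL ⊢
      linarith
    have h2 := g1 (h + 1) hmem (by rwa [← add_assoc])
    unfold AL at h2
    rw [mem_biUnion] at h2
    obtain ⟨j, -, hj⟩ := h2
    rw [hIJ] at hj
    refine ⟨j, ?_, ?_⟩
    · push_cast at hj ⊢
      linarith [hj.1]
    · push_cast at hj ⊢
      linarith [hj.2]
  · intro j p p' hp hp' h1 h2 h3 h4
    have hb : 0 ≤ β j * L := mul_nonneg (hC.b0 j) hL
    have hnp : n < p := by
      have : (n : ℝ) < p := by linarith
      exact_mod_cast this
    have hnp' : n < p' := by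
      have : (n : ℝ) < p' := by linarith
      exact_mod_cast this
    have hcard := g2 j
    rw [Finset.card_le_one] at hcard
    have key1 : ∀ q : ℕ, q.Prime → n < q → (n : ℝ) + β j * L < q →
        (q : ℝ) ≤ n + (β j + ε) * L →
        q - n ∈ (IJ β ε L j).filter (fun h => (n + h).Prime) := by
      intro q hq hnq ha hb
      rw [mem_filter, hIJ, Nat.cast_sub hnq.le, Nat.add_sub_cancel' hnq.le]
      exact ⟨⟨by linarith, by linarith⟩, hq⟩
    have := hcard _ (key1 p hp hnp h1 h2) _ (key1 p' hp' hnp' h3 h4)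
    omega
  · refine g3.trans ?_
    apply Finset.card_le_card_of_injOn (fun h => n + h)
    · intro h hh
      rw [mem_coe, mem_filter] at hh
      obtain ⟨hh1, hh2⟩ := hh
      unfold AL at hh1
      rw [mem_biUnion] at hh1
      obtain ⟨j, -, hj⟩ := hh1
      rw [hIJ] at hj
      have hh0 : 0 < h := by
        have h5 : (0 : ℝ) < h := lt_of_le_of_lt (mul_nonneg (hC.b0 j) hL) hj.1
        exact_mod_cast h5
      have hhL : h ≤ ⌊Λ * L⌋₊ :=
        Nat.le_floor (hj.2.trans (mul_le_mul_of_nonneg_right (hC.bL j) hL))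
      rw [mem_coe, mem_filter, mem_Ioc]
      refine ⟨⟨?_, ?_⟩, hh2⟩
      · show n < n + h
        omega
      · show n + h ≤ n + ⌊Λ * L⌋₊
        omega
    · intro a _ b _ hab
      exact Nat.add_left_cancel hab

/-- Chains. `key_real` at `x/2` with `β j = j (lam + 1)`, `ε = 1/2`, `Λ = J (lam + 1)`
(`(lam + 1/2) log (x/2) ≥ lam log x`). For `n ∈ s` let `q` be the first prime `> n`
(`q = nth Prime i`): the primes `nth Prime i, .., nth Prime (i + k)` are in the window, they are
consecutive primes lying in different intervals, so the gaps are `≥ (lam + 1/2) log (x/2)`. Each `i`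
comes from at most `Λ log x` integers `n` (`n ∈ [q - Λ log x, q)`). -/
theorem chains (k : ℕ) (lam : ℝ) (hl : 0 < lam) : ∃ c : ℝ, 0 < c ∧ ∃ x0 : ℝ, ∀ x : ℝ, x0 ≤ x →
    c * (x / Real.log x) ≤ (Set.ncard {i : ℕ | (Nat.nth Nat.Prime (i + k) : ℝ) ≤ x ∧
      ∀ r < k, lam * Real.log x ≤
        (Nat.nth Nat.Prime (i + r + 1) : ℝ) - Nat.nth Nat.Prime (i + r)} : ℝ) := by
  obtain ⟨J, hJ, hkey⟩ := key_real k
  have hJr : (1 : ℝ) ≤ J := by exact_mod_cast hJ
  set Λ : ℝ := J * (lam + 1) with hΛ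
  have hΛ0 : 0 < Λ := by positivity
  have hconf : Conf J (fun j : Fin J => (j : ℝ) * (lam + 1)) (1 / 2) Λ := by
    refine ⟨by norm_num, fun j => by positivity, fun j => ?_, fun j j' hjj => ?_⟩
    · have h1 : ((j : ℕ) : ℝ) + 1 ≤ J := by exact_mod_cast j.2
      rw [hΛ]
      nlinarith
    · have h1 : ((j : ℕ) : ℝ) + 1 ≤ (j' : ℕ) := by exact_mod_cast hjj
      show ((j : ℕ) : ℝ) * (lam + 1) + 1 / 2 ≤ ((j' : ℕ) : ℝ) * (lam + 1)
      nlinarith
  obtain ⟨c, hc, x0, hx0⟩ := hkey J _ _ _ le_rfl hconf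
  -- large `x`
  have E1 : ∀ᶠ x : ℝ in Filter.atTop,
      max 1 (2 * (lam + 1 / 2) * Real.log 2) ≤ Real.log x :=
    Real.tendsto_log_atTop.eventually_ge_atTop _
  have E2 : ∀ᶠ x : ℝ in Filter.atTop, Λ * Real.log x ≤ x / 2 := by
    have := (isLittleO_log_rpow_atTop (r := 1) (by norm_num)).bound (c := 1 / (2 * Λ))
      (by positivity)
    filter_upwards [this, Filter.eventually_ge_atTop 1] with x hx hx1
    rw [Real.norm_of_nonneg (Real.log_nonneg hx1), Real.rpow_one,
      Real.norm_of_nonneg (by linarith)] at hx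
    calc Λ * Real.log x ≤ Λ * (1 / (2 * Λ) * x) := by gcongr
      _ = x / 2 := by field_simp
  obtain ⟨x1, hx1⟩ := Filter.eventually_atTop.mp (E1.and E2)
  refine ⟨c / (2 * Λ), by positivity, max (max (2 * x0) x1) 2, fun x hx => ?_⟩
  have hxx0 : x0 ≤ x / 2 := by
    have : 2 * x0 ≤ x := ((le_max_left _ _).trans (le_max_left _ _)).trans hx
    linarith
  have hxx1 : x1 ≤ x := ((le_max_right _ _).trans (le_max_left _ _)).trans hx
  have hx2 : 2 ≤ x := (le_max_right _ _).trans hx
  obtain ⟨hL, hLx⟩ := hx1 x hxx1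
  have hL1 : 1 ≤ Real.log x := (le_max_left _ _).trans hL
  have hL2 : 2 * (lam + 1 / 2) * Real.log 2 ≤ Real.log x := (le_max_right _ _).trans hL
  obtain ⟨s, hs1, hs2, hs3⟩ := hx0 (x / 2) hxx0
  have hlog2 : 0 < Real.log 2 := Real.log_pos (by norm_num)
  have hlogx : Real.log (x / 2) = Real.log x - Real.log 2 :=
    Real.log_div (by linarith) (by norm_num)
  set L' := Real.log (x / 2) with hL'
  have hL'0 : 0 ≤ L' := Real.log_nonneg (by linarith)
  have hL'L : L' ≤ Real.log x := by linarith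
  set W := ⌊Λ * L'⌋₊ with hW
  have hWle : (W : ℝ) ≤ Λ * L' := Nat.floor_le (by positivity)
  set T := {i : ℕ | (Nat.nth Nat.Prime (i + k) : ℝ) ≤ x ∧
      ∀ r < k, lam * Real.log x ≤
        (Nat.nth Nat.Prime (i + r + 1) : ℝ) - Nat.nth Nat.Prime (i + r)} with hT
  have hinf : (setOf Nat.Prime).Infinite := Nat.infinite_setOf_prime
  have hmono : StrictMono (Nat.nth Nat.Prime) := Nat.nth_strictMono hinf
  have hTfin : T.Finite := by
    apply Set.Finite.subset (Set.finite_Iic ⌊x⌋₊)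
    intro i hi
    have h1 : i + k ≤ Nat.nth Nat.Prime (i + k) := hmono.id_le _
    have h2 : ((i : ℕ) : ℝ) ≤ x := by
      have h3 : ((i + k : ℕ) : ℝ) ≤ (Nat.nth Nat.Prime (i + k) : ℝ) := by exact_mod_cast h1
      have h4 : ((i : ℕ) : ℝ) ≤ ((i + k : ℕ) : ℝ) := by exact_mod_cast Nat.le_add_right i k
      linarith [hi.1]
    exact Nat.le_floor h2
  -- the window of `n`
  have hwin : ∀ n ∈ s, ∀ r ≤ k, n < Nat.nth Nat.Prime (Nat.count Nat.Prime (n + 1) + r) ∧
      Nat.nth Nat.Prime (Nat.count Nat.Prime (n + 1) + r) ≤ n + W := by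
    intro n hn r hr
    obtain ⟨-, -, h3⟩ := hs3 n hn
    constructor
    · have := (Nat.count_le_iff_le_nth hinf (a := n + 1)
        (b := Nat.count Nat.Prime (n + 1) + r)).mp (Nat.le_add_right _ _)
      omega
    · have hcount : Nat.count Nat.Prime (n + W + 1) =
          Nat.count Nat.Prime (n + 1) + ((Ioc n (n + W)).filter Nat.Prime).card := by
        rw [Nat.count_eq_card_filter_range, Nat.count_eq_card_filter_range,
          ← Finset.card_union_of_disjoint]
        · congr 1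
          ext p
          simp only [mem_filter, mem_range, mem_union, mem_Ioc]
          constructor
          · rintro ⟨h1, h2⟩
            by_cases h : p < n + 1
            · exact Or.inl ⟨h, h2⟩
            · exact Or.inr ⟨⟨by omega, by omega⟩, h2⟩
          · rintro (⟨h1, h2⟩ | ⟨⟨h1, h1'⟩, h2⟩)
            · exact ⟨by omega, h2⟩
            · exact ⟨by omega, h2⟩
        · rw [Finset.disjoint_left]
          intro p hp hp'
          rw [mem_filter, mem_range] at hp
          rw [mem_filter, mem_Ioc] at hp'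
          omega
      have h4 : Nat.count Nat.Prime (n + 1) + r < Nat.count Nat.Prime (n + W + 1) := by
        rw [hcount]
        omega
      have := Nat.nth_lt_of_lt_count h4
      omega
  have hmem : ∀ n ∈ s, Nat.count Nat.Prime (n + 1) ∈ T := by
    intro n hn
    have hnx : (n : ℝ) ≤ x / 2 := by
      have h1 := hs1 hn
      rw [mem_Icc] at h1
      exact (Nat.le_floor_iff (by linarith)).mp h1.2
    obtain ⟨g1, g2, -⟩ := hs3 n hn
    refine ⟨?_, fun r hr => ?_⟩
    · have h1 := (hwin n hn k le_rfl).2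
      have h2 : (Nat.nth Nat.Prime (Nat.count Nat.Prime (n + 1) + k) : ℝ) ≤ n + W := by
        exact_mod_cast h1
      have h3 : Λ * L' ≤ Λ * Real.log x := by gcongr
      linarith
    · set i := Nat.count Nat.Prime (n + 1) with hi
      have hw1 := hwin n hn r hr.le
      have hw2 := hwin n hn (r + 1) (by omega)
      rw [← add_assoc] at hw2
      have hlt : Nat.nth Nat.Prime (i + r) < Nat.nth Nat.Prime (i + r + 1) :=
        hmono (Nat.lt_succ_self _)
      have hp1 : (Nat.nth Nat.Prime (i + r)).Prime := Nat.prime_nth_prime _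
      have hp2 : (Nat.nth Nat.Prime (i + r + 1)).Prime := Nat.prime_nth_prime _
      set q := Nat.nth Nat.Prime (i + r) with hq
      set q' := Nat.nth Nat.Prime (i + r + 1) with hq'
      have hqW : (q : ℝ) ≤ n + Λ * L' := by
        have : (q : ℝ) ≤ n + W := by exact_mod_cast hw1.2
        linarith
      have hqW' : (q' : ℝ) ≤ n + Λ * L' := by
        have : (q' : ℝ) ≤ n + W := by exact_mod_cast hw2.2
        linarith
      obtain ⟨j, hj1, hj2⟩ := g1 q hp1 hw1.1 hqW
      obtain ⟨j', hj1', hj2'⟩ := g1 q' hp2 hw2.1 hqW'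
      have hltr : (q : ℝ) < q' := by exact_mod_cast hlt
      have hjj : j < j' := by
        rcases lt_trichotomy j j' with h | h | h
        · exact h
        · subst h
          exact absurd (g2 j q q' hp1 hp2 hj1 hj2 hj1' hj2') hlt.ne
        · exfalso
          have h5 : ((j' : ℕ) : ℝ) + 1 ≤ (j : ℕ) := by exact_mod_cast h
          have h6 : (((j' : ℕ) : ℝ) * (lam + 1) + 1 / 2) * L' ≤ ((j : ℕ) : ℝ) * (lam + 1) * L' := by
            apply mul_le_mul_of_nonneg_right _ hL'0
            nlinarith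
          linarith
      have h5 : ((j : ℕ) : ℝ) + 1 ≤ (j' : ℕ) := by exact_mod_cast hjj
      have h6 : (((j : ℕ) : ℝ) * (lam + 1) + 1 / 2 + (lam + 1 / 2)) * L' ≤
          ((j' : ℕ) : ℝ) * (lam + 1) * L' := by
        apply mul_le_mul_of_nonneg_right _ hL'0
        nlinarith
      have h7 : lam * Real.log x ≤ (lam + 1 / 2) * L' := by
        rw [hlogx]
        nlinarith
      linarith
  -- fibres
  have hfib : ∀ a ∈ s.image (fun n => Nat.count Nat.Prime (n + 1)),
      (s.filter (fun n => Nat.count Nat.Prime (n + 1) = a)).card ≤ W := by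
    intro a _
    calc (s.filter (fun n => Nat.count Nat.Prime (n + 1) = a)).card
        ≤ (Ico (Nat.nth Nat.Prime a - W) (Nat.nth Nat.Prime a)).card := by
          apply card_le_card
          intro n hn
          rw [mem_filter] at hn
          have h1 := hwin n hn.1 0 (Nat.zero_le _)
          rw [hn.2, add_zero] at h1
          rw [mem_Ico]
          omega
      _ ≤ W := by
          rw [Nat.card_Ico]
          omega
  have hcard := Finset.card_le_mul_card_image (f := fun n => Nat.count Nat.Prime (n + 1)) s W hfib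
  have hsub : (s.image (fun n => Nat.count Nat.Prime (n + 1))).card ≤ T.ncard := by
    rw [← Set.ncard_coe_finset]
    apply Set.ncard_le_ncard _ hTfin
    intro i hi
    rw [mem_coe, mem_image] at hi
    obtain ⟨n, hn, rfl⟩ := hi
    exact hmem n hn
  have hfinal : (s.card : ℝ) ≤ Λ * Real.log x * T.ncard := by
    have h1 : (s.card : ℝ) ≤ W * T.ncard := by
      have := hcard.trans (Nat.mul_le_mul_left W hsub)
      exact_mod_cast this
    have h2 : (W : ℝ) ≤ Λ * Real.log x := hWle.trans (by gcongr)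
    exact h1.trans (by gcongr)
  have hlogpos : 0 < Real.log x := by linarith
  rw [div_mul_div_comm, div_le_iff₀ (by positivity)]
  calc c * x = 2 * (c * (x / 2)) := by ring
    _ ≤ 2 * (Λ * Real.log x * T.ncard) := by linarith
    _ = T.ncard * (2 * Λ * Real.log x) := by ring

end Pool.Agent.Lib.H92G
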