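import Pool.Agent.Lib.H92G.C1
import Pool.Agent.Lib.H92P.X4

/-!
# Chunk C2: exact counts for all `m`, `lam`
-/

open Finset

namespace Pool.Agent.Lib.H92G

open Pool.Agent.Lib.H92P

/-- The number of primes in `(n, n + H + t]`. -/
def c2_f (n H t : ℕ) : ℕ := ((Ioc n (n + H + t)).filter Nat.Prime).card

theorem c2_mono (n H : ℕ) : Monotone (c2_f n H) := by
  intro a b hab
  apply card_le_card
  apply filter_subset_filter
  apply Ioc_subset_Ioc_right
  omega

theorem c2_succ (n H t : ℕ) :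
    c2_f n H (t + 1) ≤ c2_f n H t + 1 ∧ (c2_f n H t < c2_f n H (t + 1) → (n + H + (t + 1)).Prime) := by
  have h1 : Ioc n (n + H + (t + 1)) = insert (n + H + (t + 1)) (Ioc n (n + H + t)) := by
    ext y
    rw [mem_insert, mem_Ioc, mem_Ioc]
    omega
  unfold c2_f
  rw [h1, filter_insert]
  constructor
  · split_ifs
    · exact card_insert_le _ _
    · omega
  · intro h
    by_contra hp
    rw [if_neg hp] at h
    exact lt_irrefl _ h

theorem c2_cw {n H t : ℕ} (h : ∀ p, p.Prime → n < p → n + t < p) : cw H (n + t) = c2_f n H t := by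
  unfold cw c2_f
  rw [← card_image_of_injective ((Icc 1 H).filter fun h => (n + t + h).Prime)
    (add_right_injective (n + t))]
  congr 1
  ext y
  simp only [mem_image, mem_filter, mem_Icc, mem_Ioc]
  constructor
  · rintro ⟨a, ⟨⟨h1, h2⟩, h3⟩, rfl⟩
    exact ⟨⟨by omega, by omega⟩, h3⟩
  · rintro ⟨⟨h1, h2⟩, h3⟩
    have h4 := h y h3 h1
    refine ⟨y - (n + t), ⟨⟨by omega, by omega⟩, ?_⟩, by omega⟩
    rwa [show n + t + (y - (n + t)) = y by omega]

/-- The two switching points. -/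
theorem c2_core {n H m T : ℕ} (hm : 1 ≤ m) (h0 : ∀ p, p.Prime → n < p → n + H < p)
    (hT : m + 1 ≤ c2_f n H T) : ∃ t1 t2 : ℕ, t1 < t2 ∧ t2 ≤ T ∧ (n + H + t1).Prime ∧
      (n + H + t2).Prime ∧ ∀ t, t1 ≤ t → t < t2 → c2_f n H t = m := by
  classical
  have hz : c2_f n H 0 = 0 := by
    unfold c2_f
    rw [card_eq_zero, filter_eq_empty_iff]
    intro p hp hp2
    rw [mem_Ioc] at hp
    have := h0 p hp2 hp.1
    omega
  have h1 : ∃ t, m ≤ c2_f n H t := ⟨T, by omega⟩
  have h2 : ∃ t, m + 1 ≤ c2_f n H t := ⟨T, hT⟩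
  have a1 := Nat.find_spec h1
  have a2 := Nat.find_spec h2
  have b1 : ∀ t, t < Nat.find h1 → c2_f n H t < m := fun t ht => not_le.1 (Nat.find_min h1 ht)
  have b2 : ∀ t, t < Nat.find h2 → c2_f n H t < m + 1 := fun t ht => not_le.1 (Nat.find_min h2 ht)
  have c2T : Nat.find h2 ≤ T := Nat.find_min' h2 hT
  generalize Nat.find h1 = t1 at a1 b1
  generalize Nat.find h2 = t2 at a2 b2 c2T
  have p1 : t1 ≠ 0 := by
    rintro rfl
    omega
  have p2 : t2 ≠ 0 := by
    rintro rfl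
    omega
  obtain ⟨u1, rfl⟩ := Nat.exists_eq_succ_of_ne_zero p1
  obtain ⟨u2, rfl⟩ := Nat.exists_eq_succ_of_ne_zero p2
  have d1 := b1 u1 (Nat.lt_succ_self _)
  have d2 := b2 u2 (Nat.lt_succ_self _)
  obtain ⟨e1, e1'⟩ := c2_succ n H u1
  obtain ⟨e2, e2'⟩ := c2_succ n H u2
  refine ⟨u1.succ, u2.succ, ?_, c2T, ?_, ?_, ?_⟩
  · by_contra hge
    have h3 : c2_f n H u2.succ ≤ c2_f n H u1.succ := c2_mono n H (not_lt.1 hge)
    have h4 : c2_f n H u1.succ = c2_f n H (u1 + 1) := rfl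
    have h5 : c2_f n H u2.succ = c2_f n H (u2 + 1) := rfl
    omega
  · exact e1' (lt_of_lt_of_le d1 a1)
  · exact e2' (lt_of_lt_of_le (Nat.lt_of_lt_of_le (b2 u2 (Nat.lt_succ_self _)) le_rfl) a2)
  · intro t ht1 ht2
    have h3 : c2_f n H u1.succ ≤ c2_f n H t := c2_mono n H ht1
    have h4 := b2 t ht2
    omega

/-- Double counting. -/
theorem c2_count (s G : Finset ℕ) (T : ℕ → Finset ℕ) (B : ℕ) (hB : ∀ n ∈ s, ∀ t ∈ T n, t < B)
    (hG : ∀ n ∈ s, ∀ t ∈ T n, n + t ∈ G) : ∑ n ∈ s, (T n).card ≤ B * G.card := by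
  classical
  rw [← card_sigma]
  have h1 : ((s.sigma T).image (fun z : (_ : ℕ) × ℕ => z.1 + z.2)).card ≤ G.card := by
    apply card_le_card
    intro y hy
    rw [mem_image] at hy
    obtain ⟨z, hz, rfl⟩ := hy
    rw [mem_sigma] at hz
    exact hG z.1 hz.1 z.2 hz.2
  refine (card_le_mul_card_image (f := fun z : (_ : ℕ) × ℕ => z.1 + z.2) (s.sigma T) B ?_).trans
    (Nat.mul_le_mul_left B h1)
  intro y _
  have h2 : Set.InjOn (fun z : (_ : ℕ) × ℕ => z.2)
      (((s.sigma T).filter (fun z : (_ : ℕ) × ℕ => z.1 + z.2 = y) : Finset ((_ : ℕ) × ℕ)) :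
        Set ((_ : ℕ) × ℕ)) := by
    intro a ha b hb hab
    rw [mem_coe, mem_filter] at ha hb
    obtain ⟨a1, a2⟩ := a
    obtain ⟨b1, b2⟩ := b
    simp only at ha hb hab
    obtain ⟨_, ha⟩ := ha
    obtain ⟨_, hb⟩ := hb
    have h3 : a1 = b1 := by omega
    rw [h3, hab]
  rw [← card_image_of_injOn h2]
  calc _ ≤ (range B).card := by
        apply card_le_card
        intro t ht
        rw [mem_image] at ht
        obtain ⟨z, hz, rfl⟩ := ht
        rw [mem_filter, mem_sigma] at hz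
        rw [mem_range]
        exact hB z.1 hz.1.1 z.2 hz.1.2
    _ = B := card_range B

/-- `m = 0`: `H92P.exact_counts 0 lam`. `m ≥ 1`: `key_real` with `k = m`, `J = J0`,
`ε = lam/(8 J)`, `β j = lam + 2 j ε`, `Λ = 2 lam + 1`. Let `H = ⌊lam L⌋`. For `n ∈ s` let
`q_1 < q_2 < .. < q_(m+1)` be the first primes `> n`; they are `> n + lam L ≥ n + H`, at most
`n + (5/4) lam L`, and two of them differ by at least `ε L` (different intervals). For
`q_m - n - H ≤ t < q_(m+1) - n - H` the window `(n + t, n + t + H]` contains exactly the primes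
`q_1, .., q_m` (`n + t < q_1` as `t ≤ lam L/4 + 1`). So every `n ∈ s` gives at least `ε L` integers
`n + t` (`0 ≤ t ≤ Λ L`) with `cw H (n + t) = m`, and every integer comes from at most `Λ L + 1`
of the `n`; at most `Λ L + 1` of them exceed `x`. -/
theorem exact_all (m : ℕ) (lam : ℝ) (hl : 0 < lam) :
    ∃ c : ℝ, 0 < c ∧ ∃ x0 : ℝ, ∀ x : ℝ, x0 ≤ x →
      c * x ≤ (((Icc 1 ⌊x⌋₊).filter (fun n => cw ⌊lam * Real.log x⌋₊ n = m)).card : ℝ) := by
  classical
  rcases Nat.eq_zero_or_pos m with hm0 | hm1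
  · subst hm0
    exact exact_zero lam hl
  obtain ⟨J, hJ, hkey⟩ := key_real m
  have hJ0 : (1 : ℝ) ≤ J := by exact_mod_cast hJ
  set ε : ℝ := lam / (8 * J) with hε
  have hε0 : 0 < ε := by positivity
  have hεJ : 8 * (J * ε) = lam := by
    rw [hε]; field_simp
  set β : Fin J → ℝ := fun j => lam + 2 * (j : ℕ) * ε with hβ
  have hβlam : ∀ j, lam ≤ β j := by
    intro j
    rw [hβ]
    have : 0 ≤ 2 * ((j : ℕ) : ℝ) * ε := by positivity
    simp only
    linarith
  have hβup : ∀ j, β j + ε ≤ 5 / 4 * lam := by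
    intro j
    rw [hβ]
    have h1 : ((j : ℕ) : ℝ) + 1 ≤ J := by exact_mod_cast j.2
    have h2 : (((j : ℕ) : ℝ) + 1) * ε ≤ J * ε := by gcongr
    simp only
    nlinarith
  have hsep : ∀ j j', j < j' → β j + 2 * ε ≤ β j' := by
    intro j j' hjj
    rw [hβ]
    have h1 : ((j : ℕ) : ℝ) + 1 ≤ ((j' : ℕ) : ℝ) := by exact_mod_cast hjj
    have h2 : (((j : ℕ) : ℝ) + 1) * ε ≤ ((j' : ℕ) : ℝ) * ε := by gcongr
    simp only
    nlinarith
  have hconf : Conf J β ε (2 * lam + 1) := by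
    refine ⟨hε0, fun j => (hl.le).trans (hβlam j), fun j => ?_, fun j j' hjj => ?_⟩
    · have := hβup j
      linarith
    · have := hsep j j' hjj
      linarith
  obtain ⟨c, hc, x0, hx0⟩ := hkey J β ε (2 * lam + 1) le_rfl hconf
  have hev : ∀ᶠ x : ℝ in Filter.atTop, x0 ≤ x ∧ 1 ≤ x ∧ 4 ≤ lam * Real.log x ∧
      lam * Real.log x ≤ c / 2 * x := by
    refine (Filter.eventually_ge_atTop x0).and ((Filter.eventually_ge_atTop 1).and ?_)
    refine ((Filter.Tendsto.const_mul_atTop hl Real.tendsto_log_atTop).eventually_ge_atTop 4).and ?_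
    have h1 := Real.isLittleO_log_id_atTop.bound (c := c / (2 * lam)) (by positivity)
    filter_upwards [h1, Filter.eventually_ge_atTop (1 : ℝ)] with x hx hx1
    have h2 : Real.log x ≤ c / (2 * lam) * x := by
      have h3 : ‖(id x : ℝ)‖ = x := by
        rw [id, Real.norm_of_nonneg (by linarith)]
      rw [h3] at hx
      exact (le_abs_self _).trans hx
    calc lam * Real.log x ≤ lam * (c / (2 * lam) * x) := by gcongr
      _ = c / 2 * x := by field_simp
  obtain ⟨x1, hx1⟩ := Filter.eventually_atTop.1 hev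
  refine ⟨c * ε / (4 * lam), by positivity, x1, fun x hx => ?_⟩
  obtain ⟨hxx0, hx1', hx4, hxc⟩ := hx1 x hx
  obtain ⟨s, hs, hscard, hsn⟩ := hx0 x hxx0
  set L : ℝ := Real.log x with hL
  set H : ℕ := ⌊lam * L⌋₊ with hH
  have hlamL : 0 ≤ lam * L := by linarith
  have hL0 : 0 < L := by
    by_contra h
    have : lam * L ≤ 0 := mul_nonpos_of_nonneg_of_nonpos hl.le (not_lt.1 h)
    linarith
  have hH1 : (H : ℝ) ≤ lam * L := Nat.floor_le hlamL
  have hH2 : lam * L < H + 1 := Nat.lt_floor_add_one _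
  -- the switching points
  have hsw : ∀ n ∈ s, ∃ t1 t2 : ℕ, t1 ≤ t2 ∧ ε * L ≤ (t2 : ℝ) - t1 ∧ t2 ≤ H + 1 ∧
      ∀ t, t1 ≤ t → t < t2 → cw H (n + t) = m := by
    intro n hn
    obtain ⟨g1, g2, g3⟩ := hsn n hn
    have hno : ∀ p, p.Prime → n < p → n + H < p := by
      intro p hp hnp
      by_contra hle
      have hle' : p ≤ n + H := not_lt.1 hle
      have h1 : (p : ℝ) ≤ n + H := by exact_mod_cast hle'
      have h2 : (p : ℝ) ≤ n + (2 * lam + 1) * L := by nlinarith
      obtain ⟨j, h3, _⟩ := g1 p hp hnp h2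
      have h4 : lam * L ≤ β j * L := by
        have := hβlam j
        gcongr
      linarith
    have hHΛ : H ≤ ⌊(2 * lam + 1) * L⌋₊ := by
      apply Nat.floor_le_floor
      nlinarith
    have hT : m + 1 ≤ c2_f n H (⌊(2 * lam + 1) * L⌋₊ - H) := by
      unfold c2_f
      rw [show n + H + (⌊(2 * lam + 1) * L⌋₊ - H) = n + ⌊(2 * lam + 1) * L⌋₊ by omega]
      exact g3
    obtain ⟨t1, t2, h1, h2, q1, q2, h3⟩ := c2_core hm1 hno hT
    have hup : ∀ t, t ≤ ⌊(2 * lam + 1) * L⌋₊ - H →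
        ((n + H + t : ℕ) : ℝ) ≤ n + (2 * lam + 1) * L := by
      intro t ht
      have h4 : n + H + t ≤ n + ⌊(2 * lam + 1) * L⌋₊ := by omega
      have h5 : ((n + H + t : ℕ) : ℝ) ≤ n + (⌊(2 * lam + 1) * L⌋₊ : ℕ) := by exact_mod_cast h4
      have h6 : ((⌊(2 * lam + 1) * L⌋₊ : ℕ) : ℝ) ≤ (2 * lam + 1) * L := Nat.floor_le (by positivity)
      linarith
    have pos1 : n < n + H + t1 := by
      by_contra hh
      have e : n + H + t1 = n := by omega
      have e2 : t1 = 0 := by omega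
      have e3 : H = 0 := by omega
      have h4 : lam * L < 0 + 1 := by
        rw [e3] at hH2
        push_cast at hH2
        exact hH2
      linarith
    obtain ⟨j1, i1, i1'⟩ := g1 _ q1 pos1 (hup t1 (by omega))
    obtain ⟨j2, i2, i2'⟩ := g1 _ q2 (by omega) (hup t2 h2)
    have hlt : ((n + H + t1 : ℕ) : ℝ) < ((n + H + t2 : ℕ) : ℝ) := by
      exact_mod_cast (by omega : n + H + t1 < n + H + t2)
    have hne : j1 ≠ j2 := by
      rintro rfl
      have := g2 j1 _ _ q1 q2 i1 i1' i2 i2'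
      omega
    have hj : j1 < j2 := by
      rcases lt_or_gt_of_ne hne with h | h
      · exact h
      · exfalso
        have h4 := hsep j2 j1 h
        have h5 : (β j2 + 2 * ε) * L ≤ β j1 * L := by gcongr
        nlinarith
    have hdiff : ε * L ≤ (t2 : ℝ) - t1 := by
      have h4 := hsep j1 j2 hj
      have h5 : (β j1 + 2 * ε) * L ≤ β j2 * L := by gcongr
      push_cast at i1' i2
      nlinarith
    have ht2 : t2 ≤ H := by
      have h4 : (β j2 + ε) * L ≤ 5 / 4 * lam * L := by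
        have := hβup j2
        gcongr
      push_cast at i2'
      have h5 : (t2 : ℝ) < H + 1 := by linarith
      have h6 : t2 < H + 1 := by exact_mod_cast h5
      omega
    refine ⟨t1, t2, h1.le, hdiff, by omega, fun t ht1 ht2' => ?_⟩
    rw [c2_cw, h3 t ht1 ht2']
    intro p hp hnp
    have := hno p hp hnp
    omega
  choose! t1 t2 hle hdiff ht2 hcw using hsw
  set s' : Finset ℕ := s.filter (fun n => n + H ≤ ⌊x⌋₊) with hs'
  set G : Finset ℕ := (Icc 1 ⌊x⌋₊).filter (fun n => cw H n = m) with hG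
  -- most of `s` is in `s'`
  have hs'card : c / 2 * x ≤ (s'.card : ℝ) := by
    have h1 : s ⊆ s' ∪ Ioc (⌊x⌋₊ - H) ⌊x⌋₊ := by
      intro n hn
      have h2 := mem_Icc.1 (hs hn)
      rw [mem_union, hs', mem_filter, mem_Ioc]
      by_cases h3 : n + H ≤ ⌊x⌋₊
      · exact Or.inl ⟨hn, h3⟩
      · right; omega
    have h2 : (s.card : ℝ) ≤ s'.card + H := by
      have h3 := (card_le_card h1).trans (card_union_le _ _)
      rw [Nat.card_Ioc] at h3
      have h4 : s.card ≤ s'.card + H := by omega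
      exact_mod_cast h4
    linarith
  have hcount := c2_count s' G (fun n => Ico (t1 n) (t2 n)) (H + 1) ?_ ?_
  · have h1 : ε * L * (s'.card : ℝ) ≤ ((∑ n ∈ s', (Ico (t1 n) (t2 n)).card : ℕ) : ℝ) := by
      push_cast
      calc ε * L * (s'.card : ℝ) = ∑ _n ∈ s', ε * L := by
            rw [sum_const, nsmul_eq_mul]; ring
        _ ≤ ∑ n ∈ s', ((Ico (t1 n) (t2 n)).card : ℝ) := by
            apply sum_le_sum
            intro n hn
            have hns := (mem_filter.1 hn).1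
            rw [Nat.card_Ico, Nat.cast_sub (hle n hns)]
            exact hdiff n hns
    have h2 : ((∑ n ∈ s', (Ico (t1 n) (t2 n)).card : ℕ) : ℝ) ≤ ((H : ℝ) + 1) * G.card := by
      exact_mod_cast hcount
    have h3 : ((H : ℝ) + 1) * G.card ≤ (2 * (lam * L)) * G.card := by
      have : (H : ℝ) + 1 ≤ 2 * (lam * L) := by linarith
      gcongr
    have h4 : ε * L * (c / 2 * x) ≤ ε * L * (s'.card : ℝ) := by gcongr
    have h5 : ε * L * (c / 2 * x) ≤ 2 * (lam * L) * G.card := by linarith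
    have h6 : L * (c * ε / (4 * lam) * x) ≤ L * (G.card : ℝ) := by
      have e : L * (c * ε / (4 * lam) * x) = (ε * L * (c / 2 * x)) / (2 * lam) := by
        field_simp
        ring
      rw [e, div_le_iff₀ (by positivity)]
      linarith
    exact le_of_mul_le_mul_left h6 hL0
  · intro n hn t ht
    have hns := (mem_filter.1 hn).1
    have h1 := (mem_Ico.1 ht).2
    have h2 := ht2 n hns
    show t < H + 1
    omega
  · intro n hn t ht
    have hn' := mem_filter.1 hn
    have hns := hn'.1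
    have h1 := mem_Ico.1 ht
    have h2 := ht2 n hns
    have h3 := mem_Icc.1 (hs hns)
    rw [hG, mem_filter, mem_Icc]
    refine ⟨⟨by omega, by omega⟩, ?_⟩
    exact hcw n hns t h1.1 h1.2

end Pool.Agent.Lib.H92G
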