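import Pool.Agent.Lib.H92G.C1

/-!
# Chunk C3: the support of the distribution of the normalised gaps
-/

open Finset Filter

namespace Pool.Agent.Lib.H92G

theorem c3_inf : (Set.ofPred Nat.Prime).Infinite := Nat.infinite_setOfPred_prime

theorem c3_two (n H : ℕ) (h : 2 ≤ ((Ioc n (n + H)).filter Nat.Prime).card) :
    n < Nat.nth Nat.Prime (Nat.count Nat.Prime (n + 1)) ∧
      Nat.nth Nat.Prime (Nat.count Nat.Prime (n + 1) + 1) ≤ n + H := by
  constructor
  · have := Nat.le_nth_count c3_inf (n + 1)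
    omega
  · have h1 : Nat.count Nat.Prime (n + 1) + 1 < Nat.count Nat.Prime (n + H + 1) := by
      have e1 : Nat.count Nat.Prime (n + 1) = ((range (n + 1)).filter Nat.Prime).card :=
        Nat.count_eq_card_filter_range _ _
      have e2 : Nat.count Nat.Prime (n + H + 1) = ((range (n + H + 1)).filter Nat.Prime).card :=
        Nat.count_eq_card_filter_range _ _
      rw [e1, e2]
      have hdisj : Disjoint ((range (n + 1)).filter Nat.Prime)
          ((Ioc n (n + H)).filter Nat.Prime) := by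
        rw [Finset.disjoint_left]
        intro a ha hb
        rw [mem_filter, mem_range] at ha
        rw [mem_filter, mem_Ioc] at hb
        omega
      have hsub : ((range (n + 1)).filter Nat.Prime) ∪ ((Ioc n (n + H)).filter Nat.Prime) ⊆
          (range (n + H + 1)).filter Nat.Prime := by
        intro a ha
        rw [mem_union, mem_filter, mem_range, mem_filter, mem_Ioc] at ha
        rw [mem_filter, mem_range]
        rcases ha with ha | ha
        · exact ⟨by omega, ha.2⟩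
        · exact ⟨by omega, ha.2⟩
      have h2 := card_le_card hsub
      rw [card_union_of_disjoint hdisj] at h2
      omega
    have h3 := Nat.nth_lt_of_lt_count h1
    omega

theorem c3_pi_le : ∃ x1 : ℝ, 1 < x1 ∧ ∀ x : ℝ, x1 ≤ x →
    (Nat.primeCounting ⌊x⌋₊ : ℝ) ≤ 3 * (x / Real.log x) := by
  obtain ⟨x1, hx1⟩ := eventually_atTop.mp (Chebyshev.eventually_primeCounting_le (ε := 1) one_pos)
  refine ⟨max x1 2, by have := le_max_right x1 2; linarith, fun x hx => ?_⟩
  have h1 := hx1 x ((le_max_left _ _).trans hx)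
  have h2 : (2 : ℝ) ≤ x := (le_max_right _ _).trans hx
  have h3 : 0 < Real.log x := Real.log_pos (by linarith)
  have h4 : Real.log 4 ≤ 2 := by
    have : (4 : ℝ) = 2 ^ 2 := by norm_num
    rw [this, Real.log_pow]
    have := Real.log_two_lt_d9
    push_cast
    linarith
  refine h1.trans ?_
  rw [mul_div_assoc]
  refine mul_le_mul_of_nonneg_right (by linarith) (by positivity)

theorem c3_sep {J : ℕ} (hJ : 1 ≤ J) (β : Fin J → ℝ) (hβ : StrictMono β) (δ : ℝ) (hδ : 0 < δ) :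
    ∃ ε : ℝ, 0 < ε ∧ ε ≤ δ ∧ ∀ i j, i < j → β i + ε ≤ β j := by
  have hne : (univ : Finset (Fin J × Fin J)).Nonempty :=
    ⟨(⟨0, hJ⟩, ⟨0, hJ⟩), mem_univ _⟩
  obtain ⟨p0, -, hp0⟩ := Finset.exists_min_image univ
    (fun p : Fin J × Fin J => if p.1 < p.2 then β p.2 - β p.1 else 1) hne
  have hpos : ∀ p : Fin J × Fin J, 0 < (if p.1 < p.2 then β p.2 - β p.1 else 1) := by
    intro p
    split_ifs with h
    · have := hβ h
      linarith
    · exact one_pos
  refine ⟨min δ (if p0.1 < p0.2 then β p0.2 - β p0.1 else 1), lt_min hδ (hpos p0),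
    min_le_left _ _, fun i j hij => ?_⟩
  have h1 := hp0 (i, j) (mem_univ _)
  simp only [hij, if_true] at h1
  have h2 := min_le_right δ (if p0.1 < p0.2 then β p0.2 - β p0.1 else 1)
  linarith

theorem c3_finite (x : ℝ) (P : ℕ → Prop) :
    {n : ℕ | (Nat.nth Nat.Prime n : ℝ) ≤ x ∧ P n}.Finite := by
  refine (Set.finite_Iic ⌊x⌋₊).subset ?_
  rintro n ⟨hn, -⟩
  have h1 := Nat.add_two_le_nth_prime n
  have h2 : Nat.nth Nat.Prime n ≤ ⌊x⌋₊ := Nat.le_floor hn
  simp only [Set.mem_Iic]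
  omega

/-- the two first primes after `n` -/
theorem c3_pair {J : ℕ} {β : Fin J → ℝ} {ε Λ L : ℝ} (hL : 0 ≤ L)
    (hsep : ∀ i j, i < j → β i + ε ≤ β j) (n : ℕ)
    (h1 : ∀ p : ℕ, p.Prime → n < p → (p : ℝ) ≤ n + Λ * L →
          ∃ j, (n : ℝ) + β j * L < p ∧ (p : ℝ) ≤ n + (β j + ε) * L)
    (h2 : ∀ j, ∀ p p' : ℕ, p.Prime → p'.Prime → (n : ℝ) + β j * L < p →
          (p : ℝ) ≤ n + (β j + ε) * L → (n : ℝ) + β j * L < p' →
          (p' : ℝ) ≤ n + (β j + ε) * L → p = p')
    (h3 : 2 ≤ ((Ioc n (n + ⌊Λ * L⌋₊)).filter Nat.Prime).card) :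
    ∃ p : Fin J × Fin J, p.1 < p.2 ∧
      |(Nat.nth Nat.Prime (Nat.count Nat.Prime (n + 1) + 1) : ℝ) -
        Nat.nth Nat.Prime (Nat.count Nat.Prime (n + 1)) - (β p.2 - β p.1) * L| ≤ ε * L := by
  obtain ⟨hq, hq'⟩ := c3_two n _ h3
  set q := Nat.nth Nat.Prime (Nat.count Nat.Prime (n + 1)) with hqdef
  set q' := Nat.nth Nat.Prime (Nat.count Nat.Prime (n + 1) + 1) with hq'def
  have hlt : q < q' := Nat.nth_strictMono c3_inf (Nat.lt_succ_self _)
  have hp : q.Prime := Nat.prime_nth_prime _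
  have hp' : q'.Prime := Nat.prime_nth_prime _
  have hLam : 0 ≤ Λ * L := by
    by_contra hneg
    have : ⌊Λ * L⌋₊ = 0 := Nat.floor_of_nonpos (by linarith)
    omega
  have hfl : (⌊Λ * L⌋₊ : ℝ) ≤ Λ * L := Nat.floor_le hLam
  have hq'r : (q' : ℝ) ≤ n + Λ * L := by
    have : (q' : ℝ) ≤ n + (⌊Λ * L⌋₊ : ℝ) := by exact_mod_cast hq'
    linarith
  have hltr : (q : ℝ) < q' := by exact_mod_cast hlt
  obtain ⟨i, hi1, hi2⟩ := h1 q hp hq (by linarith)
  obtain ⟨j, hj1, hj2⟩ := h1 q' hp' (by omega) hq'r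
  have hij : i < j := by
    rcases lt_trichotomy i j with h | h | h
    · exact h
    · exfalso
      rw [h] at hi1 hi2
      exact absurd (h2 j q q' hp hp' hi1 hi2 hj1 hj2) hlt.ne
    · exfalso
      have h4 := mul_le_mul_of_nonneg_right (hsep j i h) hL
      linarith
  refine ⟨(i, j), hij, ?_⟩
  have e1 : (β i + ε) * L = β i * L + ε * L := by ring
  have e2 : (β j + ε) * L = β j * L + ε * L := by ring
  have e3 : (β j - β i) * L = β j * L - β i * L := by ring
  simp only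
  rw [e3, abs_le]
  rw [e1] at hi2
  rw [e2] at hj2
  constructor <;> linarith

/-- One pair of the `β`, one `δ`, infinitely many `x` (here for every large `x` some pair): `key_real`
with `k = 1`, the numbers `β j - β 0`, `ε` = half of the minimum of `δ` and of the gaps of `β`,
`Λ = β_last - β 0 + ε`. For `n ∈ s` the first two primes `q < q'` after `n` are in the window, in
different intervals `i < j`, so `|q' - q - (β j - β i) L| ≤ ε L`. Every `q` comes from at most
`Λ L + 1` of the `n`; `q ≤ x + Λ L`, at most `Λ L + 1` of them exceed `x`. -/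
theorem support_one : ∃ J0 : ℕ, 1 ≤ J0 ∧ ∀ β : Fin J0 → ℝ, StrictMono β → ∀ δ : ℝ, 0 < δ →
    ∃ c : ℝ, 0 < c ∧ ∃ x0 : ℝ, ∀ x : ℝ, x0 ≤ x → ∃ i j, i < j ∧
      c * (x / Real.log x) ≤ (Set.ncard {n : ℕ | (Nat.nth Nat.Prime n : ℝ) ≤ x ∧
        |(Nat.nth Nat.Prime (n + 1) : ℝ) - Nat.nth Nat.Prime n - (β j - β i) * Real.log x| ≤
          δ * Real.log x} : ℝ) := by
  obtain ⟨J0, hJ0, hkey⟩ := key_real 1
  refine ⟨J0, hJ0, fun β hβ δ hδ => ?_⟩
  obtain ⟨ε, hε0, hεδ, hsep⟩ := c3_sep hJ0 β hβ δ hδ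
  set i0 : Fin J0 := ⟨0, hJ0⟩ with hi0
  set iL : Fin J0 := ⟨J0 - 1, by omega⟩ with hiL
  set β' : Fin J0 → ℝ := fun j => β j - β i0 with hβ'
  set Λ : ℝ := β iL - β i0 + ε with hΛdef
  have h0L : β i0 ≤ β iL := hβ.monotone (by rw [hi0, hiL, Fin.mk_le_mk]; omega)
  have hΛ : 0 < Λ := by rw [hΛdef]; linarith
  have hconf : Conf J0 β' ε Λ := by
    refine ⟨hε0, fun j => ?_, fun j => ?_, fun j j' hjj => ?_⟩
    · have : β i0 ≤ β j := hβ.monotone (by rw [hi0, Fin.le_def]; exact Nat.zero_le _)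
      simp only [hβ']
      linarith
    · have : β j ≤ β iL := hβ.monotone (by
        rw [hiL, Fin.le_def]
        have := j.2
        simp only
        omega)
      simp only [hβ', hΛdef]
      linarith
    · have := hsep j j' hjj
      simp only [hβ']
      linarith
  obtain ⟨c, hc, x0, hx0⟩ := hkey J0 β' ε Λ le_rfl hconf
  have hJr : (0 : ℝ) < (J0 : ℝ) ^ 2 := by
    have : (0 : ℝ) < J0 := by exact_mod_cast hJ0
    positivity
  set J2 : ℝ := (J0 : ℝ) ^ 2 with hJ2
  -- asymptotics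
  have hasym : ∀ᶠ x : ℝ in atTop, 1 ≤ Real.log x ∧ 0 < x ∧ x0 ≤ x ∧
      (Λ * Real.log x) * Real.log x ≤ c / (2 * J2 * Λ) * x := by
    have h1 : ∀ᶠ x : ℝ in atTop, ‖Real.log x ^ 2‖ ≤ c / (2 * J2 * Λ) / Λ * ‖id x‖ :=
      (Real.isLittleO_pow_log_id_atTop (n := 2)).bound (by positivity)
    filter_upwards [h1, Real.tendsto_log_atTop.eventually_ge_atTop 1, eventually_gt_atTop (0 : ℝ),
      eventually_ge_atTop x0] with x hx1 hx2 hx3 hx4
    refine ⟨hx2, hx3, hx4, ?_⟩
    rw [Real.norm_of_nonneg (by positivity), id, Real.norm_of_nonneg hx3.le] at hx1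
    have h2 := mul_le_mul_of_nonneg_left hx1 hΛ.le
    calc (Λ * Real.log x) * Real.log x = Λ * Real.log x ^ 2 := by ring
      _ ≤ Λ * (c / (2 * J2 * Λ) / Λ * x) := h2
      _ = c / (2 * J2 * Λ) * x := by field_simp
  obtain ⟨X, hX⟩ := eventually_atTop.mp hasym
  refine ⟨c / (2 * J2 * Λ), by positivity, X, fun x hx => ?_⟩
  obtain ⟨hL1, hxpos, hxx0, hbig⟩ := hX x hx
  have hL0 : 0 < Real.log x := by linarith
  obtain ⟨s, hs, hcard, hprop⟩ := hx0 x hxx0
  have hne : Nonempty (Fin J0 × Fin J0) := ⟨(i0, i0)⟩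
  set m : ℕ → ℕ := fun n => Nat.count Nat.Prime (n + 1) with hm
  have hpair : ∀ n ∈ s, ∃ p : Fin J0 × Fin J0, p.1 < p.2 ∧
      |(Nat.nth Nat.Prime (m n + 1) : ℝ) - Nat.nth Nat.Prime (m n) -
        (β p.2 - β p.1) * Real.log x| ≤ ε * Real.log x := by
    intro n hn
    obtain ⟨h1, h2, h3⟩ := hprop n hn
    obtain ⟨p, hp1, hp2⟩ := c3_pair hL0.le (fun i j hij => hconf.sep i j hij) n h1 h2 h3
    refine ⟨p, hp1, ?_⟩
    have e : β' p.2 - β' p.1 = β p.2 - β p.1 := by simp only [hβ']; ring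
    rw [e] at hp2
    exact hp2
  choose! pr hpr using hpair
  -- pigeonhole
  have hcardt : ((univ : Finset (Fin J0 × Fin J0)).card : ℝ) = J2 := by
    rw [Finset.card_univ, Fintype.card_prod, Fintype.card_fin, hJ2]
    push_cast
    ring
  obtain ⟨p, -, hp⟩ := Finset.exists_le_card_fiber_of_nsmul_le_card_of_maps_to
    (s := s) (t := (univ : Finset (Fin J0 × Fin J0))) (f := pr) (b := (s.card : ℝ) / J2)
    (fun _ _ => mem_univ _) univ_nonempty (by
      rw [nsmul_eq_mul, hcardt]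
      field_simp
      exact le_rfl)
  set sp := s.filter (fun n => pr n = p) with hsp
  set H := ⌊Λ * Real.log x⌋₊ with hH
  have hHle : (H : ℝ) ≤ Λ * Real.log x := Nat.floor_le (by positivity)
  have hscard : 0 < (s.card : ℝ) := lt_of_lt_of_le (by positivity) hcard
  have hsp0 : 0 < (sp.card : ℝ) := lt_of_lt_of_le (by positivity) hp
  have hspne : sp.Nonempty := by
    rw [← card_pos]
    exact_mod_cast hsp0
  obtain ⟨n0, hn0⟩ := hspne
  have hp12 : p.1 < p.2 := by
    rw [hsp, mem_filter] at hn0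
    have := (hpr n0 hn0.1).1
    rwa [hn0.2] at this
  refine ⟨p.1, p.2, hp12, ?_⟩
  -- first primes
  have hq : ∀ n ∈ sp, n < Nat.nth Nat.Prime (m n) ∧ Nat.nth Nat.Prime (m n) ≤ n + H := by
    intro n hn
    rw [hsp, mem_filter] at hn
    obtain ⟨h1, h2⟩ := c3_two n _ (hprop n hn.1).2.2
    refine ⟨h1, ?_⟩
    have h3 : Nat.nth Nat.Prime (m n) < Nat.nth Nat.Prime (m n + 1) :=
      Nat.nth_strictMono c3_inf (Nat.lt_succ_self _)
    have h4 : Nat.nth Nat.Prime (m n + 1) ≤ n + H := h2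
    omega
  have hT : sp.card ≤ H * (sp.image m).card := by
    refine Finset.card_le_mul_card_image sp H ?_
    intro a _
    refine (card_le_card (t := Ico (Nat.nth Nat.Prime a - H) (Nat.nth Nat.Prime a)) ?_).trans ?_
    · intro n hn
      rw [mem_filter] at hn
      obtain ⟨h1, h2⟩ := hq n hn.1
      rw [hn.2] at h1 h2
      rw [mem_Ico]
      omega
    · rw [Nat.card_Ico]
      omega
  set T1 := (sp.image m).filter (fun a => (Nat.nth Nat.Prime a : ℝ) ≤ x) with hT1
  have hT2 : ((sp.image m).filter (fun a => ¬ (Nat.nth Nat.Prime a : ℝ) ≤ x)).card ≤ H := by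
    have h1 : (((sp.image m).filter (fun a => ¬ (Nat.nth Nat.Prime a : ℝ) ≤ x)).image
        (Nat.nth Nat.Prime)).card =
        ((sp.image m).filter (fun a => ¬ (Nat.nth Nat.Prime a : ℝ) ≤ x)).card :=
      card_image_of_injective _ (Nat.nth_injective c3_inf)
    rw [← h1]
    refine (card_le_card (t := Ioc ⌊x⌋₊ (⌊x⌋₊ + H)) ?_).trans ?_
    · intro b hb
      obtain ⟨a, ha, rfl⟩ := mem_image.mp hb
      rw [mem_filter] at ha
      obtain ⟨n, hn, rfl⟩ := mem_image.mp ha.1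
      obtain ⟨h2, h3⟩ := hq n hn
      rw [hsp, mem_filter] at hn
      have h4 := mem_Icc.mp (hs hn.1)
      rw [mem_Ioc]
      refine ⟨?_, by omega⟩
      have h5 := not_le.mp ha.2
      by_contra h6
      have h7 : (Nat.nth Nat.Prime (m n) : ℝ) ≤ (⌊x⌋₊ : ℝ) := by exact_mod_cast not_lt.mp h6
      have h8 := Nat.floor_le hxpos.le
      linarith
    · rw [Nat.card_Ioc]
      omega
  have hTsum : T1.card + ((sp.image m).filter
      (fun a => ¬ (Nat.nth Nat.Prime a : ℝ) ≤ x)).card = (sp.image m).card :=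
    card_filter_add_card_filter_not _
  have hsubset : (T1 : Set ℕ) ⊆ {n : ℕ | (Nat.nth Nat.Prime n : ℝ) ≤ x ∧
        |(Nat.nth Nat.Prime (n + 1) : ℝ) - Nat.nth Nat.Prime n -
          (β p.2 - β p.1) * Real.log x| ≤ δ * Real.log x} := by
    intro a ha
    rw [mem_coe, hT1, mem_filter] at ha
    obtain ⟨n, hn, rfl⟩ := mem_image.mp ha.1
    refine ⟨ha.2, ?_⟩
    rw [hsp, mem_filter] at hn
    have h2 := (hpr n hn.1).2
    rw [hn.2] at h2
    refine h2.trans ?_
    exact mul_le_mul_of_nonneg_right hεδ hL0.le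
  have hncard := Set.ncard_le_ncard hsubset (c3_finite x _)
  rw [Set.ncard_coe_finset] at hncard
  have hncard' : (T1.card : ℝ) ≤ (Set.ncard {n : ℕ | (Nat.nth Nat.Prime n : ℝ) ≤ x ∧
        |(Nat.nth Nat.Prime (n + 1) : ℝ) - Nat.nth Nat.Prime n -
          (β p.2 - β p.1) * Real.log x| ≤ δ * Real.log x} : ℝ) := by exact_mod_cast hncard
  refine le_trans ?_ hncard'
  have f1 : (sp.card : ℝ) ≤ H * ((sp.image m).card : ℝ) := by exact_mod_cast hT
  have f2 : ((sp.image m).card : ℝ) ≤ T1.card + H := by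
    have : (sp.image m).card ≤ T1.card + H := by omega
    exact_mod_cast this
  have f3 : c * x / J2 ≤ (sp.card : ℝ) :=
    (div_le_div_of_nonneg_right hcard hJr.le).trans hp
  have f4 : c * x / J2 ≤ (Λ * Real.log x) * ((T1.card : ℝ) + Λ * Real.log x) := by
    refine f3.trans (f1.trans ?_)
    exact mul_le_mul hHle (f2.trans (by linarith)) (by positivity) (by positivity)
  have f5 : c * x / J2 / (Λ * Real.log x) ≤ (T1.card : ℝ) + Λ * Real.log x := by
    rw [div_le_iff₀ (by positivity)]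
    linarith
  have f6 : Λ * Real.log x ≤ c / (2 * J2 * Λ) * (x / Real.log x) := by
    rw [mul_div_assoc', le_div_iff₀ hL0]
    exact hbig
  have f7 : c * x / J2 / (Λ * Real.log x) = 2 * (c / (2 * J2 * Λ) * (x / Real.log x)) := by
    field_simp
  linarith

/-- There is an absolute constant `J0` such that any `J0` real numbers have a difference all of
whose neighbourhoods contain the normalised gap `(p_{n+1} - p_n)/log p_n` for a set of primes of
positive upper (relative) density. From `support_one` (with `δ/2`): primes `≤ c' x` are few (`π(y) ≤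
C y/log y`), for the others `|log p_n - log x|` is bounded; for fixed `δ` some pair `(i, j)` occurs for
arbitrarily large `x` (pigeonhole); the property is monotone in `δ`, so some pair works for all
`δ = 1/r`. -/
theorem support_thm : ∃ J0 : ℕ, 1 ≤ J0 ∧ ∀ β : Fin J0 → ℝ, StrictMono β → ∃ i j, i < j ∧
    ∀ δ : ℝ, 0 < δ → ∃ c : ℝ, 0 < c ∧ ∃ᶠ x : ℝ in atTop,
      c * (Nat.primeCounting ⌊x⌋₊ : ℝ) ≤ (Set.ncard {n : ℕ | (Nat.nth Nat.Prime n : ℝ) ≤ x ∧
        |((Nat.nth Nat.Prime (n + 1) : ℝ) - Nat.nth Nat.Prime n) /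
            Real.log (Nat.nth Nat.Prime n) - (β j - β i)| ≤ δ} : ℝ) := by
  obtain ⟨J0, hJ0, hone⟩ := support_one
  refine ⟨J0, hJ0, fun β hβ => ?_⟩
  have hmono : ∀ (i j : Fin J0) (δ δ' : ℝ), δ ≤ δ' →
      (∃ c : ℝ, 0 < c ∧ ∃ᶠ x : ℝ in atTop,
        c * (Nat.primeCounting ⌊x⌋₊ : ℝ) ≤ (Set.ncard {n : ℕ | (Nat.nth Nat.Prime n : ℝ) ≤ x ∧
          |((Nat.nth Nat.Prime (n + 1) : ℝ) - Nat.nth Nat.Prime n) /
            Real.log (Nat.nth Nat.Prime n) - (β j - β i)| ≤ δ} : ℝ)) →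
      (∃ c : ℝ, 0 < c ∧ ∃ᶠ x : ℝ in atTop,
        c * (Nat.primeCounting ⌊x⌋₊ : ℝ) ≤ (Set.ncard {n : ℕ | (Nat.nth Nat.Prime n : ℝ) ≤ x ∧
          |((Nat.nth Nat.Prime (n + 1) : ℝ) - Nat.nth Nat.Prime n) /
            Real.log (Nat.nth Nat.Prime n) - (β j - β i)| ≤ δ'} : ℝ)) := by
    rintro i j δ δ' hδ ⟨c, hc, h⟩
    refine ⟨c, hc, h.mono fun x hx => hx.trans ?_⟩
    have : Set.ncard {n : ℕ | (Nat.nth Nat.Prime n : ℝ) ≤ x ∧
          |((Nat.nth Nat.Prime (n + 1) : ℝ) - Nat.nth Nat.Prime n) /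
            Real.log (Nat.nth Nat.Prime n) - (β j - β i)| ≤ δ} ≤
        Set.ncard {n : ℕ | (Nat.nth Nat.Prime n : ℝ) ≤ x ∧
          |((Nat.nth Nat.Prime (n + 1) : ℝ) - Nat.nth Nat.Prime n) /
            Real.log (Nat.nth Nat.Prime n) - (β j - β i)| ≤ δ'} :=
      Set.ncard_le_ncard (fun n hn => ⟨hn.1, hn.2.trans hδ⟩) (c3_finite x _)
    exact_mod_cast this
  by_contra hcon
  have hcon' : ∀ p : Fin J0 × Fin J0, p.1 < p.2 → ∃ δ : ℝ, 0 < δ ∧
      ¬ (∃ c : ℝ, 0 < c ∧ ∃ᶠ x : ℝ in atTop,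
        c * (Nat.primeCounting ⌊x⌋₊ : ℝ) ≤ (Set.ncard {n : ℕ | (Nat.nth Nat.Prime n : ℝ) ≤ x ∧
          |((Nat.nth Nat.Prime (n + 1) : ℝ) - Nat.nth Nat.Prime n) /
            Real.log (Nat.nth Nat.Prime n) - (β p.2 - β p.1)| ≤ δ} : ℝ)) := by
    intro p hp
    by_contra h
    apply hcon
    refine ⟨p.1, p.2, hp, fun δ hδ => ?_⟩
    by_contra h'
    exact h ⟨δ, hδ, h'⟩
  choose! D hD0 hD using hcon'
  have hne : (univ : Finset (Fin J0 × Fin J0)).Nonempty :=
    ⟨(⟨0, hJ0⟩, ⟨0, hJ0⟩), mem_univ _⟩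
  obtain ⟨p0, -, hp0⟩ := Finset.exists_min_image univ
    (fun p : Fin J0 × Fin J0 => if p.1 < p.2 then D p else 1) hne
  set δ : ℝ := if p0.1 < p0.2 then D p0 else 1 with hδdef
  have hδ : 0 < δ := by
    rw [hδdef]
    split_ifs with h
    · exact hD0 p0 h
    · exact one_pos
  have hδle : ∀ p : Fin J0 × Fin J0, p.1 < p.2 → δ ≤ D p := by
    intro p hp
    have := hp0 p (mem_univ _)
    simp only [hp, if_true] at this
    exact this
  -- the statement for this `δ`
  obtain ⟨c, hc, x0, hx0⟩ := hone β hβ (δ / 4) (by positivity)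
  obtain ⟨x1, hx1, hpi⟩ := c3_pi_le
  set c' : ℝ := min 1 (c / 12) with hc'
  have hc'0 : 0 < c' := lt_min one_pos (by positivity)
  have hc'1 : c' ≤ 1 := min_le_left _ _
  have hc'2 : c' ≤ c / 12 := min_le_right _ _
  set A : ℝ := - Real.log c' with hA
  have hA0 : 0 ≤ A := by
    have := Real.log_nonpos hc'0.le hc'1
    rw [hA]; linarith
  have hev : ∀ᶠ x : ℝ in atTop, ∃ p : Fin J0 × Fin J0, p.1 < p.2 ∧
      c / 6 * (Nat.primeCounting ⌊x⌋₊ : ℝ) ≤ (Set.ncard {n : ℕ | (Nat.nth Nat.Prime n : ℝ) ≤ x ∧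
          |((Nat.nth Nat.Prime (n + 1) : ℝ) - Nat.nth Nat.Prime n) /
            Real.log (Nat.nth Nat.Prime n) - (β p.2 - β p.1)| ≤ δ} : ℝ) := by
    have hB : ∀ᶠ x : ℝ in atTop, ∀ p : Fin J0 × Fin J0,
        |β p.2 - β p.1| * A ≤ δ / 4 * Real.log x := by
      rw [eventually_all]
      intro p
      have h1 := Real.tendsto_log_atTop.eventually_ge_atTop (|β p.2 - β p.1| * A / (δ / 4))
      filter_upwards [h1] with x hx
      rw [div_le_iff₀ (by positivity)] at hx
      linarith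
    filter_upwards [hB, eventually_ge_atTop x0, eventually_ge_atTop (x1 / c'),
      eventually_ge_atTop x1, Real.tendsto_log_atTop.eventually_ge_atTop (2 * A + 1)]
      with x hxB hxx0 hxx1 hxx2 hxL
    obtain ⟨i, j, hij, hcnt⟩ := hx0 x hxx0
    refine ⟨(i, j), hij, ?_⟩
    have hxpos : 0 < x := by linarith
    have hL : 0 < Real.log x := by linarith
    have hcx : x1 ≤ c' * x := by
      rw [div_le_iff₀ hc'0] at hxx1
      linarith
    have hcxpos : 0 < c' * x := by positivity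
    have hlogcx : Real.log (c' * x) = Real.log x - A := by
      rw [Real.log_mul hc'0.ne' hxpos.ne', hA]
      ring
    -- few small primes
    have hsmall : (Set.ncard {n : ℕ | (Nat.nth Nat.Prime n : ℝ) ≤ c' * x} : ℝ) ≤
        c / 2 * (x / Real.log x) := by
      have h1 : {n : ℕ | (Nat.nth Nat.Prime n : ℝ) ≤ c' * x} ⊆
          ((range (Nat.primeCounting ⌊c' * x⌋₊) : Finset ℕ) : Set ℕ) := by
        intro n hn
        have h2 : Nat.nth Nat.Prime n < ⌊c' * x⌋₊ + 1 := Nat.lt_succ_of_le (Nat.le_floor hn)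
        have h3 : n < Nat.count Nat.Prime (⌊c' * x⌋₊ + 1) := by
          by_contra h4
          have h5 := (Nat.count_le_iff_le_nth c3_inf).mp (not_lt.mp h4)
          omega
        rw [mem_coe, mem_range]
        exact h3
      have h2 := Set.ncard_le_ncard h1 (Finset.finite_toSet _)
      rw [Set.ncard_coe_finset, card_range] at h2
      have h3 : (Set.ncard {n : ℕ | (Nat.nth Nat.Prime n : ℝ) ≤ c' * x} : ℝ) ≤
          (Nat.primeCounting ⌊c' * x⌋₊ : ℝ) := by exact_mod_cast h2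
      refine h3.trans ((hpi (c' * x) hcx).trans ?_)
      rw [hlogcx]
      have h4 : Real.log x / 2 ≤ Real.log x - A := by linarith
      have h5 : c' * x / (Real.log x - A) ≤ c' * x / (Real.log x / 2) :=
        div_le_div_of_nonneg_left hcxpos.le (by linarith) h4
      have h6 : c' * x / (Real.log x / 2) = 2 * c' * (x / Real.log x) := by
        field_simp
      have h7 : 2 * c' * (x / Real.log x) ≤ 2 * (c / 12) * (x / Real.log x) :=
        mul_le_mul_of_nonneg_right (by linarith) (by positivity)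
      linarith
    have hsub : {n : ℕ | (Nat.nth Nat.Prime n : ℝ) ≤ x ∧
        |(Nat.nth Nat.Prime (n + 1) : ℝ) - Nat.nth Nat.Prime n - (β j - β i) * Real.log x| ≤
          δ / 4 * Real.log x} ⊆ {n : ℕ | (Nat.nth Nat.Prime n : ℝ) ≤ x ∧
          |((Nat.nth Nat.Prime (n + 1) : ℝ) - Nat.nth Nat.Prime n) /
            Real.log (Nat.nth Nat.Prime n) - (β j - β i)| ≤ δ} ∪
          {n : ℕ | (Nat.nth Nat.Prime n : ℝ) ≤ c' * x} := by
      rintro n ⟨hn1, hn2⟩
      by_cases hn3 : (Nat.nth Nat.Prime n : ℝ) ≤ c' * x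
      · exact Or.inr hn3
      · left
        refine ⟨hn1, ?_⟩
        push Not at hn3
        set q : ℝ := (Nat.nth Nat.Prime n : ℝ) with hq
        set g : ℝ := (Nat.nth Nat.Prime (n + 1) : ℝ) - q with hg
        have hq0 : 0 < q := hcxpos.trans hn3
        have hl1 : Real.log x - A ≤ Real.log q := by
          rw [← hlogcx]
          exact Real.log_le_log hcxpos hn3.le
        have hl2 : Real.log q ≤ Real.log x := Real.log_le_log hq0 hn1
        have hl3 : Real.log x / 2 ≤ Real.log q := by linarith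
        have hl4 : 0 < Real.log q := by linarith
        have e1 : g / Real.log q - (β j - β i) =
            (g - (β j - β i) * Real.log q) / Real.log q := by
          field_simp
        rw [e1, abs_div, abs_of_pos hl4, div_le_iff₀ hl4]
        have e2 : g - (β j - β i) * Real.log q =
            (g - (β j - β i) * Real.log x) + (β j - β i) * (Real.log x - Real.log q) := by ring
        rw [e2]
        refine (abs_add_le _ _).trans ?_
        rw [abs_mul, abs_of_nonneg (by linarith : (0:ℝ) ≤ Real.log x - Real.log q)]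
        have h5 : |β j - β i| * (Real.log x - Real.log q) ≤ |β j - β i| * A :=
          mul_le_mul_of_nonneg_left (by linarith) (abs_nonneg _)
        have h6 := hxB (i, j)
        simp only at h6
        have h7 : δ * (Real.log x / 2) ≤ δ * Real.log q := mul_le_mul_of_nonneg_left hl3 hδ.le
        linarith
    have hfin2 : {n : ℕ | (Nat.nth Nat.Prime n : ℝ) ≤ c' * x}.Finite := by
      refine (c3_finite (c' * x) (fun _ => True)).subset ?_
      intro n hn
      exact ⟨hn, trivial⟩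
    have h1 := Set.ncard_le_ncard hsub ((c3_finite x _).union hfin2)
    have h2 := h1.trans (Set.ncard_union_le _ _)
    have h3 : (Set.ncard {n : ℕ | (Nat.nth Nat.Prime n : ℝ) ≤ x ∧
        |(Nat.nth Nat.Prime (n + 1) : ℝ) - Nat.nth Nat.Prime n - (β j - β i) * Real.log x| ≤
          δ / 4 * Real.log x} : ℝ) ≤ (Set.ncard {n : ℕ | (Nat.nth Nat.Prime n : ℝ) ≤ x ∧
          |((Nat.nth Nat.Prime (n + 1) : ℝ) - Nat.nth Nat.Prime n) /
            Real.log (Nat.nth Nat.Prime n) - (β j - β i)| ≤ δ} : ℝ) +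
          (Set.ncard {n : ℕ | (Nat.nth Nat.Prime n : ℝ) ≤ c' * x} : ℝ) := by exact_mod_cast h2
    have h4 := hpi x hxx2
    have h5 := mul_le_mul_of_nonneg_left h4 (by positivity : (0:ℝ) ≤ c / 6)
    simp only
    linarith
  -- contradiction
  have hnot : ∀ᶠ x : ℝ in atTop, ∀ p : Fin J0 × Fin J0, p.1 < p.2 →
      ¬ (c / 6 * (Nat.primeCounting ⌊x⌋₊ : ℝ) ≤
        (Set.ncard {n : ℕ | (Nat.nth Nat.Prime n : ℝ) ≤ x ∧
          |((Nat.nth Nat.Prime (n + 1) : ℝ) - Nat.nth Nat.Prime n) /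
            Real.log (Nat.nth Nat.Prime n) - (β p.2 - β p.1)| ≤ δ} : ℝ)) := by
    rw [eventually_all]
    intro p
    by_cases hp : p.1 < p.2
    · have h1 : ¬ ∃ᶠ x : ℝ in atTop, c / 6 * (Nat.primeCounting ⌊x⌋₊ : ℝ) ≤
        (Set.ncard {n : ℕ | (Nat.nth Nat.Prime n : ℝ) ≤ x ∧
          |((Nat.nth Nat.Prime (n + 1) : ℝ) - Nat.nth Nat.Prime n) /
            Real.log (Nat.nth Nat.Prime n) - (β p.2 - β p.1)| ≤ δ} : ℝ) := by
        intro h2
        exact hD p hp (hmono p.1 p.2 δ (D p) (hδle p hp) ⟨c / 6, by positivity, h2⟩)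
      rw [not_frequently] at h1
      filter_upwards [h1] with x hx _
      exact hx
    · exact Eventually.of_forall fun x h => absurd h hp
  obtain ⟨x, ⟨p, hp, hx⟩, hx'⟩ := (hev.and hnot).exists
  exact hx' p hp hx

end Pool.Agent.Lib.H92G
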