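import Pool.Agent.Lib.H92G.WG
import Pool.Agent.Lib.Helper57.PairCount

/-!
# Definitions for the second half: the modulus, the classes, the allowed intervals
-/

open Finset

namespace Pool.Agent.Lib.H92G

open Pool.Agent.Lib.H15P

/-- The product of the primes `≤ y` different from `p1`. -/
def pM (y p1 : ℕ) : ℕ := ∏ p ∈ (Icc 1 y).filter (fun p => p.Prime ∧ p ≠ p1), p

/-- The numbers `a + h`, `h ∈ S`, which are prime to `M`. -/
def Ac (M : ℕ) (S : Finset ℕ) (a : ℕ) : Finset ℕ :=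
  (S.filter (fun h => (a + h).Coprime M)).image (fun h => a + h)

/-- `h/φ(h)` for the difference of two elements. -/
noncomputable def Gd (h h' : ℕ) : ℝ := Helper57.G (Nat.dist h h')

/-- Sum over the pairs of distinct elements of `S`. -/
noncomputable def psum (S : Finset ℕ) : ℝ := ∑ h ∈ S, ∑ h' ∈ S.erase h, Gd h h'

/-- The class of `a` is good: not too many forms, `S` = allowed shifts. -/
def okc (w : WG) (M H : ℕ) (S : Finset ℕ) (a : ℕ) : Prop :=
  (Ac M S a).card ≤ w.KA ∧ (Ac M (Icc 1 H) a).card ≤ w.K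

instance (w : WG) (M H : ℕ) (S : Finset ℕ) (a : ℕ) : Decidable (okc w M H S a) := by
  unfold okc; infer_instance

/-- The weight of the integer `n`; `0` in the bad classes. -/
noncomputable def wn (w : WG) (M H : ℕ) (S : Finset ℕ) (n : ℕ) : ℝ :=
  if okc w M H S (n % M) then w.nu (Ac M S (n % M)) (Ac M (Icc 1 H) (n % M)) M (n / M) else 0

/-- `n + h` is prime to `M` and to the primes of `P`. -/
def rg (w : WG) (M n h : ℕ) : Prop := (n + h).Coprime M ∧ hit w.P (n + h) = ∅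

instance (w : WG) (M n h : ℕ) : Decidable (rg w M n h) := by
  unfold rg; infer_instance

/-- Number of the `h ∈ T` such that `n + h` is rough. -/
def rgh (w : WG) (M : ℕ) (T : Finset ℕ) (n : ℕ) : ℕ := (T.filter (fun h => rg w M n h)).card

/-- Number of the ordered pairs of distinct elements of `T` for which both are rough. -/
def rgp (w : WG) (M : ℕ) (T : Finset ℕ) (n : ℕ) : ℕ :=
  ((T ×ˢ T).filter (fun z => z.1 ≠ z.2 ∧ rg w M n z.1 ∧ rg w M n z.2)).card

/-- Hypotheses on the classes. -/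
structure CS (w : WG) (M H Y : ℕ) (S : Finset ℕ) : Prop where
  M0 : 0 < M
  sqf : Squarefree M
  SH : S ⊆ Icc 1 H
  HW : H ≤ w.W
  cop : ∀ p ∈ w.P, ¬ p ∣ M
  long : w.Long Y

/-! ## The allowed intervals -/

/-- Hypotheses on the numbers `β j`: the intervals `(β j, β j + ε]` are disjoint, in order, and
contained in `(0, Λ]`. -/
structure Conf (J : ℕ) (β : Fin J → ℝ) (ε Λ : ℝ) : Prop where
  e0 : 0 < ε
  b0 : ∀ j, 0 ≤ β j
  bL : ∀ j, β j + ε ≤ Λ
  sep : ∀ j j', j < j' → β j + ε ≤ β j'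

/-- The shifts in the `j`-th interval. -/
noncomputable def IJ {J : ℕ} (β : Fin J → ℝ) (ε L : ℝ) (j : Fin J) : Finset ℕ :=
  Ioc ⌊β j * L⌋₊ ⌊(β j + ε) * L⌋₊

/-- The allowed shifts. -/
noncomputable def AL {J : ℕ} (β : Fin J → ℝ) (ε L : ℝ) : Finset ℕ :=
  univ.biUnion (IJ β ε L)

/-- The property of `n` in the main theorem. -/
def GoodN {J : ℕ} (β : Fin J → ℝ) (ε Λ L : ℝ) (k n : ℕ) : Prop :=
  (∀ h ∈ Icc 1 ⌊Λ * L⌋₊, (n + h).Prime → h ∈ AL β ε L) ∧
    (∀ j, ((IJ β ε L j).filter (fun h => (n + h).Prime)).card ≤ 1) ∧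
      k + 1 ≤ ((AL β ε L).filter (fun h => (n + h).Prime)).card

end Pool.Agent.Lib.H92G
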