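import Pool.Agent.Lib.H15P.Defs
import Pool.Agent.Lib.H68T.Defs

/-!
# H92G: definitions

Weights with form dependent one form functions. `ι` = index type of the primes, `J` = index type of
the forms `b j + M t`, `I` = labels. `ex`, `EX`, `bw`, `cnt`, `adm`, `hit`, `qq`, `Forms`, `EP`,
`Lev`, `LevS` are those of `Lib/H15P/Defs`; `PC`, `p0`, `v` those of `Lib/H68T/Defs`.
-/

open Finset

namespace Pool.Agent.Lib.H92G

open Pool.Agent.Lib.H15P

/-! ## Weights (Part II) -/

/-- Factor of the form `j` with the label `o`. -/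
noncomputable def dg {ι J I : Type} (D : J → I → Finset ι → ℝ) (j : J) :
    Option I → Finset ι → ℝ
  | none, _ => 1
  | some i, A => D j i A

/-- Sum over the labelings of `s` with coefficients `w`. -/
noncomputable def LW {ι J I : Type} [Fintype J] (D : J → I → Finset ι → ℝ)
    (s : Finset (J → Option I)) (w : (J → Option I) → ℝ) (S : J → Finset ι) : ℝ :=
  ∑ l ∈ s, w l * ∏ j, dg D j (l j) (S j)

/-- The weight function (before squaring). -/
noncomputable def LG {ι J I : Type} [Fintype J] [DecidableEq J] [Fintype I] [DecidableEq I]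
    (D : J → I → Finset ι → ℝ) (m : I → ℕ) (B : Finset J) (S : J → Finset ι) : ℝ :=
  LW D (adm B m) (fun _ => 1) S

/-- Second moments of the factors of the form `j`. -/
noncomputable def GJ {ι J I : Type} [Fintype ι] [DecidableEq ι] (q : ι → ℝ)
    (D : J → I → Finset ι → ℝ) (j : J) : Option I → ℝ
  | none => 1
  | some i => ex q (fun A => D j i A ^ 2)

/-- Total weight of all labelings of `B`. -/
noncomputable def ZG {ι J I : Type} [Fintype ι] [DecidableEq ι] [Fintype I] (q : ι → ℝ)
    (D : J → I → Finset ι → ℝ) (B : Finset J) : ℝ :=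
  ∏ j ∈ B, (1 + ∑ i, GJ q D j (some i))

/-- The hypotheses on the one form functions `D j i` (some of them may be `0`). -/
structure GoodJ {ι J I : Type} [Fintype ι] [DecidableEq ι] (q : ι → ℝ)
    (D : J → I → Finset ι → ℝ) (h : ℝ) : Prop where
  q0 : ∀ i, 0 ≤ q i
  q1 : ∀ i, q i ≤ 1
  mean : ∀ j i, ex q (D j i) = 0
  orth : ∀ j i i', i ≠ i' → ex q (fun A => D j i A * D j i' A) = 0
  sq : ∀ j i, ex q (fun A => D j i A ^ 2) ≤ h
  fourth : ∀ j i, ex q (fun A => D j i A ^ 4) ≤ h

/-- Coefficient of the labeling `l` (outside `Z`) if no prime divides the forms of `Z`: sum over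
the labelings `o` of `Z` such that `l` and `o` together are admissible. -/
noncomputable def wZ {ι J I : Type} [Fintype J] [DecidableEq J] [Fintype I] [DecidableEq I]
    (D : J → I → Finset ι → ℝ) (m : I → ℕ) (Z : Finset J) (l : J → Option I) : ℝ :=
  ∑ o ∈ univ.filter (fun o : J → Option I => (∀ j, j ∉ Z → o j = none) ∧
      ∀ i, cnt l i + cnt o i ≤ m i), ∏ j ∈ Z, dg D j (o j) ∅

/-! ## Primes in progressions (Part I) -/

/-- The weighted sum over the primes at the scale `X`: `∑_p log p v(p) f(p)/p`. -/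
noncomputable def thP (X : ℕ) (f : ℕ → ℂ) : ℂ :=
  ∑ m ∈ (Icc 1 (60 * X)).filter Nat.Prime,
    ((Real.log m * H68T.v X m / m : ℝ) : ℂ) * f m

/-- The weight of a prime `m`: `log m v(m)/m`, `0` if `m` is not a prime. -/
noncomputable def lpv (X m : ℕ) : ℝ :=
  if m.Prime then Real.log m * H68T.v X m / m else 0

/-- The coefficient of the character `χ` of modulus `Q M` in the expansion of the function
`G((m - b)/M) 1[m ≡ b mod M]` on the residue classes prime to `Q M`. -/
noncomputable def cf (Q M b : ℕ) (G : ℕ → ℝ) (χ : DirichletCharacter ℂ (Q * M)) : ℂ :=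
  ∑ t ∈ (range Q).filter (fun t => (b + M * t).Coprime Q),
    (G t : ℂ) * χ⁻¹ ((b + M * t : ℕ) : ZMod (Q * M))

/-- Mean value over the `t` for which no prime of `P` divides `b + M t`. -/
noncomputable def EU (P : Finset ℕ) (M b : ℕ) (G : ℕ → ℝ) : ℝ :=
  (∑ t ∈ (range (∏ p ∈ P, p)).filter (fun t => (b + M * t).Coprime (∏ p ∈ P, p)), G t) /
    ((∏ p ∈ P, p).totient : ℝ)

open Classical in
/-- Sum over the nontrivial primitive characters of conductor at most `Q`. -/
noncomputable def A0s (Q X : ℕ) : ℝ :=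
  ∑ p ∈ (H68T.PC Q).erase H68T.p0, ‖thP X (fun m => p.2 (m : ZMod p.1))‖

open Classical in
/-- Sum over the nontrivial primitive characters whose conductor divides `M`. -/
noncomputable def A1s (M X : ℕ) : ℝ :=
  ∑ p ∈ ((H68T.PC M).erase H68T.p0).filter (fun p => p.1 ∣ M),
    ‖thP X (fun m => p.2 (m : ZMod p.1))‖

/-- The regime: `Q` is at least a large power of `log X` and at most a small power of `X`. -/
def RegP (K : ℝ) (Q X : ℕ) : Prop :=
  K ≤ Real.log (Real.log X) ∧ K * Real.log (Real.log X) ≤ Real.log Q ∧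
    K * Real.log Q ≤ Real.log X

end Pool.Agent.Lib.H92G
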