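import Pool.Agent.Lib.H92G.Defs

/-!
# Chunk E1: expansion in characters
-/

open Finset

namespace Pool.Agent.Lib.H92G

open Pool.Agent.Lib.H15P

theorem e1_exp_two : Real.exp 2 < 8 := by
  have h := Real.exp_one_lt_d9
  have h1 : Real.exp 2 = Real.exp 1 * Real.exp 1 := by
    rw [← Real.exp_add]; norm_num
  have h0 := Real.exp_pos 1
  rw [h1]
  nlinarith

theorem e1_exp_four : Real.exp 4 < 60 := by
  have h := Real.exp_one_lt_d9
  have h1 : Real.exp 4 = Real.exp 1 ^ 4 := by
    rw [← Real.exp_nat_mul]; norm_num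
  have h0 := Real.exp_pos 1
  rw [h1]
  calc Real.exp 1 ^ 4 ≤ 2.7182818286 ^ 4 := by gcongr
    _ < 60 := by norm_num

/-- Elementary bounds for the weight `v`: it vanishes unless `X/e^2 ≤ m ≤ e^4 X`; in particular
`X/8 ≤ m ≤ 60 X` (`H68T.w`, `Real.smoothTransition.zero_of_nonpos`; `e^2 < 8`, `e^4 < 60`). -/
theorem v_supp (X m : ℕ) (hX : 0 < X) (h : H68T.v X m ≠ 0) (hm : 0 < m) :
    (X : ℝ) / 8 ≤ m ∧ m ≤ 60 * X := by
  have hX' : (0 : ℝ) < X := by exact_mod_cast hX
  have hm' : (0 : ℝ) < m := by exact_mod_cast hm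
  unfold H68T.v H68T.w at h
  have h1 : -2 < Real.log ((m : ℝ) / X) := by
    by_contra hc
    push Not at hc
    apply h
    rw [Real.smoothTransition.zero_of_nonpos (by linarith), zero_mul]
  have h2 : Real.log ((m : ℝ) / X) < 4 := by
    by_contra hc
    push Not at hc
    apply h
    rw [Real.smoothTransition.zero_of_nonpos (x := 4 - Real.log ((m : ℝ) / X)) (by linarith),
      mul_zero]
  have hpos : (0 : ℝ) < m / X := by positivity
  have h3 : Real.exp (-2) < (m : ℝ) / X := (Real.lt_log_iff_exp_lt hpos).mp h1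
  have h4 : (m : ℝ) / X < Real.exp 4 := (Real.log_lt_iff_lt_exp hpos).mp h2
  have h5 : (1 : ℝ) / 8 < Real.exp (-2) := by
    rw [Real.exp_neg, one_div]
    exact inv_strictAnti₀ (Real.exp_pos 2) e1_exp_two
  constructor
  · have h6 : (1 : ℝ) / 8 < (m : ℝ) / X := h5.trans h3
    rw [lt_div_iff₀ hX'] at h6
    linarith
  · have h6 : (m : ℝ) / X < 60 := h4.trans e1_exp_four
    rw [div_lt_iff₀ hX'] at h6
    have h7 : (m : ℝ) ≤ ((60 * X : ℕ) : ℝ) := by push_cast; exact h6.le
    exact_mod_cast h7

theorem v_nonneg (X m : ℕ) : 0 ≤ H68T.v X m :=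
  mul_nonneg (Real.smoothTransition.nonneg _) (Real.smoothTransition.nonneg _)

theorem v_le_one (X m : ℕ) : H68T.v X m ≤ 1 :=
  mul_le_one₀ (Real.smoothTransition.le_one _) (Real.smoothTransition.nonneg _)
    (Real.smoothTransition.le_one _)

theorem lpv_nonneg (X m : ℕ) : 0 ≤ lpv X m := by
  unfold lpv
  split_ifs with h
  · have h1 : (1 : ℝ) ≤ m := by exact_mod_cast h.one_lt.le
    exact div_nonneg (mul_nonneg (Real.log_nonneg h1) (v_nonneg X m)) (Nat.cast_nonneg m)
  · exact le_refl _

/-- A weighted prime costs at most `8 log (60 X)/X`. -/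
theorem lpv_le (X m : ℕ) (hX : 0 < X) :
    lpv X m ≤ (if m.Prime then 1 else 0) * (8 * Real.log (60 * X) / X) := by
  have hX' : (0 : ℝ) < X := by exact_mod_cast hX
  have hX1 : (1 : ℝ) ≤ X := by exact_mod_cast hX
  have hl : 0 ≤ Real.log (60 * X) := Real.log_nonneg (by linarith)
  unfold lpv
  split_ifs with h
  · rw [one_mul]
    by_cases hv : H68T.v X m = 0
    · rw [hv, mul_zero, zero_div]
      positivity
    · obtain ⟨h1, h2⟩ := v_supp X m hX hv h.pos
      have hm' : (0 : ℝ) < m := by exact_mod_cast h.pos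
      have h3 : (m : ℝ) ≤ 60 * X := by exact_mod_cast h2
      have h4 : Real.log m ≤ Real.log (60 * X) := Real.log_le_log hm' h3
      have h5 : Real.log m * H68T.v X m ≤ Real.log (60 * X) * 1 :=
        mul_le_mul h4 (v_le_one X m) (v_nonneg X m) hl
      rw [div_le_div_iff₀ hm' hX']
      calc Real.log m * H68T.v X m * X ≤ Real.log (60 * X) * 1 * X := by gcongr
        _ = Real.log (60 * X) * X := by ring
        _ ≤ Real.log (60 * X) * (8 * m) := by
            apply mul_le_mul_of_nonneg_left _ hl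
            linarith
        _ = _ := by ring
  · rw [zero_mul]

/-- The sum over all primes of the scale is `thP` of the constant `1`. -/
theorem thP_eq (X : ℕ) (f : ℕ → ℂ) :
    thP X f = ∑ m ∈ Icc 1 (60 * X), (lpv X m : ℂ) * f m := by
  unfold thP
  rw [Finset.sum_filter]
  refine Finset.sum_congr rfl fun m _ => ?_
  unfold lpv
  split_ifs with h
  · rfl
  · simp

theorem e1_orth {N : ℕ} [NeZero N] {a : ZMod N} (ha : IsUnit a) (b : ZMod N) :
    ∑ χ : DirichletCharacter ℂ N, χ⁻¹ a * χ b = if a = b then (N.totient : ℂ) else 0 := by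
  rw [← DirichletCharacter.sum_char_inv_mul_char_eq ℂ ha b]
  refine Finset.sum_congr rfl fun χ _ => ?_
  congr 1
  obtain ⟨u, rfl⟩ := ha
  rw [MulChar.inv_apply, Ring.inverse_unit, ZMod.inv_coe_unit]

theorem e1_cop {b M t : ℕ} (hb : b.Coprime M) : (b + M * t).Coprime M := by
  rwa [Nat.coprime_add_mul_left_left]

/-- the classes -/
theorem e1_fiber (Q M b : ℕ) [NeZero (Q * M)] (G : ℕ → ℝ)
    (hG : Function.Periodic G Q) (Y m : ℕ) (hmY : m < M * Y)
    (hbm : b ≤ m) (hcop : m.Coprime (Q * M)) :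
    (∑ t ∈ range Y, if b + M * t = m then (G t : ℂ) else 0) =
      ∑ t ∈ (range Q).filter (fun t => (b + M * t).Coprime Q),
        if (((b + M * t : ℕ) : ZMod (Q * M)) = (m : ZMod (Q * M))) then (G t : ℂ) else 0 := by
  have hN : Q * M ≠ 0 := NeZero.ne _
  have hQ0 : 0 < Q := Nat.pos_of_ne_zero (left_ne_zero_of_mul hN)
  have hM0 : 0 < M := Nat.pos_of_ne_zero (right_ne_zero_of_mul hN)
  by_cases hmod : b ≡ m [MOD M]
  · obtain ⟨t', ht'⟩ : ∃ t', m = b + M * t' := by
      have h1 := (Nat.modEq_iff_dvd' hbm).mp hmod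
      obtain ⟨c, hc⟩ := h1
      exact ⟨c, by omega⟩
    have ht'Y : t' < Y := by
      have : M * t' < M * Y := by omega
      exact Nat.lt_of_mul_lt_mul_left this
    have hL : (∑ t ∈ range Y, if b + M * t = m then (G t : ℂ) else 0) = G t' := by
      rw [Finset.sum_eq_single t']
      · rw [if_pos ht'.symm]
      · intro t _ hne
        rw [if_neg]
        intro h
        apply hne
        have : M * t = M * t' := by omega
        exact Nat.eq_of_mul_eq_mul_left hM0 this
      · intro h
        exact absurd (mem_range.mpr ht'Y) h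
    rw [hL]
    have hcong : ∀ t, (((b + M * t : ℕ) : ZMod (Q * M)) = (m : ZMod (Q * M))) ↔ t ≡ t' [MOD Q] := by
      intro t
      rw [ZMod.natCast_eq_natCast_iff, ht']
      constructor
      · intro h
        have h2 : M * t ≡ M * t' [MOD M * Q] := by
          rw [mul_comm M Q]
          exact Nat.ModEq.add_left_cancel' b h
        exact Nat.ModEq.mul_left_cancel' hM0.ne' h2
      · intro h
        have h2 : M * t ≡ M * t' [MOD M * Q] := Nat.ModEq.mul_left' M h
        rw [mul_comm M Q] at h2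
        exact Nat.ModEq.add_left b h2
    rw [Finset.sum_eq_single (t' % Q)]
    · rw [if_pos ((hcong _).mpr (Nat.mod_modEq t' Q)), hG.map_mod_nat]
    · intro t ht hne
      rw [if_neg]
      intro h
      apply hne
      have h2 := (hcong t).mp h
      rw [mem_filter, mem_range] at ht
      have h3 : t % Q = t' % Q := h2
      rw [Nat.mod_eq_of_lt ht.1] at h3
      exact h3
    · intro h
      exfalso
      apply h
      rw [mem_filter, mem_range]
      refine ⟨Nat.mod_lt _ hQ0, ?_⟩
      have h1 : m.Coprime Q := Nat.Coprime.coprime_mul_right_right hcop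
      have h2 : b + M * (t' % Q) ≡ m [MOD Q] := by
        rw [ht']
        exact Nat.ModEq.add_left b (Nat.ModEq.mul_left M (Nat.mod_modEq t' Q))
      rw [Nat.Coprime, h2.gcd_eq]
      exact h1
  · rw [Finset.sum_eq_zero, Finset.sum_eq_zero]
    · intro t _
      rw [if_neg]
      intro h
      apply hmod
      rw [ZMod.natCast_eq_natCast_iff] at h
      have h2 : b + M * t ≡ m [MOD M] := Nat.ModEq.of_mul_left Q h
      have h3 : b + M * t ≡ b [MOD M] := by
        have : M * t ≡ 0 [MOD M] := (Nat.modEq_zero_iff_dvd).mpr (Dvd.intro _ rfl)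
        simpa using Nat.ModEq.add_left b this
      exact h3.symm.trans h2
    · intro t _
      rw [if_neg]
      intro h
      apply hmod
      rw [← h]
      have : M * t ≡ 0 [MOD M] := (Nat.modEq_zero_iff_dvd).mpr (Dvd.intro _ rfl)
      simpa using (Nat.ModEq.add_left b this).symm

/-- Chunk E1. For a prime `m` of the scale, `∑_χ χ⁻¹(b + M t) χ(m) = φ(QM)` if
`b + M t ≡ m mod Q M` and `0` otherwise (`DirichletCharacter.sum_char_inv_mul_char_eq`; both
residues are units: `b + M t` is prime to `M` as `b` is, and prime to `Q` by the filter). For given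
`m` prime to `Q M`, `m ≡ b mod M`, there is exactly one such `t < Q` (`t ≡ (m - b)/M mod Q`, as
`m - b = M t'` with `t' ≥ 0` by `hbX`), and `G t = G t'`; if `m` is not `≡ b mod M` there is none.
So the right side is the sum of `G(t') lpv (b + M t')` over all `t' ≥ 0` with
`b + M t' ≤ 60 X`, and `t' < Y` by `hY`. -/
theorem expand (Q M b : ℕ) [NeZero (Q * M)] (hQM : Q.Coprime M) (hb : b.Coprime M) (G : ℕ → ℝ)
    (hG : Function.Periodic G Q) (X Y : ℕ) (hX : 0 < X) (hY : 60 * X < M * Y)
    (hbX : ∀ m, m < b → lpv X m = 0) (hcop : ∀ m, lpv X m ≠ 0 → m.Coprime (Q * M)) :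
    ((∑ t ∈ range Y, G t * lpv X (b + M * t) : ℝ) : ℂ) =
      (1 / ((Q * M).totient : ℂ)) * ∑ χ : DirichletCharacter ℂ (Q * M),
        cf Q M b G χ * thP X (fun m => χ (m : ZMod (Q * M))) := by
  have hN : Q * M ≠ 0 := NeZero.ne _
  have hφ : ((Q * M).totient : ℂ) ≠ 0 := by
    have := Nat.totient_pos.mpr (Nat.pos_of_ne_zero hN)
    exact_mod_cast this.ne'
  set A := (range Q).filter (fun t => (b + M * t).Coprime Q) with hA
  set I := Icc 1 (60 * X) with hI
  -- right side
  have hR : ∑ χ : DirichletCharacter ℂ (Q * M),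
        cf Q M b G χ * thP X (fun m => χ (m : ZMod (Q * M))) =
      ((Q * M).totient : ℂ) * ∑ m ∈ I, (lpv X m : ℂ) *
        ∑ t ∈ A, if (((b + M * t : ℕ) : ZMod (Q * M)) = (m : ZMod (Q * M))) then (G t : ℂ)
          else 0 := by
    have h1 : ∀ χ : DirichletCharacter ℂ (Q * M),
        cf Q M b G χ * thP X (fun m => χ (m : ZMod (Q * M))) =
        ∑ m ∈ I, ∑ t ∈ A, ((lpv X m : ℂ) * (G t : ℂ)) *
          (χ⁻¹ ((b + M * t : ℕ) : ZMod (Q * M)) * χ (m : ZMod (Q * M))) := by
      intro χ
      rw [thP_eq, mul_comm, Finset.sum_mul]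
      refine Finset.sum_congr rfl fun m _ => ?_
      unfold cf
      rw [Finset.mul_sum]
      refine Finset.sum_congr rfl fun t _ => ?_
      ring
    rw [Finset.sum_congr rfl fun χ _ => h1 χ, Finset.sum_comm, Finset.mul_sum]
    refine Finset.sum_congr rfl fun m _ => ?_
    rw [Finset.sum_comm, Finset.mul_sum, Finset.mul_sum]
    refine Finset.sum_congr rfl fun t ht => ?_
    rw [← Finset.mul_sum, e1_orth]
    · split_ifs <;> ring
    · rw [hA, mem_filter] at ht
      rw [ZMod.isUnit_iff_coprime]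
      exact Nat.Coprime.mul_right ht.2 (e1_cop hb)
  rw [hR, ← mul_assoc, one_div, inv_mul_cancel₀ hφ, one_mul]
  -- left side
  have hL : ((∑ t ∈ range Y, G t * lpv X (b + M * t) : ℝ) : ℂ) =
      ∑ m ∈ I, (lpv X m : ℂ) * ∑ t ∈ range Y, if b + M * t = m then (G t : ℂ) else 0 := by
    push_cast
    have h2 : ∀ t ∈ range Y, (G t : ℂ) * (lpv X (b + M * t) : ℂ) =
        ∑ m ∈ I, if b + M * t = m then (lpv X m : ℂ) * (G t : ℂ) else 0 := by
      intro t _
      rw [Finset.sum_ite_eq]
      split_ifs with h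
      · ring
      · have h3 : lpv X (b + M * t) = 0 := by
          by_contra hne
          apply h
          have hp : (b + M * t).Prime := by
            by_contra hc
            exact hne (by unfold lpv; rw [if_neg hc])
          have hv : H68T.v X (b + M * t) ≠ 0 := by
            intro h0
            exact hne (by unfold lpv; rw [if_pos hp, h0]; simp)
          rw [hI, mem_Icc]
          exact ⟨hp.one_lt.le, (v_supp X _ hX hv hp.pos).2⟩
        rw [h3]; simp
    rw [Finset.sum_congr rfl h2, Finset.sum_comm]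
    refine Finset.sum_congr rfl fun m _ => ?_
    rw [Finset.mul_sum]
    refine Finset.sum_congr rfl fun t _ => ?_
    split_ifs <;> simp
  rw [hL]
  refine Finset.sum_congr rfl fun m hm => ?_
  by_cases hl : lpv X m = 0
  · rw [hl]; simp
  · congr 1
    rw [hI, mem_Icc] at hm
    refine e1_fiber Q M b G hG Y m (by omega) ?_ (hcop m hl)
    by_contra hc
    exact hl (hbX m (by omega))

end Pool.Agent.Lib.H92G
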