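import Pool.Agent.Lib.H92G.Defs

/-!
# Chunk E2: coefficients and conductors
-/

open Finset

namespace Pool.Agent.Lib.H92G

open Pool.Agent.Lib.H15P

theorem cf_add (Q M b : ℕ) (G G' : ℕ → ℝ) (χ : DirichletCharacter ℂ (Q * M)) :
    cf Q M b (fun t => G t + G' t) χ = cf Q M b G χ + cf Q M b G' χ := by
  unfold cf
  rw [← Finset.sum_add_distrib]
  refine Finset.sum_congr rfl fun t _ => ?_
  push_cast
  ring

/-- `|χ⁻¹| ≤ 1`. -/
theorem norm_cf_le (Q M b : ℕ) (G : ℕ → ℝ) (χ : DirichletCharacter ℂ (Q * M)) :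
    ‖cf Q M b G χ‖ ≤ ∑ t ∈ (range Q).filter (fun t => (b + M * t).Coprime Q), |G t| := by
  unfold cf
  refine (norm_sum_le _ _).trans (Finset.sum_le_sum fun t _ => ?_)
  rw [norm_mul, Complex.norm_real, Real.norm_eq_abs]
  calc |G t| * ‖χ⁻¹ ((b + M * t : ℕ) : ZMod (Q * M))‖ ≤ |G t| * 1 :=
        mul_le_mul_of_nonneg_left (DirichletCharacter.norm_le_one _ _) (abs_nonneg _)
    _ = |G t| := mul_one _

/-- The number of the `t < Q` with `b + M t` prime to `Q` is `φ(Q)` (`t ↦ b + M t` permutes the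
residues mod `Q`). -/
theorem card_units (Q M b : ℕ) (hQ : 0 < Q) (hQM : Q.Coprime M) :
    ((range Q).filter (fun t => (b + M * t).Coprime Q)).card = Q.totient := by
  have hinj : Set.InjOn (fun t => (b + M * t) % Q) ((range Q : Finset ℕ) : Set ℕ) := by
    intro t ht t' ht' h
    rw [Finset.mem_coe, mem_range] at ht ht'
    have h1 : b + M * t ≡ b + M * t' [MOD Q] := h
    have h2 : M * t ≡ M * t' [MOD Q] := Nat.ModEq.add_left_cancel' b h1
    have h3 : t ≡ t' [MOD Q] := Nat.ModEq.cancel_left_of_coprime hQM h2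
    have h4 : t % Q = t' % Q := h3
    rwa [Nat.mod_eq_of_lt ht, Nat.mod_eq_of_lt ht'] at h4
  have himg : (range Q).image (fun t => (b + M * t) % Q) = range Q := by
    apply Finset.eq_of_subset_of_card_le
    · intro x hx
      rw [Finset.mem_image] at hx
      obtain ⟨t, _, rfl⟩ := hx
      exact mem_range.mpr (Nat.mod_lt _ hQ)
    · rw [Finset.card_image_of_injOn hinj]
  have hB : ((range Q).filter (fun t => (b + M * t).Coprime Q)).image
      (fun t => (b + M * t) % Q) = (range Q).filter (fun a => Q.Coprime a) := by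
    ext x
    rw [Finset.mem_image, mem_filter]
    constructor
    · rintro ⟨t, ht, rfl⟩
      rw [mem_filter] at ht
      refine ⟨mem_range.mpr (Nat.mod_lt _ hQ), ?_⟩
      have h1 : (b + M * t) % Q ≡ b + M * t [MOD Q] := Nat.mod_modEq _ _
      have h2 : ((b + M * t) % Q).Coprime Q := by
        rw [Nat.Coprime, h1.gcd_eq]; exact ht.2
      exact h2.symm
    · rintro ⟨hx, hc⟩
      rw [← himg, Finset.mem_image] at hx
      obtain ⟨t, ht, rfl⟩ := hx
      refine ⟨t, ?_, rfl⟩
      rw [mem_filter]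
      refine ⟨ht, ?_⟩
      have h1 : (b + M * t) % Q ≡ b + M * t [MOD Q] := Nat.mod_modEq _ _
      rw [Nat.Coprime, ← h1.gcd_eq]
      exact hc.symm
  rw [Nat.totient_eq_card_coprime, ← hB, Finset.card_image_of_injOn]
  exact hinj.mono (by
    rw [Finset.coe_subset]
    exact Finset.filter_subset _ _)

theorem e2_shift (Q M b d : ℕ) [NeZero (Q * M)] (hd : d ∣ Q) (G : ℕ → ℝ)
    (hG : Function.Periodic G d) (χ : DirichletCharacter ℂ (Q * M)) (c : ℕ) (hc : d ∣ c)
    (hcop : (1 + M * c).Coprime (Q * M)) :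
    cf Q M b G χ = χ⁻¹ ((1 + M * c : ℕ) : ZMod (Q * M)) * cf Q M b G χ := by
  have hN : Q * M ≠ 0 := NeZero.ne _
  have hQ0 : 0 < Q := Nat.pos_of_ne_zero (left_ne_zero_of_mul hN)
  have hM0 : 0 < M := Nat.pos_of_ne_zero (right_ne_zero_of_mul hN)
  set A := (range Q).filter (fun t => (b + M * t).Coprime Q) with hA
  let σ : ℕ → ℕ := fun t => (t + c * (b + M * t)) % Q
  have hσ : ∀ t, b + M * σ t ≡ (1 + M * c) * (b + M * t) [MOD Q * M] := by
    intro t
    have h1 : σ t ≡ t + c * (b + M * t) [MOD Q] := Nat.mod_modEq _ _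
    have h2 : M * σ t ≡ M * (t + c * (b + M * t)) [MOD M * Q] := Nat.ModEq.mul_left' M h1
    rw [mul_comm M Q] at h2
    have h3 := Nat.ModEq.add_left b h2
    have h4 : b + M * (t + c * (b + M * t)) = (1 + M * c) * (b + M * t) := by ring
    rwa [h4] at h3
  have hGQ : Function.Periodic G Q := by
    obtain ⟨k, rfl⟩ := hd
    have := hG.nat_mul k
    rwa [Nat.cast_id, mul_comm] at this
  have hGσ : ∀ t, G (σ t) = G t := by
    intro t
    have h1 : G (σ t) = G (t + c * (b + M * t)) := hGQ.map_mod_nat _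
    rw [h1]
    obtain ⟨k, rfl⟩ := hc
    have h2 := hG.nat_mul (k * (b + M * t)) t
    rw [Nat.cast_id] at h2
    rw [← h2]
    congr 1
    ring
  have hmaps : ∀ t ∈ A, σ t ∈ A := by
    intro t ht
    rw [hA, mem_filter] at ht ⊢
    refine ⟨mem_range.mpr (Nat.mod_lt _ hQ0), ?_⟩
    have h1 : b + M * σ t ≡ (1 + M * c) * (b + M * t) [MOD Q] := Nat.ModEq.of_mul_right M (hσ t)
    rw [Nat.Coprime, h1.gcd_eq]
    exact Nat.Coprime.mul_left (Nat.Coprime.coprime_mul_right_right hcop) ht.2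
  have hinj : Set.InjOn σ (A : Set ℕ) := by
    intro t ht t' ht' h
    rw [Finset.mem_coe, hA, mem_filter, mem_range] at ht ht'
    have h1 : (1 + M * c) * (b + M * t) ≡ (1 + M * c) * (b + M * t') [MOD Q * M] := by
      have h2 := hσ t
      rw [h] at h2
      exact h2.symm.trans (hσ t')
    have h2 : b + M * t ≡ b + M * t' [MOD Q * M] :=
      Nat.ModEq.cancel_left_of_coprime hcop.symm h1
    have h3 : M * t ≡ M * t' [MOD M * Q] := by
      rw [mul_comm M Q]
      exact Nat.ModEq.add_left_cancel' b h2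
    have h4 : t ≡ t' [MOD Q] := Nat.ModEq.mul_left_cancel' hM0.ne' h3
    have h5 : t % Q = t' % Q := h4
    rwa [Nat.mod_eq_of_lt ht.1, Nat.mod_eq_of_lt ht'.1] at h5
  have hsurj : Set.SurjOn σ (A : Set ℕ) (A : Set ℕ) :=
    Finset.surjOn_of_injOn_of_card_le σ hmaps hinj (le_refl _)
  have hre : ∑ t ∈ A, (G t : ℂ) * χ⁻¹ ((b + M * t : ℕ) : ZMod (Q * M)) =
      ∑ t ∈ A, (G (σ t) : ℂ) * χ⁻¹ ((b + M * σ t : ℕ) : ZMod (Q * M)) := by
    symm
    exact Finset.sum_nbij σ hmaps hinj hsurj (fun t _ => rfl)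
  change ∑ t ∈ A, (G t : ℂ) * χ⁻¹ ((b + M * t : ℕ) : ZMod (Q * M)) =
    _ * ∑ t ∈ A, (G t : ℂ) * χ⁻¹ ((b + M * t : ℕ) : ZMod (Q * M))
  rw [Finset.mul_sum]
  refine hre.trans (Finset.sum_congr rfl fun t _ => ?_)
  rw [hGσ, (ZMod.natCast_eq_natCast_iff _ _ _).mpr (hσ t), Nat.cast_mul, map_mul]
  ring

/-- A function `G` with a period `d ∣ Q` has only coefficients of characters whose conductor
divides `d M`. If the conductor does not divide `d M`, then `χ` does not factor through `d M`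
(`DirichletCharacter.mem_conductorSet_iff_conductor_dvd`), so there is a unit `a ≡ 1 mod d M`
of `ZMod (Q M)` with `χ a ≠ 1` (`DirichletCharacter.factorsThrough_iff_ker_unitsMap`). The
multiplication by `a` permutes the residues `u ≡ b mod M` mod `Q M` which are units, and does not
change `u mod d M`, hence not `G((u - b)/M)`. So `cf = χ⁻¹(a) cf`. -/
theorem cf_conductor (Q M b d : ℕ) [NeZero (Q * M)] (hQM : Q.Coprime M) (hb : b.Coprime M)
    (hd : d ∣ Q) (G : ℕ → ℝ) (hG : Function.Periodic G d) (χ : DirichletCharacter ℂ (Q * M))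
    (h : cf Q M b G χ ≠ 0) : χ.conductor ∣ d * M := by
  by_contra hnd
  apply h
  have hN : Q * M ≠ 0 := NeZero.ne _
  have hM0 : 0 < M := Nat.pos_of_ne_zero (right_ne_zero_of_mul hN)
  have hdM : d * M ∣ Q * M := Nat.mul_dvd_mul_right hd M
  rw [← DirichletCharacter.mem_conductorSet_iff_conductor_dvd χ hdM,
    DirichletCharacter.mem_conductorSet_iff,
    DirichletCharacter.factorsThrough_iff_ker_unitsMap hdM, SetLike.not_le_iff_exists] at hnd
  obtain ⟨a, ha1, ha2⟩ := hnd
  rw [MonoidHom.mem_ker] at ha1 ha2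
  -- a natural representative
  have hv : ((a : ZMod (Q * M)).val + Q * M : ℕ) ≡ 1 [MOD d * M] := by
    have h1 : ((ZMod.unitsMap hdM a : (ZMod (d * M))ˣ) : ZMod (d * M)) = 1 := by rw [ha1]; rfl
    rw [ZMod.unitsMap_val] at h1
    rw [← ZMod.natCast_eq_natCast_iff]
    push_cast
    have h2 : ((Q : ZMod (d * M)) * (M : ZMod (d * M))) = 0 := by
      have := (ZMod.natCast_eq_zero_iff (Q * M) (d * M)).mpr hdM
      exact_mod_cast this
    rw [h2, add_zero, ZMod.natCast_val, h1]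
  set α := (a : ZMod (Q * M)).val + Q * M with hα
  have hα1 : 1 ≤ α := by
    have : 0 < Q * M := Nat.pos_of_ne_zero hN
    omega
  obtain ⟨k, hk⟩ := (Nat.modEq_iff_dvd' hα1).mp hv.symm
  have hα2 : α = 1 + M * (d * k) := by
    have h3 : d * M * k = M * (d * k) := by ring
    omega
  have hαa : ((α : ℕ) : ZMod (Q * M)) = (a : ZMod (Q * M)) := by
    rw [hα, Nat.cast_add, ZMod.natCast_self, add_zero, ZMod.natCast_zmod_val]
  have hcop : (1 + M * (d * k)).Coprime (Q * M) := by
    rw [← hα2, ← ZMod.isUnit_iff_coprime, hαa]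
    exact a.isUnit
  have hs := e2_shift Q M b d hd G hG χ (d * k) (Dvd.intro _ rfl) hcop
  rw [← hα2, hαa] at hs
  have hχa : χ⁻¹ (a : ZMod (Q * M)) ≠ 1 := by
    intro h1
    apply ha2
    apply Units.ext
    rw [MulChar.coe_toUnitHom, Units.val_one]
    have h2 : (χ⁻¹ * χ) (a : ZMod (Q * M)) = 1 := by
      rw [inv_mul_cancel, MulChar.one_apply_coe]
    rw [MulChar.mul_apply, h1, one_mul] at h2
    exact h2
  have h0 : (1 - χ⁻¹ (a : ZMod (Q * M))) * cf Q M b G χ = 0 := by
    linear_combination hs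
  rcases mul_eq_zero.mp h0 with h1 | h1
  · exact absurd (sub_eq_zero.mp h1).symm hχa
  · exact h1

/-- Splitting of a function of bounded level: the terms of period `≤ D`, and a small remainder.
Induction over `Lev`: `base`: `G1 = g`, `G2 = 0` if `d ≤ D`; `G1 = 0`, `G2 = g`,
`|g| ≤ c ≤ d c/D` if `d > D`; `cf_conductor`, `cf_add`. -/
theorem lev_split {Q : ℕ} {G : ℕ → ℝ} {K : ℝ} (h : Lev Q G K) (D : ℕ) (hD : 1 ≤ D) :
    ∃ G1 G2 : ℕ → ℝ, (∀ t, G t = G1 t + G2 t) ∧ Function.Periodic G1 Q ∧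
      Function.Periodic G2 Q ∧ (∀ t, |G2 t| ≤ K / D) ∧
      ∀ (M b : ℕ) [NeZero (Q * M)], Q.Coprime M → b.Coprime M →
        ∀ χ : DirichletCharacter ℂ (Q * M), cf Q M b G1 χ ≠ 0 → χ.conductor ≤ D * M := by
  have hD0 : (0 : ℝ) < D := by exact_mod_cast hD
  induction h with
  | base g d c hd0 hd hper hc =>
    have hc0 : 0 ≤ c := (abs_nonneg _).trans (hc 0)
    have hgQ : Function.Periodic g Q := by
      obtain ⟨k, rfl⟩ := hd
      have := hper.nat_mul k
      rwa [Nat.cast_id, mul_comm] at this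
    by_cases hdD : d ≤ D
    · refine ⟨g, fun _ => 0, fun t => by ring, hgQ, fun t => rfl, fun t => ?_, ?_⟩
      · rw [abs_zero]
        positivity
      · intro M b _ hQM hb χ hχ
        have h1 := cf_conductor Q M b d hQM hb hd g hper χ hχ
        have hN : Q * M ≠ 0 := NeZero.ne _
        have hM0 : 0 < M := Nat.pos_of_ne_zero (right_ne_zero_of_mul hN)
        exact (Nat.le_of_dvd (Nat.mul_pos hd0 hM0) h1).trans (Nat.mul_le_mul_right M hdD)
    · refine ⟨fun _ => 0, g, fun t => by ring, fun t => rfl, hgQ, fun t => ?_, ?_⟩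
      · refine (hc t).trans ?_
        rw [le_div_iff₀ hD0, mul_comm]
        have : (D : ℝ) ≤ d := by exact_mod_cast (not_le.mp hdD).le
        gcongr
      · intro M b _ _ _ χ hχ
        exfalso
        apply hχ
        unfold cf
        simp
  | add G G' K K' h h' ih ih' =>
    obtain ⟨a1, a2, ha, hp1, hp2, hb, hcf⟩ := ih
    obtain ⟨b1, b2, ha', hp1', hp2', hb', hcf'⟩ := ih'
    refine ⟨fun t => a1 t + b1 t, fun t => a2 t + b2 t, fun t => ?_, ?_, ?_, fun t => ?_, ?_⟩
    · simp only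
      rw [ha, ha']; ring
    · intro t
      simp only
      rw [hp1, hp1']
    · intro t
      simp only
      rw [hp2, hp2']
    · rw [add_div]
      exact (abs_add_le _ _).trans (add_le_add (hb t) (hb' t))
    · intro M b _ hQM hbM χ hχ
      rw [cf_add] at hχ
      by_cases h1 : cf Q M b a1 χ = 0
      · refine hcf' M b hQM hbM χ ?_
        intro h2
        apply hχ
        rw [h1, h2, add_zero]
      · exact hcf M b hQM hbM χ h1
  | mono G K K' h hK ih =>
    obtain ⟨a1, a2, ha, hp1, hp2, hb, hcf⟩ := ih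
    exact ⟨a1, a2, ha, hp1, hp2, fun t => (hb t).trans (by gcongr), hcf⟩

end Pool.Agent.Lib.H92G
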