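import Pool.Agent.Lib.H92G.E1

/-!
# Chunk E3: from characters mod `N` to primitive characters
-/

open Finset

namespace Pool.Agent.Lib.H92G

theorem e3_apply {N : ℕ} (χ : DirichletCharacter ℂ N) {m : ℕ} (h : m.Coprime N) :
    χ (m : ZMod N) = χ.primitiveCharacter (m : ZMod χ.conductor) := by
  have hc : IsCoprime (m : ℤ) (N : ℤ) := Nat.isCoprime_iff_coprime.mpr h
  have := DirichletCharacter.primitiveCharacter_apply_of_isCoprime χ hc
  simpa using this.symm

/-- A character of modulus `N` and its primitive character agree at the primes of the scale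
(they are prime to `N`): `thP X χ = thP X χ.primitiveCharacter`. -/
theorem thP_primitive (N X : ℕ) [NeZero N] (hcop : ∀ m, lpv X m ≠ 0 → m.Coprime N)
    (χ : DirichletCharacter ℂ N) :
    thP X (fun m => χ (m : ZMod N)) =
      thP X (fun m => χ.primitiveCharacter (m : ZMod χ.conductor)) := by
  rw [thP_eq, thP_eq]
  refine Finset.sum_congr rfl fun m _ => ?_
  by_cases h : lpv X m = 0
  · rw [h]; simp
  · rw [e3_apply χ (hcop m h)]

theorem e3_inj (N : ℕ) [NeZero N] (χ ψ : DirichletCharacter ℂ N)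
    (h : (⟨χ.conductor, χ.primitiveCharacter⟩ : Σ r : ℕ, DirichletCharacter ℂ r) =
      ⟨ψ.conductor, ψ.primitiveCharacter⟩) : χ = ψ := by
  apply MulChar.ext
  intro a
  have hx : ((a : ZMod N).val).Coprime N := by
    rw [← ZMod.isUnit_iff_coprime, ZMod.natCast_zmod_val]
    exact a.isUnit
  have h1 := e3_apply χ hx
  have h2 := e3_apply ψ hx
  rw [ZMod.natCast_zmod_val] at h1 h2
  rw [h1, h2]
  have h3 : ∀ p q : (Σ r : ℕ, DirichletCharacter ℂ r), p = q →
      p.2 (((a : ZMod N).val : ℕ) : ZMod p.1) = q.2 (((a : ZMod N).val : ℕ) : ZMod q.1) := by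
    rintro p q rfl
    rfl
  exact h3 _ _ h

theorem e3_ne (N : ℕ) [NeZero N] (χ : DirichletCharacter ℂ N) (hχ : χ ≠ 1) :
    (⟨χ.conductor, χ.primitiveCharacter⟩ : Σ r : ℕ, DirichletCharacter ℂ r) ≠ H68T.p0 := by
  intro h
  apply hχ
  rw [DirichletCharacter.eq_one_iff_conductor_eq_one]
  exact congrArg Sigma.fst h

open Classical in
theorem e3_main (N X : ℕ) [NeZero N] (hcop : ∀ m, lpv X m ≠ 0 → m.Coprime N)
    (T : Finset (DirichletCharacter ℂ N)) (S : Finset (Σ r : ℕ, DirichletCharacter ℂ r))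
    (hTS : ∀ χ ∈ T, (⟨χ.conductor, χ.primitiveCharacter⟩ : Σ r : ℕ, DirichletCharacter ℂ r) ∈ S) :
    ∑ χ ∈ T, ‖thP X (fun m => χ (m : ZMod N))‖ ≤
      ∑ p ∈ S, ‖thP X (fun m => p.2 (m : ZMod p.1))‖ := by
  have hinj : Set.InjOn (fun χ : DirichletCharacter ℂ N =>
      (⟨χ.conductor, χ.primitiveCharacter⟩ : Σ r : ℕ, DirichletCharacter ℂ r))
      (T : Set (DirichletCharacter ℂ N)) := fun χ _ ψ _ h => e3_inj N χ ψ h
  calc ∑ χ ∈ T, ‖thP X (fun m => χ (m : ZMod N))‖
      = ∑ χ ∈ T, ‖thP X (fun m => χ.primitiveCharacter (m : ZMod χ.conductor))‖ :=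
        Finset.sum_congr rfl fun χ _ => by rw [thP_primitive N X hcop]
    _ = ∑ p ∈ T.image (fun χ : DirichletCharacter ℂ N =>
          (⟨χ.conductor, χ.primitiveCharacter⟩ : Σ r : ℕ, DirichletCharacter ℂ r)),
          ‖thP X (fun m => p.2 (m : ZMod p.1))‖ := by
        rw [Finset.sum_image hinj]
    _ ≤ _ := by
        refine Finset.sum_le_sum_of_subset_of_nonneg ?_ fun p _ _ => norm_nonneg _
        intro p hp
        rw [Finset.mem_image] at hp
        obtain ⟨χ, hχ, rfl⟩ := hp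
        exact hTS χ hχ

open Classical in
/-- The map `χ ↦ ⟨χ.conductor, χ.primitiveCharacter⟩` is injective on the characters of modulus
`N` (`χ = changeLevel _ χ.primitiveCharacter`), the image of `χ ≠ 1` is not `H68T.p0`
(conductor `≠ 1`), and it lies in `H68T.PC Q'` if the conductor is `≤ Q'`. -/
theorem sum_chars_le (N X Q' : ℕ) [NeZero N] (hcop : ∀ m, lpv X m ≠ 0 → m.Coprime N) :
    ∑ χ ∈ (univ : Finset (DirichletCharacter ℂ N)).filter (fun χ => χ ≠ 1 ∧ χ.conductor ≤ Q'),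
      ‖thP X (fun m => χ (m : ZMod N))‖ ≤ A0s Q' X := by
  unfold A0s
  refine e3_main N X hcop _ _ fun χ hχ => ?_
  rw [mem_filter] at hχ
  rw [Finset.mem_erase, H68T.mem_PC]
  exact ⟨e3_ne N χ hχ.2.1, Nat.one_le_iff_ne_zero.mpr (DirichletCharacter.conductor_ne_zero _),
    hχ.2.2, DirichletCharacter.primitiveCharacter_isPrimitive _⟩

open Classical in
/-- The same for the characters whose conductor divides `M`. -/
theorem sum_chars_dvd_le (N X M : ℕ) [NeZero N] (hM : 0 < M)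
    (hcop : ∀ m, lpv X m ≠ 0 → m.Coprime N) :
    ∑ χ ∈ (univ : Finset (DirichletCharacter ℂ N)).filter (fun χ => χ ≠ 1 ∧ χ.conductor ∣ M),
      ‖thP X (fun m => χ (m : ZMod N))‖ ≤ A1s M X := by
  unfold A1s
  refine e3_main N X hcop _ _ fun χ hχ => ?_
  rw [mem_filter] at hχ
  rw [mem_filter, Finset.mem_erase, H68T.mem_PC]
  exact ⟨⟨e3_ne N χ hχ.2.1, Nat.one_le_iff_ne_zero.mpr (DirichletCharacter.conductor_ne_zero _),
    Nat.le_of_dvd hM hχ.2.2, DirichletCharacter.primitiveCharacter_isPrimitive _⟩, hχ.2.2⟩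

end Pool.Agent.Lib.H92G
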