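import Pool.Agent.Lib.H92G.C2

/-!
# A positive proportion of the intervals of length `lam log x` contains exactly `m` primes

For every integer `m ≥ 0` and EVERY real `lam > 0`: a positive proportion of the integers `n ≤ x`
is such that `(n, n + lam log x]` contains exactly `m` primes.

Method: for `m = 0` the large gaps in positive proportion (`Pool/Agent/Lib/H15P`, `H92P`). For
`m ≥ 1` the theorem on patterns of primes (`Pool/Agent/Lib/H92G`): a positive proportion of the
windows `(n, n + (2 lam + 1) log x]` has no prime up to `n + lam log x`, and `m + 1` primes in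
different short intervals just after that point; slide the window of length `lam log x` until it
contains exactly the first `m` of them.
-/

open Filter

namespace Pool.Agent.Lib.H92G.ExactCounts

open Pool.Agent.Lib.H92P

/-- the primes of `(n, n + H]` -/
theorem ncard_eq (n : ℕ) (r : ℝ) (hr : 0 ≤ r) :
    Set.ncard {p : ℕ | p.Prime ∧ (n : ℝ) < p ∧ (p : ℝ) ≤ n + r} = cw ⌊r⌋₊ n := by
  classical
  have hset : {p : ℕ | p.Prime ∧ (n : ℝ) < p ∧ (p : ℝ) ≤ n + r} =
      (((Finset.Icc 1 ⌊r⌋₊).filter (fun h => (n + h).Prime)).image (fun h => n + h) :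
        Finset ℕ) := by
    ext p
    simp only [Set.mem_setOf_eq, Finset.coe_image, Finset.coe_filter, Set.mem_image,
      Finset.mem_Icc]
    constructor
    · rintro ⟨hp, h1, h2⟩
      have h1' : n < p := by exact_mod_cast h1
      obtain ⟨h, rfl⟩ : ∃ h, p = n + h := ⟨p - n, by omega⟩
      refine ⟨h, ⟨⟨by omega, ?_⟩, hp⟩, rfl⟩
      apply Nat.le_floor
      push_cast at h2
      linarith
    · rintro ⟨h, ⟨⟨h1, h2⟩, hp⟩, rfl⟩
      refine ⟨hp, by push_cast; have : (1 : ℝ) ≤ h := by exact_mod_cast h1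
                     linarith, ?_⟩
      have h3 : (h : ℝ) ≤ r := (Nat.le_floor_iff hr).mp h2
      push_cast
      linarith
  rw [hset, Set.ncard_coe_finset, Finset.card_image_of_injective _ (add_right_injective n)]
  rfl

/-- For every `m` and every real `lam > 0` there is `c > 0` such that, for all sufficiently large
`x`, at least `c x` of the integers `n ≤ x` have exactly `m` primes in `(n, n + lam log x]`. -/
theorem result (m : ℕ) (lam : ℝ) (hl : 0 < lam) : ∃ c : ℝ, 0 < c ∧ ∀ᶠ x : ℝ in atTop,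
    c * x ≤ (Set.ncard {n : ℕ | (n : ℝ) ≤ x ∧
      Set.ncard {p : ℕ | p.Prime ∧ (n : ℝ) < p ∧ (p : ℝ) ≤ n + lam * Real.log x} = m} : ℝ) := by
  classical
  obtain ⟨c, hc, x0, h⟩ := Pool.Agent.Lib.H92G.exact_all m lam hl
  refine ⟨c, hc, ?_⟩
  filter_upwards [eventually_ge_atTop x0, eventually_ge_atTop 4] with x hx hx4
  refine (h x hx).trans ?_
  have hr : 0 ≤ lam * Real.log x := mul_nonneg hl.le (Real.log_nonneg (by linarith))
  have hfin : Set.Finite {n : ℕ | (n : ℝ) ≤ x ∧
      Set.ncard {p : ℕ | p.Prime ∧ (n : ℝ) < p ∧ (p : ℝ) ≤ n + lam * Real.log x} = m} := by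
    apply (Set.finite_Iic ⌊x⌋₊).subset
    intro n hn
    exact Set.mem_Iic.mpr (Nat.le_floor hn.1)
  rw [← Set.ncard_coe_finset]
  have hsub : (((Finset.Icc 1 ⌊x⌋₊).filter (fun n => cw ⌊lam * Real.log x⌋₊ n = m) :
      Finset ℕ) : Set ℕ) ⊆ {n : ℕ | (n : ℝ) ≤ x ∧
      Set.ncard {p : ℕ | p.Prime ∧ (n : ℝ) < p ∧ (p : ℝ) ≤ n + lam * Real.log x} = m} := by
    intro n hn
    simp only [Finset.coe_filter, Set.mem_setOf_eq, Finset.mem_Icc] at hn
    refine ⟨(Nat.le_floor_iff (by linarith)).mp hn.1.2, ?_⟩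
    rw [ncard_eq n _ hr]
    exact hn.2
  exact_mod_cast Set.ncard_le_ncard hsub hfin

end Pool.Agent.Lib.H92G.ExactCounts
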