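import Pool.Agent.Lib.H92G.CDefs

/-!
# Chunk F1: the final Cauchy-Schwarz argument
-/

open Finset

namespace Pool.Agent.Lib.H92G

/-- With `G1 = {k + 1 ≤ q}`: `∑_{G1} f q ≥ (k + 2) N - k ∑ f ≥ (2 - 3 e k) N ≥ N`; by
Cauchy-Schwarz `N^2 ≤ (∑_{G1} f) (∑ f q^2)`, so `∑_{G1} f ≥ N/CE`; remove the `n` with `bad n ≥ 1`:
`∑ f bad ≤ δ N ≤ N/(2 CE)`; again by Cauchy-Schwarz `(N/(2 CE))^2 ≤ # * ∑ f^2 ≤ # * 2 C N`. -/
theorem cs_final (s : Finset ℕ) (f : ℕ → ℝ) (q bad : ℕ → ℕ) (k : ℕ) (N e CE C δ : ℝ)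
    (hf : ∀ n ∈ s, 0 ≤ f n) (hN : 0 < N) (h1 : ∑ n ∈ s, f n ≤ (1 + 3 * e) * N)
    (h2 : ∑ n ∈ s, f n ^ 2 ≤ 2 * C * N) (h3 : (k + 2) * N ≤ ∑ n ∈ s, f n * q n)
    (h4 : ∑ n ∈ s, f n * (q n : ℝ) ^ 2 ≤ CE * N) (h5 : ∑ n ∈ s, f n * bad n ≤ δ * N)
    (he : 3 * e * k ≤ 1) (hδ : 2 * CE * δ ≤ 1) (hCE : 0 < CE) (hC : 0 < C) :
    N / (8 * CE ^ 2 * C) ≤ ((s.filter (fun n => k + 1 ≤ q n ∧ bad n = 0)).card : ℝ) := by
  classical
  set G1 := s.filter (fun n => k + 1 ≤ q n) with hG1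
  set G2 := s.filter (fun n => k + 1 ≤ q n ∧ bad n = 0) with hG2
  have hk0 : (0 : ℝ) ≤ k := Nat.cast_nonneg k
  -- step 1
  have hsplit : ∑ n ∈ s, f n * (q n : ℝ) ≤ ∑ n ∈ G1, f n * (q n : ℝ) + k * ∑ n ∈ s, f n := by
    rw [← Finset.sum_filter_add_sum_filter_not s (fun n => k + 1 ≤ q n)]
    have h : ∑ n ∈ s.filter (fun n => ¬ (k + 1 ≤ q n)), f n * (q n : ℝ) ≤ k * ∑ n ∈ s, f n := by
      calc ∑ n ∈ s.filter (fun n => ¬ (k + 1 ≤ q n)), f n * (q n : ℝ)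
          ≤ ∑ n ∈ s.filter (fun n => ¬ (k + 1 ≤ q n)), k * f n := by
            apply Finset.sum_le_sum
            intro n hn
            rw [Finset.mem_filter] at hn
            have h1 : q n ≤ k := by omega
            have h2 : (q n : ℝ) ≤ k := by exact_mod_cast h1
            have h3 := mul_le_mul_of_nonneg_left h2 (hf n hn.1)
            linarith
        _ ≤ ∑ n ∈ s, k * f n := by
            apply Finset.sum_le_sum_of_subset_of_nonneg (Finset.filter_subset _ _)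
            intro n hn _
            exact mul_nonneg hk0 (hf n hn)
        _ = k * ∑ n ∈ s, f n := by rw [Finset.mul_sum]
    linarith
  have hA : N ≤ ∑ n ∈ G1, f n * (q n : ℝ) := by
    have h6 : (k : ℝ) * ∑ n ∈ s, f n ≤ k * ((1 + 3 * e) * N) := mul_le_mul_of_nonneg_left h1 hk0
    have h7 : 3 * e * k * N ≤ 1 * N := mul_le_mul_of_nonneg_right he hN.le
    nlinarith
  have hG1s : ∀ n ∈ G1, 0 ≤ f n := fun n hn => hf n (Finset.mem_filter.mp hn).1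
  have hG2s : ∀ n ∈ G2, 0 ≤ f n := fun n hn => hf n (Finset.mem_filter.mp hn).1
  -- step 2
  have hB : N ≤ CE * ∑ n ∈ G1, f n := by
    have hcs := Finset.sum_mul_sq_le_sq_mul_sq G1 (fun n => Real.sqrt (f n))
      (fun n => Real.sqrt (f n) * (q n : ℝ))
    have e1 : ∑ n ∈ G1, Real.sqrt (f n) * (Real.sqrt (f n) * (q n : ℝ))
        = ∑ n ∈ G1, f n * (q n : ℝ) := by
      apply Finset.sum_congr rfl
      intro n hn
      rw [← mul_assoc, Real.mul_self_sqrt (hG1s n hn)]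
    have e2 : ∑ n ∈ G1, Real.sqrt (f n) ^ 2 = ∑ n ∈ G1, f n := by
      apply Finset.sum_congr rfl
      intro n hn
      rw [Real.sq_sqrt (hG1s n hn)]
    have e3 : ∑ n ∈ G1, (Real.sqrt (f n) * (q n : ℝ)) ^ 2 = ∑ n ∈ G1, f n * (q n : ℝ) ^ 2 := by
      apply Finset.sum_congr rfl
      intro n hn
      rw [mul_pow, Real.sq_sqrt (hG1s n hn)]
    rw [e1, e2, e3] at hcs
    have h6 : ∑ n ∈ G1, f n * (q n : ℝ) ^ 2 ≤ CE * N := by
      refine le_trans ?_ h4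
      apply Finset.sum_le_sum_of_subset_of_nonneg (Finset.filter_subset _ _)
      intro n hn _
      exact mul_nonneg (hf n hn) (sq_nonneg _)
    have h7 : 0 ≤ ∑ n ∈ G1, f n := Finset.sum_nonneg hG1s
    have h8 : N ^ 2 ≤ (∑ n ∈ G1, f n) * (CE * N) :=
      calc N ^ 2 ≤ (∑ n ∈ G1, f n * (q n : ℝ)) ^ 2 := pow_le_pow_left₀ hN.le hA 2
        _ ≤ _ := hcs
        _ ≤ _ := mul_le_mul_of_nonneg_left h6 h7
    have h9 : N * N ≤ N * (CE * ∑ n ∈ G1, f n) := by nlinarith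
    exact le_of_mul_le_mul_left h9 hN
  -- step 3
  have hC1 : ∑ n ∈ G1, f n ≤ ∑ n ∈ G2, f n + δ * N := by
    have hsub : G2 = G1.filter (fun n => bad n = 0) := by
      rw [hG1, hG2, Finset.filter_filter]
    rw [← Finset.sum_filter_add_sum_filter_not G1 (fun n => bad n = 0), ← hsub]
    have h : ∑ n ∈ G1.filter (fun n => ¬ bad n = 0), f n ≤ ∑ n ∈ s, f n * bad n := by
      calc ∑ n ∈ G1.filter (fun n => ¬ bad n = 0), f n
          ≤ ∑ n ∈ G1.filter (fun n => ¬ bad n = 0), f n * bad n := by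
            apply Finset.sum_le_sum
            intro n hn
            rw [Finset.mem_filter] at hn
            have h1 : 1 ≤ bad n := Nat.one_le_iff_ne_zero.mpr hn.2
            have h2 : (1 : ℝ) ≤ bad n := by exact_mod_cast h1
            have h3 := mul_le_mul_of_nonneg_left h2 (hG1s n hn.1)
            linarith
        _ ≤ ∑ n ∈ s, f n * bad n := by
            apply Finset.sum_le_sum_of_subset_of_nonneg
            · exact (Finset.filter_subset _ _).trans (Finset.filter_subset _ _)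
            · intro n hn _
              exact mul_nonneg (hf n hn) (Nat.cast_nonneg _)
    linarith
  have hD : N ≤ 2 * CE * ∑ n ∈ G2, f n := by
    have h6 : CE * ∑ n ∈ G1, f n ≤ CE * (∑ n ∈ G2, f n + δ * N) :=
      mul_le_mul_of_nonneg_left hC1 hCE.le
    have h7 : 2 * CE * δ * N ≤ 1 * N := mul_le_mul_of_nonneg_right hδ hN.le
    nlinarith
  -- step 4
  have hE := Finset.sum_mul_sq_le_sq_mul_sq G2 (fun _ => (1 : ℝ)) f
  have e1 : ∑ n ∈ G2, (1 : ℝ) * f n = ∑ n ∈ G2, f n := by simp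
  have e2 : ∑ _n ∈ G2, (1 : ℝ) ^ 2 = (G2.card : ℝ) := by simp
  rw [e1, e2] at hE
  have h6 : ∑ n ∈ G2, f n ^ 2 ≤ 2 * C * N := by
    refine le_trans ?_ h2
    apply Finset.sum_le_sum_of_subset_of_nonneg (Finset.filter_subset _ _)
    intro n _ _
    exact sq_nonneg _
  have hcard : (0 : ℝ) ≤ G2.card := Nat.cast_nonneg _
  have h7 : (∑ n ∈ G2, f n) ^ 2 ≤ G2.card * (2 * C * N) :=
    hE.trans (mul_le_mul_of_nonneg_left h6 hcard)
  have h8 : N ^ 2 ≤ (2 * CE * ∑ n ∈ G2, f n) ^ 2 := pow_le_pow_left₀ hN.le hD 2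
  have h9 : N * N ≤ N * (G2.card * (8 * CE ^ 2 * C)) := by
    have h10 : (2 * CE * ∑ n ∈ G2, f n) ^ 2 = 4 * CE ^ 2 * (∑ n ∈ G2, f n) ^ 2 := by ring
    have h11 : 4 * CE ^ 2 * (∑ n ∈ G2, f n) ^ 2 ≤ 4 * CE ^ 2 * (G2.card * (2 * C * N)) :=
      mul_le_mul_of_nonneg_left h7 (by positivity)
    nlinarith
  have h12 : N ≤ G2.card * (8 * CE ^ 2 * C) := le_of_mul_le_mul_left h9 hN
  rw [div_le_iff₀ (by positivity)]
  exact h12

end Pool.Agent.Lib.H92G
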