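import Pool.Agent.Lib.H92G.F1
import Pool.Agent.Lib.H92G.K5

/-!
# Chunk F2: the number of good integers, for one value of `x`
-/

open Finset

namespace Pool.Agent.Lib.H92G

open Pool.Agent.Lib.H15P

/-- `n + h > Z0` prime, all primes of `P` and `M` at most `Z0`: then `n + h` is rough. -/
theorem rg_of_prime (w : WG) (M Z0 n h : ℕ) (hM : 0 < M) (hP : ∀ p ∈ w.P, p ≤ Z0)
    (hMZ : M ≤ Z0) (hn : Z0 ≤ n) (hh : 1 ≤ h) (hp : (n + h).Prime) : rg w M n h := by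
  refine ⟨(Nat.Prime.coprime_iff_not_dvd hp).2 fun hd => ?_, ?_⟩
  · have := Nat.le_of_dvd hM hd
    omega
  · unfold hit
    rw [Finset.filter_eq_empty_iff]
    intro p _ hd
    have h1 : p.1 = n + h := (Nat.prime_dvd_prime_iff_eq (w.prime p.1 p.2) hp).1 hd
    have h2 := hP p.1 p.2
    omega

/-- the number of primes is zero for small `n` -/
noncomputable def f2_q (S : Finset ℕ) (Z0 n : ℕ) : ℕ :=
  if Z0 ≤ n then (S.filter (fun h => (n + h).Prime)).card else 0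

/-- the bad `n` -/
noncomputable def f2_bad (w : WG) (M H : ℕ) (S : Finset ℕ) {J : ℕ} (I : Fin J → Finset ℕ)
    (n : ℕ) : ℕ := rgh w M (Icc 1 H \ S) n + ∑ j, rgp w M (I j) n

theorem f2_lpv (S : Finset ℕ) (H X Z0 n : ℕ) (hS : S ⊆ Icc 1 H) (hX : 0 < X)
    (hX2 : 8 * (Z0 + H + 1) < X) :
    ∑ h ∈ S, lpv X (n + h) ≤ (f2_q S Z0 n : ℝ) * (8 * Real.log (60 * X) / X) := by
  unfold f2_q
  split_ifs with hn
  · rw [Finset.card_filter, Nat.cast_sum, Finset.sum_mul]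
    refine Finset.sum_le_sum fun h _ => ?_
    refine (lpv_le X (n + h) hX).trans (le_of_eq ?_)
    push_cast
    rfl
  · rw [Nat.cast_zero, zero_mul]
    refine le_of_eq (Finset.sum_eq_zero fun h hh => ?_)
    by_contra hne
    obtain ⟨_, h2, _⟩ := e5_lpv_ne X (n + h) hX hne
    have h3 := (Finset.mem_Icc.1 (hS hh)).2
    have h4 : (X : ℝ) ≤ ((8 * (n + h) : ℕ) : ℝ) := by
      push_cast
      push_cast at h2
      linarith
    have h5 : X ≤ 8 * (n + h) := by exact_mod_cast h4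
    omega

theorem f2_sq (w : WG) (M : ℕ) (S : Finset ℕ) (n : ℕ) :
    rgh w M S n ^ 2 = rgh w M S n + rgp w M S n := by
  classical
  unfold rgh rgp
  set R := S.filter (fun h => rg w M n h) with hR
  have h1 : (S ×ˢ S).filter (fun z => z.1 ≠ z.2 ∧ rg w M n z.1 ∧ rg w M n z.2) = R.offDiag := by
    ext ⟨a, b⟩
    simp only [Finset.mem_filter, Finset.mem_product, Finset.mem_offDiag, hR]
    tauto
  rw [h1, Finset.offDiag_card, pow_two]
  have h2 : R.card ≤ R.card * R.card := Nat.le_mul_self _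
  omega

theorem f2_q_le (w : WG) (M H : ℕ) (S : Finset ℕ) (Z0 n : ℕ) (hS : S ⊆ Icc 1 H) (hM : 0 < M)
    (hP : ∀ p ∈ w.P, p ≤ Z0) (hMZ : M ≤ Z0) : f2_q S Z0 n ≤ rgh w M S n := by
  unfold f2_q
  split_ifs with hn
  · unfold rgh
    apply Finset.card_le_card
    intro h hh
    rw [Finset.mem_filter] at hh ⊢
    exact ⟨hh.1, rg_of_prime w M Z0 n h hM hP hMZ hn (Finset.mem_Icc.1 (hS hh.1)).1 hh.2⟩
  · exact Nat.zero_le _

/-- Chunk F2. `cs_final` with `s = range (M Y)`, `f = wn`, `q n = #{h ∈ S : n + h prime}` if `Z0 ≤ n`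
(and `0` otherwise: the terms `lpv X (n + h)` vanish for `n + h < X/8`, and `Z0 + H < X/8`),
`bad n = rgh (Icc 1 H \ S) n + ∑_j rgp (IJ j) n`.
* `CS.sum_le`, `CS.sum_sq_le`;
* `(k + 2) M Y ≤ ∑ f q` from `CS.sum_prime_ge`, `lpv_le` and `ha`;
* `q ≤ rgh S`, `q^2 ≤ rgh S + rgp S` (ordered pairs), `CS.sum_one_le`, `CS.sum_two_le`, `hb`;
* `CS.sum_dis_le`, `CS.sum_two_le` for every `IJ j ⊆ S`, `hc`.
A good `n` (`k + 1 ≤ q n`, `bad n = 0`) satisfies `Z0 ≤ n` and `GoodN`: primes `n + h`,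
`h ∈ Icc 1 H \ S`, are rough (`rg_of_prime`) but `rgh = 0`; two primes in one `IJ j` would be a
rough pair. -/
theorem count_ge {w : WG} {M H X Y Q' D Z0 : ℕ} {A0 A1 : ℝ} {J : ℕ} {β : Fin J → ℝ}
    {ε Λ L CE δ : ℝ} (hH : H = ⌊Λ * L⌋₊)
    (hcs : CS w M H Y (AL β ε L)) (hp : w.Prm M X Y Q' D A0 A1) (hX : 8 * (M + H) ≤ X)
    (hX2 : 8 * (Z0 + H + 1) < X) (hP : ∀ p ∈ w.P, p ≤ Z0) (hMZ : M ≤ Z0)
    (hg : 9 / 10 * ((AL β ε L).card * (M.totient : ℝ)) ≤
      ∑ a ∈ (range M).filter (okc w M H (AL β ε L)), ((Ac M (AL β ε L) a).card : ℝ))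
    (k : ℕ)
    (ha : ((k : ℝ) + 2) * (M * Y : ℕ) * (8 * Real.log (60 * X) / X) ≤
      w.g ^ 2 / 10 * (AL β ε L).card)
    (hb : 2 * w.g ^ 2 * w.el * Y * ((AL β ε L).card * M.totient) +
      2 * w.g ^ 4 * w.el ^ 2 * Y * ((M.totient : ℝ) ^ 2 / M * psum (AL β ε L)) ≤
        CE * (M * Y : ℕ))
    (hc : 3 * w.e * (M * Y : ℕ) +
      2 * w.g ^ 4 * w.el ^ 2 * Y * ((M.totient : ℝ) ^ 2 / M * ∑ j, psum (IJ β ε L j)) ≤
        δ * (M * Y : ℕ))
    (he : 3 * w.e * k ≤ 1) (hδ : 2 * CE * δ ≤ 1) (hCE : 0 < CE) :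
    ∃ s : Finset ℕ, s ⊆ range (M * Y) ∧ (∀ n ∈ s, GoodN β ε Λ L k n) ∧
      (M * Y : ℕ) / (8 * CE ^ 2 * w.C) ≤ (s.card : ℝ) := by
  classical
  set S := AL β ε L with hS
  have hX0 : 0 < X := hp.X0
  have hXr : (1 : ℝ) ≤ X := by exact_mod_cast hX0
  have hM : 0 < M := hcs.M0
  have hfn : ∀ n, 0 ≤ wn w M H S n := wn_nonneg w M H S
  have hN : (0 : ℝ) < ((M * Y : ℕ) : ℝ) := by
    have := hp.YX
    exact_mod_cast (by omega : 0 < M * Y)
  have hC : 0 < w.C := lt_of_lt_of_le (Real.exp_pos _) w.hC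
  have hcc : 0 < 8 * Real.log (60 * X) / X := by
    have h1 : 0 < Real.log (60 * X) := Real.log_pos (by linarith)
    positivity
  have hIS : ∀ j, IJ β ε L j ⊆ S := fun j =>
    Finset.subset_biUnion_of_mem (IJ β ε L) (Finset.mem_univ j)
  have h3 : ((k : ℝ) + 2) * (M * Y : ℕ) ≤
      ∑ n ∈ range (M * Y), wn w M H S n * (f2_q S Z0 n : ℝ) := by
    have h := hcs.sum_prime_ge hp hX hg
    have h' : ∑ n ∈ range (M * Y), wn w M H S n * ∑ h ∈ S, lpv X (n + h) ≤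
        (∑ n ∈ range (M * Y), wn w M H S n * (f2_q S Z0 n : ℝ)) *
          (8 * Real.log (60 * X) / X) := by
      rw [Finset.sum_mul]
      refine Finset.sum_le_sum fun n _ => ?_
      rw [mul_assoc]
      exact mul_le_mul_of_nonneg_left (f2_lpv S H X Z0 n hcs.SH hX0 hX2) (hfn n)
    exact le_of_mul_le_mul_right (ha.trans (h.trans h')) hcc
  have h4 : ∑ n ∈ range (M * Y), wn w M H S n * (f2_q S Z0 n : ℝ) ^ 2 ≤
      CE * (M * Y : ℕ) := by
    have h1 := hcs.sum_one_le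
    have h2 := hcs.sum_two_le S (Finset.Subset.refl S)
    refine le_trans ?_ ((add_le_add h1 h2).trans hb)
    rw [← Finset.sum_add_distrib]
    refine Finset.sum_le_sum fun n _ => ?_
    rw [← mul_add]
    refine mul_le_mul_of_nonneg_left ?_ (hfn n)
    have h5 := f2_q_le w M H S Z0 n hcs.SH hM hP hMZ
    have h6 : f2_q S Z0 n ^ 2 ≤ rgh w M S n + rgp w M S n := by
      rw [← f2_sq]
      exact Nat.pow_le_pow_left h5 2
    exact_mod_cast h6
  have h5 : ∑ n ∈ range (M * Y), wn w M H S n *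
      (f2_bad w M H S (IJ β ε L) n : ℝ) ≤ δ * (M * Y : ℕ) := by
    refine le_trans ?_ hc
    have h1 := hcs.sum_dis_le
    have h2 : ∑ n ∈ range (M * Y), wn w M H S n * (f2_bad w M H S (IJ β ε L) n : ℝ) =
        ∑ n ∈ range (M * Y), wn w M H S n * (rgh w M (Icc 1 H \ S) n : ℝ) +
        ∑ j, ∑ n ∈ range (M * Y), wn w M H S n * (rgp w M (IJ β ε L j) n : ℝ) := by
      rw [Finset.sum_comm, ← Finset.sum_add_distrib]
      refine Finset.sum_congr rfl fun n _ => ?_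
      unfold f2_bad
      push_cast
      rw [mul_add, Finset.mul_sum]
    rw [h2]
    refine add_le_add h1 ?_
    rw [Finset.mul_sum, Finset.mul_sum]
    exact Finset.sum_le_sum fun j _ => hcs.sum_two_le _ (hIS j)
  have key := cs_final (range (M * Y)) (wn w M H S) (f2_q S Z0)
    (f2_bad w M H S (IJ β ε L)) k (M * Y : ℕ) w.e CE w.C δ
    (fun n _ => hfn n) hN hcs.sum_le hcs.sum_sq_le h3 h4 h5 he hδ hCE hC
  refine ⟨_, Finset.filter_subset _ _, ?_, key⟩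
  intro n hn
  obtain ⟨-, hq, hbad⟩ := Finset.mem_filter.1 hn
  have hZn : Z0 ≤ n := by
    by_contra hlt
    unfold f2_q at hq
    rw [if_neg hlt] at hq
    omega
  have hrg : ∀ h, 1 ≤ h → (n + h).Prime → rg w M n h := fun h hh hpr =>
    rg_of_prime w M Z0 n h hM hP hMZ hZn hh hpr
  unfold f2_bad at hbad
  have hb1 : rgh w M (Icc 1 H \ S) n = 0 := by omega
  have hb2 : ∀ j, rgp w M (IJ β ε L j) n = 0 := by
    have : ∑ j, rgp w M (IJ β ε L j) n = 0 := by omega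
    intro j
    exact Finset.sum_eq_zero_iff.1 this j (Finset.mem_univ j)
  refine ⟨?_, ?_, ?_⟩
  · intro h hh hpr
    by_contra hnS
    unfold rgh at hb1
    rw [Finset.card_eq_zero, Finset.filter_eq_empty_iff] at hb1
    refine hb1 (x := h) ?_ (hrg h (Finset.mem_Icc.1 hh).1 hpr)
    rw [Finset.mem_sdiff, hH]
    exact ⟨hh, hnS⟩
  · intro j
    by_contra hgt
    push Not at hgt
    obtain ⟨a, ha', b, hb', hab⟩ := Finset.one_lt_card.1 hgt
    rw [Finset.mem_filter] at ha' hb'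
    have h1a := (Finset.mem_Icc.1 (hcs.SH (hIS j ha'.1))).1
    have h1b := (Finset.mem_Icc.1 (hcs.SH (hIS j hb'.1))).1
    have h2 := hb2 j
    unfold rgp at h2
    rw [Finset.card_eq_zero, Finset.filter_eq_empty_iff] at h2
    exact h2 (x := (a, b)) (Finset.mem_product.2 ⟨ha'.1, hb'.1⟩)
      ⟨hab, hrg a h1a ha'.2, hrg b h1b hb'.2⟩
  · unfold f2_q at hq
    rw [if_pos hZn] at hq
    exact hq

end Pool.Agent.Lib.H92G
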