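import Pool.Agent.Lib.H92G.Defs

/-!
# Chunk F3: the numerical verification

Notation: `L` = `log x`, `l` = `log log x`, `s` = number of the allowed shifts, `u = J ε`,
`cs = cA^2 u nA`, `φ` = `φ(M)`, `m` = `M`, `N = M Y`.
-/

open Finset

namespace Pool.Agent.Lib.H92G

/-- The expected number of primes. -/
theorem num_a (k x X N g u cs nA cA s L : ℝ) (hk : 0 ≤ k) (hX0 : 0 < X) (hX : x / 121 ≤ X)
    (hN : N ≤ x) (hN0 : 0 ≤ N) (hL : 1 ≤ L) (hlog : Real.log (60 * X) ≤ L) (hx : 0 < x)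
    (hu : 0 < u) (hnA : 0 ≤ nA) (hcA : 0 ≤ cA) (hg : g = 1 + nA * cA) (hcs : cA ^ 2 * u * nA = cs)
    (hs : 99 / 100 * (u * L) ≤ s) (h : 10000 * (k + 2) ≤ nA * cs) :
    (k + 2) * N * (8 * Real.log (60 * X) / X) ≤ g ^ 2 / 10 * s := by
  have hg1 : nA * cA ≤ g := by rw [hg]; linarith
  have hnc : 0 ≤ nA * cA := mul_nonneg hnA hcA
  have hL0 : 0 < L := by linarith
  have h1 : nA * cs ≤ g ^ 2 * u := by
    have h2 : (nA * cA) ^ 2 ≤ g ^ 2 := pow_le_pow_left₀ hnc hg1 2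
    calc nA * cs = (nA * cA) ^ 2 * u := by rw [← hcs]; ring
      _ ≤ g ^ 2 * u := mul_le_mul_of_nonneg_right h2 hu.le
  have h2 : 990 * ((k + 2) * L) ≤ g ^ 2 / 10 * s := by
    calc 990 * ((k + 2) * L) = 99 / 1000 * (10000 * (k + 2)) * L := by ring
      _ ≤ 99 / 1000 * (g ^ 2 * u) * L := by
          apply mul_le_mul_of_nonneg_right _ hL0.le
          linarith
      _ = g ^ 2 / 10 * (99 / 100 * (u * L)) := by ring
      _ ≤ g ^ 2 / 10 * s := mul_le_mul_of_nonneg_left hs (by positivity)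
  have h3 : (k + 2) * N * (8 * Real.log (60 * X) / X) ≤ 990 * ((k + 2) * L) := by
    have h4 : N * (8 * Real.log (60 * X) / X) ≤ 968 * L := by
      have h5 : N * (8 * Real.log (60 * X) / X) = 8 * (N / X) * Real.log (60 * X) := by
        field_simp
      rw [h5]
      have h6 : N / X ≤ 121 := by
        rw [div_le_iff₀ hX0]
        linarith
      have h7 : 0 ≤ N / X := div_nonneg hN0 hX0.le
      calc 8 * (N / X) * Real.log (60 * X) ≤ 8 * (N / X) * L :=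
            mul_le_mul_of_nonneg_left hlog (by linarith)
        _ ≤ 8 * 121 * L := by
            apply mul_le_mul_of_nonneg_right _ hL0.le
            linarith
        _ = 968 * L := by ring
    have hk2 : 0 ≤ k + 2 := by linarith
    calc (k + 2) * N * (8 * Real.log (60 * X) / X)
        = (k + 2) * (N * (8 * Real.log (60 * X) / X)) := by ring
      _ ≤ (k + 2) * (968 * L) := mul_le_mul_of_nonneg_left h4 hk2
      _ ≤ 990 * ((k + 2) * L) := by nlinarith [mul_nonneg hk2 hL0.le]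
  linarith

/-- Auxiliary: `g ≤ 2 nA cA` if `nA cs ≥ u` (so `nA cA ≥ 1`), hence `g^2 u ≤ 4 nA cs`,
`g^4 u^2 ≤ 16 nA^2 cs^2`. -/
theorem num_g (g u cs nA cA : ℝ) (hu : 0 < u) (hnA : 0 ≤ nA) (hcA : 0 ≤ cA)
    (hg : g = 1 + nA * cA) (hcs : cA ^ 2 * u * nA = cs) (h1 : u ≤ nA * cs) :
    g ^ 2 * u ≤ 4 * (nA * cs) ∧ g ^ 4 * u ^ 2 ≤ 16 * (nA * cs) ^ 2 := by
  have hnc : 0 ≤ nA * cA := mul_nonneg hnA hcA
  have h2 : nA * cs = (nA * cA) ^ 2 * u := by rw [← hcs]; ring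
  have h3 : 1 ≤ nA * cA := by
    by_contra hlt
    push Not at hlt
    have h4 : (nA * cA) ^ 2 < 1 := by nlinarith
    have h5 : (nA * cA) ^ 2 * u < 1 * u := mul_lt_mul_of_pos_right h4 hu
    linarith
  have hg2 : g ≤ 2 * (nA * cA) := by rw [hg]; linarith
  have hg0 : 0 ≤ g := by rw [hg]; linarith
  have h6 : g ^ 2 * u ≤ 4 * (nA * cs) := by
    calc g ^ 2 * u ≤ (2 * (nA * cA)) ^ 2 * u :=
          mul_le_mul_of_nonneg_right (pow_le_pow_left₀ hg0 hg2 2) hu.le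
      _ = 4 * (nA * cs) := by rw [h2]; ring
  refine ⟨h6, ?_⟩
  have h7 : 0 ≤ g ^ 2 * u := by positivity
  calc g ^ 4 * u ^ 2 = (g ^ 2 * u) ^ 2 := by ring
    _ ≤ (4 * (nA * cs)) ^ 2 := pow_le_pow_left₀ h7 h6 2
    _ = 16 * (nA * cs) ^ 2 := by ring

/-- f3: `el φ ≤ 800000 (Bn+1) m/(τ L)`. -/
theorem f3_el (Bn τ L l el φ m : ℝ) (hBn : 0 ≤ Bn) (hτ : 0 < τ) (hL : 1 ≤ L) (hl : 1 ≤ l)
    (hel : el ≤ 2000 * (Bn + 1) * l / (τ * L)) (hφ0 : 0 ≤ φ)
    (hφ : φ ≤ 400 / l * m) : el * φ ≤ 800000 * (Bn + 1) * m / (τ * L) := by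
  have hL0 : 0 < L := by linarith
  have hl0 : 0 < l := by linarith
  have h1 : 0 ≤ 2000 * (Bn + 1) * l / (τ * L) := by positivity
  calc el * φ ≤ 2000 * (Bn + 1) * l / (τ * L) * φ := mul_le_mul_of_nonneg_right hel hφ0
    _ ≤ 2000 * (Bn + 1) * l / (τ * L) * (400 / l * m) := mul_le_mul_of_nonneg_left hφ h1
    _ = 800000 * (Bn + 1) * m / (τ * L) := by
        field_simp
        ring

/-- f3: the pair term -/
theorem f3_pair (Bn τ CG g u cs nA cA L l el φ m Y ps q : ℝ) (hBn : 0 ≤ Bn) (hτ : 0 < τ)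
    (hCG : 0 ≤ CG) (hu : 0 < u) (hnA : 0 ≤ nA) (hcA : 0 ≤ cA) (hg : g = 1 + nA * cA)
    (hcs : cA ^ 2 * u * nA = cs) (h1 : u ≤ nA * cs) (hL : 1 ≤ L) (hl : 1 ≤ l)
    (hel0 : 0 ≤ el) (hel : el ≤ 2000 * (Bn + 1) * l / (τ * L)) (hφ0 : 0 ≤ φ)
    (hφ : φ ≤ 400 / l * m) (hm : 0 < m) (hY : 0 ≤ Y)
    (hps0 : 0 ≤ ps) (hq : 0 ≤ q) (hps : ps ≤ CG * (u * L) ^ 2 * q) :
    2 * g ^ 4 * el ^ 2 * Y * (φ ^ 2 / m * ps) ≤
        10 ^ 14 * (Bn + 1) ^ 2 * (nA * cs) ^ 2 * CG / τ ^ 2 * q * (m * Y) := by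
  have hL0 : 0 < L := by linarith
  have h2 := f3_el Bn τ L l el φ m hBn hτ hL hl hel hφ0 hφ
  have h3 : 0 ≤ el * φ := mul_nonneg hel0 hφ0
  have h4 := (num_g g u cs nA cA hu hnA hcA hg hcs h1).2
  have h5 : (el * φ) ^ 2 ≤ (800000 * (Bn + 1) * m / (τ * L)) ^ 2 := pow_le_pow_left₀ h3 h2 2
  calc 2 * g ^ 4 * el ^ 2 * Y * (φ ^ 2 / m * ps) = 2 * g ^ 4 * Y / m * ((el * φ) ^ 2 * ps) := by
        field_simp
    _ ≤ 2 * g ^ 4 * Y / m * ((800000 * (Bn + 1) * m / (τ * L)) ^ 2 * (CG * (u * L) ^ 2 * q)) := by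
        apply mul_le_mul_of_nonneg_left _ (by positivity)
        exact mul_le_mul h5 hps hps0 (by positivity)
    _ = (g ^ 4 * u ^ 2) * (2 * 800000 ^ 2 * (Bn + 1) ^ 2 * CG / τ ^ 2 * q * (m * Y)) := by
        field_simp
    _ ≤ (16 * (nA * cs) ^ 2) * (2 * 800000 ^ 2 * (Bn + 1) ^ 2 * CG / τ ^ 2 * q * (m * Y)) :=
        mul_le_mul_of_nonneg_right h4 (by positivity)
    _ = (32 * 800000 ^ 2) * ((Bn + 1) ^ 2 * (nA * cs) ^ 2 * CG / τ ^ 2 * q * (m * Y)) := by ring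
    _ ≤ 10 ^ 14 * ((Bn + 1) ^ 2 * (nA * cs) ^ 2 * CG / τ ^ 2 * q * (m * Y)) := by
        apply mul_le_mul_of_nonneg_right (by norm_num) (by positivity)
    _ = _ := by ring

/-- The second moment of the number of allowed forms without prime factor in `P`:
`el φ ≤ (2000 (Bn+1) l/(τ L)) (400/l) m = 800000 (Bn+1) m/(τ L)`. -/
theorem num_b (Bn τ CG g u cs nA cA s L l el φ m Y ps : ℝ) (hBn : 0 ≤ Bn) (hτ : 0 < τ)
    (hCG : 0 ≤ CG) (hu : 0 < u) (hnA : 0 ≤ nA) (hcA : 0 ≤ cA) (hg : g = 1 + nA * cA)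
    (hcs : cA ^ 2 * u * nA = cs) (h1 : u ≤ nA * cs) (hL : 1 ≤ L) (hl : 1 ≤ l)
    (hel0 : 0 ≤ el) (hel : el ≤ 2000 * (Bn + 1) * l / (τ * L)) (hφ0 : 0 ≤ φ)
    (hφ : φ ≤ 400 / l * m) (hm : 0 < m) (hY : 0 ≤ Y) (hs0 : 0 ≤ s)
    (hs : s ≤ 101 / 100 * (u * L)) (hps0 : 0 ≤ ps) (hps : ps ≤ CG * (u * L) ^ 2) :
    2 * g ^ 2 * el * Y * (s * φ) + 2 * g ^ 4 * el ^ 2 * Y * (φ ^ 2 / m * ps) ≤
      (10 ^ 7 * (Bn + 1) * (nA * cs) / τ +
        10 ^ 14 * (Bn + 1) ^ 2 * (nA * cs) ^ 2 * CG / τ ^ 2) * (m * Y) := by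
  have hL0 : 0 < L := by linarith
  have hcs0 : 0 ≤ nA * cs := le_trans hu.le h1
  have h2 := f3_el Bn τ L l el φ m hBn hτ hL hl hel hφ0 hφ
  have h3 : 0 ≤ el * φ := mul_nonneg hel0 hφ0
  have h4 := (num_g g u cs nA cA hu hnA hcA hg hcs h1).1
  have h5 : 2 * g ^ 2 * el * Y * (s * φ) ≤ 10 ^ 7 * (Bn + 1) * (nA * cs) / τ * (m * Y) := by
    calc 2 * g ^ 2 * el * Y * (s * φ) = 2 * g ^ 2 * Y * ((el * φ) * s) := by ring
      _ ≤ 2 * g ^ 2 * Y * ((800000 * (Bn + 1) * m / (τ * L)) * (101 / 100 * (u * L))) := by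
          apply mul_le_mul_of_nonneg_left _ (by positivity)
          exact mul_le_mul h2 hs hs0 (by positivity)
      _ = (g ^ 2 * u) * (1616000 * (Bn + 1) / τ * (m * Y)) := by
          field_simp
          ring
      _ ≤ (4 * (nA * cs)) * (1616000 * (Bn + 1) / τ * (m * Y)) :=
          mul_le_mul_of_nonneg_right h4 (by positivity)
      _ = 6464000 * ((Bn + 1) * (nA * cs) / τ * (m * Y)) := by ring
      _ ≤ 10 ^ 7 * ((Bn + 1) * (nA * cs) / τ * (m * Y)) := by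
          apply mul_le_mul_of_nonneg_right (by norm_num) (by positivity)
      _ = _ := by ring
  have h6 := f3_pair Bn τ CG g u cs nA cA L l el φ m Y ps 1 hBn hτ hCG hu hnA hcA hg hcs h1 hL hl
    hel0 hel hφ0 hφ hm hY hps0 zero_le_one (by rw [mul_one]; exact hps)
  rw [mul_one] at h6
  rw [add_mul]
  exact add_le_add h5 h6

/-- The close pairs: the pair sum is smaller by the factor `J` (`u = J ε`,
`J (ε L)^2 = (u L)^2/J`). -/
theorem num_c (Bn τ CG g u cs nA cA L l el φ m Y ps J ε : ℝ) (hBn : 0 ≤ Bn) (hτ : 0 < τ)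
    (hCG : 0 ≤ CG) (hJ : 0 < J) (hε : 0 < ε) (hu : u = J * ε) (hnA : 0 ≤ nA) (hcA : 0 ≤ cA)
    (hg : g = 1 + nA * cA)
    (hcs : cA ^ 2 * u * nA = cs) (h1 : u ≤ nA * cs) (hL : 1 ≤ L) (hl : 1 ≤ l)
    (hel0 : 0 ≤ el) (hel : el ≤ 2000 * (Bn + 1) * l / (τ * L)) (hφ0 : 0 ≤ φ)
    (hφ : φ ≤ 400 / l * m) (hm : 0 < m) (hY : 0 ≤ Y) (hps0 : 0 ≤ ps)
    (hps : ps ≤ CG * (J * (ε * L) ^ 2)) :
    2 * g ^ 4 * el ^ 2 * Y * (φ ^ 2 / m * ps) ≤
      10 ^ 14 * (Bn + 1) ^ 2 * (nA * cs) ^ 2 * CG / τ ^ 2 / J * (m * Y) := by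
  have hu0 : 0 < u := by rw [hu]; positivity
  have h6 := f3_pair Bn τ CG g u cs nA cA L l el φ m Y ps (1 / J) hBn hτ hCG hu0 hnA hcA hg hcs h1
    hL hl hel0 hel hφ0 hφ hm hY hps0 (by positivity) (by
      refine hps.trans (le_of_eq ?_)
      rw [hu]
      field_simp)
  refine h6.trans (le_of_eq ?_)
  ring

/-- f3: one of the two terms of `num_h` -/
theorem f3_h (CG u v α s L l φ m ps K : ℝ) (hCG : 1 ≤ CG) (hu : 0 < u) (hv : 0 < v)
    (hα : 25000 * CG * v ≤ α) (hL : 1 ≤ L) (hl : 1 ≤ l)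
    (hlL : 200 * l ≤ α * L)
    (hφ0 : 0 ≤ φ) (hφ : φ ≤ 400 / l * m) (hm : 0 < m)
    (hs : 99 / 100 * (u * L) ≤ s) (hps0 : 0 ≤ ps) (hps : ps ≤ CG * ((u * L) * (v * L)))
    (hK : α * L / (2 * l) ≤ K) :
    (s * φ + φ ^ 2 / m * ps) / K ≤ 1 / 20 * (s * φ) := by
  have hL0 : 0 < L := by linarith
  have hl0 : 0 < l := by linarith
  have hCG0 : 0 < CG := by linarith
  have hα0 : 0 < α := lt_of_lt_of_le (by positivity) hα
  have hK0 : 0 < α * L / (2 * l) := by positivity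
  have hK0' : 0 < K := lt_of_lt_of_le hK0 hK
  have huL : 0 < u * L := by positivity
  have hs0 : 0 < s := lt_of_lt_of_le (by positivity) hs
  have h1 : φ ^ 2 / m * ps ≤ (s * φ) * (405 / l * CG * v * L) := by
    have h2 : φ ^ 2 / m ≤ φ * (400 / l) := by
      rw [div_le_iff₀ hm]
      calc φ ^ 2 = φ * φ := by ring
        _ ≤ φ * (400 / l * m) := mul_le_mul_of_nonneg_left hφ hφ0
        _ = φ * (400 / l) * m := by ring
    have h3 : ps ≤ CG * ((100 / 99 * s) * (v * L)) := by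
      refine hps.trans ?_
      apply mul_le_mul_of_nonneg_left _ hCG0.le
      apply mul_le_mul_of_nonneg_right _ (by positivity)
      linarith
    calc φ ^ 2 / m * ps ≤ (φ * (400 / l)) * (CG * ((100 / 99 * s) * (v * L))) :=
          mul_le_mul h2 h3 hps0 (by positivity)
      _ = (400 * 100 / 99) * ((s * φ) * (1 / l * CG * v * L)) := by ring
      _ ≤ 405 * ((s * φ) * (1 / l * CG * v * L)) := by
          apply mul_le_mul_of_nonneg_right (by norm_num) (by positivity)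
      _ = _ := by ring
  have h4 : s * φ + φ ^ 2 / m * ps ≤ (s * φ) * (1 + 405 / l * CG * v * L) := by
    have : (s * φ) * (1 + 405 / l * CG * v * L) = s * φ + (s * φ) * (405 / l * CG * v * L) := by ring
    rw [this]
    linarith
  have h5 : 1 + 405 / l * CG * v * L ≤ 1 / 20 * K := by
    have h6 : 1 + 405 / l * CG * v * L ≤ 1 / 20 * (α * L / (2 * l)) := by
      have h7 : 1 ≤ 1 / 100 * (α * L / (2 * l)) := by
        have : α * L / (2 * l) ≥ 100 := by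
          rw [ge_iff_le, le_div_iff₀ (by positivity)]
          linarith
        linarith
      have h8 : 405 / l * CG * v * L ≤ 1 / 25 * (α * L / (2 * l)) := by
        have h9 : 1 / 25 * (α * L / (2 * l)) = α * (L / (50 * l)) := by
          field_simp
          ring
        rw [h9]
        calc 405 / l * CG * v * L = 20250 * CG * v * (L / (50 * l)) := by
              field_simp
              ring
          _ ≤ 25000 * CG * v * (L / (50 * l)) := by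
              apply mul_le_mul_of_nonneg_right _ (by positivity)
              nlinarith [mul_pos hCG0 hv]
          _ ≤ α * (L / (50 * l)) := mul_le_mul_of_nonneg_right hα (by positivity)
      linarith
    linarith
  rw [div_le_iff₀ hK0']
  calc s * φ + φ ^ 2 / m * ps ≤ (s * φ) * (1 + 405 / l * CG * v * L) := h4
    _ ≤ (s * φ) * (1 / 20 * K) := mul_le_mul_of_nonneg_left h5 (by positivity)
    _ = _ := by ring

/-- The bad classes: `φ/m ≤ 400/l`, `u L ≤ (100/99) s`, so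
`(1 + (φ/m) CG (u L)^2/s)/KA ≤ (1 + 405 CG u L/l) (2 l/(αA L)) ≤ 2 l/(αA L) + 810 CG u/αA`, similarly
for the second term; `l/L` small. -/
theorem num_h (CG u Λ αA α s L l φ m ps pt KA K : ℝ) (hCG : 1 ≤ CG) (hu : 0 < u) (hΛ : 0 < Λ)
    (hαA : 25000 * CG * u ≤ αA) (hα : 25000 * CG * Λ ≤ α) (hL : 1 ≤ L) (hl : 1 ≤ l)
    (hlL : 200 * l ≤ αA * L) (hlL' : 200 * l ≤ α * L)
    (hφ0 : 0 ≤ φ) (hφ : φ ≤ 400 / l * m) (hm : 0 < m)
    (hs : 99 / 100 * (u * L) ≤ s) (hps0 : 0 ≤ ps) (hps : ps ≤ CG * (u * L) ^ 2)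
    (hpt0 : 0 ≤ pt) (hpt : pt ≤ CG * ((u * L) * (Λ * L)))
    (hKA : αA * L / (2 * l) ≤ KA) (hK : α * L / (2 * l) ≤ K) :
    (s * φ + φ ^ 2 / m * ps) / KA + (s * φ + φ ^ 2 / m * pt) / K ≤ 1 / 10 * (s * φ) := by
  have h1 := f3_h CG u u αA s L l φ m ps KA hCG hu hu hαA hL hl hlL hφ0 hφ hm hs hps0
    (by refine hps.trans (le_of_eq ?_); ring) hKA
  have h2 := f3_h CG u Λ α s L l φ m pt K hCG hu hΛ hα hL hl hlL' hφ0 hφ hm hs hpt0 hpt hK
  linarith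

end Pool.Agent.Lib.H92G
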