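import Pool.Agent.Lib.H92G.K2

/-!
# Chunk K3: the allowed set: size and pair sums
-/

open Finset

namespace Pool.Agent.Lib.H92G

/-- The intervals `IJ j` are disjoint and contained in `(0, ⌊Λ L⌋]`. -/
theorem IJ_disjoint {J : ℕ} {β : Fin J → ℝ} {ε Λ : ℝ} (h : Conf J β ε Λ) (L : ℝ) (hL : 0 ≤ L)
    {j j' : Fin J} (hne : j ≠ j') : Disjoint (IJ β ε L j) (IJ β ε L j') := by
  have key : ∀ j j' : Fin J, j < j' → Disjoint (IJ β ε L j) (IJ β ε L j') := by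
    intro j j' hlt
    rw [Finset.disjoint_left]
    intro x h1 h2
    unfold IJ at h1 h2
    rw [Finset.mem_Ioc] at h1 h2
    have h3 : ⌊(β j + ε) * L⌋₊ ≤ ⌊β j' * L⌋₊ :=
      Nat.floor_le_floor (mul_le_mul_of_nonneg_right (h.sep j j' hlt) hL)
    omega
  rcases lt_or_gt_of_ne hne with h1 | h1
  · exact key j j' h1
  · exact (key j' j h1).symm

theorem AL_subset {J : ℕ} {β : Fin J → ℝ} {ε Λ : ℝ} (h : Conf J β ε Λ) (L : ℝ) (hL : 0 ≤ L) :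
    AL β ε L ⊆ Icc 1 ⌊Λ * L⌋₊ := by
  intro x hx
  unfold AL at hx
  rw [Finset.mem_biUnion] at hx
  obtain ⟨j, _, hj⟩ := hx
  unfold IJ at hj
  rw [Finset.mem_Ioc] at hj
  have h3 : ⌊(β j + ε) * L⌋₊ ≤ ⌊Λ * L⌋₊ :=
    Nat.floor_le_floor (mul_le_mul_of_nonneg_right (h.bL j) hL)
  rw [Finset.mem_Icc]
  omega

theorem k3_card_IJ {J : ℕ} {β : Fin J → ℝ} {ε Λ : ℝ} (h : Conf J β ε Λ) {L : ℝ} (hL : 0 ≤ L)
    (j : Fin J) : ((IJ β ε L j).card : ℝ) = (⌊(β j + ε) * L⌋₊ : ℝ) - (⌊β j * L⌋₊ : ℝ) ∧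
      ⌊β j * L⌋₊ ≤ ⌊(β j + ε) * L⌋₊ ∧
      ((IJ β ε L j).card : ℝ) ≤ ε * L + 1 ∧ ε * L - 1 ≤ ((IJ β ε L j).card : ℝ) := by
  have hb := h.b0 j
  have he := h.e0
  have h1 : β j * L ≤ (β j + ε) * L := mul_le_mul_of_nonneg_right (by linarith) hL
  have h2 : ⌊β j * L⌋₊ ≤ ⌊(β j + ε) * L⌋₊ := Nat.floor_le_floor h1
  have h3 : ((IJ β ε L j).card : ℝ) = (⌊(β j + ε) * L⌋₊ : ℝ) - (⌊β j * L⌋₊ : ℝ) := by
    unfold IJ
    rw [Nat.card_Ioc, Nat.cast_sub h2]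
  have h4 : (⌊(β j + ε) * L⌋₊ : ℝ) ≤ (β j + ε) * L := Nat.floor_le (by positivity)
  have h5 : (β j + ε) * L < ⌊(β j + ε) * L⌋₊ + 1 := Nat.lt_floor_add_one _
  have h6 : (⌊β j * L⌋₊ : ℝ) ≤ β j * L := Nat.floor_le (by positivity)
  have h7 : β j * L < ⌊β j * L⌋₊ + 1 := Nat.lt_floor_add_one _
  refine ⟨h3, h2, ?_, ?_⟩ <;> rw [h3] <;> linarith

theorem k3_card_AL {J : ℕ} {β : Fin J → ℝ} {ε Λ : ℝ} (h : Conf J β ε Λ) {L : ℝ} (hL : 0 ≤ L) :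
    ((AL β ε L).card : ℝ) = ∑ j, ((IJ β ε L j).card : ℝ) := by
  unfold AL
  rw [Finset.card_biUnion]
  · push_cast
    rfl
  · intro j _ j' _ hne
    exact IJ_disjoint h L hL hne

theorem k3_sum_AL {J : ℕ} {β : Fin J → ℝ} {ε Λ : ℝ} (h : Conf J β ε Λ) {L : ℝ} (hL : 0 ≤ L)
    (f : ℕ → ℝ) (x : ℕ) :
    ∑ h' ∈ (AL β ε L).erase x, f h' = ∑ j, ∑ h' ∈ (IJ β ε L j).erase x, f h' := by
  unfold AL
  rw [Finset.erase_biUnion, Finset.sum_biUnion]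
  intro j _ j' _ hne
  exact Finset.disjoint_of_subset_left (Finset.erase_subset _ _)
    (Finset.disjoint_of_subset_right (Finset.erase_subset _ _) (IJ_disjoint h L hL hne))

theorem k3_large {ε Λ : ℝ} (hε : 0 < ε) (hΛ : 0 < Λ) : ∃ L0 : ℝ, ∀ L : ℝ, L0 ≤ L →
    0 ≤ L ∧ 100 ≤ ε * L ∧ Real.log (Λ * L + 1) + 1 ≤ ε * L := by
  have hc : 0 < ε / (2 * Λ) := by positivity
  have h1 := Real.isLittleO_log_id_atTop.def hc
  rw [Filter.eventually_atTop] at h1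
  obtain ⟨y0, hy0⟩ := h1
  refine ⟨max (max 0 (100 / ε)) (max (y0 / Λ) (2 * (ε / (2 * Λ) + 1) / ε)), fun L hL => ?_⟩
  have hL1 : 0 ≤ L := (le_max_left _ _).trans ((le_max_left _ _).trans hL)
  have hL2 : 100 / ε ≤ L := (le_max_right _ _).trans ((le_max_left _ _).trans hL)
  have hL3 : y0 / Λ ≤ L := (le_max_left _ _).trans ((le_max_right _ _).trans hL)
  have hL4 : 2 * (ε / (2 * Λ) + 1) / ε ≤ L := (le_max_right _ _).trans ((le_max_right _ _).trans hL)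
  rw [div_le_iff₀ hε] at hL2 hL4
  rw [div_le_iff₀ hΛ] at hL3
  refine ⟨hL1, by linarith, ?_⟩
  have h2 := hy0 (Λ * L + 1) (by linarith)
  have h3 : 0 ≤ Λ * L + 1 := by positivity
  simp only [id_eq, Real.norm_eq_abs] at h2
  rw [abs_of_nonneg h3] at h2
  have h4 := (le_abs_self _).trans h2
  have h5 : ε / (2 * Λ) * (Λ * L + 1) = ε * L / 2 + ε / (2 * Λ) := by
    field_simp
  rw [h5] at h4
  linarith

theorem k3_sum_IJ {C : ℝ} (hC1 : 1 ≤ C) (hC : ∀ u Z h N : ℕ, h ≤ N → u + Z ≤ N →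
    ∑ h' ∈ (Ioc u (u + Z)).erase h, Gd h h' ≤ C * (Z + Real.log (N + 1) + 1))
    {J : ℕ} {β : Fin J → ℝ} {ε Λ : ℝ} (h : Conf J β ε Λ) {L : ℝ} (hL : 0 ≤ L)
    (h100 : 100 ≤ ε * L) (hlog : Real.log (Λ * L + 1) + 1 ≤ ε * L) (hΛ : 0 < Λ)
    (j : Fin J) {x : ℕ} (hx : x ≤ ⌊Λ * L⌋₊) :
    ∑ h' ∈ (IJ β ε L j).erase x, Gd x h' ≤ C * (3 * (ε * L)) := by
  obtain ⟨h1, h2, h3, h4⟩ := k3_card_IJ h hL j
  have h5 : ⌊(β j + ε) * L⌋₊ ≤ ⌊Λ * L⌋₊ :=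
    Nat.floor_le_floor (mul_le_mul_of_nonneg_right (h.bL j) hL)
  have h6 := hC ⌊β j * L⌋₊ (⌊(β j + ε) * L⌋₊ - ⌊β j * L⌋₊) x ⌊Λ * L⌋₊ hx (by omega)
  have h7 : ⌊β j * L⌋₊ + (⌊(β j + ε) * L⌋₊ - ⌊β j * L⌋₊) = ⌊(β j + ε) * L⌋₊ := by omega
  rw [h7] at h6
  have h8 : ((⌊(β j + ε) * L⌋₊ - ⌊β j * L⌋₊ : ℕ) : ℝ) ≤ ε * L + 1 := by
    rw [Nat.cast_sub h2, ← h1]
    exact h3
  have h9 : Real.log ((⌊Λ * L⌋₊ : ℝ) + 1) ≤ Real.log (Λ * L + 1) := by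
    apply Real.log_le_log (by positivity)
    have := Nat.floor_le (mul_nonneg hΛ.le hL)
    linarith
  refine h6.trans ?_
  apply mul_le_mul_of_nonneg_left _ (by linarith)
  linarith

/-- For `L` large: `|IJ j|` is within `1` of `ε L`. Pair sums by `sum_Gd_Ioc_le` (`N = ⌊Λ L⌋`;
`log (Λ L + 1) + 1 ≤ ε L` for `L` large), with an absolute constant `C`. -/
theorem AL_facts : ∃ C : ℝ, 1 ≤ C ∧ ∀ (J : ℕ) (β : Fin J → ℝ) (ε Λ : ℝ), 1 ≤ J →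
    Conf J β ε Λ → ∃ L0 : ℝ, ∀ L : ℝ, L0 ≤ L →
      99 / 100 * (J * ε * L) ≤ ((AL β ε L).card : ℝ) ∧
      ((AL β ε L).card : ℝ) ≤ 101 / 100 * (J * ε * L) ∧
      psum (AL β ε L) ≤ C * (J * ε * L) ^ 2 ∧
      ∑ j, psum (IJ β ε L j) ≤ C * (J * (ε * L) ^ 2) ∧
      ∑ h ∈ AL β ε L, ∑ h' ∈ (Icc 1 ⌊Λ * L⌋₊).erase h, Gd h h' ≤
        C * ((J * ε * L) * (Λ * L)) := by
  obtain ⟨C, hC1, hC⟩ := sum_Gd_Ioc_le
  refine ⟨6 * C, by linarith, ?_⟩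
  intro J β ε Λ hJ hconf
  have hε := hconf.e0
  have hεΛ : ε ≤ Λ := by
    have h1 := hconf.b0 ⟨0, hJ⟩
    have h2 := hconf.bL ⟨0, hJ⟩
    linarith
  have hΛ : 0 < Λ := lt_of_lt_of_le hε hεΛ
  obtain ⟨L0, hL0⟩ := k3_large hε hΛ
  refine ⟨L0, fun L hL => ?_⟩
  obtain ⟨hL1, h100, hlog⟩ := hL0 L hL
  have hC0 : 0 < C := by linarith
  have hJ0 : (0 : ℝ) < J := by exact_mod_cast hJ
  have hcard := k3_card_AL hconf hL1
  have hlo : 99 / 100 * (J * ε * L) ≤ ((AL β ε L).card : ℝ) := by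
    rw [hcard]
    calc 99 / 100 * (J * ε * L) ≤ J * (ε * L - 1) := by
          have : J * (ε * L - 1) - 99 / 100 * (J * ε * L) = J * (ε * L / 100 - 1) := by ring
          have h2 : 0 ≤ J * (ε * L / 100 - 1) := mul_nonneg hJ0.le (by linarith)
          linarith
      _ = ∑ _j : Fin J, (ε * L - 1) := by
          rw [Finset.sum_const, Finset.card_univ, Fintype.card_fin, nsmul_eq_mul]
      _ ≤ _ := Finset.sum_le_sum (fun j _ => (k3_card_IJ hconf hL1 j).2.2.2)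
  have hup : ((AL β ε L).card : ℝ) ≤ 101 / 100 * (J * ε * L) := by
    rw [hcard]
    calc ∑ j, ((IJ β ε L j).card : ℝ) ≤ ∑ _j : Fin J, (ε * L + 1) :=
          Finset.sum_le_sum (fun j _ => (k3_card_IJ hconf hL1 j).2.2.1)
      _ = J * (ε * L + 1) := by
          rw [Finset.sum_const, Finset.card_univ, Fintype.card_fin, nsmul_eq_mul]
      _ ≤ 101 / 100 * (J * ε * L) := by
          have : 101 / 100 * (J * ε * L) - J * (ε * L + 1) = J * (ε * L / 100 - 1) := by ring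
          have h2 : 0 ≤ J * (ε * L / 100 - 1) := mul_nonneg hJ0.le (by linarith)
          linarith
  have hεL : 0 < ε * L := by linarith
  have hmem : ∀ x ∈ AL β ε L, x ≤ ⌊Λ * L⌋₊ := fun x hx =>
    (Finset.mem_Icc.1 (AL_subset hconf L hL1 hx)).2
  have hmemJ : ∀ j, ∀ x ∈ IJ β ε L j, x ≤ ⌊Λ * L⌋₊ := fun j x hx =>
    hmem x (Finset.mem_biUnion.2 ⟨j, Finset.mem_univ j, hx⟩)
  refine ⟨hlo, hup, ?_, ?_, ?_⟩
  · unfold psum
    calc ∑ x ∈ AL β ε L, ∑ h' ∈ (AL β ε L).erase x, Gd x h'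
        ≤ ∑ x ∈ AL β ε L, (J * (C * (3 * (ε * L)))) := by
          apply Finset.sum_le_sum
          intro x hx
          rw [k3_sum_AL hconf hL1]
          calc ∑ j, ∑ h' ∈ (IJ β ε L j).erase x, Gd x h' ≤ ∑ _j : Fin J, C * (3 * (ε * L)) :=
                Finset.sum_le_sum (fun j _ => k3_sum_IJ hC1 hC hconf hL1 h100 hlog hΛ j (hmem x hx))
            _ = _ := by rw [Finset.sum_const, Finset.card_univ, Fintype.card_fin, nsmul_eq_mul]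
      _ = ((AL β ε L).card : ℝ) * (J * (C * (3 * (ε * L)))) := by
          rw [Finset.sum_const, nsmul_eq_mul]
      _ ≤ (101 / 100 * (J * ε * L)) * (J * (C * (3 * (ε * L)))) :=
          mul_le_mul_of_nonneg_right hup (by positivity)
      _ = 303 / 100 * (C * (J * ε * L) ^ 2) := by ring
      _ ≤ 6 * (C * (J * ε * L) ^ 2) :=
          mul_le_mul_of_nonneg_right (by norm_num) (by positivity)
      _ = _ := by ring
  · calc ∑ j, psum (IJ β ε L j) ≤ ∑ _j : Fin J, (2 * (ε * L)) * (C * (3 * (ε * L))) := by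
          apply Finset.sum_le_sum
          intro j _
          unfold psum
          calc ∑ x ∈ IJ β ε L j, ∑ h' ∈ (IJ β ε L j).erase x, Gd x h'
              ≤ ∑ x ∈ IJ β ε L j, C * (3 * (ε * L)) := Finset.sum_le_sum
                (fun x hx => k3_sum_IJ hC1 hC hconf hL1 h100 hlog hΛ j (hmemJ j x hx))
            _ = ((IJ β ε L j).card : ℝ) * (C * (3 * (ε * L))) := by
                rw [Finset.sum_const, nsmul_eq_mul]
            _ ≤ (2 * (ε * L)) * (C * (3 * (ε * L))) := by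
                apply mul_le_mul_of_nonneg_right _ (by positivity)
                have := (k3_card_IJ hconf hL1 j).2.2.1
                linarith
      _ = J * ((2 * (ε * L)) * (C * (3 * (ε * L)))) := by
          rw [Finset.sum_const, Finset.card_univ, Fintype.card_fin, nsmul_eq_mul]
      _ = _ := by ring
  · have hN : ((⌊Λ * L⌋₊ : ℕ) : ℝ) ≤ Λ * L := Nat.floor_le (by positivity)
    have h1 : ∀ x ∈ AL β ε L, ∑ h' ∈ (Icc 1 ⌊Λ * L⌋₊).erase x, Gd x h' ≤ C * (2 * (Λ * L)) := by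
      intro x hx
      have h2 := hC 0 ⌊Λ * L⌋₊ x ⌊Λ * L⌋₊ (hmem x hx) (by omega)
      have h3 : Ioc 0 (0 + ⌊Λ * L⌋₊) = Icc 1 ⌊Λ * L⌋₊ := by
        ext y
        rw [Finset.mem_Ioc, Finset.mem_Icc]
        omega
      rw [h3] at h2
      refine h2.trans ?_
      apply mul_le_mul_of_nonneg_left _ hC0.le
      have h9 : Real.log ((⌊Λ * L⌋₊ : ℝ) + 1) ≤ Real.log (Λ * L + 1) := by
        apply Real.log_le_log (by positivity)
        linarith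
      have h10 : ε * L ≤ Λ * L := mul_le_mul_of_nonneg_right hεΛ hL1
      linarith
    calc ∑ x ∈ AL β ε L, ∑ h' ∈ (Icc 1 ⌊Λ * L⌋₊).erase x, Gd x h'
        ≤ ∑ x ∈ AL β ε L, C * (2 * (Λ * L)) := Finset.sum_le_sum h1
      _ = ((AL β ε L).card : ℝ) * (C * (2 * (Λ * L))) := by
          rw [Finset.sum_const, nsmul_eq_mul]
      _ ≤ (101 / 100 * (J * ε * L)) * (C * (2 * (Λ * L))) :=
          mul_le_mul_of_nonneg_right hup (by positivity)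
      _ = 202 / 100 * (C * ((J * ε * L) * (Λ * L))) := by ring
      _ ≤ 6 * (C * ((J * ε * L) * (Λ * L))) :=
          mul_le_mul_of_nonneg_right (by norm_num) (by positivity)
      _ = _ := by ring

end Pool.Agent.Lib.H92G
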