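import Pool.Agent.Lib.H92G.N2
import Pool.Agent.Lib.H92G.K3

/-!
# Chunk N3: choice of the constants
-/

open Finset

namespace Pool.Agent.Lib.H92G

open Pool.Agent.Lib.H15P

/-- The first constants (they depend only on `k` and on the absolute constants). First `cs`, then
`nA`, then `RA`, then `τ`. -/
theorem exists_first (k Bn r0 : ℕ) (η Γ : ℝ) (hη : 0 < η) (hΓ : 0 < Γ) :
    ∃ (cs : ℝ) (nA : ℕ) (RA τ : ℝ), 0 < cs ∧ cs ≤ 1 ∧ 1 ≤ nA ∧
      10000 * ((k : ℝ) + 2) ≤ nA * cs ∧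
      0 ≤ RA ∧ nA * Real.exp (-RA) ≤ 1 / 8 ∧ 0 < τ ∧ τ ≤ 1 / 4 ∧
      12 * ((r0 : ℝ) + 1) * (32000000 * (Bn + 1) * (Γ * cs) + 2 * (RA + 1) * τ) ≤ η / 64 ∧
      12 * ((r0 : ℝ) + 1) * τ ≤ η / 64 := by
  set A : ℝ := 12 * ((r0 : ℝ) + 1) * (32000000 * (Bn + 1) * Γ) with hA
  have hA0 : 0 < A := by positivity
  obtain ⟨cs, hcs0, hcs1, hcs2⟩ : ∃ cs : ℝ, 0 < cs ∧ cs ≤ 1 ∧ A * cs ≤ η / 128 := by
    refine ⟨min 1 (η / 128 / A), lt_min one_pos (by positivity), min_le_left _ _, ?_⟩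
    calc A * min 1 (η / 128 / A) ≤ A * (η / 128 / A) :=
          mul_le_mul_of_nonneg_left (min_le_right _ _) hA0.le
      _ = η / 128 := by field_simp
  set nA : ℕ := ⌈10000 * ((k : ℝ) + 2) / cs⌉₊ + 1 with hnA
  have h1 : 10000 * ((k : ℝ) + 2) / cs ≤ nA := by
    rw [hnA]
    push_cast
    have := Nat.le_ceil (10000 * ((k : ℝ) + 2) / cs)
    linarith
  have hnA1 : 1 ≤ nA := by omega
  have hnA0 : (1 : ℝ) ≤ nA := by exact_mod_cast hnA1
  have h2 : 10000 * ((k : ℝ) + 2) ≤ nA * cs := by rwa [div_le_iff₀ hcs0] at h1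
  set RA : ℝ := Real.log (8 * nA) with hRA
  have hRA0 : 0 ≤ RA := Real.log_nonneg (by linarith)
  have h3 : nA * Real.exp (-RA) ≤ 1 / 8 := by
    rw [hRA, Real.exp_neg, Real.exp_log (by linarith)]
    apply le_of_eq
    field_simp
  set B : ℝ := 12 * ((r0 : ℝ) + 1) * (2 * (RA + 1)) with hB
  have hB0 : 0 < B := by positivity
  obtain ⟨τ, hτ0, hτ1, hτ2⟩ : ∃ τ : ℝ, 0 < τ ∧ τ ≤ 1 / 4 ∧ B * τ ≤ η / 128 := by
    refine ⟨min (1 / 4) (η / 128 / B), lt_min (by norm_num) (by positivity), min_le_left _ _, ?_⟩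
    calc B * min (1 / 4) (η / 128 / B) ≤ B * (η / 128 / B) :=
          mul_le_mul_of_nonneg_left (min_le_right _ _) hB0.le
      _ = η / 128 := by field_simp
  refine ⟨cs, nA, RA, τ, hcs0, hcs1, hnA1, h2, hRA0, h3, hτ0, hτ1, ?_, ?_⟩
  · have e : 12 * ((r0 : ℝ) + 1) * (32000000 * (Bn + 1) * (Γ * cs) + 2 * (RA + 1) * τ) =
        A * cs + B * τ := by
      rw [hA, hB]; ring
    rw [e]
    linarith
  · have e : 12 * ((r0 : ℝ) + 1) * τ ≤ B * τ := by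
      apply mul_le_mul_of_nonneg_right _ hτ0.le
      rw [hB]
      have : (0 : ℝ) ≤ 12 * ((r0 : ℝ) + 1) := by positivity
      nlinarith
    linarith

/-- The second constants: `J0` and `e`. -/
theorem exists_second (k : ℕ) (C1 C2 : ℝ) (h1 : 0 < C1) (h2 : 0 < C2) :
    ∃ (J0 : ℕ) (e : ℝ), 1 ≤ J0 ∧ 0 < e ∧ e ≤ 1 / 10 ∧ 3 * e * k ≤ 1 ∧
      ∀ J : ℕ, J0 ≤ J → 2 * (C1 + C2) * (3 * e + C2 / J) ≤ 1 := by
  set e : ℝ := min (1 / 10) (min (1 / (3 * ((k : ℝ) + 1))) (1 / (12 * (C1 + C2)))) with he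
  have hk : (0 : ℝ) ≤ k := Nat.cast_nonneg k
  have he0 : 0 < e := lt_min (by norm_num) (lt_min (by positivity) (by positivity))
  have he1 : e ≤ 1 / 10 := min_le_left _ _
  have he2 : e ≤ 1 / (3 * ((k : ℝ) + 1)) := (min_le_right _ _).trans (min_le_left _ _)
  have he3 : e ≤ 1 / (12 * (C1 + C2)) := (min_le_right _ _).trans (min_le_right _ _)
  rw [le_div_iff₀ (by positivity)] at he2 he3
  refine ⟨⌈4 * (C1 + C2) * C2⌉₊ + 1, e, by omega, he0, he1, ?_, ?_⟩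
  · nlinarith
  · intro J hJ
    have h3 : 4 * (C1 + C2) * C2 ≤ J := by
      have h4 := Nat.le_ceil (4 * (C1 + C2) * C2)
      have h5 : ((⌈4 * (C1 + C2) * C2⌉₊ + 1 : ℕ) : ℝ) ≤ J := by exact_mod_cast hJ
      push_cast at h5
      linarith
    have hJ0 : (0 : ℝ) < J := by
      have : 0 < J := by omega
      exact_mod_cast this
    have h6 : (C1 + C2) * C2 / J ≤ 1 / 4 := by
      rw [div_le_iff₀ hJ0]
      linarith
    have e1 : 2 * (C1 + C2) * (3 * e + C2 / J) = e * (12 * (C1 + C2)) / 2 +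
        2 * ((C1 + C2) * C2 / J) := by ring
    rw [e1]
    linarith

/-- The last constants (they depend on everything, also on `α ~ Λ`): `nD` large, then `RD`, then
`b0`. -/
theorem exists_third (Bn r0 : ℕ) (η τ α e : ℝ) (hη : 0 < η) (hτ : 0 < τ) (hα : 0 < α)
    (he : 0 < e) :
    ∃ (nD b0 : ℕ) (RD : ℝ), 1 ≤ nD ∧ 0 ≤ RD ∧ nD * Real.exp (-RD) ≤ 1 / 8 ∧
      2000 * ((Bn : ℝ) + 1) * α / τ * (nD * Real.exp (-RD)) ≤ e ∧
      12 * ((r0 : ℝ) + 1) * (32000000 * (Bn + 1) * α / nD + 2 * (RD + 1) * τ / 4000 ^ b0)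
        ≤ η / 64 := by
  set A : ℝ := 12 * ((r0 : ℝ) + 1) * (32000000 * (Bn + 1) * α) with hA
  have hA0 : 0 < A := by positivity
  set nD : ℕ := ⌈128 * A / η⌉₊ + 1 with hnD
  have h1 : 128 * A / η ≤ nD := by
    rw [hnD]
    push_cast
    have := Nat.le_ceil (128 * A / η)
    linarith
  have hnD1 : 1 ≤ nD := by omega
  have hnD0 : (1 : ℝ) ≤ nD := by exact_mod_cast hnD1
  rw [div_le_iff₀ hη] at h1
  have h2 : A / nD ≤ η / 128 := by
    rw [div_le_iff₀ (by linarith)]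
    linarith
  set D : ℝ := 2000 * ((Bn : ℝ) + 1) * α / τ with hD
  have hD0 : 0 < D := by positivity
  obtain ⟨c, hc0, hc1, hc2⟩ : ∃ c : ℝ, 0 < c ∧ c ≤ 1 / 8 ∧ D * c ≤ e := by
    refine ⟨min (1 / 8) (e / D), lt_min (by norm_num) (by positivity), min_le_left _ _, ?_⟩
    calc D * min (1 / 8) (e / D) ≤ D * (e / D) :=
          mul_le_mul_of_nonneg_left (min_le_right _ _) hD0.le
      _ = e := by field_simp
  set RD : ℝ := Real.log (nD / c) with hRD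
  have hnc : 1 ≤ nD / c := by
    rw [le_div_iff₀ hc0]
    linarith
  have hRD0 : 0 ≤ RD := Real.log_nonneg hnc
  have h3 : nD * Real.exp (-RD) = c := by
    rw [hRD, Real.exp_neg, Real.exp_log (by linarith)]
    field_simp
  obtain ⟨b0, hb0⟩ := pow_unbounded_of_one_lt (128 * (12 * ((r0 : ℝ) + 1) * (2 * (RD + 1) * τ)) / η)
    (by norm_num : (1 : ℝ) < 4000)
  refine ⟨nD, b0, RD, hnD1, hRD0, ?_, ?_, ?_⟩
  · rw [h3]; exact hc1
  · rw [h3]; exact hc2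
  · rw [div_lt_iff₀ hη] at hb0
    have hp : (0 : ℝ) < 4000 ^ b0 := by positivity
    have h4 : 12 * ((r0 : ℝ) + 1) * (2 * (RD + 1) * τ) / 4000 ^ b0 ≤ η / 128 := by
      rw [div_le_iff₀ hp]
      linarith
    have e1 : 12 * ((r0 : ℝ) + 1) * (32000000 * (Bn + 1) * α / nD + 2 * (RD + 1) * τ / 4000 ^ b0)
        = A / nD + 12 * ((r0 : ℝ) + 1) * (2 * (RD + 1) * τ) / 4000 ^ b0 := by
      rw [hA]; ring
    rw [e1]
    linarith

end Pool.Agent.Lib.H92G
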