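import Pool.Agent.Lib.H92G.F2
import Pool.Agent.Lib.H92G.F3
import Pool.Agent.Lib.H92G.N3
import Pool.Agent.Lib.H92G.N5
import Pool.Agent.Lib.H92G.AN

/-!
# Chunk F4: the main theorem
-/

open Finset

namespace Pool.Agent.Lib.H92G

open Pool.Agent.Lib.H15P

theorem f4_Gd_nonneg (h h' : ℕ) : 0 ≤ Gd h h' := by
  unfold Gd Helper57.G
  refine Finset.prod_nonneg fun p hp => ?_
  have := Helper57.inv_one_sub_ge_one (Nat.prime_of_mem_primeFactors hp).two_le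
  linarith

theorem f4_psum_nonneg (S : Finset ℕ) : 0 ≤ psum S := by
  unfold psum
  exact Finset.sum_nonneg fun _ _ => Finset.sum_nonneg fun _ _ => f4_Gd_nonneg _ _

/-- facts for large `x` -/
theorem f4_large (αA α Λ D L0 : ℝ) (hαA : 0 < αA) (hα : 0 < α) (hD : 0 < D) :
    ∃ x0 : ℝ, ∀ x : ℝ, x0 ≤ x → 1 ≤ x ∧ L0 ≤ Real.log x ∧ 1 ≤ Real.log x ∧
      200 * Real.log (Real.log x) ≤ αA * Real.log x ∧
      200 * Real.log (Real.log x) ≤ α * Real.log x ∧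
      8 * (x ^ (1 / 4 : ℝ) + 1 + Λ * Real.log x + 1) < x / 121 ∧ D ≤ x := by
  have hlog := Real.tendsto_log_atTop
  have a1 : ∀ᶠ x : ℝ in Filter.atTop, 1 ≤ x := Filter.eventually_ge_atTop 1
  have a2 : ∀ᶠ x : ℝ in Filter.atTop, L0 ≤ Real.log x := hlog.eventually_ge_atTop L0
  have a3 : ∀ᶠ x : ℝ in Filter.atTop, 1 ≤ Real.log x := hlog.eventually_ge_atTop 1
  have b : ∀ c : ℝ, 0 < c → ∀ᶠ L : ℝ in Filter.atTop, 200 * Real.log L ≤ c * L := by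
    intro c hc
    have h := Real.isLittleO_log_id_atTop.def (show 0 < c / 200 by positivity)
    filter_upwards [h, Filter.eventually_ge_atTop 1] with L hL hL1
    rw [Real.norm_of_nonneg (Real.log_nonneg hL1), id, Real.norm_of_nonneg (by linarith)] at hL
    linarith
  have a4 : ∀ᶠ x : ℝ in Filter.atTop, 200 * Real.log (Real.log x) ≤ αA * Real.log x :=
    hlog.eventually (b αA hαA)
  have a5 : ∀ᶠ x : ℝ in Filter.atTop, 200 * Real.log (Real.log x) ≤ α * Real.log x :=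
    hlog.eventually (b α hα)
  have a6 : ∀ᶠ x : ℝ in Filter.atTop, 4000 * x ^ (1 / 4 : ℝ) ≤ x ^ (1 : ℝ) :=
    n4_rpow_le_rpow (1 / 4) 1 4000 (by norm_num)
  have a7 : ∀ᶠ x : ℝ in Filter.atTop, 200 * Real.log x ≤ 1 / (20 * (|Λ| + 1)) * x :=
    b _ (by positivity)
  have a8 : ∀ᶠ x : ℝ in Filter.atTop, 20000 ≤ x := Filter.eventually_ge_atTop _
  have a9 : ∀ᶠ x : ℝ in Filter.atTop, D ≤ x := Filter.eventually_ge_atTop _
  obtain ⟨x0, hx0⟩ := Filter.eventually_atTop.1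
    (a1.and (a2.and (a3.and (a4.and (a5.and (a6.and (a7.and (a8.and a9))))))))
  refine ⟨x0, fun x hx => ?_⟩
  obtain ⟨h1, h2, h3, h4, h5, h6, h7, h8, h9⟩ := hx0 x hx
  refine ⟨h1, h2, h3, h4, h5, ?_, h9⟩
  rw [Real.rpow_one] at h6
  have h10 : Λ * Real.log x ≤ x / 4000 := by
    have h11 : Λ * Real.log x ≤ (|Λ| + 1) * Real.log x :=
      mul_le_mul_of_nonneg_right (by have := le_abs_self Λ; linarith) (by linarith)
    have h12 : (|Λ| + 1) * (200 * Real.log x) ≤ (|Λ| + 1) * (1 / (20 * (|Λ| + 1)) * x) :=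
      mul_le_mul_of_nonneg_left h7 (by positivity)
    have h13 : (|Λ| + 1) * (1 / (20 * (|Λ| + 1)) * x) = x / 20 := by
      have : |Λ| + 1 ≠ 0 := by positivity
      field_simp
    rw [h13] at h12
    linarith
  linarith

/-- The main theorem for `ε ≤ 1/J`. Constants in this order: `C0, K0` (`an_all`),
`η = 1/(4 K0)`, `Bn = max 3 ⌈2 C0 + 6⌉`, `r0` (`exists_r0 sig`), `CG` (`AL_facts`),
`Γ = 25000 CG`, `exists_first`: `cs, nA, RA, τ`; `C1 = 10^7 (Bn+1) nA cs/τ`,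
`C2 = 10^14 (Bn+1)^2 (nA cs)^2 CG/τ^2`, `exists_second`: `J0, e`. Given `J, β, ε, Λ`:
`αA = Γ J ε`, `cA = sqrt (cs/(J ε nA))`, `α = 25000 CG Λ`, `exists_third`: `nD, b0, RD`;
`exists_all`, and for large `x`: `num_a`, `num_b`, `num_c` (`δ = 3 e + C2/J`), `num_h` and
`good_pairs_ge`, `count_ge` with `Z0 = ⌈x^(1/4)⌉`; `M Y ≥ x/2`, and the elements `≥ 1` of `s` (remove
`0`) are in `Icc 1 ⌊x⌋`. -/
theorem key_small (k : ℕ) : ∃ J0 : ℕ, 1 ≤ J0 ∧ ∀ (J : ℕ) (β : Fin J → ℝ) (ε Λ : ℝ), J0 ≤ J →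
    Conf J β ε Λ → ε ≤ 1 / J → ∃ c : ℝ, 0 < c ∧ ∃ x0 : ℝ, ∀ x : ℝ, x0 ≤ x →
      ∃ s : Finset ℕ, s ⊆ Icc 1 ⌊x⌋₊ ∧ (∀ n ∈ s, GoodN β ε Λ (Real.log x) k n) ∧
        c * x ≤ (s.card : ℝ) := by
  obtain ⟨C0, K0, hC0, hK0, hall⟩ := an_all
  obtain ⟨η, hη⟩ : ∃ η : ℝ, η = 1 / (4 * K0) := ⟨_, rfl⟩
  have hη0 : 0 < η := by rw [hη]; positivity
  obtain ⟨Bn, hBn3, hBnC⟩ : ∃ Bn : ℕ, 3 ≤ Bn ∧ 2 * C0 + 6 ≤ Bn := by
    refine ⟨max 3 ⌈2 * C0 + 6⌉₊, le_max_left _ _, ?_⟩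
    refine (Nat.le_ceil _).trans ?_
    exact_mod_cast le_max_right _ _
  have hsig : 0 ≤ sig := by
    unfold sig
    have : 0 ≤ Real.log (1000 * (4000 : ℕ)) := Real.log_nonneg (by norm_num)
    linarith
  obtain ⟨r0, hr0⟩ := exists_r0 sig hsig
  obtain ⟨CG, hCG1, hAL⟩ := AL_facts
  have hCG0 : 0 < CG := by linarith
  obtain ⟨cs, nA, RA, τ, hcs0, hcs1, hnA1, hk, hRA, hnRA, hτ0, hτ1, hc1, hc5⟩ :=
    exists_first k Bn r0 η (25000 * CG) hη0 (by positivity)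
  have hnA0 : (0 : ℝ) < nA := by exact_mod_cast hnA1
  have hBn0 : (0 : ℝ) ≤ Bn := Nat.cast_nonneg _
  obtain ⟨C1, hC1⟩ : ∃ C1 : ℝ, C1 = 10 ^ 7 * ((Bn : ℝ) + 1) * (nA * cs) / τ := ⟨_, rfl⟩
  obtain ⟨C2, hC2⟩ : ∃ C2 : ℝ, C2 = 10 ^ 14 * ((Bn : ℝ) + 1) ^ 2 * (nA * cs) ^ 2 * CG / τ ^ 2 :=
    ⟨_, rfl⟩
  have hC1p : 0 < C1 := by rw [hC1]; positivity
  have hC2p : 0 < C2 := by rw [hC2]; positivity
  obtain ⟨J0, e, hJ01, he0, he1, hek, hJe⟩ := exists_second k C1 C2 hC1p hC2p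
  refine ⟨J0, hJ01, fun J β ε Λ hJ hconf hεJ => ?_⟩
  have hJ1 : 1 ≤ J := hJ01.trans hJ
  have hJr : (0 : ℝ) < J := by exact_mod_cast hJ1
  have hε := hconf.e0
  have hΛ : 0 < Λ := by
    have h1 := hconf.b0 ⟨0, hJ1⟩
    have h2 := hconf.bL ⟨0, hJ1⟩
    linarith
  obtain ⟨u, hu⟩ : ∃ u : ℝ, u = J * ε := ⟨_, rfl⟩
  have hu0 : 0 < u := by rw [hu]; positivity
  have hu1 : u ≤ 1 := by
    rw [hu]
    calc (J : ℝ) * ε ≤ J * (1 / J) := mul_le_mul_of_nonneg_left hεJ hJr.le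
      _ = 1 := by field_simp
  obtain ⟨cA, hcA0, hcA2⟩ : ∃ cA : ℝ, 0 ≤ cA ∧ cA ^ 2 * u * nA = cs := by
    refine ⟨Real.sqrt (cs / (u * nA)), Real.sqrt_nonneg _, ?_⟩
    rw [Real.sq_sqrt (by positivity)]
    field_simp
  obtain ⟨αA, hαA⟩ : ∃ αA : ℝ, αA = 25000 * CG * u := ⟨_, rfl⟩
  have hαA0 : 0 < αA := by rw [hαA]; positivity
  obtain ⟨α, hα⟩ : ∃ α : ℝ, α = 25000 * CG * Λ := ⟨_, rfl⟩
  have hα0 : 0 < α := by rw [hα]; positivity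
  obtain ⟨nD, b0, RD, hnD, hRD, hnRD, hc4, hc2⟩ := exists_third Bn r0 η τ α e hη0 hτ0 hα0 he0
  have hc1' : 12 * ((r0 : ℝ) + 1) * (32000000 * (Bn + 1) * (αA * cA ^ 2 * nA) +
      2 * (RA + 1) * τ) ≤ η / 64 := by
    have h1 : αA * cA ^ 2 * nA = 25000 * CG * cs := by
      rw [hαA, ← hcA2]
      ring
    rw [h1]
    exact hc1
  obtain ⟨c, hcdef⟩ : ∃ c : Cons, c = ⟨Bn, r0, nA, nD, b0, η, τ, cA, α, αA, RA, RD, e, hBn3,
    hr0, hnD, hη0, hτ0, hcA0, hα0, hαA0, hRA, hRD, he0, he1, hc1', hc2, by linarith, hc4,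
    hc5⟩ := ⟨_, rfl⟩
  obtain ⟨C, x1, hC, hx1⟩ := exists_all c Λ C0 K0 hΛ hC0 hK0 hall an_small an_main
    (by rw [hcdef]; exact hη.le) (by rw [hcdef]; exact hBnC) (by rw [hcdef]; exact hτ1)
  obtain ⟨L0, hL0⟩ := hAL J β ε Λ hJ1 hconf
  obtain ⟨CE, hCE⟩ : ∃ CE : ℝ, CE = C1 + C2 := ⟨_, rfl⟩
  have hCE0 : 0 < CE := by rw [hCE]; linarith
  have hCpos : 0 < C := by linarith
  obtain ⟨x2, hx2⟩ := f4_large αA α Λ (32 * CE ^ 2 * C) L0 hαA0 hα0 (by positivity)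
  refine ⟨1 / (32 * CE ^ 2 * C), by positivity, max x1 x2, fun x hx => ?_⟩
  obtain ⟨w, M, X, Y, Q', D, A0, A1, hA⟩ := hx1 x ((le_max_left _ _).trans hx)
  obtain ⟨hx1', hLL0, hL1, hlA, hl, h121, hDx⟩ := hx2 x ((le_max_right _ _).trans hx)
  obtain ⟨f1, f2, f3, f4, f5⟩ := hL0 (Real.log x) hLL0
  obtain ⟨L, hL⟩ : ∃ L : ℝ, L = Real.log x := ⟨_, rfl⟩
  obtain ⟨l, hldef⟩ : ∃ l : ℝ, l = Real.log L := ⟨_, rfl⟩
  have aKA := hA.KA
  have aK := hA.K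
  have ael := hA.el
  have atot := hA.tot
  have aHW := hA.HW
  have aX8 := hA.X8
  have aX2 := hA.X2
  have aL1 := hA.L1
  have anA := hA.nA
  have acA := hA.cA
  have aC := hA.C
  have ae := hA.e
  rw [hcdef] at aKA aK ael anA acA ae
  simp only at aKA aK ael anA acA ae
  rw [← hL] at aKA aK ael atot aHW aX8 aX2 aL1 hL1 hlA hl h121 f1 f2 f3 f4 f5
  rw [← hldef] at aKA aK ael atot aL1 hlA hl
  have hJu : (J : ℝ) * ε * L = u * L := by rw [hu]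
  rw [hJu] at f1 f2 f3 f5
  have hL0' : 0 ≤ L := by linarith
  obtain ⟨S, hS⟩ : ∃ S : Finset ℕ, S = AL β ε L := ⟨_, rfl⟩
  obtain ⟨H, hH⟩ : ∃ H : ℕ, H = ⌊Λ * L⌋₊ := ⟨_, rfl⟩
  rw [← hS] at f1 f2 f3 f5
  rw [← hH] at aHW aX8 f5
  have hSH : S ⊆ Icc 1 H := by
    rw [hS, hH]
    exact AL_subset hconf L hL0'
  have hM0 : (0 : ℝ) < M := by exact_mod_cast hA.M0
  have htot0 : (0 : ℝ) ≤ M.totient := Nat.cast_nonneg _
  have hcs' : CS w M H Y S := ⟨hA.M0, hA.sqf, hSH, aHW, hA.cop, hA.long⟩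
  have hl0 : 0 < l := by linarith
  have hKApos : (0 : ℝ) < w.KA := lt_of_lt_of_le (by positivity) aKA
  have hKA : 0 < w.KA := by exact_mod_cast hKApos
  have hg : w.g = 1 + nA * cA := by
    unfold WG.g
    rw [anA, acA]
  have hpt0 : 0 ≤ ∑ h ∈ S, ∑ h' ∈ (Icc 1 H).erase h, Gd h h' :=
    Finset.sum_nonneg fun _ _ => Finset.sum_nonneg fun _ _ => f4_Gd_nonneg _ _
  have hucs : u ≤ nA * cs := by
    have : (0 : ℝ) ≤ k := Nat.cast_nonneg _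
    linarith
  have nh := num_h CG u Λ αA α S.card L l M.totient M (psum S)
    (∑ h ∈ S, ∑ h' ∈ (Icc 1 H).erase h, Gd h h') w.KA w.K hCG1 hu0 hΛ hαA.symm.le hα.symm.le
    hL1 aL1 hlA hl htot0 atot hM0 f1 (f4_psum_nonneg S) f3 hpt0 f5 aKA aK
  have hgp := good_pairs_ge w M H hA.sqf S hSH hKA nh
  have hX0 : 0 < X := hA.prm.X0
  have hXr : (0 : ℝ) < X := by exact_mod_cast hX0
  have hN : (((M * Y : ℕ)) : ℝ) = (M : ℝ) * Y := by push_cast; ring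
  have ha := num_a k x X ((M : ℝ) * Y) w.g u cs nA cA S.card L (Nat.cast_nonneg _) hXr hA.X1
    hA.MY1 (by positivity) hL1 aX2 (by linarith) hu0 hnA0.le hcA0 hg hcA2 f1 hk
  have hel0 := w.el0.le
  have hb := num_b Bn τ CG w.g u cs nA cA S.card L l w.el M.totient M Y (psum S) hBn0 hτ0
    hCG0.le hu0 hnA0.le hcA0 hg hcA2 hucs hL1 aL1 hel0 ael htot0 atot hM0 (Nat.cast_nonneg _)
    (Nat.cast_nonneg _) f2 (f4_psum_nonneg S) f3
  have hc := num_c Bn τ CG w.g u cs nA cA L l w.el M.totient M Y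
    (∑ j, psum (IJ β ε L j)) J ε hBn0 hτ0 hCG0.le hJr hε hu hnA0.le hcA0 hg hcA2 hucs hL1 aL1
    hel0 ael htot0 atot hM0 (Nat.cast_nonneg _)
    (Finset.sum_nonneg fun j _ => f4_psum_nonneg _) f4
  rw [← hC1, ← hC2, ← hCE] at hb
  rw [← hC2] at hc
  obtain ⟨Z0, hZ0⟩ : ∃ Z0 : ℕ, Z0 = ⌈x ^ (1 / 4 : ℝ)⌉₊ := ⟨_, rfl⟩
  have hx14 : 0 ≤ x ^ (1 / 4 : ℝ) := Real.rpow_nonneg (by linarith) _
  have hPZ : ∀ p ∈ w.P, p ≤ Z0 := by
    intro p hp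
    have h1 : (p : ℝ) ≤ Z0 := by
      rw [hZ0]
      exact (hA.P4 p hp).trans (Nat.le_ceil _)
    exact_mod_cast h1
  have hMZ : M ≤ Z0 := by
    have h1 : (M : ℝ) ≤ Z0 := by
      rw [hZ0]
      exact hA.M4.trans (Nat.le_ceil _)
    exact_mod_cast h1
  have hX2' : 8 * (Z0 + H + 1) < X := by
    have h1 : (8 : ℝ) * (Z0 + H + 1) < X := by
      have h2 : (Z0 : ℝ) < x ^ (1 / 4 : ℝ) + 1 := by
        rw [hZ0]
        exact Nat.ceil_lt_add_one hx14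
      have h3 : (H : ℝ) ≤ Λ * L := by
        rw [hH]
        exact Nat.floor_le (by positivity)
      have h4 := hA.X1
      linarith
    exact_mod_cast h1
  have hfin := count_ge (w := w) (M := M) (H := H) (X := X) (Y := Y) (Q' := Q') (D := D)
    (Z0 := Z0) (A0 := A0) (A1 := A1) (β := β) (ε := ε) (Λ := Λ) (L := L) (CE := CE)
    (δ := 3 * e + C2 / J) hH (by rw [← hS]; exact hcs') hA.prm aX8 hX2' hPZ hMZ
    (by rw [← hS]; exact hgp) k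
    (by rw [← hS, hN]; exact ha)
    (by rw [← hS, hN]; exact hb)
    (by rw [hN, ae, add_mul]; exact add_le_add_right hc _)
    (by rw [ae]; exact hek) (by rw [hCE]; exact hJe J hJ) hCE0
  obtain ⟨s, hs1, hs2, hs3⟩ := hfin
  rw [hN, aC] at hs3
  refine ⟨s.erase 0, ?_, ?_, ?_⟩
  · intro n hn
    rw [Finset.mem_erase] at hn
    have h1 := Finset.mem_range.1 (hs1 hn.2)
    rw [Finset.mem_Icc]
    refine ⟨Nat.one_le_iff_ne_zero.2 hn.1, Nat.le_floor ?_⟩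
    have h2 : (n : ℝ) ≤ ((M * Y : ℕ) : ℝ) := by exact_mod_cast h1.le
    rw [hN] at h2
    exact h2.trans hA.MY1
  · intro n hn
    rw [← hL]
    exact hs2 n (Finset.mem_of_mem_erase hn)
  · have h1 : (s.card : ℝ) - 1 ≤ ((s.erase 0).card : ℝ) := by
      have h2 := Finset.pred_card_le_card_erase (s := s) (a := 0)
      have h3 : s.card ≤ (s.erase 0).card + 1 := by omega
      have h4 : (s.card : ℝ) ≤ (s.erase 0).card + 1 := by exact_mod_cast h3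
      linarith
    have h5 : x / 2 / (8 * CE ^ 2 * C) ≤ (M : ℝ) * Y / (8 * CE ^ 2 * C) :=
      div_le_div_of_nonneg_right hA.MY2 (by positivity)
    have h6 : 1 ≤ 1 / (32 * CE ^ 2 * C) * x := by
      rw [one_div, inv_mul_eq_div, le_div_iff₀ (by positivity), one_mul]
      exact hDx
    have h7 : x / 2 / (8 * CE ^ 2 * C) = 2 * (1 / (32 * CE ^ 2 * C) * x) := by
      field_simp
      norm_num
    linarith

theorem f4_IJ_mono {J : ℕ} (β : Fin J → ℝ) {ε ε' L : ℝ} (hε : ε' ≤ ε) (hL : 0 ≤ L) (j : Fin J) :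
    IJ β ε' L j ⊆ IJ β ε L j := by
  intro h hh
  unfold IJ at hh ⊢
  rw [Finset.mem_Ioc] at hh ⊢
  refine ⟨hh.1, hh.2.trans (Nat.floor_le_floor ?_)⟩
  exact mul_le_mul_of_nonneg_right (by linarith) hL

/-- If `ε' ≤ ε`, `GoodN` for `ε'` implies `GoodN` for `ε`: the primes `n + h`, `h ≤ ⌊Λ L⌋`, are all in
the smaller intervals, and the larger intervals are disjoint. -/
theorem GoodN_mono {J : ℕ} {β : Fin J → ℝ} {ε ε' Λ L : ℝ} (h : Conf J β ε Λ) (h0 : 0 < ε')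
    (hε : ε' ≤ ε) (hL : 0 ≤ L) (k n : ℕ) (hn : GoodN β ε' Λ L k n) : GoodN β ε Λ L k n := by
  obtain ⟨h1, h2, h3⟩ := hn
  have hsub : ∀ j, IJ β ε' L j ⊆ IJ β ε L j := f4_IJ_mono β hε hL
  have hAL : AL β ε' L ⊆ AL β ε L := by
    intro x hx
    unfold AL at hx ⊢
    rw [Finset.mem_biUnion] at hx ⊢
    obtain ⟨j, hj, hxj⟩ := hx
    exact ⟨j, hj, hsub j hxj⟩
  refine ⟨fun x hx hp => hAL (h1 x hx hp), fun j => ?_, ?_⟩
  · refine le_trans (Finset.card_le_card ?_) (h2 j)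
    intro x hx
    rw [Finset.mem_filter] at hx ⊢
    refine ⟨?_, hx.2⟩
    have hxA : x ∈ AL β ε L := Finset.mem_biUnion.2 ⟨j, Finset.mem_univ j, hx.1⟩
    have h4 := h1 x (AL_subset h L hL hxA) hx.2
    unfold AL at h4
    rw [Finset.mem_biUnion] at h4
    obtain ⟨j', _, hj'⟩ := h4
    by_cases hjj : j = j'
    · rw [hjj]
      exact hj'
    · exact absurd (hsub j' hj') (Finset.disjoint_left.1 (IJ_disjoint h L hL hjj) hx.1)
  · exact h3.trans (Finset.card_le_card (Finset.filter_subset_filter _ hAL))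

/-- The main theorem. -/
theorem key (k : ℕ) : ∃ J0 : ℕ, 1 ≤ J0 ∧ ∀ (J : ℕ) (β : Fin J → ℝ) (ε Λ : ℝ), J0 ≤ J →
    Conf J β ε Λ → ∃ c : ℝ, 0 < c ∧ ∃ x0 : ℝ, ∀ x : ℝ, x0 ≤ x →
      ∃ s : Finset ℕ, s ⊆ Icc 1 ⌊x⌋₊ ∧ (∀ n ∈ s, GoodN β ε Λ (Real.log x) k n) ∧
        c * x ≤ (s.card : ℝ) := by
  obtain ⟨J0, hJ0, hk⟩ := key_small k
  refine ⟨J0, hJ0, fun J β ε Λ hJ hconf => ?_⟩
  have hJr : (0 : ℝ) < J := by exact_mod_cast hJ0.trans hJ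
  have hmin : 0 < min ε (1 / J) := lt_min hconf.e0 (by positivity)
  have hconf' : Conf J β (min ε (1 / J)) Λ := by
    refine ⟨hmin, hconf.b0, fun j => ?_, fun j j' hjj => ?_⟩
    · have := hconf.bL j
      have := min_le_left ε (1 / (J : ℝ))
      linarith
    · have := hconf.sep j j' hjj
      have := min_le_left ε (1 / (J : ℝ))
      linarith
  obtain ⟨c, hc, x0, hx0⟩ := hk J β _ Λ hJ hconf' (min_le_right _ _)
  refine ⟨c, hc, max 1 x0, fun x hx => ?_⟩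
  obtain ⟨s, hs1, hs2, hs3⟩ := hx0 x ((le_max_right _ _).trans hx)
  have hx1 : 1 ≤ x := (le_max_left _ _).trans hx
  exact ⟨s, hs1, fun n hn => GoodN_mono hconf hmin (min_le_left _ _) (Real.log_nonneg hx1) k n
    (hs2 n hn), hs3⟩

end Pool.Agent.Lib.H92G
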