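import Pool.Agent.Lib.H92G.CDefs
import Pool.Agent.Lib.Sieve.Averages
import Pool.Agent.Lib.H56G.Crt

/-!
# Chunk K1: the modulus, one and two point coprimality
-/

open Finset

namespace Pool.Agent.Lib.H92G

theorem pM_pos (y p1 : ℕ) : 0 < pM y p1 := by
  unfold pM
  apply Finset.prod_pos
  intro p hp
  exact (Finset.mem_filter.mp hp).2.1.pos

theorem k1_squarefree_prod (s : Finset ℕ) (hs : ∀ p ∈ s, p.Prime) : Squarefree (∏ p ∈ s, p) := by
  classical
  induction s using Finset.induction_on with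
  | empty => simp
  | insert a s ha ih =>
    rw [Finset.prod_insert ha]
    have h1 : ∀ p ∈ s, p.Prime := fun p hp => hs p (Finset.mem_insert_of_mem hp)
    have h2 : a.Prime := hs a (Finset.mem_insert_self _ _)
    have hcop : Nat.Coprime a (∏ p ∈ s, p) := by
      apply Nat.Coprime.prod_right
      intro i hi
      rw [Nat.coprime_primes h2 (h1 i hi)]
      rintro rfl
      exact ha hi
    exact (Nat.squarefree_mul hcop).mpr ⟨h2.squarefree, ih h1⟩

theorem pM_squarefree (y p1 : ℕ) : Squarefree (pM y p1) := by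
  unfold pM
  apply k1_squarefree_prod
  intro p hp
  exact (Finset.mem_filter.mp hp).2.1

/-- `pM` divides the primorial of `y`. -/
theorem pM_le (y p1 : ℕ) : (pM y p1 : ℝ) ≤ 4 ^ y := by
  have h1 : pM y p1 ∣ primorial y := by
    unfold pM primorial
    apply Finset.prod_dvd_prod_of_subset
    intro p hp
    rw [Finset.mem_filter, Finset.mem_Icc] at hp
    rw [Finset.mem_filter, Finset.mem_range]
    exact ⟨by omega, hp.2.1⟩
  have h2 : pM y p1 ≤ 4 ^ y :=
    (Nat.le_of_dvd (primorial_pos y) h1).trans (primorial_le_four_pow y)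
  exact_mod_cast h2

theorem prime_dvd_pM (y p1 p : ℕ) (hp : p.Prime) : p ∣ pM y p1 ↔ p ≤ y ∧ p ≠ p1 := by
  unfold pM
  rw [Prime.dvd_finsetProd_iff hp.prime]
  constructor
  · rintro ⟨q, hq, hd⟩
    rw [Finset.mem_filter, Finset.mem_Icc] at hq
    have : p = q := (Nat.prime_dvd_prime_iff_eq hp hq.2.1).mp hd
    subst this
    exact ⟨hq.1.2, hq.2.2⟩
  · rintro ⟨h1, h2⟩
    refine ⟨p, ?_, dvd_rfl⟩
    rw [Finset.mem_filter, Finset.mem_Icc]
    exact ⟨⟨hp.one_lt.le, h1⟩, hp, h2⟩

theorem k1_totient (M : ℕ) :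
    (M.totient : ℝ) = (M : ℝ) * ∏ p ∈ M.primeFactors, (1 - 1 / (p : ℝ)) := by
  have h1 := Nat.totient_eq_mul_prod_factors M
  have h5 := congrArg (fun q : ℚ => (q : ℝ)) h1
  push_cast at h5
  simp only [one_div]
  exact h5

theorem k1_half {p : ℕ} (hp : p.Prime) : (1 : ℝ) / 2 ≤ 1 - 1 / (p : ℝ) := by
  have hp2 : (2 : ℝ) ≤ p := by exact_mod_cast hp.two_le
  have h2 : (1 : ℝ) / p ≤ 1 / 2 := one_div_le_one_div_of_le (by norm_num) hp2
  linarith

/-- `φ(M)/M = ∏ (1 - 1/p)`; the missing factor is at least `1/2`; `Sieve.prod_one_sub_inv_le`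
(compare `H15P.totient_primorial_le`). -/
theorem totient_pM_le (y p1 : ℕ) (hy : 2 ≤ y) (hp1 : p1.Prime) :
    ((pM y p1).totient : ℝ) ≤ 2 * (pM y p1 : ℝ) / Real.log y := by
  classical
  have h3 : (pM y p1).primeFactors = (Sieve.primesUpTo y).filter (fun p => p ≠ p1) := by
    ext p
    rw [Nat.mem_primeFactors, Finset.mem_filter, Sieve.mem_primesUpTo]
    constructor
    · rintro ⟨hp, hd, -⟩
      have := (prime_dvd_pM y p1 p hp).mp hd
      exact ⟨⟨hp, this.1⟩, this.2⟩
    · rintro ⟨⟨hp, hle⟩, hne⟩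
      exact ⟨hp, (prime_dvd_pM y p1 p hp).mpr ⟨hle, hne⟩, (pM_pos y p1).ne'⟩
  rw [k1_totient, h3]
  have h4 := Sieve.prod_one_sub_inv_le y hy
  rw [← Finset.prod_filter_mul_prod_filter_not (Sieve.primesUpTo y) (fun p => p ≠ p1)] at h4
  set A := ∏ p ∈ (Sieve.primesUpTo y).filter (fun p => p ≠ p1), (1 - 1 / (p : ℝ)) with hA
  set B := ∏ p ∈ (Sieve.primesUpTo y).filter (fun p => ¬ (p ≠ p1)), (1 - 1 / (p : ℝ)) with hB
  have hA0 : 0 ≤ A := by
    apply Finset.prod_nonneg
    intro p hp
    have := k1_half (Sieve.mem_primesUpTo.mp (Finset.mem_filter.mp hp).1).1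
    linarith
  have hB1 : 1 / 2 ≤ B := by
    by_cases hmem : p1 ∈ Sieve.primesUpTo y
    · have : (Sieve.primesUpTo y).filter (fun p => ¬ (p ≠ p1)) = {p1} := by
        ext p
        rw [Finset.mem_filter, Finset.mem_singleton, not_not]
        constructor
        · exact fun h => h.2
        · rintro rfl
          exact ⟨hmem, rfl⟩
      rw [hB, this, Finset.prod_singleton]
      exact k1_half hp1
    · have : (Sieve.primesUpTo y).filter (fun p => ¬ (p ≠ p1)) = ∅ := by
        ext p
        simp only [Finset.mem_filter, not_not, Finset.notMem_empty, iff_false, not_and]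
        rintro hp rfl
        exact hmem hp
      rw [hB, this, Finset.prod_empty]
      norm_num
  have h5 : A * (1 / 2) ≤ A * B := mul_le_mul_of_nonneg_left hB1 hA0
  have h6 : A ≤ 2 * (1 / Real.log y) := by linarith
  have h7 := mul_le_mul_of_nonneg_left h6 (Nat.cast_nonneg (α := ℝ) (pM y p1))
  calc (pM y p1 : ℝ) * A ≤ (pM y p1 : ℝ) * (2 * (1 / Real.log y)) := h7
    _ = _ := by ring

/-- `a ↦ a + h` permutes the residues mod `M`. -/
theorem one_point (M h : ℕ) (hM : 0 < M) :
    ((range M).filter (fun a => (a + h).Coprime M)).card = M.totient := by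
  rw [← Nat.filter_coprime_Ico_eq_totient M h]
  apply card_bij (fun a _ => a + h)
  · intro a ha
    rw [mem_filter, mem_range] at ha
    rw [mem_filter, mem_Ico]
    exact ⟨⟨by omega, by omega⟩, ha.2.symm⟩
  · intro a _ b _ hab
    exact Nat.add_right_cancel hab
  · intro b hb
    rw [mem_filter, mem_Ico] at hb
    refine ⟨b - h, ?_, by omega⟩
    rw [mem_filter, mem_range]
    refine ⟨by omega, ?_⟩
    rw [show b - h + h = b by omega]
    exact hb.2.symm

theorem k1_card_dvd (p h : ℕ) (hp : p.Prime) :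
    ((range p).filter (fun a => p ∣ a + h)).card = 1 := by
  classical
  have h1 := one_point p h hp.pos
  have h2 := Finset.card_filter_add_card_filter_not (s := range p) (fun a => p ∣ a + h)
  have h3 : (range p).filter (fun a => ¬ p ∣ a + h) =
      (range p).filter (fun a => (a + h).Coprime p) := by
    apply Finset.filter_congr
    intro a _
    rw [Nat.coprime_comm, Nat.Prime.coprime_iff_not_dvd hp]
  rw [h3, h1, Nat.totient_prime hp, Finset.card_range] at h2
  have := hp.two_le
  omega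

/-- The local factor. -/
theorem k1_local (p h h' : ℕ) (hp : p.Prime) :
    (∑ a ∈ range p, if (¬ p ∣ a + h ∧ ¬ p ∣ a + h') then (1 : ℝ) else 0) ≤
      (p : ℝ) * ((1 - 1 / (p : ℝ)) ^ 2 *
        (if p ∣ Nat.dist h h' then (1 - 1 / (p : ℝ))⁻¹ else 1)) := by
  classical
  have hp0 : (0 : ℝ) < p := by exact_mod_cast hp.pos
  have hh := k1_half hp
  have hcard : (∑ a ∈ range p, if (¬ p ∣ a + h ∧ ¬ p ∣ a + h') then (1 : ℝ) else 0) =
      (((range p).filter (fun a => ¬ p ∣ a + h ∧ ¬ p ∣ a + h')).card : ℝ) := by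
    rw [← Finset.sum_filter]; simp
  rw [hcard]
  have h1 := k1_card_dvd p h hp
  have h2 := k1_card_dvd p h' hp
  split_ifs with hd
  · have h3 : ((range p).filter (fun a => ¬ p ∣ a + h ∧ ¬ p ∣ a + h')).card ≤ p - 1 := by
      have h4 : (range p).filter (fun a => ¬ p ∣ a + h ∧ ¬ p ∣ a + h') ⊆
          (range p).filter (fun a => ¬ p ∣ a + h) := by
        intro a ha
        rw [Finset.mem_filter] at ha ⊢
        exact ⟨ha.1, ha.2.1⟩
      have h5 := Finset.card_filter_add_card_filter_not (s := range p) (fun a => p ∣ a + h)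
      rw [h1, Finset.card_range] at h5
      have h6 := Finset.card_le_card h4
      omega
    have h4 : (((range p).filter (fun a => ¬ p ∣ a + h ∧ ¬ p ∣ a + h')).card : ℝ) ≤ p - 1 := by
      have h5 : (((range p).filter (fun a => ¬ p ∣ a + h ∧ ¬ p ∣ a + h')).card : ℝ)
          ≤ ((p - 1 : ℕ) : ℝ) := by exact_mod_cast h3
      rw [Nat.cast_sub hp.one_le] at h5
      simpa using h5
    refine h4.trans (le_of_eq ?_)
    have h5 : (1 - 1 / (p : ℝ)) ≠ 0 := by linarith
    rw [pow_two, mul_assoc, mul_inv_cancel₀ h5]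
    field_simp
  · have hdisj : Disjoint ((range p).filter (fun a => p ∣ a + h))
        ((range p).filter (fun a => p ∣ a + h')) := by
      rw [Finset.disjoint_left]
      intro a ha hb
      rw [Finset.mem_filter] at ha hb
      apply hd
      have e : Nat.dist h h' = Nat.dist (a + h) (a + h') := by
        rw [Nat.dist_add_add_left]
      rw [e]
      unfold Nat.dist
      exact dvd_add (Nat.dvd_sub ha.2 hb.2) (Nat.dvd_sub hb.2 ha.2)
    have h4 : (range p).filter (fun a => ¬ (¬ p ∣ a + h ∧ ¬ p ∣ a + h')) =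
        (range p).filter (fun a => p ∣ a + h) ∪ (range p).filter (fun a => p ∣ a + h') := by
      rw [← Finset.filter_or]
      apply Finset.filter_congr
      intro a _
      tauto
    have h5 := Finset.card_filter_add_card_filter_not (s := range p)
      (fun a => ¬ p ∣ a + h ∧ ¬ p ∣ a + h')
    rw [h4, Finset.card_union_of_disjoint hdisj, h1, h2, Finset.card_range] at h5
    have h6 : (((range p).filter (fun a => ¬ p ∣ a + h ∧ ¬ p ∣ a + h')).card : ℝ) = p - 2 := by
      have h7 : ((((range p).filter (fun a => ¬ p ∣ a + h ∧ ¬ p ∣ a + h')).card +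
        (1 + 1) : ℕ) : ℝ) = (p : ℝ) := by exact_mod_cast h5
      push_cast at h7
      linarith
    rw [h6, mul_one]
    have h8 : (p : ℝ) * (1 - 1 / (p : ℝ)) ^ 2 = p - 2 + 1 / p := by
      field_simp
      ring
    rw [h8]
    have : (0 : ℝ) ≤ 1 / p := by positivity
    linarith

/-- Two point coprimality. `M` squarefree: by the Chinese remainder theorem
(`H56G.sum_range_prod` for the indicators `1[p ∤ a + h] 1[p ∤ a + h']`) the number is the product
over `p ∣ M` of `p - 2` if `p ∤ h' - h`, and `p - 1` if `p ∣ h' - h`. Now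
`p - 2 ≤ p (1 - 1/p)^2` and `p - 1 = p (1 - 1/p)^2 (1 - 1/p)^{-1}`, and the product of the
`(1 - 1/p)^{-1} ≥ 1` over the common prime factors of `M` and `h' - h` is at most `G(h' - h)`. -/
theorem two_point (M h h' : ℕ) (hM : Squarefree M) (hne : h ≠ h') :
    (((range M).filter (fun a => (a + h).Coprime M ∧ (a + h').Coprime M)).card : ℝ) ≤
      (M.totient : ℝ) ^ 2 / M * Gd h h' := by
  classical
  have hM0 : M ≠ 0 := hM.ne_zero
  have hMR : (M : ℝ) ≠ 0 := by exact_mod_cast hM0
  set F : {p // p ∈ M.primeFactors} → ℕ → ℝ := fun p a =>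
    if (¬ (p : ℕ) ∣ a + h ∧ ¬ (p : ℕ) ∣ a + h') then (1 : ℝ) else 0 with hF
  have hcop : ∀ x : ℕ, x.Coprime M ↔ ∀ p ∈ M.primeFactors, ¬ p ∣ x := by
    intro x
    constructor
    · intro hx p hp hd
      have hpp := Nat.prime_of_mem_primeFactors hp
      have := Nat.Coprime.eq_one_of_dvd (Nat.Coprime.coprime_dvd_left hd hx)
        (Nat.dvd_of_mem_primeFactors hp)
      exact hpp.one_lt.ne' this
    · intro hx
      apply Nat.Coprime.symm
      apply Nat.coprime_of_dvd
      intro k hk hkM hkx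
      exact hx k (Nat.mem_primeFactors.mpr ⟨hk, hkM, hM0⟩) hkx
  have hprod : ∏ i ∈ M.primeFactors.attach, (i : ℕ) = M := by
    rw [Finset.prod_attach M.primeFactors (fun p => p)]
    exact Nat.prod_primeFactors_of_squarefree hM
  have h1 : (((range M).filter (fun a => (a + h).Coprime M ∧ (a + h').Coprime M)).card : ℝ) =
      ∑ t ∈ range (∏ i ∈ M.primeFactors.attach, (i : ℕ)),
        ∏ i ∈ M.primeFactors.attach, F i t := by
    rw [hprod, Finset.card_filter, Nat.cast_sum]
    apply Finset.sum_congr rfl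
    intro t _
    split_ifs with hc
    · rw [hcop, hcop] at hc
      rw [Finset.prod_eq_one]
      · simp
      · intro i _
        simp only [hF]
        rw [if_pos ⟨hc.1 i i.2, hc.2 i i.2⟩]
    · rw [hcop, hcop] at hc
      symm
      have hex : ∃ p ∈ M.primeFactors, ¬ (¬ p ∣ t + h ∧ ¬ p ∣ t + h') := by
        by_contra hcon
        push Not at hcon
        exact hc ⟨fun p hp => (hcon p hp).1, fun p hp => (hcon p hp).2⟩
      obtain ⟨p, hp, hpn⟩ := hex
      rw [Finset.prod_eq_zero (Finset.mem_attach _ ⟨p, hp⟩)]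
      · simp
      · simp only [hF]
        rw [if_neg hpn]
  have h2 := H56G.sum_range_prod (fun i : {p // p ∈ M.primeFactors} => (i : ℕ))
    (fun i => Nat.prime_of_mem_primeFactors i.2) Subtype.val_injective M.primeFactors.attach F
    (by
      intro i t
      simp only [hF]
      have e1 : ((i : ℕ) ∣ t + (i : ℕ) + h) ↔ ((i : ℕ) ∣ t + h) := by
        rw [show t + (i : ℕ) + h = (t + h) + (i : ℕ) by ring, Nat.dvd_add_self_right]
      have e2 : ((i : ℕ) ∣ t + (i : ℕ) + h') ↔ ((i : ℕ) ∣ t + h') := by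
        rw [show t + (i : ℕ) + h' = (t + h') + (i : ℕ) by ring, Nat.dvd_add_self_right]
      simp only [e1, e2])
  rw [h1, h2]
  have h3 : ∏ i ∈ M.primeFactors.attach, ∑ t ∈ range (i : ℕ), F i t ≤
      ∏ i ∈ M.primeFactors.attach, (((i : ℕ) : ℝ) * ((1 - 1 / ((i : ℕ) : ℝ)) ^ 2 *
        (if (i : ℕ) ∣ Nat.dist h h' then (1 - 1 / ((i : ℕ) : ℝ))⁻¹ else 1))) := by
    apply Finset.prod_le_prod
    · intro i _
      apply Finset.sum_nonneg
      intro t _
      simp only [hF]
      split_ifs <;> norm_num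
    · intro i _
      exact k1_local i h h' (Nat.prime_of_mem_primeFactors i.2)
  refine h3.trans ?_
  rw [Finset.prod_attach M.primeFactors (fun p => ((p : ℝ) * ((1 - 1 / (p : ℝ)) ^ 2 *
        (if p ∣ Nat.dist h h' then (1 - 1 / (p : ℝ))⁻¹ else 1))))]
  rw [Finset.prod_mul_distrib, Finset.prod_mul_distrib, Finset.prod_pow]
  have h4 : ∏ p ∈ M.primeFactors, (p : ℝ) = M := by
    have := Nat.prod_primeFactors_of_squarefree hM
    rw [← Nat.cast_prod, this]
  have h5 : ∏ p ∈ M.primeFactors,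
      (if p ∣ Nat.dist h h' then (1 - 1 / (p : ℝ))⁻¹ else 1) ≤ Gd h h' := by
    rw [← Finset.prod_filter]
    unfold Gd Helper57.G
    apply Finset.prod_le_prod_of_subset_of_one_le
    · intro p hp
      rw [Finset.mem_filter] at hp
      rw [Nat.mem_primeFactors]
      refine ⟨Nat.prime_of_mem_primeFactors hp.1, hp.2, ?_⟩
      intro h0
      exact hne (Nat.eq_of_dist_eq_zero h0)
    · intro p hp
      have := k1_half (Nat.prime_of_mem_primeFactors (Finset.mem_filter.mp hp).1)
      exact inv_nonneg.mpr (by linarith)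
    · intro p hp _
      exact Helper57.inv_one_sub_ge_one (Nat.prime_of_mem_primeFactors hp).two_le
  rw [h4, k1_totient]
  set A := ∏ p ∈ M.primeFactors, (1 - 1 / (p : ℝ)) with hA
  have h6 : (M : ℝ) * (A ^ 2 * ∏ p ∈ M.primeFactors,
      (if p ∣ Nat.dist h h' then (1 - 1 / (p : ℝ))⁻¹ else 1)) ≤ (M : ℝ) * (A ^ 2 * Gd h h') := by
    apply mul_le_mul_of_nonneg_left _ (Nat.cast_nonneg _)
    exact mul_le_mul_of_nonneg_left h5 (sq_nonneg _)
  refine h6.trans (le_of_eq ?_)
  field_simp

end Pool.Agent.Lib.H92G
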