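import Pool.Agent.Lib.H92G.CDefs

/-!
# Chunk K2: averages of `G(d) = d/φ(d)` over intervals
-/

open Finset

namespace Pool.Agent.Lib.H92G

theorem k2_tel (N : ℕ) (hN : 1 ≤ N) :
    ∏ n ∈ Ioc 1 N, (1 - 1 / (n : ℝ) ^ 2)⁻¹ = (2 * N / (N + 1) : ℝ) := by
  induction N, hN using Nat.le_induction with
  | base => norm_num
  | succ N hN ih =>
    rw [← Finset.insert_Ioc_right_eq_Ioc_add_one (by omega : 1 ≤ N), Finset.prod_insert (by simp),
      ih]
    have hN1 : (1 : ℝ) ≤ N := by exact_mod_cast hN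
    have h1 : (1 - 1 / ((N + 1 : ℕ) : ℝ) ^ 2) = (N * (N + 2)) / ((N + 1) ^ 2) := by
      push_cast
      field_simp
      ring
    rw [h1]
    push_cast
    field_simp
    ring

theorem k2_prod_le (s : Finset ℕ) (hs : ∀ p ∈ s, 2 ≤ p) :
    ∏ p ∈ s, (1 - 1 / (p : ℝ) ^ 2)⁻¹ ≤ 2 := by
  have hone : ∀ n : ℕ, 2 ≤ n → 1 ≤ (1 - 1 / (n : ℝ) ^ 2)⁻¹ := by
    intro n hn
    have hn2 : (2 : ℝ) ≤ n := by exact_mod_cast hn
    have h1 : (1 : ℝ) / (n : ℝ) ^ 2 ≤ 1 / 4 := by
      apply one_div_le_one_div_of_le (by norm_num)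
      nlinarith
    have h2 : 0 < 1 - 1 / (n : ℝ) ^ 2 := by linarith
    rw [one_le_inv₀ h2]
    have : (0 : ℝ) ≤ 1 / (n : ℝ) ^ 2 := by positivity
    linarith
  set N := s.sup id + 1 with hN
  have h1 : ∏ p ∈ s, (1 - 1 / (p : ℝ) ^ 2)⁻¹ ≤ ∏ n ∈ Ioc 1 N, (1 - 1 / (n : ℝ) ^ 2)⁻¹ := by
    apply Finset.prod_le_prod_of_subset_of_one_le
    · intro p hp
      rw [Finset.mem_Ioc]
      have h2 := hs p hp
      have h3 : p ≤ s.sup id := Finset.le_sup (f := id) hp
      omega
    · intro p hp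
      exact zero_le_one.trans (hone p (hs p hp))
    · intro n hn _
      rw [Finset.mem_Ioc] at hn
      exact hone n hn.1
  refine h1.trans ?_
  rw [k2_tel N (by omega)]
  rw [div_le_iff₀ (by positivity)]
  linarith

theorem k2_G_le (d : ℕ) (hd : 1 ≤ d) :
    Helper57.G d ≤ 2 * ∑ e ∈ d.divisors, 1 / (e : ℝ) := by
  have h1 : Helper57.G d = (∏ p ∈ d.primeFactors, (1 - 1 / (p : ℝ) ^ 2)⁻¹) *
      ∏ p ∈ d.primeFactors, (1 + 1 / (p : ℝ)) := by
    unfold Helper57.G
    rw [← Finset.prod_mul_distrib]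
    apply Finset.prod_congr rfl
    intro p hp
    have hpp := Nat.prime_of_mem_primeFactors hp
    have hp2 : (2 : ℝ) ≤ p := by exact_mod_cast hpp.two_le
    have h2 : (1 : ℝ) / p ≤ 1 / 2 := one_div_le_one_div_of_le (by norm_num) hp2
    have h3 : (0 : ℝ) < 1 / p := by positivity
    have h4 : (1 - 1 / (p : ℝ) ^ 2) = (1 - 1 / p) * (1 + 1 / p) := by ring
    rw [h4, mul_inv, mul_assoc, inv_mul_cancel₀ (by linarith), mul_one]
  have h2 : ∏ p ∈ d.primeFactors, (1 + 1 / (p : ℝ)) ≤ ∑ e ∈ d.divisors, 1 / (e : ℝ) := by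
    rw [Finset.prod_one_add]
    have hinj : Set.InjOn (fun t : Finset ℕ => ∏ p ∈ t, p) (d.primeFactors.powerset : Set _) := by
      intro a ha b hb hab
      rw [Finset.mem_coe, Finset.mem_powerset] at ha hb
      simp only at hab
      rw [← Nat.primeFactors_prod (fun p hp => Nat.prime_of_mem_primeFactors (ha hp)), hab,
        Nat.primeFactors_prod (fun p hp => Nat.prime_of_mem_primeFactors (hb hp))]
    have h3 : ∑ t ∈ d.primeFactors.powerset, ∏ p ∈ t, 1 / (p : ℝ) =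
        ∑ e ∈ d.primeFactors.powerset.image (fun t => ∏ p ∈ t, p), 1 / (e : ℝ) := by
      rw [Finset.sum_image hinj]
      apply Finset.sum_congr rfl
      intro t _
      rw [Nat.cast_prod]
      simp [Finset.prod_inv_distrib]
    rw [h3]
    apply Finset.sum_le_sum_of_subset_of_nonneg
    · intro e he
      rw [Finset.mem_image] at he
      obtain ⟨t, ht, rfl⟩ := he
      rw [Finset.mem_powerset] at ht
      rw [Nat.mem_divisors]
      refine ⟨?_, by omega⟩
      exact (Finset.prod_dvd_prod_of_subset _ _ _ ht).trans (Nat.prod_primeFactors_dvd d)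
    · intro e _ _
      positivity
  rw [h1]
  have h3 := k2_prod_le d.primeFactors (fun p hp => (Nat.prime_of_mem_primeFactors hp).two_le)
  have h4 : 0 ≤ ∏ p ∈ d.primeFactors, (1 + 1 / (p : ℝ)) :=
    Finset.prod_nonneg fun p _ => by positivity
  exact (mul_le_mul_of_nonneg_right h3 h4).trans (mul_le_mul_of_nonneg_left h2 (by norm_num))

theorem k2_card (u Z e : ℕ) (he : 1 ≤ e) :
    (((Ioc u (u + Z)).filter (fun d => e ∣ d)).card : ℝ) ≤ Z / e + 1 := by
  have h1 := Nat.Ioc_filter_dvd_card_eq_div (u + Z) e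
  have h2 := Nat.Ioc_filter_dvd_card_eq_div u e
  have h3 : (Ioc 0 (u + Z)).filter (fun d => e ∣ d) =
      (Ioc 0 u).filter (fun d => e ∣ d) ∪ (Ioc u (u + Z)).filter (fun d => e ∣ d) := by
    rw [← Finset.filter_union, Finset.Ioc_union_Ioc_eq_Ioc (by omega) (by omega)]
  have h4 : Disjoint ((Ioc 0 u).filter (fun d => e ∣ d))
      ((Ioc u (u + Z)).filter (fun d => e ∣ d)) := by
    rw [Finset.disjoint_left]
    intro a ha hb
    rw [Finset.mem_filter, Finset.mem_Ioc] at ha hb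
    omega
  rw [h3, Finset.card_union_of_disjoint h4, h2] at h1
  have he0 : (0 : ℝ) < e := by exact_mod_cast he
  have h5 : (((u + Z) / e : ℕ) : ℝ) ≤ ((u + Z : ℕ) : ℝ) / e := Nat.cast_div_le
  have h6 : ((u : ℕ) : ℝ) / e - 1 ≤ ((u / e : ℕ) : ℝ) := by
    have h7 : u < (u / e + 1) * e := by
      have := Nat.lt_succ_iff.mpr (le_refl (u / e))
      exact (Nat.div_lt_iff_lt_mul he).mp (Nat.lt_succ_self _)
    have h8 : (u : ℝ) ≤ ((u / e : ℕ) + 1) * e := by exact_mod_cast h7.le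
    have h9 : (u : ℝ) / e ≤ ((u / e : ℕ) : ℝ) + 1 := by
      rw [div_le_iff₀ he0]
      exact h8
    linarith
  have h7 : ((u / e : ℕ) : ℝ) + (((Ioc u (u + Z)).filter (fun d => e ∣ d)).card : ℝ) =
      (((u + Z) / e : ℕ) : ℝ) := by exact_mod_cast h1
  have h8 : ((u + Z : ℕ) : ℝ) / e = u / e + Z / e := by push_cast; ring
  linarith

theorem k2_main (u Z : ℕ) :
    ∑ d ∈ Ioc u (u + Z), Helper57.G d ≤ 4 * (Z + Real.log (u + Z + 1) + 1) := by
  set N := u + Z with hN
  have h1 : ∑ d ∈ Ioc u N, Helper57.G d ≤ 2 * ∑ d ∈ Ioc u N, ∑ e ∈ d.divisors, 1 / (e : ℝ) := by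
    rw [Finset.mul_sum]
    apply Finset.sum_le_sum
    intro d hd
    rw [Finset.mem_Ioc] at hd
    exact k2_G_le d (by omega)
  have h2 : ∑ d ∈ Ioc u N, ∑ e ∈ d.divisors, 1 / (e : ℝ) =
      ∑ e ∈ Icc 1 N, ∑ d ∈ (Ioc u N).filter (fun d => e ∣ d), 1 / (e : ℝ) := by
    apply Finset.sum_comm'
    intro d e
    rw [Finset.mem_Ioc, Nat.mem_divisors, Finset.mem_filter, Finset.mem_Icc, Finset.mem_Ioc]
    constructor
    · rintro ⟨h, hd, h0⟩
      have := Nat.le_of_dvd (by omega) hd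
      have := Nat.pos_of_dvd_of_pos hd (by omega)
      exact ⟨⟨h, hd⟩, by omega, by omega⟩
    · rintro ⟨⟨h, hd⟩, he⟩
      exact ⟨h, hd, by omega⟩
  have h3 : ∑ e ∈ Icc 1 N, ∑ d ∈ (Ioc u N).filter (fun d => e ∣ d), 1 / (e : ℝ) ≤
      Z * ∑ e ∈ Icc 1 N, ((e : ℝ) ^ 2)⁻¹ + ∑ e ∈ Icc 1 N, ((e : ℝ))⁻¹ := by
    rw [Finset.mul_sum, ← Finset.sum_add_distrib]
    apply Finset.sum_le_sum
    intro e he
    rw [Finset.mem_Icc] at he
    rw [Finset.sum_const, nsmul_eq_mul]
    have he0 : (0 : ℝ) < e := by exact_mod_cast he.1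
    have h4 := mul_le_mul_of_nonneg_right (k2_card u Z e he.1) (one_div_nonneg.mpr he0.le)
    refine h4.trans (le_of_eq ?_)
    field_simp
  have h4 : ∑ e ∈ Icc 1 N, ((e : ℝ) ^ 2)⁻¹ ≤ 2 := by
    rcases Nat.eq_zero_or_pos N with h0 | h0
    · rw [h0]; norm_num
    · have h5 : Icc 1 N = insert 1 (Ioc 1 N) := by
        ext x; simp only [Finset.mem_Icc, Finset.mem_insert, Finset.mem_Ioc]; omega
      rw [h5, Finset.sum_insert (by simp)]
      have h6 := sum_Ioc_inv_sq_le_sub (α := ℝ) (one_ne_zero) h0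
      have h7 : (0 : ℝ) ≤ (N : ℝ)⁻¹ := by positivity
      push_cast at h6 ⊢
      norm_num at h6 ⊢
      linarith
  have h5 : ∑ e ∈ Icc 1 N, ((e : ℝ))⁻¹ ≤ 1 + Real.log (N + 1) := by
    have h6 := harmonic_le_one_add_log N
    rw [harmonic_eq_sum_Icc] at h6
    push_cast at h6
    refine h6.trans ?_
    rcases Nat.eq_zero_or_pos N with h0 | h0
    · rw [h0]; norm_num
    · have h7 : Real.log N ≤ Real.log (N + 1) := by
        apply Real.log_le_log (by exact_mod_cast h0)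
        linarith
      linarith
  have h6 : (Z : ℝ) * ∑ e ∈ Icc 1 N, ((e : ℝ) ^ 2)⁻¹ ≤ Z * 2 :=
    mul_le_mul_of_nonneg_left h4 (Nat.cast_nonneg _)
  have h7 : (N : ℝ) = u + Z := by rw [hN]; push_cast; ring
  have h8 : 0 ≤ Real.log ((u : ℝ) + Z + 1) := by
    apply Real.log_nonneg
    have : (0 : ℝ) ≤ u := Nat.cast_nonneg _
    have : (0 : ℝ) ≤ Z := Nat.cast_nonneg _
    linarith
  rw [h2] at h1
  rw [h7] at h5
  linarith

/-- `G(d) = ∑_{e ∣ d, e squarefree} 1/φ(e)`, so the sum over `d ∈ (u, u + Z]` is at most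
`∑_{e ≤ u + Z} (1/φ(e)) (Z/e + 1)`, and `1/φ(e) = G(e)/e` for squarefree `e`; by partial summation
from `∑_{e ≤ N} G(e) ≤ 1100 N` (`Helper57.moment_le` with `k = 1`): `∑ G(e)/e^2 ≤ C`,
`∑_{e ≤ N} G(e)/e ≤ C (1 + log N)` (dyadic intervals). -/
theorem sum_G_Ioc_le : ∃ C : ℝ, 1 ≤ C ∧ ∀ u Z : ℕ,
    ∑ d ∈ Ioc u (u + Z), Helper57.G d ≤ C * (Z + Real.log (u + Z + 1) + 1) :=
  ⟨4, by norm_num, k2_main⟩

/-- Sum of `G(|h - h'|)` over the `h' ≠ h` of an interval `(u, u + Z]`, for any `h ≤ N`, `u + Z ≤ N`: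
the differences to the right of `h` and to the left of `h` form at most two intervals. -/
theorem sum_Gd_Ioc_le : ∃ C : ℝ, 1 ≤ C ∧ ∀ u Z h N : ℕ, h ≤ N → u + Z ≤ N →
    ∑ h' ∈ (Ioc u (u + Z)).erase h, Gd h h' ≤ C * (Z + Real.log (N + 1) + 1) := by
  refine ⟨8, by norm_num, ?_⟩
  intro u Z h N hh hN
  have hG0 : ∀ d, 0 ≤ Helper57.G d := fun d => zero_le_one.trans (Helper57.one_le_G d)
  rw [← Finset.sum_filter_add_sum_filter_not ((Ioc u (u + Z)).erase h) (fun h' => h < h')]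
  have h1 : ∑ h' ∈ ((Ioc u (u + Z)).erase h).filter (fun h' => h < h'), Gd h h' ≤
      4 * (Z + Real.log (N + 1) + 1) := by
    have h2 : ∑ h' ∈ ((Ioc u (u + Z)).erase h).filter (fun h' => h < h'), Gd h h' =
        ∑ d ∈ (((Ioc u (u + Z)).erase h).filter (fun h' => h < h')).image (fun h' => h' - h),
          Helper57.G d := by
      rw [Finset.sum_image]
      · apply Finset.sum_congr rfl
        intro h' hh'
        rw [Finset.mem_filter] at hh'
        unfold Gd
        rw [Nat.dist_eq_sub_of_le hh'.2.le]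
      · intro a ha b hb hab
        rw [Finset.mem_coe, Finset.mem_filter] at ha hb
        simp only at hab
        omega
    rw [h2]
    have h3 : ∑ d ∈ (((Ioc u (u + Z)).erase h).filter (fun h' => h < h')).image (fun h' => h' - h),
          Helper57.G d ≤ ∑ d ∈ Ioc (u - h) (u - h + Z), Helper57.G d := by
      apply Finset.sum_le_sum_of_subset_of_nonneg
      · intro d hd
        rw [Finset.mem_image] at hd
        obtain ⟨h', hh', rfl⟩ := hd
        rw [Finset.mem_filter, Finset.mem_erase, Finset.mem_Ioc] at hh'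
        rw [Finset.mem_Ioc]
        omega
      · intro d _ _
        exact hG0 d
    refine h3.trans ((k2_main _ _).trans ?_)
    have h4 : Real.log (((u - h : ℕ) : ℝ) + Z + 1) ≤ Real.log (N + 1) := by
      apply Real.log_le_log (by positivity)
      have : u - h + Z ≤ N := by omega
      have h5 : ((u - h : ℕ) : ℝ) + Z ≤ N := by exact_mod_cast this
      linarith
    linarith
  have h2 : ∑ h' ∈ ((Ioc u (u + Z)).erase h).filter (fun h' => ¬ h < h'), Gd h h' ≤
      4 * (Z + Real.log (N + 1) + 1) := by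
    have h2 : ∑ h' ∈ ((Ioc u (u + Z)).erase h).filter (fun h' => ¬ h < h'), Gd h h' =
        ∑ d ∈ (((Ioc u (u + Z)).erase h).filter (fun h' => ¬ h < h')).image (fun h' => h - h'),
          Helper57.G d := by
      rw [Finset.sum_image]
      · apply Finset.sum_congr rfl
        intro h' hh'
        rw [Finset.mem_filter] at hh'
        unfold Gd
        rw [Nat.dist_comm, Nat.dist_eq_sub_of_le (by omega)]
      · intro a ha b hb hab
        rw [Finset.mem_coe, Finset.mem_filter] at ha hb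
        simp only at hab
        omega
    rw [h2]
    have h3 : ∑ d ∈ (((Ioc u (u + Z)).erase h).filter (fun h' => ¬ h < h')).image
        (fun h' => h - h'), Helper57.G d ≤
          ∑ d ∈ Ioc (h - u - Z - 1) (h - u - Z - 1 + Z), Helper57.G d := by
      apply Finset.sum_le_sum_of_subset_of_nonneg
      · intro d hd
        rw [Finset.mem_image] at hd
        obtain ⟨h', hh', rfl⟩ := hd
        rw [Finset.mem_filter, Finset.mem_erase, Finset.mem_Ioc] at hh'
        rw [Finset.mem_Ioc]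
        omega
      · intro d _ _
        exact hG0 d
    refine h3.trans ((k2_main _ _).trans ?_)
    have h4 : Real.log (((h - u - Z - 1 : ℕ) : ℝ) + Z + 1) ≤ Real.log (N + 1) := by
      apply Real.log_le_log (by positivity)
      have : h - u - Z - 1 + Z ≤ N := by omega
      have h5 : ((h - u - Z - 1 : ℕ) : ℝ) + Z ≤ N := by exact_mod_cast this
      linarith
    linarith
  linarith

end Pool.Agent.Lib.H92G
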