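import Pool.Agent.Lib.H92G.K1

/-!
# Chunk K4: sums over the classes modulo `M`
-/

open Finset

namespace Pool.Agent.Lib.H92G

theorem card_Ac (M : ℕ) (S : Finset ℕ) (a : ℕ) :
    (Ac M S a).card = (S.filter (fun h => (a + h).Coprime M)).card := by
  unfold Ac
  exact Finset.card_image_of_injective _ (fun x y h => Nat.add_left_cancel h)

/-- `one_point`, double counting. -/
theorem sum_card_Ac (M : ℕ) (S : Finset ℕ) (hM : 0 < M) :
    ∑ a ∈ range M, (Ac M S a).card = S.card * M.totient := by
  have h1 : ∀ a ∈ range M, (Ac M S a).card = ∑ h ∈ S, (if (a + h).Coprime M then 1 else 0) := by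
    intro a _
    rw [card_Ac, Finset.card_filter]
  rw [Finset.sum_congr rfl h1, Finset.sum_comm]
  have h2 : ∀ h ∈ S, ∑ a ∈ range M, (if (a + h).Coprime M then 1 else 0) = M.totient := by
    intro h _
    rw [← Finset.card_filter]
    exact one_point M h hM
  rw [Finset.sum_congr rfl h2, Finset.sum_const, smul_eq_mul]

/-- the number of the `a` for which `a + h` and `a + h'` are prime to `M` -/
theorem k4_sum_ind (M : ℕ) (h h' : ℕ) :
    ∑ a ∈ range M, ((if (a + h).Coprime M then (1 : ℝ) else 0) *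
      (if (a + h').Coprime M then (1 : ℝ) else 0)) =
      (((range M).filter (fun a => (a + h).Coprime M ∧ (a + h').Coprime M)).card : ℝ) := by
  rw [Finset.card_filter]
  push_cast
  apply Finset.sum_congr rfl
  intro a _
  by_cases h1 : (a + h).Coprime M
  · by_cases h2 : (a + h').Coprime M
    · rw [if_pos h1, if_pos h2, if_pos ⟨h1, h2⟩, mul_one]
    · rw [if_neg (fun h5 : (a + h).Coprime M ∧ (a + h').Coprime M => h2 h5.2), if_neg h2, mul_zero]
  · rw [if_neg (fun h5 : (a + h).Coprime M ∧ (a + h').Coprime M => h1 h5.1), if_neg h1, zero_mul]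

theorem k4_card_Ac (M : ℕ) (S : Finset ℕ) (a : ℕ) :
    ((Ac M S a).card : ℝ) = ∑ h ∈ S, (if (a + h).Coprime M then (1 : ℝ) else 0) := by
  rw [card_Ac, Finset.card_filter]
  push_cast
  rfl

/-- `two_point` for `h ≠ h'`, `one_point` for `h = h'`; `T` contains `S`. -/
theorem sum_card_mul_le (M : ℕ) (hM : Squarefree M) (S T : Finset ℕ) (hST : S ⊆ T) :
    ∑ a ∈ range M, ((Ac M S a).card : ℝ) * (Ac M T a).card ≤
      S.card * M.totient +
        (M.totient : ℝ) ^ 2 / M * ∑ h ∈ S, ∑ h' ∈ T.erase h, Gd h h' := by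
  classical
  have hM0 : 0 < M := Nat.pos_of_ne_zero hM.ne_zero
  have h1 : ∑ a ∈ range M, ((Ac M S a).card : ℝ) * (Ac M T a).card =
      ∑ h ∈ S, ∑ h' ∈ T,
        (((range M).filter (fun a => (a + h).Coprime M ∧ (a + h').Coprime M)).card : ℝ) := by
    have h2 : ∀ a ∈ range M, ((Ac M S a).card : ℝ) * (Ac M T a).card =
        ∑ h ∈ S, ∑ h' ∈ T, ((if (a + h).Coprime M then (1 : ℝ) else 0) *
          (if (a + h').Coprime M then (1 : ℝ) else 0)) := by
      intro a _
      rw [k4_card_Ac, k4_card_Ac, Finset.sum_mul_sum]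
    rw [Finset.sum_congr rfl h2, Finset.sum_comm]
    apply Finset.sum_congr rfl
    intro h _
    rw [Finset.sum_comm]
    apply Finset.sum_congr rfl
    intro h' _
    exact k4_sum_ind M h h'
  rw [h1]
  have h3 : ∀ h ∈ S, ∑ h' ∈ T,
        (((range M).filter (fun a => (a + h).Coprime M ∧ (a + h').Coprime M)).card : ℝ) ≤
      M.totient + (M.totient : ℝ) ^ 2 / M * ∑ h' ∈ T.erase h, Gd h h' := by
    intro h hh
    rw [← Finset.add_sum_erase T _ (hST hh)]
    have h4 : (range M).filter (fun a => (a + h).Coprime M ∧ (a + h).Coprime M) =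
        (range M).filter (fun a => (a + h).Coprime M) := by
      apply Finset.filter_congr
      intro a _
      exact and_self_iff
    rw [h4, one_point M h hM0, Finset.mul_sum]
    apply add_le_add le_rfl
    apply Finset.sum_le_sum
    intro h' hh'
    exact two_point M h h' hM (Finset.ne_of_mem_erase hh').symm
  refine (Finset.sum_le_sum h3).trans (le_of_eq ?_)
  rw [Finset.sum_add_distrib, Finset.sum_const, nsmul_eq_mul, ← Finset.mul_sum]

/-- Number of the pairs of forms in `S`, summed over the classes. -/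
theorem sum_pairs_le (M : ℕ) (hM : Squarefree M) (S : Finset ℕ) :
    ∑ a ∈ range M, (((S ×ˢ S).filter (fun z => z.1 ≠ z.2 ∧ (a + z.1).Coprime M ∧
        (a + z.2).Coprime M)).card : ℝ) ≤ (M.totient : ℝ) ^ 2 / M * psum S := by
  classical
  have h2 : ∀ a ∈ range M, (((S ×ˢ S).filter (fun z => z.1 ≠ z.2 ∧ (a + z.1).Coprime M ∧
        (a + z.2).Coprime M)).card : ℝ) =
      ∑ h ∈ S, ∑ h' ∈ S.erase h, ((if (a + h).Coprime M then (1 : ℝ) else 0) *
          (if (a + h').Coprime M then (1 : ℝ) else 0)) := by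
    intro a _
    rw [Finset.card_filter, Finset.sum_product]
    push_cast
    apply Finset.sum_congr rfl
    intro h hh
    rw [← Finset.add_sum_erase S _ hh]
    have h3 : (if h ≠ h ∧ (a + h).Coprime M ∧ (a + h).Coprime M then (1 : ℝ) else 0) = 0 := by
      rw [if_neg]
      rintro ⟨h4, -⟩
      exact h4 rfl
    rw [h3, zero_add]
    apply Finset.sum_congr rfl
    intro h' hh'
    have hne : h ≠ h' := (Finset.ne_of_mem_erase hh').symm
    by_cases h1 : (a + h).Coprime M
    · by_cases h2 : (a + h').Coprime M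
      · rw [if_pos ⟨hne, h1, h2⟩, if_pos h1, if_pos h2, mul_one]
      · rw [if_neg (fun h5 => h2 h5.2.2), if_neg h2, mul_zero]
    · rw [if_neg (fun h5 => h1 h5.2.1), if_neg h1, zero_mul]
  rw [Finset.sum_congr rfl h2, Finset.sum_comm]
  unfold psum
  rw [Finset.mul_sum]
  apply Finset.sum_le_sum
  intro h _
  rw [Finset.sum_comm, Finset.mul_sum]
  apply Finset.sum_le_sum
  intro h' hh'
  rw [k4_sum_ind]
  exact two_point M h h' hM (Finset.ne_of_mem_erase hh').symm

/-- The good classes contain almost all pairs `(a, h)`. For a bad class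
`1 ≤ #Ac S/KA + #Ac (Icc 1 H)/K` (real numbers; one of the two terms is `> 1`), so the sum of
`#Ac S` over the bad classes is at most `(1/KA) ∑ (#Ac S)^2 + (1/K) ∑ #Ac S #Ac (Icc 1 H)`;
`sum_card_mul_le`, `sum_card_Ac`. -/
theorem good_pairs_ge (w : WG) (M H : ℕ) (hM : Squarefree M) (S : Finset ℕ) (hS : S ⊆ Icc 1 H)
    (hKA : 0 < w.KA)
    (hnum : (S.card * M.totient + (M.totient : ℝ) ^ 2 / M * psum S) / w.KA +
      (S.card * M.totient + (M.totient : ℝ) ^ 2 / M *
        ∑ h ∈ S, ∑ h' ∈ (Icc 1 H).erase h, Gd h h') / w.K ≤ 1 / 10 * (S.card * M.totient)) :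
    9 / 10 * (S.card * (M.totient : ℝ)) ≤
      ∑ a ∈ (range M).filter (okc w M H S), ((Ac M S a).card : ℝ) := by
  classical
  have hM0 : 0 < M := Nat.pos_of_ne_zero hM.ne_zero
  have hKA' : (0 : ℝ) < w.KA := by exact_mod_cast hKA
  have hK' : (0 : ℝ) < w.K := by exact_mod_cast w.Kpos
  set T : Finset ℕ := Icc 1 H with hT
  have htot : ∑ a ∈ range M, ((Ac M S a).card : ℝ) = S.card * (M.totient : ℝ) := by
    exact_mod_cast sum_card_Ac M S hM0
  have hsplit := Finset.sum_filter_add_sum_filter_not (range M) (okc w M H S)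
    (fun a => ((Ac M S a).card : ℝ))
  have hbad : ∑ a ∈ (range M).filter (fun a => ¬ okc w M H S a), ((Ac M S a).card : ℝ) ≤
      1 / 10 * (S.card * M.totient) := by
    have h1 : ∀ a ∈ (range M).filter (fun a => ¬ okc w M H S a), ((Ac M S a).card : ℝ) ≤
        (((Ac M S a).card : ℝ) * (Ac M S a).card) / w.KA +
          (((Ac M S a).card : ℝ) * (Ac M T a).card) / w.K := by
      intro a ha
      rw [Finset.mem_filter] at ha
      have h2 := ha.2
      unfold okc at h2
      rw [not_and_or, not_le, not_le] at h2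
      have hS0 : (0 : ℝ) ≤ (Ac M S a).card := Nat.cast_nonneg _
      have hT0 : (0 : ℝ) ≤ (Ac M T a).card := Nat.cast_nonneg _
      rcases h2 with h2 | h2
      · have h3 : (w.KA : ℝ) ≤ (Ac M S a).card := by exact_mod_cast h2.le
        have h4 : ((Ac M S a).card : ℝ) ≤ (((Ac M S a).card : ℝ) * (Ac M S a).card) / w.KA := by
          rw [le_div_iff₀ hKA']
          exact mul_le_mul_of_nonneg_left h3 hS0
        have h5 : 0 ≤ (((Ac M S a).card : ℝ) * (Ac M T a).card) / w.K := by positivity
        linarith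
      · have h3 : (w.K : ℝ) ≤ (Ac M T a).card := by exact_mod_cast h2.le
        have h4 : ((Ac M S a).card : ℝ) ≤ (((Ac M S a).card : ℝ) * (Ac M T a).card) / w.K := by
          rw [le_div_iff₀ hK']
          exact mul_le_mul_of_nonneg_left h3 hS0
        have h5 : 0 ≤ (((Ac M S a).card : ℝ) * (Ac M S a).card) / w.KA := by positivity
        linarith
    calc _ ≤ ∑ a ∈ (range M).filter (fun a => ¬ okc w M H S a),
          ((((Ac M S a).card : ℝ) * (Ac M S a).card) / w.KA +
          (((Ac M S a).card : ℝ) * (Ac M T a).card) / w.K) := Finset.sum_le_sum h1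
      _ ≤ ∑ a ∈ range M,
          ((((Ac M S a).card : ℝ) * (Ac M S a).card) / w.KA +
          (((Ac M S a).card : ℝ) * (Ac M T a).card) / w.K) := by
          apply Finset.sum_le_sum_of_subset_of_nonneg (Finset.filter_subset _ _)
          intro a _ _
          positivity
      _ = (∑ a ∈ range M, ((Ac M S a).card : ℝ) * (Ac M S a).card) / w.KA +
          (∑ a ∈ range M, ((Ac M S a).card : ℝ) * (Ac M T a).card) / w.K := by
          rw [Finset.sum_add_distrib, Finset.sum_div, Finset.sum_div]
      _ ≤ (S.card * M.totient + (M.totient : ℝ) ^ 2 / M * psum S) / w.KA +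
          (S.card * M.totient + (M.totient : ℝ) ^ 2 / M *
            ∑ h ∈ S, ∑ h' ∈ T.erase h, Gd h h') / w.K := by
          apply add_le_add
          · exact div_le_div_of_nonneg_right
              (sum_card_mul_le M hM S S (Finset.Subset.refl S)) hKA'.le
          · exact div_le_div_of_nonneg_right (sum_card_mul_le M hM S T hS) hK'.le
      _ ≤ _ := hnum
  rw [htot] at hsplit
  linarith

end Pool.Agent.Lib.H92G
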