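import Pool.Agent.Lib.H92G.WG
import Pool.Agent.Lib.H92G.G4
import Pool.Agent.Lib.H15P.MK1
import Pool.Agent.Lib.H15P.MK2
import Pool.Agent.Lib.H15P.LV3

/-!
# Chunk N1: construction of the data from numerical inequalities

Compare `H15P/MK2` (`mkWD`).
-/

open Finset

namespace Pool.Agent.Lib.H92G

open Pool.Agent.Lib.H15P

/-- the coefficients of the one form functions -/
noncomputable def n1_co (nA nD : ℕ) (cA : ℝ) : Bool → (Fin nA ⊕ Fin nD) → ℝ
  | true, Sum.inl _ => cA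
  | true, Sum.inr _ => 0
  | false, Sum.inl _ => 0
  | false, Sum.inr _ => -1 / (nD : ℝ)

/-- the scales of the labels -/
def n1_ix (nA nD b0 : ℕ) : (Fin nA ⊕ Fin nD) → ℕ
  | Sum.inl i => i
  | Sum.inr i => b0 + i

/-- the one form functions -/
noncomputable def n1_DJ {ι : Type} (D : ℕ → Finset ι → ℝ) (nA nD b0 : ℕ) (cA : ℝ) :
    Bool → (Fin nA ⊕ Fin nD) → Finset ι → ℝ :=
  fun a i A => n1_co nA nD cA a i * D (n1_ix nA nD b0 i) A

theorem n1_co_abs (nA nD : ℕ) (cA : ℝ) (hnD : 1 ≤ nD) (hcA : 0 ≤ cA) (a : Bool)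
    (i : Fin nA ⊕ Fin nD) : |n1_co nA nD cA a i| ≤ 1 + cA := by
  have h1 : (1 : ℝ) ≤ nD := by exact_mod_cast hnD
  cases a <;> cases i
  · show |(0 : ℝ)| ≤ 1 + cA
    rw [abs_zero]; linarith
  · show |-1 / (nD : ℝ)| ≤ 1 + cA
    rw [abs_div, abs_neg, abs_one, abs_of_pos (by linarith)]
    have : 1 / (nD : ℝ) ≤ 1 := by
      rw [div_le_one (by linarith)]; exact h1
    linarith
  · show |cA| ≤ 1 + cA
    rw [abs_of_nonneg hcA]; linarith
  · show |(0 : ℝ)| ≤ 1 + cA
    rw [abs_zero]; linarith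

theorem n1_co_sq (nA nD : ℕ) (cA : ℝ) (hnD : 1 ≤ nD) (a : Bool)
    (i : Fin nA ⊕ Fin nD) : n1_co nA nD cA a i ^ 2 ≤ 1 + cA ^ 2 := by
  have h1 : (1 : ℝ) ≤ nD := by exact_mod_cast hnD
  have h0 : 0 ≤ cA ^ 2 := sq_nonneg cA
  cases a <;> cases i
  · show (0 : ℝ) ^ 2 ≤ 1 + cA ^ 2
    linarith
  · show (-1 / (nD : ℝ)) ^ 2 ≤ 1 + cA ^ 2
    rw [div_pow]
    have : (-1 : ℝ) ^ 2 / (nD : ℝ) ^ 2 ≤ 1 := by
      rw [div_le_one (by positivity)]
      nlinarith
    linarith
  · show cA ^ 2 ≤ 1 + cA ^ 2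
    linarith
  · show (0 : ℝ) ^ 2 ≤ 1 + cA ^ 2
    linarith

theorem n1_good {ι : Type} [Fintype ι] [DecidableEq ι] (q : ι → ℝ) (D : ℕ → Finset ι → ℝ)
    (h0 cA : ℝ) (n nA nD b0 : ℕ) (hn : nA + b0 + nD = n) (hnD : 1 ≤ nD) (hcA : 0 ≤ cA)
    (hh : 0 ≤ h0) (hD : Good q (fun i : Fin n => D i) h0) :
    GoodJ q (n1_DJ D nA nD b0 cA) ((1 + cA) ^ 4 * h0) := by
  have hix : ∀ i : Fin nA ⊕ Fin nD, n1_ix nA nD b0 i < n := by
    intro i
    cases i with
    | inl i => have := i.2; show (i : ℕ) < n; omega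
    | inr i => have := i.2; show b0 + (i : ℕ) < n; omega
  refine ⟨hD.q0, hD.q1, ?_, ?_, ?_, ?_⟩
  · intro a i
    have h1 := hD.mean ⟨_, hix i⟩
    unfold n1_DJ
    rw [ex_const_mul]
    simp only at h1
    rw [show ex q (fun A => D (n1_ix nA nD b0 i) A) = 0 from h1, mul_zero]
  · intro a i i' hii
    have e : (fun A => n1_DJ D nA nD b0 cA a i A * n1_DJ D nA nD b0 cA a i' A) =
        fun A => (n1_co nA nD cA a i * n1_co nA nD cA a i') *
          (D (n1_ix nA nD b0 i) A * D (n1_ix nA nD b0 i') A) := by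
      funext A; unfold n1_DJ; ring
    rw [e, ex_const_mul]
    by_cases hne : n1_ix nA nD b0 i = n1_ix nA nD b0 i'
    · have h1 : n1_co nA nD cA a i * n1_co nA nD cA a i' = 0 := by
        cases i with
        | inl i =>
          cases i' with
          | inl i' =>
            exfalso; apply hii
            have : (i : ℕ) = i' := hne
            rw [Fin.ext this]
          | inr i' => cases a <;> simp [n1_co]
        | inr i =>
          cases i' with
          | inl i' => cases a <;> simp [n1_co]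
          | inr i' =>
            exfalso; apply hii
            have h2 : b0 + (i : ℕ) = b0 + i' := hne
            have : (i : ℕ) = i' := by omega
            rw [Fin.ext this]
      rw [h1, zero_mul]
    · have h1 := hD.orth ⟨_, hix i⟩ ⟨_, hix i'⟩ (fun h => hne (congrArg Fin.val h))
      simp only at h1
      rw [h1, mul_zero]
  · intro a i
    have e : (fun A => n1_DJ D nA nD b0 cA a i A ^ 2) =
        fun A => (n1_co nA nD cA a i) ^ 2 * (D (n1_ix nA nD b0 i) A ^ 2) := by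
      funext A; unfold n1_DJ; ring
    rw [e, ex_const_mul]
    have h1 := hD.sq ⟨_, hix i⟩
    simp only at h1
    have h2 := n1_co_abs nA nD cA hnD hcA a i
    have h3 : n1_co nA nD cA a i ^ 2 ≤ (1 + cA) ^ 4 := by
      rw [← sq_abs]
      calc |n1_co nA nD cA a i| ^ 2 ≤ (1 + cA) ^ 2 := pow_le_pow_left₀ (abs_nonneg _) h2 2
        _ ≤ (1 + cA) ^ 4 := pow_le_pow_right₀ (by linarith) (by norm_num)
    calc n1_co nA nD cA a i ^ 2 * ex q (fun A => D (n1_ix nA nD b0 i) A ^ 2)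
        ≤ n1_co nA nD cA a i ^ 2 * h0 := mul_le_mul_of_nonneg_left h1 (sq_nonneg _)
      _ ≤ (1 + cA) ^ 4 * h0 := mul_le_mul_of_nonneg_right h3 hh
  · intro a i
    have e : (fun A => n1_DJ D nA nD b0 cA a i A ^ 4) =
        fun A => (n1_co nA nD cA a i) ^ 4 * (D (n1_ix nA nD b0 i) A ^ 4) := by
      funext A; unfold n1_DJ; ring
    rw [e, ex_const_mul]
    have h1 := hD.fourth ⟨_, hix i⟩
    simp only at h1
    have h2 := n1_co_abs nA nD cA hnD hcA a i
    have h4 : n1_co nA nD cA a i ^ 4 = |n1_co nA nD cA a i| ^ 4 := by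
      rw [← abs_pow]
      exact (abs_of_nonneg (by positivity)).symm
    have h3 : n1_co nA nD cA a i ^ 4 ≤ (1 + cA) ^ 4 := by
      rw [h4]
      exact pow_le_pow_left₀ (abs_nonneg _) h2 4
    calc n1_co nA nD cA a i ^ 4 * ex q (fun A => D (n1_ix nA nD b0 i) A ^ 4)
        ≤ n1_co nA nD cA a i ^ 4 * h0 := mul_le_mul_of_nonneg_left h1 (by positivity)
      _ ≤ (1 + cA) ^ 4 * h0 := mul_le_mul_of_nonneg_right h3 hh

theorem n1_GJ {ι : Type} [Fintype ι] [DecidableEq ι] (q : ι → ℝ) (D : ℕ → Finset ι → ℝ)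
    (cA X : ℝ) (nA nD b0 : ℕ) (a : Bool) (i : Fin nA ⊕ Fin nD)
    (hX : ex q (fun A => D (n1_ix nA nD b0 i) A ^ 2) ≤ X) :
    GJ q (n1_DJ D nA nD b0 cA) a (some i) ≤ n1_co nA nD cA a i ^ 2 * X := by
  show ex q (fun A => n1_DJ D nA nD b0 cA a i A ^ 2) ≤ _
  have e : (fun A => n1_DJ D nA nD b0 cA a i A ^ 2) =
      fun A => (n1_co nA nD cA a i) ^ 2 * (D (n1_ix nA nD b0 i) A ^ 2) := by
    funext A; unfold n1_DJ; ring
  rw [e, ex_const_mul]
  exact mul_le_mul_of_nonneg_left hX (sq_nonneg _)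

theorem n1_prime (W : ℕ) (T : ℝ) : ∀ p ∈ PP W T, p.Prime := by
  intro p hp
  unfold PP at hp
  rw [Finset.mem_filter] at hp
  exact hp.2

theorem n1_LevS_mono {P : Finset ℕ} {F : Finset {p // p ∈ P} → ℝ} {K K' : ℝ}
    (h : LevS P F K) (hK : K ≤ K') : LevS P F K' :=
  fun M b => Lev.mono _ _ _ (h M b) hK

theorem n1_LevS_smul {P : Finset ℕ} {F : Finset {p // p ∈ P} → ℝ} {K : ℝ}
    (h : LevS P F K) (c : ℝ) : LevS P (fun A => c * F A) (|c| * K) :=
  fun M b => Lev.const_mul (h M b) c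

/-- Chunk N1. `P = PP W T`, `n = nA + b0 + nD`, `blk = bk 4000 T`, `N = Nat.log 4000 ⌊2 T⌋₊ + 1`,
`q = qq P K`, `DJ true (inl i) = cA * DB q blk r0 N i`, `DJ true (inr i) = 0`,
`DJ false (inl i) = 0`, `DJ false (inr i) = - DB q blk r0 N (b0 + i) / nD`,
`R (inl i) = RA`, `R (inr i) = RD`, `lm = lam blk r0 N 0`, `el = 2000 log W/T`,
`h = (1 + cA)^4 * (144 ∏_{b ∈ Ico n N} p0 b)`. `blocks_ok` (with `K`), `good_DB`, `bh4_orth` (through
`good_DB`: all `DB .. i`, `i < n`), `ex_DB_sq_le`, `ex_lam_le`, `prod_p0_le`, levels by `levS_DB`,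
`levS_lam`, `prod_XB_le`, `lev_LW` (with `wm = 1`; constants `KD (inl i) = 4 (1 + cA) exp ..`,
`KD (inr i) = 4 exp ..`; the function `0` has level `≤ 1`), `Lev.const_mul`, `Lev.mono`. -/
theorem mkWG (W KA K nA nD b0 r0 : ℕ) (T RA RD C e lv cA : ℝ) (m : Fin nA ⊕ Fin nD → ℕ)
    (hnD : 1 ≤ nD) (hK : 1 ≤ K) (hKW : 4 * K ^ 2 ≤ W) (hcA : 0 ≤ cA)
    (hr0 : ∀ c S : ℕ, ∑ s ∈ Ioc (2 * (r0 + c)) S, (16 * sig) ^ s / (s.factorial : ℝ)
      ≤ (1 / 4) ^ (c + 1))
    (hT1 : Real.log W ≤ T / 4000 ^ (nA + b0 + nD)) (hT2 : 2 ≤ T / 4000 ^ (nA + b0 + nD))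
    (hmA : ∀ i : Fin nA,
      2 * KA * (cA ^ 2 * (4000 * Real.log W * 4000 ^ ((i : ℕ) + 1) / T)) + RA ≤ m (Sum.inl i))
    (hmD : ∀ i : Fin nD,
      2 * K * (4000 * Real.log W * 4000 ^ (b0 + (i : ℕ) + 1) / (T * (nD : ℝ) ^ 2)) + RD
        ≤ m (Sum.inr i))
    (hR : nA * Real.exp (-RA) + nD * Real.exp (-RD) ≤ 1 / 4)
    (hG : (1 + cA ^ 2) * ((nA + nD) *
      (4000 * Real.log W * 4000 ^ (nA + b0 + nD) / T)) ≤ 1)
    (he0 : 0 < e) (he1 : e ≤ 1 / 10)
    (hel : 2000 * Real.log W / T ≤ 1)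
    (hlm : K * (nD * Real.exp (-RD)) * (2000 * Real.log W / T) ≤ e)
    (hC : Real.exp ((((nA + nD : ℕ) : ℝ) + 1) ^ 4 *
      ((1 + cA) ^ 4 * (144000 * Real.log W * 4000 ^ (nA + b0 + nD) / T)) * K) ≤ C)
    (hK1 : Real.exp (2 * (K : ℝ) ^ 2 / W) ≤ 1 + e)
    (hlv1 : 1 ≤ lv)
    (hlv2 : 3 * (((nA + nD : ℕ) : ℝ) * K + 1) ^ (∑ i, m i) *
      ((∏ i : Fin nA, (4 * (1 + cA) *
          Real.exp (12 * ((r0 : ℝ) + 1) * (T / 4000 ^ (i : ℕ)))) ^ m (Sum.inl i)) *
        ∏ i : Fin nD,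
          (4 * Real.exp (12 * ((r0 : ℝ) + 1) * (T / 4000 ^ (b0 + (i : ℕ))))) ^ m (Sum.inr i))
      ≤ lv)
    (hlv3 : Real.exp (12 * ((r0 : ℝ) + 1) * T) ≤ lv) :
    ∃ w : WG, w.P = PP W T ∧ w.W = W ∧ w.KA = KA ∧ w.K = K ∧ w.nA = nA ∧ w.cA = cA ∧ w.C = C ∧
      w.lv = lv ∧ w.e = e ∧ w.el = 2000 * Real.log W / T := by
  set n := nA + b0 + nD with hn
  have hW2 : 2 ≤ W := by nlinarith
  have hT := mk1_Tpos hT2
  have h4n : (1 : ℝ) ≤ 4000 ^ n := one_le_pow₀ (by norm_num)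
  have hTpos : 0 < T := by linarith
  have hBl := blocks_ok W K n r0 T hW2 hK hKW hr0 hT1 hT2
  have hnD1 : (1 : ℝ) ≤ nD := by exact_mod_cast hnD
  set P := PP W T with hP
  set N := Nat.log 4000 ⌊2 * T⌋₊ + 1 with hN
  set q := qq P K with hq
  set blk : {p // p ∈ P} → ℕ := fun i => bk 4000 T i.1 with hblk
  have hprime : ∀ p ∈ P, p.Prime := n1_prime W T
  have hNb : ∀ p ∈ PP W T, bk 4000 T p < N := fun p hp => bk_lt 4000 W T hTpos.le p hp
  have hlogW : 0 < Real.log W := by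
    apply Real.log_pos
    have : (2 : ℝ) ≤ W := by exact_mod_cast hW2
    linarith
  -- products of the p0
  have hp0 : ∀ i, i ≤ n → ∏ b ∈ Ico i N, p0 q blk b ≤ 1000 * Real.log W * 4000 ^ i / T := by
    intro i hi
    have h1 := prod_p0_le 4000 W K T (by norm_num) hW2 hK hKW i N hNb
      (hT1.trans (mk1_div_le hT2 hi)) (hT2.trans (mk1_div_le hT2 hi))
    push_cast at h1
    exact h1
  have hp0nn : ∀ i, 0 ≤ ∏ b ∈ Ico i N, p0 q blk b := fun i =>
    Finset.prod_nonneg fun b _ => bh4_p0_nonneg hBl b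
  set D : ℕ → Finset {p // p ∈ P} → ℝ := fun i => DB q blk r0 N i with hDdef
  have hGood : Good q (fun i : Fin n => D i) (144 * ∏ b ∈ Ico n N, p0 q blk b) :=
    good_DB q blk sig r0 n N hBl
  have hix : ∀ i : Fin nA ⊕ Fin nD, n1_ix nA nD b0 i < n := by
    intro i
    cases i with
    | inl i => have := i.2; show (i : ℕ) < n; omega
    | inr i => have := i.2; show b0 + (i : ℕ) < n; omega
  have hsqD : ∀ i : Fin nA ⊕ Fin nD, ex q (fun A => D (n1_ix nA nD b0 i) A ^ 2) ≤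
      4000 * Real.log W * 4000 ^ (n1_ix nA nD b0 i + 1) / T := by
    intro i
    have h1 := ex_DB_sq_le q blk sig r0 n N hBl (n1_ix nA nD b0 i) (hix i)
    have h2 := hp0 (n1_ix nA nD b0 i + 1) (hix i)
    refine (h1.trans (mul_le_mul_of_nonneg_left h2 (by norm_num))).trans (le_of_eq ?_)
    ring
  have hempty : ∀ i : Fin nA ⊕ Fin nD, D (n1_ix nA nD b0 i) ∅ = 1 := fun i =>
    hGood.empty ⟨_, hix i⟩
  set DJ := n1_DJ D nA nD b0 cA with hDJ
  -- levels
  have hXB : ∀ i, ∏ b ∈ Ico i N, (1 + XB (fun i : {p // p ∈ P} => i.1) blk b) ^ (2 * (r0 + (b - i)))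
      ≤ Real.exp (12 * ((r0 : ℝ) + 1) * (T / 4000 ^ i)) := by
    intro i
    have h1 := prod_XB_le 4000 W T (by norm_num) hTpos.le r0 i N
    push_cast at h1
    exact h1
  have hlevD : ∀ i : Fin nA ⊕ Fin nD, LevS P (D (n1_ix nA nD b0 i))
      (4 * Real.exp (12 * ((r0 : ℝ) + 1) * (T / 4000 ^ (n1_ix nA nD b0 i)))) := by
    intro i
    have h1 := tau_le q blk sig r0 n N hBl _ (hix i)
    have h2 := levS_DB P hprime q blk r0 N _ (lt_of_lt_of_le (hix i) hBl.nN) h1.1 h1.2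
    exact n1_LevS_mono h2 (mul_le_mul_of_nonneg_left (hXB _) (by norm_num))
  set KD : Fin nA ⊕ Fin nD → ℝ := fun i => match i with
    | Sum.inl i => 4 * (1 + cA) * Real.exp (12 * ((r0 : ℝ) + 1) * (T / 4000 ^ (i : ℕ)))
    | Sum.inr i => 4 * Real.exp (12 * ((r0 : ℝ) + 1) * (T / 4000 ^ (b0 + (i : ℕ)))) with hKD
  have hexp : ∀ i : ℕ, 1 ≤ Real.exp (12 * ((r0 : ℝ) + 1) * (T / 4000 ^ i)) := by
    intro i
    apply Real.one_le_exp
    positivity
  have hKD1 : ∀ i, 1 ≤ KD i := by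
    intro i
    cases i with
    | inl i =>
      have h1 := hexp i
      show 1 ≤ 4 * (1 + cA) * Real.exp (12 * ((r0 : ℝ) + 1) * (T / 4000 ^ (i : ℕ)))
      nlinarith
    | inr i =>
      have h1 := hexp (b0 + i)
      show 1 ≤ 4 * Real.exp (12 * ((r0 : ℝ) + 1) * (T / 4000 ^ (b0 + (i : ℕ))))
      linarith
  have hlevDJ : ∀ (a : Bool) (i : Fin nA ⊕ Fin nD), LevS P (DJ a i) (KD i) := by
    intro a i
    have h1 := n1_LevS_smul (hlevD i) (n1_co nA nD cA a i)
    refine n1_LevS_mono h1 ?_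
    have h2 := n1_co_abs nA nD cA hnD hcA a i
    cases i with
    | inl i =>
      show |n1_co nA nD cA a (Sum.inl i)| *
        (4 * Real.exp (12 * ((r0 : ℝ) + 1) * (T / 4000 ^ (i : ℕ)))) ≤
        4 * (1 + cA) * Real.exp (12 * ((r0 : ℝ) + 1) * (T / 4000 ^ (i : ℕ)))
      have h3 := mul_le_mul_of_nonneg_right h2 (by positivity :
        0 ≤ 4 * Real.exp (12 * ((r0 : ℝ) + 1) * (T / 4000 ^ (i : ℕ))))
      linarith
    | inr i =>
      show |n1_co nA nD cA a (Sum.inr i)| *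
        (4 * Real.exp (12 * ((r0 : ℝ) + 1) * (T / 4000 ^ (b0 + (i : ℕ))))) ≤
        4 * Real.exp (12 * ((r0 : ℝ) + 1) * (T / 4000 ^ (b0 + (i : ℕ))))
      have h4 : |n1_co nA nD cA a (Sum.inr i)| ≤ 1 := by
        cases a
        · show |-1 / (nD : ℝ)| ≤ 1
          rw [abs_div, abs_neg, abs_one, abs_of_pos (by linarith), div_le_one (by linarith)]
          exact hnD1
        · show |(0 : ℝ)| ≤ 1
          rw [abs_zero]; norm_num
      exact mul_le_of_le_one_left (by positivity) h4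
  have hlvb : ∀ k : ℕ, k ≤ K → 3 * ((Fintype.card (Fin nA ⊕ Fin nD) : ℝ) * k + 1) ^ (∑ i, m i) *
      ∏ i, KD i ^ m i ≤ lv := by
    intro k hk
    refine le_trans ?_ hlv2
    have h5 : ∏ i, KD i ^ m i = (∏ i : Fin nA, (4 * (1 + cA) *
          Real.exp (12 * ((r0 : ℝ) + 1) * (T / 4000 ^ (i : ℕ)))) ^ m (Sum.inl i)) *
        ∏ i : Fin nD,
          (4 * Real.exp (12 * ((r0 : ℝ) + 1) * (T / 4000 ^ (b0 + (i : ℕ))))) ^ m (Sum.inr i) :=
      Fintype.prod_sum_type _
    rw [h5]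
    apply mul_le_mul_of_nonneg_right
    · apply mul_le_mul_of_nonneg_left _ (by norm_num)
      apply pow_le_pow_left₀ (by positivity)
      rw [Fintype.card_sum, Fintype.card_fin, Fintype.card_fin]
      have : (k : ℝ) ≤ K := by exact_mod_cast hk
      have h1 := mul_le_mul_of_nonneg_left this (Nat.cast_nonneg (nA + nD) : (0 : ℝ) ≤ _)
      linarith
    · rw [← h5]
      exact Finset.prod_nonneg fun i _ => pow_nonneg (by linarith [hKD1 i]) _
  have hell : 0 < 2000 * Real.log W / T := by positivity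
  refine ⟨{ P := P, W := W, KA := KA, K := K, nA := nA, nD := nD, DJ := DJ, m := m
            R := Sum.elim (fun _ => RA) (fun _ => RD)
            lm := lam blk r0 N 0, cA := cA
            h := (1 + cA) ^ 4 * (144 * ∏ b ∈ Ico n N, p0 q blk b), C := C, lv := lv,
            e := e, el := 2000 * Real.log W / T
            prime := hprime
            big := mk1_big W T
            nDpos := hnD
            Kpos := hK
            KW := hKW
            cA0 := hcA
            good := n1_good q D _ cA n nA nD b0 hn.symm hnD hcA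
              (mul_nonneg (by norm_num) (hp0nn n)) hGood
            h0 := mul_nonneg (by positivity) (mul_nonneg (by norm_num) (hp0nn n))
            trl := ?_
            trr := ?_
            fll := ?_
            flr := ?_
            hm := ?_
            hR := ?_
            hG := ?_
            lm0 := lam_nonneg blk r0 N 0
            lm1 := lam_empty blk r0 N 0
            lmel := ?_
            el0 := hell
            el1 := hel
            e0 := he0
            e1 := he1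
            hlm := ?_
            hC := ?_
            hKW := hK1
            lv1 := hlv1
            levL := ?_
            levlm := ?_ }, rfl, rfl, rfl, rfl, rfl, rfl, rfl, rfl, rfl, rfl⟩
  · intro i
    show cA * D (n1_ix nA nD b0 (Sum.inl i)) ∅ = cA
    rw [hempty, mul_one]
  · intro i A
    show (0 : ℝ) * _ = 0
    rw [zero_mul]
  · intro i A
    show (0 : ℝ) * _ = 0
    rw [zero_mul]
  · intro i
    show -1 / (nD : ℝ) * D (n1_ix nA nD b0 (Sum.inr i)) ∅ = -1 / (nD : ℝ)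
    rw [hempty, mul_one]
  · intro i
    have ht := n1_GJ q D cA _ nA nD b0 true i (hsqD i)
    have hf := n1_GJ q D cA _ nA nD b0 false i (hsqD i)
    rw [← hDJ] at ht hf
    have hK0 : (0 : ℝ) ≤ K := Nat.cast_nonneg K
    have hKA0 : (0 : ℝ) ≤ KA := Nat.cast_nonneg KA
    have ht' := mul_le_mul_of_nonneg_left ht hKA0
    have hf' := mul_le_mul_of_nonneg_left hf hK0
    cases i with
    | inl i =>
      refine le_trans ?_ (hmA i)
      simp only [Sum.elim_inl]
      change (KA : ℝ) * GJ q DJ true (some (Sum.inl i)) ≤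
        KA * (cA ^ 2 * (4000 * Real.log W * 4000 ^ ((i : ℕ) + 1) / T)) at ht'
      change (K : ℝ) * GJ q DJ false (some (Sum.inl i)) ≤
        K * ((0 : ℝ) ^ 2 * (4000 * Real.log W * 4000 ^ ((i : ℕ) + 1) / T)) at hf'
      have h0 : (K : ℝ) * ((0 : ℝ) ^ 2 * (4000 * Real.log W * 4000 ^ ((i : ℕ) + 1) / T)) = 0 := by
        ring
      rw [h0] at hf'
      linarith
    | inr i =>
      refine le_trans ?_ (hmD i)
      simp only [Sum.elim_inr]
      change (KA : ℝ) * GJ q DJ true (some (Sum.inr i)) ≤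
        KA * ((0 : ℝ) ^ 2 * (4000 * Real.log W * 4000 ^ (b0 + (i : ℕ) + 1) / T)) at ht'
      change (K : ℝ) * GJ q DJ false (some (Sum.inr i)) ≤
        K * ((-1 / (nD : ℝ)) ^ 2 * (4000 * Real.log W * 4000 ^ (b0 + (i : ℕ) + 1) / T)) at hf'
      have h0 : (KA : ℝ) * ((0 : ℝ) ^ 2 * (4000 * Real.log W * 4000 ^ (b0 + (i : ℕ) + 1) / T)) = 0 := by
        ring
      rw [h0] at ht'
      have h1 : (K : ℝ) * ((-1 / (nD : ℝ)) ^ 2 * (4000 * Real.log W * 4000 ^ (b0 + (i : ℕ) + 1) / T))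
          = K * (4000 * Real.log W * 4000 ^ (b0 + (i : ℕ) + 1) / (T * (nD : ℝ) ^ 2)) := by
        have : (nD : ℝ) ≠ 0 := by linarith
        field_simp
      rw [h1] at hf'
      linarith
  · rw [Fintype.sum_sum_type]
    simp only [Sum.elim_inl, Sum.elim_inr, Finset.sum_const, Finset.card_univ, Fintype.card_fin,
      nsmul_eq_mul]
    exact hR
  · intro a
    refine le_trans ?_ hG
    have h1 : ∀ i : Fin nA ⊕ Fin nD, GJ q DJ a (some i) ≤
        (1 + cA ^ 2) * (4000 * Real.log W * 4000 ^ n / T) := by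
      intro i
      have h2 := n1_GJ q D cA _ nA nD b0 a i (hsqD i)
      rw [← hDJ] at h2
      refine h2.trans ?_
      apply mul_le_mul (n1_co_sq nA nD cA hnD a i) _ (by positivity) (by positivity)
      apply div_le_div_of_nonneg_right _ hTpos.le
      apply mul_le_mul_of_nonneg_left _ (by positivity)
      exact pow_le_pow_right₀ (by norm_num) (hix i)
    refine (Finset.sum_le_sum fun i _ => h1 i).trans (le_of_eq ?_)
    rw [Finset.sum_const, Finset.card_univ, Fintype.card_sum, Fintype.card_fin, Fintype.card_fin,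
      nsmul_eq_mul]
    push_cast
    ring
  · have h1 := ex_lam_le q blk sig r0 n N hBl 0
    have h2 := mul_le_mul_of_nonneg_left (hp0 0 (Nat.zero_le n)) (by norm_num : (0 : ℝ) ≤ 2)
    refine (h1.trans h2).trans (le_of_eq ?_)
    ring
  · simp only [Sum.elim_inr, Finset.sum_const, Finset.card_univ, Fintype.card_fin,
      nsmul_eq_mul]
    exact hlm
  · refine le_trans ?_ hC
    apply Real.exp_le_exp.2
    have h1 : 144 * ∏ b ∈ Ico n N, p0 q blk b ≤ 144000 * Real.log W * 4000 ^ n / T := by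
      have := mul_le_mul_of_nonneg_left (hp0 n le_rfl) (by norm_num : (0 : ℝ) ≤ 144)
      refine this.trans (le_of_eq ?_)
      ring
    apply mul_le_mul_of_nonneg_right _ (Nat.cast_nonneg K)
    apply mul_le_mul_of_nonneg_left _ (by positivity)
    exact mul_le_mul_of_nonneg_left h1 (by positivity)
  · intro J _ _ al B M b wt hJ hwt
    have h1 := lev_LW P hprime (fun j => DJ (al j)) KD hKD1 (fun j i => hlevDJ (al j) i) m B M b wt 1
      zero_le_one hwt
    rw [one_mul] at h1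
    exact Lev.mono _ _ _ h1 (hlvb _ hJ)
  · refine n1_LevS_mono (levS_lam P hprime blk r0 N 0) ((hXB 0).trans ?_)
    rw [pow_zero, div_one]
    exact hlv3

end Pool.Agent.Lib.H92G
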