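import Pool.Agent.Lib.H92G.N1
import Pool.Agent.Lib.H15P.PN2

/-!
# Chunk N2: the data for large `x`

Compare `H15P/PN2` (`pn2_lev`, `exists_WD`).
-/

open Finset

namespace Pool.Agent.Lib.H92G

open Pool.Agent.Lib.H15P

/-- The constants of the weights. `Bn` = exponent of `W`, `η` = level, `α`, `αA` = constants of the
numbers of forms. -/
structure Cons where
  Bn : ℕ
  r0 : ℕ
  nA : ℕ
  nD : ℕ
  b0 : ℕ
  η : ℝ
  τ : ℝ
  cA : ℝ
  α : ℝ
  αA : ℝ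
  RA : ℝ
  RD : ℝ
  e : ℝ
  hBn : 3 ≤ Bn
  hr0 : ∀ c S : ℕ, ∑ s ∈ Ioc (2 * (r0 + c)) S, (16 * sig) ^ s / (s.factorial : ℝ)
      ≤ (1 / 4) ^ (c + 1)
  hnD : 1 ≤ nD
  hη : 0 < η
  hτ : 0 < τ
  hcA : 0 ≤ cA
  hα : 0 < α
  hαA : 0 < αA
  hRA : 0 ≤ RA
  hRD : 0 ≤ RD
  he0 : 0 < e
  he1 : e ≤ 1 / 10
  c1 : 12 * ((r0 : ℝ) + 1) * (32000000 * (Bn + 1) * (αA * cA ^ 2 * nA) + 2 * (RA + 1) * τ)
    ≤ η / 64
  c2 : 12 * ((r0 : ℝ) + 1) * (32000000 * (Bn + 1) * α / nD + 2 * (RD + 1) * τ / 4000 ^ b0)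
    ≤ η / 64
  c3 : nA * Real.exp (-RA) + nD * Real.exp (-RD) ≤ 1 / 4
  c4 : 2000 * (Bn + 1) * α / τ * (nD * Real.exp (-RD)) ≤ e
  c5 : 12 * ((r0 : ℝ) + 1) * τ ≤ η / 64

/-- The level of the allowed forms: with
`m i ≤ 8000 αA cA^2 (Bn + 1) 4000^(i+1)/τ + RA + 1` (`i < nA`), `T = τ L`:
`∑_i m_i 12 (r0+1) T/4000^i ≤ 12 (r0+1) L (32000000 (Bn+1) αA cA^2 nA + 2 (RA+1) τ)
≤ (η/64) L`. -/
theorem n2_levA (c : Cons) (L : ℝ) (hL : 0 ≤ L) (m : Fin c.nA → ℕ)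
    (hm : ∀ i : Fin c.nA, (m i : ℝ) ≤
      8000 * (c.Bn + 1) * (c.αA * c.cA ^ 2) * 4000 ^ ((i : ℕ) + 1) / c.τ + c.RA + 1) :
    ∏ i : Fin c.nA, (4 * (1 + c.cA) *
        Real.exp (12 * ((c.r0 : ℝ) + 1) * (c.τ * L / 4000 ^ (i : ℕ)))) ^ m i
      ≤ (4 * (1 + c.cA)) ^ (∑ i, m i) * Real.exp (c.η / 64 * L) := by
  have hτ := c.hτ
  have hcA := c.hcA
  have hRA := c.hRA
  have h1 : ∏ i : Fin c.nA, (4 * (1 + c.cA) *
        Real.exp (12 * ((c.r0 : ℝ) + 1) * (c.τ * L / 4000 ^ (i : ℕ)))) ^ m i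
      = (4 * (1 + c.cA)) ^ (∑ i, m i) *
        Real.exp (∑ i : Fin c.nA, (m i : ℝ) *
          (12 * ((c.r0 : ℝ) + 1) * (c.τ * L / 4000 ^ (i : ℕ)))) := by
    rw [Real.exp_sum, ← prod_pow_eq_pow_sum, ← prod_mul_distrib]
    apply prod_congr rfl
    intro i _
    rw [mul_pow, ← Real.exp_nat_mul]
  rw [h1]
  apply mul_le_mul_of_nonneg_left _ (by positivity)
  apply Real.exp_le_exp.mpr
  have h2 : ∑ i : Fin c.nA, (m i : ℝ) * (12 * ((c.r0 : ℝ) + 1) * (c.τ * L / 4000 ^ (i : ℕ)))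
      ≤ ∑ i : Fin c.nA, (12 * ((c.r0 : ℝ) + 1)) * L *
        (32000000 * (c.Bn + 1) * (c.αA * c.cA ^ 2) +
          (c.RA + 1) * c.τ * (1 / 4000 ^ (i : ℕ))) := by
    apply sum_le_sum
    intro i _
    have hp : (0 : ℝ) < 4000 ^ (i : ℕ) := by positivity
    have h3 : (m i : ℝ) * (12 * ((c.r0 : ℝ) + 1) * (c.τ * L / 4000 ^ (i : ℕ)))
        ≤ (8000 * (c.Bn + 1) * (c.αA * c.cA ^ 2) * 4000 ^ ((i : ℕ) + 1) / c.τ + c.RA + 1) *
          (12 * ((c.r0 : ℝ) + 1) * (c.τ * L / 4000 ^ (i : ℕ))) :=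
      mul_le_mul_of_nonneg_right (hm i) (by positivity)
    refine h3.trans (le_of_eq ?_)
    rw [pow_succ]
    field_simp
    ring
  refine h2.trans ?_
  rw [← mul_sum, sum_add_distrib, sum_const, card_univ, Fintype.card_fin, nsmul_eq_mul,
    ← mul_sum]
  have h4 := pn2_geom c.nA
  have h5 : (c.nA : ℝ) * (32000000 * (c.Bn + 1) * (c.αA * c.cA ^ 2)) =
      32000000 * (c.Bn + 1) * (c.αA * c.cA ^ 2 * c.nA) := by ring
  rw [h5]
  have h6 : 32000000 * (c.Bn + 1) * (c.αA * c.cA ^ 2 * c.nA) +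
      (c.RA + 1) * c.τ * ∑ i : Fin c.nA, (1 / (4000 : ℝ) ^ (i : ℕ))
      ≤ 32000000 * (c.Bn + 1) * (c.αA * c.cA ^ 2 * c.nA) + 2 * (c.RA + 1) * c.τ := by
    have : (c.RA + 1) * c.τ * ∑ i : Fin c.nA, (1 / (4000 : ℝ) ^ (i : ℕ)) ≤
        (c.RA + 1) * c.τ * 2 :=
      mul_le_mul_of_nonneg_left h4 (by positivity)
    linarith
  calc 12 * ((c.r0 : ℝ) + 1) * L *
        (32000000 * (c.Bn + 1) * (c.αA * c.cA ^ 2 * c.nA) +
          (c.RA + 1) * c.τ * ∑ i : Fin c.nA, (1 / (4000 : ℝ) ^ (i : ℕ)))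
      ≤ 12 * ((c.r0 : ℝ) + 1) * L *
        (32000000 * (c.Bn + 1) * (c.αA * c.cA ^ 2 * c.nA) + 2 * (c.RA + 1) * c.τ) :=
        mul_le_mul_of_nonneg_left h6 (by positivity)
    _ = (12 * ((c.r0 : ℝ) + 1) *
        (32000000 * (c.Bn + 1) * (c.αA * c.cA ^ 2 * c.nA) + 2 * (c.RA + 1) * c.τ)) * L := by
        ring
    _ ≤ c.η / 64 * L := mul_le_mul_of_nonneg_right c.c1 hL

/-- The level of the disallowed forms: with
`m i ≤ 8000 α (Bn + 1) 4000^(b0+i+1)/(τ nD^2) + RD + 1` (`i < nD`). -/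
theorem n2_levD (c : Cons) (L : ℝ) (hL : 0 ≤ L) (m : Fin c.nD → ℕ)
    (hm : ∀ i : Fin c.nD, (m i : ℝ) ≤
      8000 * (c.Bn + 1) * c.α * 4000 ^ (c.b0 + (i : ℕ) + 1) / (c.τ * (c.nD : ℝ) ^ 2) +
        c.RD + 1) :
    ∏ i : Fin c.nD, (4 *
        Real.exp (12 * ((c.r0 : ℝ) + 1) * (c.τ * L / 4000 ^ (c.b0 + (i : ℕ))))) ^ m i
      ≤ 4 ^ (∑ i, m i) * Real.exp (c.η / 64 * L) := by
  have hτ := c.hτ
  have hRD := c.hRD
  have hn0 : (0 : ℝ) < c.nD := by exact_mod_cast c.hnD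
  have h1 : ∏ i : Fin c.nD, (4 *
        Real.exp (12 * ((c.r0 : ℝ) + 1) * (c.τ * L / 4000 ^ (c.b0 + (i : ℕ))))) ^ m i
      = 4 ^ (∑ i, m i) *
        Real.exp (∑ i : Fin c.nD, (m i : ℝ) *
          (12 * ((c.r0 : ℝ) + 1) * (c.τ * L / 4000 ^ (c.b0 + (i : ℕ))))) := by
    rw [Real.exp_sum, ← prod_pow_eq_pow_sum, ← prod_mul_distrib]
    apply prod_congr rfl
    intro i _
    rw [mul_pow, ← Real.exp_nat_mul]
  rw [h1]
  apply mul_le_mul_of_nonneg_left _ (by positivity)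
  apply Real.exp_le_exp.mpr
  have h2 : ∑ i : Fin c.nD, (m i : ℝ) *
        (12 * ((c.r0 : ℝ) + 1) * (c.τ * L / 4000 ^ (c.b0 + (i : ℕ))))
      ≤ ∑ i : Fin c.nD, (12 * ((c.r0 : ℝ) + 1)) * L *
        (32000000 * (c.Bn + 1) * c.α / (c.nD : ℝ) ^ 2 +
          (c.RD + 1) * c.τ / 4000 ^ c.b0 * (1 / 4000 ^ (i : ℕ))) := by
    apply sum_le_sum
    intro i _
    have hp : (0 : ℝ) < 4000 ^ (i : ℕ) := by positivity
    have hp' : (0 : ℝ) < 4000 ^ c.b0 := by positivity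
    have h3 : (m i : ℝ) * (12 * ((c.r0 : ℝ) + 1) * (c.τ * L / 4000 ^ (c.b0 + (i : ℕ))))
        ≤ (8000 * (c.Bn + 1) * c.α * 4000 ^ (c.b0 + (i : ℕ) + 1) / (c.τ * (c.nD : ℝ) ^ 2) +
            c.RD + 1) *
          (12 * ((c.r0 : ℝ) + 1) * (c.τ * L / 4000 ^ (c.b0 + (i : ℕ)))) :=
      mul_le_mul_of_nonneg_right (hm i) (by positivity)
    refine h3.trans (le_of_eq ?_)
    rw [pow_succ, pow_add]
    field_simp
    ring
  refine h2.trans ?_
  rw [← mul_sum, sum_add_distrib, ← mul_sum]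
  simp only [sum_const, card_univ, Fintype.card_fin, nsmul_eq_mul]
  have h4 := pn2_geom c.nD
  have h5 : (c.nD : ℝ) * (32000000 * (c.Bn + 1) * c.α / (c.nD : ℝ) ^ 2) =
      32000000 * (c.Bn + 1) * c.α / c.nD := by
    field_simp
  rw [h5]
  have h6 : 32000000 * (c.Bn + 1) * c.α / c.nD +
      (c.RD + 1) * c.τ / 4000 ^ c.b0 * ∑ i : Fin c.nD, (1 / (4000 : ℝ) ^ (i : ℕ))
      ≤ 32000000 * (c.Bn + 1) * c.α / c.nD + 2 * (c.RD + 1) * c.τ / 4000 ^ c.b0 := by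
    have h7 : (c.RD + 1) * c.τ / 4000 ^ c.b0 * ∑ i : Fin c.nD, (1 / (4000 : ℝ) ^ (i : ℕ)) ≤
        (c.RD + 1) * c.τ / 4000 ^ c.b0 * 2 :=
      mul_le_mul_of_nonneg_left h4 (by positivity)
    have h8 : (c.RD + 1) * c.τ / 4000 ^ c.b0 * 2 = 2 * (c.RD + 1) * c.τ / 4000 ^ c.b0 := by ring
    linarith
  calc 12 * ((c.r0 : ℝ) + 1) * L *
        (32000000 * (c.Bn + 1) * c.α / c.nD +
          (c.RD + 1) * c.τ / 4000 ^ c.b0 * ∑ i : Fin c.nD, (1 / (4000 : ℝ) ^ (i : ℕ)))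
      ≤ 12 * ((c.r0 : ℝ) + 1) * L *
        (32000000 * (c.Bn + 1) * c.α / c.nD + 2 * (c.RD + 1) * c.τ / 4000 ^ c.b0) :=
        mul_le_mul_of_nonneg_left h6 (by positivity)
    _ = (12 * ((c.r0 : ℝ) + 1) *
        (32000000 * (c.Bn + 1) * c.α / c.nD + 2 * (c.RD + 1) * c.τ / 4000 ^ c.b0)) * L := by
        ring
    _ ≤ c.η / 64 * L := mul_le_mul_of_nonneg_right c.c2 hL

/-- Chunk N2. All numerical hypotheses of `mkWG` for large `L = log x`, with `W = ⌈L^Bn⌉`,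
`K = ⌊α L/log L⌋`, `KA = ⌊αA L/log L⌋`, `T = τ L`, `lv = exp (η L/16)`,
`m (inl i) = ⌈8000 αA cA^2 (Bn + 1) 4000^(i+1)/τ + RA⌉`,
`m (inr i) = ⌈8000 α (Bn + 1) 4000^(b0+i+1)/(τ nD^2) + RD⌉`,
`C = exp ((nA+nD+1)^4 (1+cA)^4 144000 (Bn+1) α 4000^n/τ)` (`log W ≤ (Bn + 1) log L`, so
`K log W/T ≤ (Bn + 1) α/τ`). -/
theorem exists_WG (c : Cons) : ∃ C L0 : ℝ, 1 ≤ C ∧ 2 ≤ L0 ∧ ∀ L : ℝ, L0 ≤ L →
    ∃ w : WG, w.P = PP w.W (c.τ * L) ∧ w.W = ⌈L ^ c.Bn⌉₊ ∧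
      w.KA = ⌊c.αA * L / Real.log L⌋₊ ∧ w.K = ⌊c.α * L / Real.log L⌋₊ ∧ w.nA = c.nA ∧
      w.cA = c.cA ∧ w.C = C ∧ w.lv = Real.exp (c.η / 16 * L) ∧ w.e = c.e ∧
      w.el = 2000 * Real.log w.W / (c.τ * L) := by
  obtain ⟨Bn, r0, nA, nD, b0, η, τ, cA, α, αA, RA, RD, e, hBn, hr0, hnD, hη, hτ, hcA, hα, hαA,
    hRA, hRD, he0, he1, c1, c2, c3, c4, c5⟩ := c
  have hc : ∃ c : Cons, c = ⟨Bn, r0, nA, nD, b0, η, τ, cA, α, αA, RA, RD, e, hBn, hr0, hnD, hη,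
    hτ, hcA, hα, hαA, hRA, hRD, he0, he1, c1, c2, c3, c4, c5⟩ := ⟨_, rfl⟩
  obtain ⟨c, hcdef⟩ := hc
  simp only
  set n := nA + b0 + nD with hn
  have hn0 : (0 : ℝ) < nD := by exact_mod_cast hnD
  set mA : Fin nA → ℕ := fun i =>
    ⌈8000 * ((Bn : ℝ) + 1) * (αA * cA ^ 2) * 4000 ^ ((i : ℕ) + 1) / τ + RA⌉₊ with hmA
  set mD : Fin nD → ℕ := fun i =>
    ⌈8000 * ((Bn : ℝ) + 1) * α * 4000 ^ (b0 + (i : ℕ) + 1) / (τ * (nD : ℝ) ^ 2) + RD⌉₊ with hmD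
  set m : Fin nA ⊕ Fin nD → ℕ := Sum.elim mA mD with hm
  set S : ℕ := ∑ i, m i with hS
  set SA : ℕ := ∑ i, mA i with hSA
  set SD : ℕ := ∑ i, mD i with hSD
  set Q : ℝ := (4 * (1 + cA)) ^ SA * 4 ^ SD with hQ
  have hQ0 : 0 < Q := by positivity
  set C : ℝ := Real.exp ((((nA + nD : ℕ) : ℝ) + 1) ^ 4 *
    ((1 + cA) ^ 4 * (144000 * ((Bn : ℝ) + 1) * α * 4000 ^ n / τ))) with hC
  have hC1 : 1 ≤ C := Real.one_le_exp (by positivity)
  have hlog : 0 < Real.log (1 + e) := Real.log_pos (by linarith)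
  -- eventual facts
  have hev : ∀ᶠ L : ℝ in Filter.atTop, 2 ≤ L ∧ 1 ≤ Real.log L ∧
      ((Bn : ℝ) + 1) * Real.log L ≤ τ * L / 4000 ^ n ∧ 2 ≤ τ * L / 4000 ^ n ∧
      Real.log L ≤ α * L ∧ 4 * α ^ 2 ≤ L ∧ 2 * α ^ 2 / L ≤ Real.log (1 + e) ∧
      ((nA + nD : ℕ) : ℝ) * (α * L) + 1 ≤ L ^ 2 ∧
      3 * Q * L ^ (2 * S) ≤ Real.exp (η / 64 * L) ∧
      (1 + cA ^ 2) * ((nA + nD) * (4000 * 4000 ^ n)) * (((Bn : ℝ) + 1) * Real.log L) ≤ τ * L ∧
      2000 * (((Bn : ℝ) + 1) * Real.log L) ≤ τ * L := by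
    have hp : (0 : ℝ) < 4000 ^ n := by positivity
    have hB : (0 : ℝ) < (Bn : ℝ) + 1 := by positivity
    have e1 := pn2_log (τ / 4000 ^ n / ((Bn : ℝ) + 1)) (by positivity)
    have e2 := pn2_log α hα
    have e3 := pn2_pow_exp (2 * S) (η / 64) (1 / (3 * Q)) (by positivity) (by positivity)
    have hG0 : 0 < (1 + cA ^ 2) * (((nA : ℝ) + nD) * (4000 * 4000 ^ n)) * ((Bn : ℝ) + 1) := by
      positivity
    have e4 := pn2_log (τ / ((1 + cA ^ 2) * (((nA : ℝ) + nD) * (4000 * 4000 ^ n)) *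
      ((Bn : ℝ) + 1))) (by positivity)
    have e5 := pn2_log (τ / (2000 * ((Bn : ℝ) + 1))) (by positivity)
    filter_upwards [e1, e2, e3, e4, e5, Filter.eventually_ge_atTop 2,
      Filter.eventually_ge_atTop (Real.exp 1), Filter.eventually_ge_atTop (2 * 4000 ^ n / τ),
      Filter.eventually_ge_atTop (4 * α ^ 2),
      Filter.eventually_ge_atTop (2 * α ^ 2 / Real.log (1 + e)),
      Filter.eventually_ge_atTop (((nA + nD : ℕ) : ℝ) * α + 1)]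
      with L e1 e2 e3 e4 e5 a1 a2 a3 a4 a5 a6
    have hL0 : 0 < L := by linarith
    refine ⟨a1, ?_, ?_, ?_, e2, a4, ?_, ?_, ?_, ?_, ?_⟩
    · rw [Real.le_log_iff_exp_le hL0]; exact a2
    · have h := mul_le_mul_of_nonneg_left e1 hB.le
      refine h.trans (le_of_eq ?_)
      field_simp
    · rw [le_div_iff₀ hp]
      rw [div_le_iff₀ hτ] at a3
      linarith
    · rw [div_le_iff₀ hL0]
      rw [div_le_iff₀ hlog] at a5
      linarith
    · nlinarith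
    · have h3 : (0 : ℝ) < 3 * Q := by positivity
      calc 3 * Q * L ^ (2 * S) ≤ 3 * Q * (1 / (3 * Q) * Real.exp (η / 64 * L)) :=
            mul_le_mul_of_nonneg_left e3 h3.le
        _ = Real.exp (η / 64 * L) := by field_simp
    · have h := mul_le_mul_of_nonneg_left e4 hG0.le
      have h2 : (1 + cA ^ 2) * (((nA : ℝ) + nD) * (4000 * 4000 ^ n)) * ((Bn : ℝ) + 1) *
          (τ / ((1 + cA ^ 2) * (((nA : ℝ) + nD) * (4000 * 4000 ^ n)) *
      ((Bn : ℝ) + 1)) * L) = τ * L := by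
        field_simp
      rw [h2] at h
      linarith
    · have h := mul_le_mul_of_nonneg_left e5 (by positivity : 0 ≤ 2000 * ((Bn : ℝ) + 1))
      have h2 : 2000 * ((Bn : ℝ) + 1) * (τ / (2000 * ((Bn : ℝ) + 1)) * L) = τ * L := by
        field_simp
      rw [h2] at h
      linarith
  rw [Filter.eventually_atTop] at hev
  obtain ⟨L1, hL1⟩ := hev
  refine ⟨C, max L1 2, hC1, le_max_right _ _, fun L hL => ?_⟩
  obtain ⟨f1, f2, f3, f4, f5, f6, f7, f8, f9, f10, f11⟩ := hL1 L ((le_max_left _ _).trans hL)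
  set L2 := Real.log L with hL2def
  have hL0 : 0 < L := by linarith
  have hL20 : 0 < L2 := by linarith
  set K : ℕ := ⌊α * L / L2⌋₊ with hKdef
  set KA : ℕ := ⌊αA * L / L2⌋₊ with hKAdef
  set W : ℕ := ⌈L ^ Bn⌉₊ with hWdef
  have hKle : (K : ℝ) ≤ α * L / L2 := Nat.floor_le (by positivity)
  have hKAle : (KA : ℝ) ≤ αA * L / L2 := Nat.floor_le (by positivity)
  have hKle2 : (K : ℝ) ≤ α * L := hKle.trans (div_le_self (by positivity) f2)
  have hK1 : 1 ≤ K := by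
    rw [hKdef, Nat.one_le_floor_iff, le_div_iff₀ hL20]
    linarith
  have hWge : L ^ Bn ≤ W := Nat.le_ceil _
  have hLB : L ^ 3 ≤ L ^ Bn := pow_le_pow_right₀ (by linarith) hBn
  have hWle : (W : ℝ) ≤ L ^ (Bn + 1) := by
    have h1 : (W : ℝ) < L ^ Bn + 1 := Nat.ceil_lt_add_one (by positivity)
    have h2 : (1 : ℝ) ≤ L ^ Bn := one_le_pow₀ (by linarith)
    rw [pow_succ]
    nlinarith
  have hLB0 : (0 : ℝ) < L ^ Bn := by positivity
  have hW0 : (0 : ℝ) < W := by linarith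
  have hlogW : Real.log W ≤ ((Bn : ℝ) + 1) * L2 := by
    calc Real.log W ≤ Real.log (L ^ (Bn + 1)) := Real.log_le_log hW0 hWle
      _ = ((Bn : ℝ) + 1) * L2 := by rw [Real.log_pow, hL2def]; push_cast; ring
  have hlogW0 : 0 ≤ Real.log W := by
    apply Real.log_nonneg
    have : (1 : ℝ) ≤ L ^ Bn := one_le_pow₀ (by linarith)
    linarith
  have hK2 : (K : ℝ) ^ 2 ≤ α ^ 2 * L ^ 2 := by
    rw [← mul_pow]
    exact pow_le_pow_left₀ (Nat.cast_nonneg K) hKle2 2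
  have hKW : (K : ℝ) ^ 2 / W ≤ α ^ 2 / L := by
    rw [div_le_div_iff₀ hW0 hL0]
    calc (K : ℝ) ^ 2 * L ≤ α ^ 2 * L ^ 2 * L := mul_le_mul_of_nonneg_right hK2 hL0.le
      _ = α ^ 2 * L ^ 3 := by ring
      _ ≤ α ^ 2 * W := mul_le_mul_of_nonneg_left (hLB.trans hWge) (sq_nonneg _)
  set T := τ * L with hTdef
  have hT0 : 0 < T := by positivity
  -- the main ratios
  have hratio : (K : ℝ) * Real.log W / T ≤ ((Bn : ℝ) + 1) * α / τ := by
    rw [div_le_div_iff₀ hT0 hτ]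
    calc (K : ℝ) * Real.log W * τ ≤ (α * L / L2) * (((Bn : ℝ) + 1) * L2) * τ := by
          apply mul_le_mul_of_nonneg_right _ hτ.le
          exact mul_le_mul hKle hlogW hlogW0 (by positivity)
      _ = ((Bn : ℝ) + 1) * α * T := by rw [hTdef]; field_simp
  have hratioA : (KA : ℝ) * Real.log W / T ≤ ((Bn : ℝ) + 1) * αA / τ := by
    rw [div_le_div_iff₀ hT0 hτ]
    calc (KA : ℝ) * Real.log W * τ ≤ (αA * L / L2) * (((Bn : ℝ) + 1) * L2) * τ := by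
          apply mul_le_mul_of_nonneg_right _ hτ.le
          exact mul_le_mul hKAle hlogW hlogW0 (by positivity)
      _ = ((Bn : ℝ) + 1) * αA * T := by rw [hTdef]; field_simp
  have hmain : ∃ w : WG, w.P = PP W T ∧ w.W = W ∧ w.KA = KA ∧ w.K = K ∧ w.nA = nA ∧ w.cA = cA ∧
      w.C = C ∧ w.lv = Real.exp (η / 16 * L) ∧ w.e = e ∧ w.el = 2000 * Real.log W / T := by
    refine mkWG W KA K nA nD b0 r0 T RA RD C e (Real.exp (η / 16 * L)) cA m hnD hK1 ?_ hcA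
      hr0 (hlogW.trans f3) f4 ?_ ?_ c3 ?_ he0 he1 ?_ ?_ ?_ ?_ ?_ ?_ ?_
    · -- hKW
      have h1 : 4 * (K : ℝ) ^ 2 ≤ W := by
        have h2 : 4 * (K : ℝ) ^ 2 ≤ 4 * α ^ 2 * L ^ 2 := by linarith
        have h3 : 4 * α ^ 2 * L ^ 2 ≤ L * L ^ 2 := mul_le_mul_of_nonneg_right f6 (sq_nonneg _)
        have h4 : L * L ^ 2 = L ^ 3 := by ring
        linarith
      exact_mod_cast h1
    · -- hmA
      intro i
      have h1 : 2 * (KA : ℝ) * (cA ^ 2 * (4000 * Real.log W * 4000 ^ ((i : ℕ) + 1) / T))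
          = (KA * Real.log W / T) * (8000 * cA ^ 2 * 4000 ^ ((i : ℕ) + 1)) := by
        field_simp
        ring
      have h2 : (KA * Real.log W / T) * (8000 * cA ^ 2 * 4000 ^ ((i : ℕ) + 1))
          ≤ (((Bn : ℝ) + 1) * αA / τ) * (8000 * cA ^ 2 * 4000 ^ ((i : ℕ) + 1)) :=
        mul_le_mul_of_nonneg_right hratioA (by positivity)
      have h3 : (((Bn : ℝ) + 1) * αA / τ) * (8000 * cA ^ 2 * 4000 ^ ((i : ℕ) + 1))
          = 8000 * ((Bn : ℝ) + 1) * (αA * cA ^ 2) * 4000 ^ ((i : ℕ) + 1) / τ := by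
        field_simp
      have h4 := Nat.le_ceil
        (8000 * ((Bn : ℝ) + 1) * (αA * cA ^ 2) * 4000 ^ ((i : ℕ) + 1) / τ + RA)
      rw [h1]
      show _ ≤ (mA i : ℝ)
      simp only [hmA]
      linarith
    · -- hmD
      intro i
      have h1 : 2 * (K : ℝ) * (4000 * Real.log W * 4000 ^ (b0 + (i : ℕ) + 1) /
            (T * (nD : ℝ) ^ 2))
          = (K * Real.log W / T) * (8000 * 4000 ^ (b0 + (i : ℕ) + 1) / (nD : ℝ) ^ 2) := by
        field_simp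
        ring
      have h2 : (K * Real.log W / T) * (8000 * 4000 ^ (b0 + (i : ℕ) + 1) / (nD : ℝ) ^ 2)
          ≤ (((Bn : ℝ) + 1) * α / τ) * (8000 * 4000 ^ (b0 + (i : ℕ) + 1) / (nD : ℝ) ^ 2) :=
        mul_le_mul_of_nonneg_right hratio (by positivity)
      have h3 : (((Bn : ℝ) + 1) * α / τ) * (8000 * 4000 ^ (b0 + (i : ℕ) + 1) / (nD : ℝ) ^ 2)
          = 8000 * ((Bn : ℝ) + 1) * α * 4000 ^ (b0 + (i : ℕ) + 1) / (τ * (nD : ℝ) ^ 2) := by
        field_simp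
      have h4 := Nat.le_ceil
        (8000 * ((Bn : ℝ) + 1) * α * 4000 ^ (b0 + (i : ℕ) + 1) / (τ * (nD : ℝ) ^ 2) + RD)
      rw [h1]
      show _ ≤ (mD i : ℝ)
      simp only [hmD]
      linarith
    · -- hG
      have h1 : (1 + cA ^ 2) * (((nA : ℝ) + nD) * (4000 * Real.log W * 4000 ^ n / T)) =
          (1 + cA ^ 2) * (((nA : ℝ) + nD) * (4000 * 4000 ^ n)) * Real.log W / T := by
        ring
      rw [h1, div_le_one hT0]
      refine le_trans ?_ f10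
      exact mul_le_mul_of_nonneg_left hlogW (by positivity)
    · -- hel
      rw [div_le_one hT0]
      refine le_trans ?_ f11
      exact mul_le_mul_of_nonneg_left hlogW (by norm_num)
    · -- hlm
      refine le_trans ?_ c4
      have h1 : (K : ℝ) * (nD * Real.exp (-RD)) * (2000 * Real.log W / T)
          = 2000 * (nD * Real.exp (-RD)) * (K * Real.log W / T) := by
        ring
      have h2 : 2000 * ((Bn : ℝ) + 1) * α / τ * (nD * Real.exp (-RD)) =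
          2000 * (nD * Real.exp (-RD)) * (((Bn : ℝ) + 1) * α / τ) := by
        ring
      rw [h1, h2]
      exact mul_le_mul_of_nonneg_left hratio (by positivity)
    · -- hC
      rw [hC]
      apply Real.exp_le_exp.mpr
      have h1 : (((nA + nD : ℕ) : ℝ) + 1) ^ 4 *
          ((1 + cA) ^ 4 * (144000 * Real.log W * 4000 ^ n / T)) * K
          = (((nA + nD : ℕ) : ℝ) + 1) ^ 4 * (1 + cA) ^ 4 * 144000 * 4000 ^ n *
            (K * Real.log W / T) := by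
        ring
      have h2 : (((nA + nD : ℕ) : ℝ) + 1) ^ 4 *
          ((1 + cA) ^ 4 * (144000 * ((Bn : ℝ) + 1) * α * 4000 ^ n / τ))
          = (((nA + nD : ℕ) : ℝ) + 1) ^ 4 * (1 + cA) ^ 4 * 144000 * 4000 ^ n *
            (((Bn : ℝ) + 1) * α / τ) := by
        ring
      rw [h1, h2]
      exact mul_le_mul_of_nonneg_left hratio (by positivity)
    · -- hK1
      rw [← Real.exp_log (show (0 : ℝ) < 1 + e by linarith)]
      apply Real.exp_le_exp.mpr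
      rw [mul_div_assoc]
      refine le_trans ?_ f7
      rw [mul_div_assoc]
      linarith
    · apply Real.one_le_exp
      positivity
    · -- hlv2
      have hA' : ∀ i : Fin nA, (mA i : ℝ)
          ≤ 8000 * ((Bn : ℝ) + 1) * (αA * cA ^ 2) * 4000 ^ ((i : ℕ) + 1) / τ + RA + 1 := by
        intro i
        exact (Nat.ceil_lt_add_one (by positivity)).le
      have hD' : ∀ i : Fin nD, (mD i : ℝ)
          ≤ 8000 * ((Bn : ℝ) + 1) * α * 4000 ^ (b0 + (i : ℕ) + 1) / (τ * (nD : ℝ) ^ 2) +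
            RD + 1 := by
        intro i
        exact (Nat.ceil_lt_add_one (by positivity)).le
      have h1A := n2_levA ⟨Bn, r0, nA, nD, b0, η, τ, cA, α, αA, RA, RD, e, hBn, hr0, hnD, hη,
        hτ, hcA, hα, hαA, hRA, hRD, he0, he1, c1, c2, c3, c4, c5⟩ L hL0.le mA hA'
      have h1D := n2_levD ⟨Bn, r0, nA, nD, b0, η, τ, cA, α, αA, RA, RD, e, hBn, hr0, hnD, hη,
        hτ, hcA, hα, hαA, hRA, hRD, he0, he1, c1, c2, c3, c4, c5⟩ L hL0.le mD hD'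
      simp only at h1A h1D
      rw [← hTdef] at h1A h1D
      have h2 : (((nA + nD : ℕ) : ℝ) * K + 1) ^ S ≤ L ^ (2 * S) := by
        rw [pow_mul]
        apply pow_le_pow_left₀ (by positivity)
        refine le_trans ?_ f8
        have := mul_le_mul_of_nonneg_left hKle2 (Nat.cast_nonneg (nA + nD) : (0 : ℝ) ≤ _)
        linarith
      have h3 : (∏ i : Fin nA, (4 * (1 + cA) *
          Real.exp (12 * ((r0 : ℝ) + 1) * (T / 4000 ^ (i : ℕ)))) ^ m (Sum.inl i)) *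
        ∏ i : Fin nD,
          (4 * Real.exp (12 * ((r0 : ℝ) + 1) * (T / 4000 ^ (b0 + (i : ℕ))))) ^ m (Sum.inr i)
          ≤ Q * (Real.exp (η / 64 * L) * Real.exp (η / 64 * L)) := by
        calc _ ≤ ((4 * (1 + cA)) ^ SA * Real.exp (η / 64 * L)) *
              (4 ^ SD * Real.exp (η / 64 * L)) := by
              apply mul_le_mul h1A h1D (prod_nonneg fun i _ => by positivity) (by positivity)
          _ = Q * (Real.exp (η / 64 * L) * Real.exp (η / 64 * L)) := by rw [hQ]; ring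
      calc 3 * (((nA + nD : ℕ) : ℝ) * K + 1) ^ S *
            ((∏ i : Fin nA, (4 * (1 + cA) *
          Real.exp (12 * ((r0 : ℝ) + 1) * (T / 4000 ^ (i : ℕ)))) ^ m (Sum.inl i)) *
        ∏ i : Fin nD,
          (4 * Real.exp (12 * ((r0 : ℝ) + 1) * (T / 4000 ^ (b0 + (i : ℕ))))) ^ m (Sum.inr i))
          ≤ 3 * L ^ (2 * S) * (Q * (Real.exp (η / 64 * L) * Real.exp (η / 64 * L))) := by
            apply mul_le_mul _ h3 _ (by positivity)
            · exact mul_le_mul_of_nonneg_left h2 (by norm_num)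
            · exact mul_nonneg (prod_nonneg fun i _ => by positivity)
                (prod_nonneg fun i _ => by positivity)
        _ = (3 * Q * L ^ (2 * S)) * (Real.exp (η / 64 * L) * Real.exp (η / 64 * L)) := by ring
        _ ≤ Real.exp (η / 64 * L) * (Real.exp (η / 64 * L) * Real.exp (η / 64 * L)) :=
            mul_le_mul_of_nonneg_right f9 (by positivity)
        _ = Real.exp (3 * (η / 64 * L)) := by rw [← Real.exp_add, ← Real.exp_add]; ring_nf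
        _ ≤ Real.exp (η / 16 * L) := by
            apply Real.exp_le_exp.mpr
            have : 0 < η * L := by positivity
            linarith
    · -- hlv3
      apply Real.exp_le_exp.mpr
      calc 12 * ((r0 : ℝ) + 1) * T = (12 * ((r0 : ℝ) + 1) * τ) * L := by rw [hTdef]; ring
        _ ≤ η / 64 * L := mul_le_mul_of_nonneg_right c5 hL0.le
        _ ≤ η / 16 * L := by
            have : 0 < η * L := by positivity
            linarith
  obtain ⟨w, w1, w2, w3, w4, w5, w6, w7, w8, w9, w10⟩ := hmain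
  refine ⟨w, ?_, w2, w3, w4, w5, w6, w7, w8, w9, ?_⟩
  · rw [w2]; exact w1
  · rw [w2]; exact w10

end Pool.Agent.Lib.H92G
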