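import Pool.Agent.Lib.H92G.N2
import Pool.Agent.Lib.H92G.K1

/-!
# Chunk N4: asymptotic inequalities
-/

open Finset

namespace Pool.Agent.Lib.H92G

open Pool.Agent.Lib.H15P

/-- `x^s ≤ c exp (b x)` for large `x`. -/
theorem n4_rpow_le_exp (s b c : ℝ) (hb : 0 < b) (hc : 0 < c) :
    ∀ᶠ x : ℝ in Filter.atTop, x ^ s ≤ c * Real.exp (b * x) := by
  have h := (isLittleO_rpow_exp_pos_mul_atTop s hb).def hc
  filter_upwards [h, Filter.eventually_ge_atTop 0] with x hx hx0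
  rwa [Real.norm_of_nonneg (Real.rpow_nonneg hx0 s), Real.norm_of_nonneg (Real.exp_pos _).le] at hx

/-- `c x^s ≤ x^t` for large `x` if `s < t`. -/
theorem n4_rpow_le_rpow (s t c : ℝ) (hst : s < t) :
    ∀ᶠ x : ℝ in Filter.atTop, c * x ^ s ≤ x ^ t := by
  have h := (tendsto_rpow_atTop (sub_pos.2 hst)).eventually_ge_atTop c
  filter_upwards [h, Filter.eventually_gt_atTop 0] with x hx hx0
  have h1 : x ^ t = x ^ (t - s) * x ^ s := by
    rw [← Real.rpow_add hx0]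
    congr 1
    ring
  rw [h1]
  exact mul_le_mul_of_nonneg_right hx (Real.rpow_nonneg hx0.le s)

/-- The modulus: `y = ⌊L^(1/100)⌋`, `4^y ≤ exp (2 L^(1/100))`, `log y ≥ (log L)/200`
(`totient_pM_le`). -/
theorem modulus (δ : ℝ) (hδ : 0 < δ) : ∃ L0 : ℝ, ∀ L : ℝ, L0 ≤ L → ∀ p1 : ℕ, p1.Prime →
    (pM ⌊L ^ (1 / 100 : ℝ)⌋₊ p1 : ℝ) ≤ Real.exp (2 * L ^ (1 / 100 : ℝ)) ∧
    (pM ⌊L ^ (1 / 100 : ℝ)⌋₊ p1 : ℝ) ≤ Real.exp (δ * L) ∧
    ((pM ⌊L ^ (1 / 100 : ℝ)⌋₊ p1).totient : ℝ) ≤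
      400 / Real.log L * (pM ⌊L ^ (1 / 100 : ℝ)⌋₊ p1 : ℝ) ∧
    ((⌊L ^ (1 / 100 : ℝ)⌋₊ : ℕ) : ℝ) ≤ L ∧
    Real.exp (2 * L ^ (1 / 100 : ℝ)) ≤ Real.exp ((L - 10) ^ (1 / 10 : ℝ)) := by
  have e1 : ∀ᶠ L : ℝ in Filter.atTop, 2 / δ * L ^ (1 / 100 : ℝ) ≤ L ^ (1 : ℝ) :=
    n4_rpow_le_rpow (1 / 100) 1 (2 / δ) (by norm_num)
  have e2 : ∀ᶠ L : ℝ in Filter.atTop, 4 * L ^ (1 / 100 : ℝ) ≤ L ^ (1 / 10 : ℝ) :=
    n4_rpow_le_rpow (1 / 100) (1 / 10) 4 (by norm_num)
  have e3 : ∀ᶠ L : ℝ in Filter.atTop, 2 * L ^ (1 / 200 : ℝ) ≤ L ^ (1 / 100 : ℝ) :=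
    n4_rpow_le_rpow (1 / 200) (1 / 100) 2 (by norm_num)
  have e4 : ∀ᶠ L : ℝ in Filter.atTop, (2 : ℝ) ≤ L ^ (1 / 100 : ℝ) :=
    (tendsto_rpow_atTop (by norm_num : (0 : ℝ) < 1 / 100)).eventually_ge_atTop 2
  obtain ⟨L0, hL0⟩ := Filter.eventually_atTop.1
    (e1.and (e2.and (e3.and (e4.and (Filter.eventually_ge_atTop (20 : ℝ))))))
  refine ⟨L0, fun L hL p1 hp1 => ?_⟩
  obtain ⟨h1, h2, h3, h4, h5⟩ := hL0 L hL
  have hLpos : 0 < L := by linarith
  have hx0 : 0 ≤ L ^ (1 / 100 : ℝ) := Real.rpow_nonneg hLpos.le _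
  have hfl : ((⌊L ^ (1 / 100 : ℝ)⌋₊ : ℕ) : ℝ) ≤ L ^ (1 / 100 : ℝ) := Nat.floor_le hx0
  have hpM : (pM ⌊L ^ (1 / 100 : ℝ)⌋₊ p1 : ℝ) ≤ Real.exp (2 * L ^ (1 / 100 : ℝ)) := by
    refine (pM_le _ p1).trans ?_
    have h6 : ((4 : ℝ) ^ ⌊L ^ (1 / 100 : ℝ)⌋₊) = Real.exp (Real.log 4 * ⌊L ^ (1 / 100 : ℝ)⌋₊) := by
      rw [mul_comm, ← Real.exp_log (by positivity : (0 : ℝ) < 4 ^ ⌊L ^ (1 / 100 : ℝ)⌋₊),
        Real.log_pow]
    rw [h6]
    apply Real.exp_le_exp.2
    have h7 : Real.log 4 ≤ 2 := by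
      have h8 : (4 : ℝ) = 2 * 2 := by norm_num
      rw [h8, Real.log_mul two_ne_zero two_ne_zero]
      have := Real.log_two_lt_d9
      linarith
    exact mul_le_mul h7 hfl (Nat.cast_nonneg _) (by norm_num)
  have hd : 2 * L ^ (1 / 100 : ℝ) ≤ δ * L := by
    rw [Real.rpow_one] at h1
    have h9 := mul_le_mul_of_nonneg_left h1 hδ.le
    have h10 : δ * (2 / δ * L ^ (1 / 100 : ℝ)) = 2 * L ^ (1 / 100 : ℝ) := by
      field_simp
    linarith
  refine ⟨hpM, hpM.trans (Real.exp_le_exp.2 hd), ?_, ?_, ?_⟩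
  · have hy2 : 2 ≤ ⌊L ^ (1 / 100 : ℝ)⌋₊ := by
      rw [Nat.le_floor_iff hx0]
      exact_mod_cast h4
    refine (totient_pM_le _ p1 hy2 hp1).trans ?_
    have hlogL : 0 < Real.log L := Real.log_pos (by linarith)
    have hy : L ^ (1 / 200 : ℝ) ≤ ((⌊L ^ (1 / 100 : ℝ)⌋₊ : ℕ) : ℝ) := by
      have h11 := Nat.lt_floor_add_one (L ^ (1 / 100 : ℝ))
      have h12 : (1 : ℝ) ≤ L ^ (1 / 200 : ℝ) :=
        Real.one_le_rpow (by linarith) (by norm_num)
      linarith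
    have hlogy : Real.log L / 200 ≤ Real.log ((⌊L ^ (1 / 100 : ℝ)⌋₊ : ℕ) : ℝ) := by
      have h13 := Real.log_le_log (Real.rpow_pos_of_pos hLpos _) hy
      rw [Real.log_rpow hLpos] at h13
      linarith
    have hM0 : (0 : ℝ) ≤ (pM ⌊L ^ (1 / 100 : ℝ)⌋₊ p1 : ℝ) := Nat.cast_nonneg _
    rw [mul_comm 2, mul_div_assoc, mul_comm]
    refine mul_le_mul_of_nonneg_right ?_ hM0
    rw [div_le_div_iff₀ (by linarith) hlogL]
    linarith
  · refine hfl.trans ?_
    calc L ^ (1 / 100 : ℝ) ≤ L ^ (1 : ℝ) :=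
          Real.rpow_le_rpow_of_exponent_le (by linarith) (by norm_num)
      _ = L := Real.rpow_one L
  · apply Real.exp_le_exp.2
    have h14 : L ^ (1 / 10 : ℝ) / 2 ≤ (L - 10) ^ (1 / 10 : ℝ) := by
      have h15 : (L / 2) ^ (1 / 10 : ℝ) ≤ (L - 10) ^ (1 / 10 : ℝ) :=
        Real.rpow_le_rpow (by linarith) (by linarith) (by norm_num)
      have h16 : (L / 2) ^ (1 / 10 : ℝ) = L ^ (1 / 10 : ℝ) / 2 ^ (1 / 10 : ℝ) :=
        Real.div_rpow hLpos.le (by norm_num) _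
      have h17 : (2 : ℝ) ^ (1 / 10 : ℝ) ≤ 2 := by
        calc (2 : ℝ) ^ (1 / 10 : ℝ) ≤ 2 ^ (1 : ℝ) :=
              Real.rpow_le_rpow_of_exponent_le (by norm_num) (by norm_num)
          _ = 2 := Real.rpow_one 2
      rw [h16] at h15
      refine le_trans ?_ h15
      exact div_le_div_of_nonneg_left (Real.rpow_nonneg hLpos.le _)
        (Real.rpow_pos_of_pos (by norm_num) _) h17
    linarith

/-- Powers of `L` against powers of `L` and exponentials. -/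
theorem asym_list (η τ α C0 C CM : ℝ) (Bn : ℕ) (hη : 0 < η) (hτ : 0 < τ) (hα : 0 < α)
    (hC0 : 0 ≤ C0) (hC : 1 ≤ C) (hCM : 0 < CM) (hBn : 2 * C0 + 6 ≤ Bn) :
    ∃ L0 : ℝ, 1 ≤ L0 ∧ ∀ L : ℝ, L0 ≤ L → ∀ K W M D A0 : ℝ, 0 ≤ K → K ≤ α * L → L ^ Bn ≤ W →
      1 ≤ M → M ≤ Real.exp (2 * L ^ (1 / 100 : ℝ)) → Real.exp (η * L) / 2 ≤ D → 0 ≤ A0 →
      A0 ≤ L ^ C0 →
      K ^ 2 / W ≤ 1 / 200 ∧
      CM * (τ * L) * (40 * (K / Real.sqrt W) * Real.sqrt C) ≤ 1 / 100 ∧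
      Real.exp (η / 16 * L) ^ 2 / D * (10 + A0 + 1 / 100 + 10 * M) ≤ 1 / 100 ∧
      7 * Real.sqrt (C * (K / W)) * (CM * (τ * L)) * A0 ≤ 1 / 100 := by
  have e1 : ∀ᶠ L : ℝ in Filter.atTop, 200 * α ^ 2 ≤ L := Filter.eventually_ge_atTop _
  have e2 : ∀ᶠ L : ℝ in Filter.atTop, 4000 * (CM * τ * α * Real.sqrt C) ≤ L :=
    Filter.eventually_ge_atTop _
  have e3 : ∀ᶠ L : ℝ in Filter.atTop, 700 * (Real.sqrt (C * α) * (CM * τ)) ≤ L :=
    Filter.eventually_ge_atTop _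
  have e4 : ∀ᶠ L : ℝ in Filter.atTop, L ^ C0 ≤ 1 * Real.exp (η / 8 * L) :=
    n4_rpow_le_exp C0 (η / 8) 1 (by positivity) one_pos
  have e5 : ∀ᶠ L : ℝ in Filter.atTop, 16 / η * L ^ (1 / 100 : ℝ) ≤ L ^ (1 : ℝ) :=
    n4_rpow_le_rpow (1 / 100) 1 (16 / η) (by norm_num)
  have e6 : ∀ᶠ L : ℝ in Filter.atTop, 4400 * (4 / (3 * η)) ≤ L := Filter.eventually_ge_atTop _
  obtain ⟨L0, hL0⟩ := Filter.eventually_atTop.1
    (e1.and (e2.and (e3.and (e4.and (e5.and e6)))))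
  refine ⟨max 1 L0, le_max_left _ _, fun L hL K W M D A0 hK0 hK hW hM1 hM hD hA0 hA => ?_⟩
  obtain ⟨h1, h2, h3, h4, h5, h6⟩ := hL0 L ((le_max_right _ _).trans hL)
  have hL1 : 1 ≤ L := (le_max_left _ _).trans hL
  have hLpos : 0 < L := by linarith
  have hBn' : L ^ (2 * C0 + 6) ≤ L ^ Bn := by
    rw [← Real.rpow_natCast]
    exact Real.rpow_le_rpow_of_exponent_le hL1 hBn
  have hP : 0 < L ^ (C0 + 3) := Real.rpow_pos_of_pos hLpos _
  have hsq : L ^ (2 * C0 + 6) = (L ^ (C0 + 3)) ^ 2 := by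
    rw [← Real.rpow_natCast, ← Real.rpow_mul hLpos.le]
    congr 1
    push_cast
    ring
  have hWP : (L ^ (C0 + 3)) ^ 2 ≤ W := by
    rw [← hsq]
    exact hBn'.trans hW
  have hWpos : 0 < W := lt_of_lt_of_le (by positivity) hWP
  have hP3 : L ^ 3 ≤ L ^ (C0 + 3) := by
    rw [← Real.rpow_natCast]
    exact Real.rpow_le_rpow_of_exponent_le hL1 (by push_cast; linarith)
  have hsW : L ^ (C0 + 3) ≤ Real.sqrt W := Real.le_sqrt_of_sq_le hWP
  have hsWpos : 0 < Real.sqrt W := lt_of_lt_of_le hP hsW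
  have hL3 : 0 < L ^ 3 := by positivity
  have hKsW : K / Real.sqrt W ≤ α / L ^ 2 := by
    rw [div_le_div_iff₀ hsWpos (by positivity)]
    calc K * L ^ 2 ≤ α * L * L ^ 2 := mul_le_mul_of_nonneg_right hK (by positivity)
      _ = α * L ^ 3 := by ring
      _ ≤ α * Real.sqrt W := mul_le_mul_of_nonneg_left (hP3.trans hsW) hα.le
  refine ⟨?_, ?_, ?_, ?_⟩
  · have h7 : K ^ 2 / W = (K / Real.sqrt W) ^ 2 := by
      rw [div_pow, Real.sq_sqrt hWpos.le]
    rw [h7]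
    calc (K / Real.sqrt W) ^ 2 ≤ (α / L ^ 2) ^ 2 :=
          pow_le_pow_left₀ (div_nonneg hK0 hsWpos.le) hKsW 2
      _ = α ^ 2 / L ^ 4 := by
          rw [div_pow]
          ring_nf
      _ ≤ 1 / 200 := by
          rw [div_le_div_iff₀ (by positivity) (by norm_num)]
          have h8 : L ≤ L ^ 4 := by
            calc L = L ^ 1 := (pow_one L).symm
              _ ≤ L ^ 4 := pow_le_pow_right₀ hL1 (by norm_num)
          linarith
  · have h9 : CM * (τ * L) * (40 * (K / Real.sqrt W) * Real.sqrt C) ≤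
        CM * (τ * L) * (40 * (α / L ^ 2) * Real.sqrt C) := by
      refine mul_le_mul_of_nonneg_left ?_ (by positivity)
      refine mul_le_mul_of_nonneg_right ?_ (Real.sqrt_nonneg _)
      linarith
    refine h9.trans ?_
    have h10 : CM * (τ * L) * (40 * (α / L ^ 2) * Real.sqrt C) =
        40 * (CM * τ * α * Real.sqrt C) / L := by
      field_simp
    rw [h10, div_le_div_iff₀ hLpos (by norm_num)]
    linarith
  · have hE : Real.exp (η / 16 * L) ^ 2 = Real.exp (η / 8 * L) := by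
      rw [← Real.exp_nat_mul]
      congr 1
      push_cast
      ring
    have hDpos : 0 < D := lt_of_lt_of_le (by positivity) hD
    have h11 : 2 * L ^ (1 / 100 : ℝ) ≤ η / 8 * L := by
      rw [Real.rpow_one] at h5
      have h12 := mul_le_mul_of_nonneg_left h5 (by positivity : 0 ≤ η / 8)
      have h13 : η / 8 * (16 / η * L ^ (1 / 100 : ℝ)) = 2 * L ^ (1 / 100 : ℝ) := by
        field_simp
        norm_num
      linarith
    have h14 : M ≤ Real.exp (η / 8 * L) := hM.trans (Real.exp_le_exp.2 h11)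
    have h15 : (1 : ℝ) ≤ Real.exp (η / 8 * L) := Real.one_le_exp (by positivity)
    have h16 : 10 + A0 + 1 / 100 + 10 * M ≤ 22 * Real.exp (η / 8 * L) := by
      have := hA.trans h4
      linarith
    have h17 : Real.exp (η / 8 * L) / D ≤ 2 * Real.exp (-(7 / 8 * η * L)) := by
      rw [div_le_iff₀ hDpos]
      calc Real.exp (η / 8 * L) = 2 * Real.exp (-(7 / 8 * η * L)) * (Real.exp (η * L) / 2) := by
            have : Real.exp (η / 8 * L) = Real.exp (-(7 / 8 * η * L)) * Real.exp (η * L) := by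
              rw [← Real.exp_add]
              congr 1
              ring
            rw [this]
            ring
        _ ≤ 2 * Real.exp (-(7 / 8 * η * L)) * D :=
            mul_le_mul_of_nonneg_left hD (by positivity)
    rw [hE]
    calc Real.exp (η / 8 * L) / D * (10 + A0 + 1 / 100 + 10 * M)
        ≤ 2 * Real.exp (-(7 / 8 * η * L)) * (22 * Real.exp (η / 8 * L)) :=
          mul_le_mul h17 h16 (by linarith) (by positivity)
      _ = 44 * Real.exp (-(3 / 4 * η * L)) := by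
          have : Real.exp (-(3 / 4 * η * L)) =
              Real.exp (-(7 / 8 * η * L)) * Real.exp (η / 8 * L) := by
            rw [← Real.exp_add]
            congr 1
            ring
          rw [this]
          ring
      _ ≤ 1 / 100 := by
          rw [Real.exp_neg]
          have h18 : 4400 ≤ 3 / 4 * η * L := by
            have h19 := mul_le_mul_of_nonneg_left h6 (by positivity : 0 ≤ 3 / 4 * η)
            have h20 : 3 / 4 * η * (4400 * (4 / (3 * η))) = 4400 := by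
              field_simp
            linarith
          have h21 : 4400 ≤ Real.exp (3 / 4 * η * L) := by
            have := Real.add_one_le_exp (3 / 4 * η * L)
            linarith
          rw [← div_eq_mul_inv, div_le_div_iff₀ (Real.exp_pos _) (by norm_num)]
          linarith
  · have h22 : Real.sqrt (C * (K / W)) ≤ Real.sqrt (C * α) * L / L ^ (C0 + 3) := by
      have h23 : C * (K / W) ≤ (Real.sqrt (C * α) * L / L ^ (C0 + 3)) ^ 2 := by
        rw [div_pow, mul_pow, Real.sq_sqrt (by positivity), ← mul_div_assoc]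
        rw [div_le_div_iff₀ hWpos (by positivity)]
        have h24 : C * K ≤ C * α * L ^ 2 := by
          calc C * K ≤ C * (α * L) := mul_le_mul_of_nonneg_left hK (by linarith)
            _ = C * α * L * 1 := by ring
            _ ≤ C * α * L * L := mul_le_mul_of_nonneg_left hL1 (by positivity)
            _ = C * α * L ^ 2 := by ring
        exact mul_le_mul h24 hWP (by positivity) (by positivity)
      calc Real.sqrt (C * (K / W)) ≤ Real.sqrt ((Real.sqrt (C * α) * L / L ^ (C0 + 3)) ^ 2) :=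
            Real.sqrt_le_sqrt h23
        _ = Real.sqrt (C * α) * L / L ^ (C0 + 3) := Real.sqrt_sq (by positivity)
    have hC0pos : 0 < L ^ C0 := Real.rpow_pos_of_pos hLpos _
    have h25 : L ^ (C0 + 3) = L ^ C0 * L ^ 3 := by
      rw [Real.rpow_add hLpos]
      congr 1
      exact_mod_cast Real.rpow_natCast L 3
    calc 7 * Real.sqrt (C * (K / W)) * (CM * (τ * L)) * A0
        ≤ 7 * (Real.sqrt (C * α) * L / L ^ (C0 + 3)) * (CM * (τ * L)) * L ^ C0 := by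
          refine mul_le_mul ?_ hA hA0 (by positivity)
          refine mul_le_mul_of_nonneg_right ?_ (by positivity)
          linarith
      _ = 7 * (Real.sqrt (C * α) * (CM * τ)) / L := by
          rw [h25]
          field_simp
      _ ≤ 1 / 100 := by
          rw [div_le_div_iff₀ hLpos (by norm_num)]
          linarith

/-- The length: `lv^4 = exp (η L/4)`, `Y ≥ exp (L/2)`, `el ≥ 1/L^2`. -/
theorem asym_long (η α e g : ℝ) (hη : 0 < η) (hη1 : η ≤ 1) (hα : 0 < α) (he : 0 < e)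
    (hg : 1 ≤ g) :
    ∃ L0 : ℝ, 1 ≤ L0 ∧ ∀ L : ℝ, L0 ≤ L → ∀ K el Y : ℝ, 0 ≤ K → K ≤ α * L → 1 / L ^ 2 ≤ el →
      Real.exp (L / 2) ≤ Y →
      8 * K * g ^ 4 * Real.exp (η / 16 * L) ^ 4 ≤ e * el ^ 2 * Y := by
  have hg4 : 0 < g ^ 4 := by positivity
  have e1 : ∀ᶠ L : ℝ in Filter.atTop,
      L ^ (5 : ℝ) ≤ (e / (8 * α * g ^ 4)) * Real.exp (1 / 4 * L) :=
    n4_rpow_le_exp 5 (1 / 4) _ (by norm_num) (by positivity)
  obtain ⟨L0, hL0⟩ := Filter.eventually_atTop.1 e1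
  refine ⟨max 1 L0, le_max_left _ _, fun L hL K el Y hK0 hK hel hY => ?_⟩
  have h1 := hL0 L ((le_max_right _ _).trans hL)
  have hL1 : 1 ≤ L := (le_max_left _ _).trans hL
  have hLpos : 0 < L := by linarith
  have h5 : L ^ (5 : ℝ) = L ^ 5 := by exact_mod_cast Real.rpow_natCast L 5
  rw [h5] at h1
  have hE : Real.exp (η / 16 * L) ^ 4 ≤ Real.exp (1 / 4 * L) := by
    rw [← Real.exp_nat_mul]
    apply Real.exp_le_exp.2
    push_cast
    have := mul_le_mul_of_nonneg_right hη1 hLpos.le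
    linarith
  have h2 : 8 * α * g ^ 4 * L ^ 5 ≤ e * Real.exp (1 / 4 * L) := by
    have h3 := mul_le_mul_of_nonneg_left h1 (by positivity : 0 ≤ 8 * α * g ^ 4)
    have h4 : 8 * α * g ^ 4 * (e / (8 * α * g ^ 4) * Real.exp (1 / 4 * L)) =
        e * Real.exp (1 / 4 * L) := by
      field_simp
    linarith
  have hel2 : 1 / L ^ 4 ≤ el ^ 2 := by
    calc 1 / L ^ 4 = (1 / L ^ 2) ^ 2 := by
          rw [div_pow]
          ring_nf
      _ ≤ el ^ 2 := pow_le_pow_left₀ (by positivity) hel 2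
  calc 8 * K * g ^ 4 * Real.exp (η / 16 * L) ^ 4
      ≤ 8 * (α * L) * g ^ 4 * Real.exp (1 / 4 * L) := by
        refine mul_le_mul ?_ hE (by positivity) (by positivity)
        refine mul_le_mul_of_nonneg_right ?_ hg4.le
        linarith
    _ = (8 * α * g ^ 4 * L ^ 5) * Real.exp (1 / 4 * L) / L ^ 4 := by
        field_simp
    _ ≤ (e * Real.exp (1 / 4 * L)) * Real.exp (1 / 4 * L) / L ^ 4 := by
        refine div_le_div_of_nonneg_right ?_ (by positivity)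
        exact mul_le_mul_of_nonneg_right h2 (Real.exp_pos _).le
    _ = e * (1 / L ^ 4) * Real.exp (L / 2) := by
        have : Real.exp (L / 2) = Real.exp (1 / 4 * L) * Real.exp (1 / 4 * L) := by
          rw [← Real.exp_add]
          congr 1
          ring
        rw [this]
        ring
    _ ≤ e * el ^ 2 * Y := by
        refine mul_le_mul ?_ hY (Real.exp_pos _).le (by positivity)
        exact mul_le_mul_of_nonneg_left hel2 he.le

end Pool.Agent.Lib.H92G
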