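import Pool.Agent.Lib.H92G.Defs

/-!
# The data of the weights for one value of `x`, the weight `nu`, the classes
-/

open Finset

namespace Pool.Agent.Lib.H92G

open Pool.Agent.Lib.H15P

/-- All data of the weight function and the inequalities between them. `KA` = bound for the number
of allowed forms, `K` = bound for the number of all forms. Allowed forms (`true`) use the labels
`inl i`, disallowed forms (`false`) the labels `inr i`. -/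
structure WG where
  P : Finset ℕ
  W : ℕ
  KA : ℕ
  K : ℕ
  nA : ℕ
  nD : ℕ
  DJ : Bool → (Fin nA ⊕ Fin nD) → Finset {p // p ∈ P} → ℝ
  m : (Fin nA ⊕ Fin nD) → ℕ
  R : (Fin nA ⊕ Fin nD) → ℝ
  lm : Finset {p // p ∈ P} → ℝ
  cA : ℝ
  h : ℝ
  C : ℝ
  lv : ℝ
  e : ℝ
  el : ℝ
  prime : ∀ p ∈ P, p.Prime
  big : ∀ p ∈ P, W < p
  nDpos : 0 < nD
  Kpos : 1 ≤ K
  KW : 4 * K ^ 2 ≤ W
  cA0 : 0 ≤ cA
  good : GoodJ (qq P K) DJ h
  h0 : 0 ≤ h
  trl : ∀ i, DJ true (Sum.inl i) ∅ = cA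
  trr : ∀ i A, DJ true (Sum.inr i) A = 0
  fll : ∀ i A, DJ false (Sum.inl i) A = 0
  flr : ∀ i, DJ false (Sum.inr i) ∅ = -1 / (nD : ℝ)
  hm : ∀ i, 2 * (KA * GJ (qq P K) DJ true (some i) + K * GJ (qq P K) DJ false (some i)) + R i
    ≤ m i
  hR : ∑ i, Real.exp (-R i) ≤ 1 / 4
  hG : ∀ a, ∑ i, GJ (qq P K) DJ a (some i) ≤ 1
  lm0 : ∀ A, 0 ≤ lm A
  lm1 : lm ∅ = 1
  lmel : ex (qq P K) lm ≤ el
  el0 : 0 < el
  el1 : el ≤ 1
  e0 : 0 < e
  e1 : e ≤ 1 / 10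
  hlm : K * (∑ i : Fin nD, Real.exp (-R (Sum.inr i))) * el ≤ e
  hC : Real.exp ((((nA + nD : ℕ) : ℝ) + 1) ^ 4 * h * K) ≤ C
  hKW : Real.exp (2 * (K : ℝ) ^ 2 / W) ≤ 1 + e
  lv1 : 1 ≤ lv
  levL : ∀ (J : Type) [Fintype J] [DecidableEq J] (al : J → Bool) (B : Finset J) (M : ℕ)
    (b : J → ℕ) (wt : (J → Option (Fin nA ⊕ Fin nD)) → ℝ),
    Fintype.card J ≤ K → (∀ l, |wt l| ≤ 1) →
      Lev (∏ p ∈ P, p)
        (fun t => LW (fun j => DJ (al j)) (adm B m) wt (fun j => hit P (b j + M * t))) lv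
  levlm : LevS P lm lv

/-- The factors of the forms `b + M t`, `b ∈ B`, if the elements of `A` are allowed. -/
def WG.Df (w : WG) (A B : Finset ℕ) :
    {b // b ∈ B} → (Fin w.nA ⊕ Fin w.nD) → Finset {p // p ∈ w.P} → ℝ :=
  fun j => w.DJ (decide (j.1 ∈ A))

/-- The weight at `t` of the system of the forms `b + M t`, `b ∈ B`. -/
noncomputable def WG.nu (w : WG) (A B : Finset ℕ) (M t : ℕ) : ℝ :=
  LG (w.Df A B) w.m univ (fun j : {b // b ∈ B} => hit w.P (j.1 + M * t)) ^ 2 /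
    ZG (qq w.P w.K) (w.Df A B) univ

/-- The value `1 + nA cA`: the gain at a prime of an allowed form. -/
noncomputable def WG.g (w : WG) : ℝ := 1 + w.nA * w.cA

/-- Hypotheses on a system of forms. -/
structure WG.Sys (w : WG) (A B : Finset ℕ) (M : ℕ) : Prop where
  AB : A ⊆ B
  cardA : A.card ≤ w.KA
  cardB : B.card ≤ w.K
  dist : ∀ b ∈ B, ∀ b' ∈ B, b ≤ b' + w.W
  cop : ∀ p ∈ w.P, ¬ p ∣ M

/-- Hypothesis on the length of the sums. -/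
def WG.Long (w : WG) (Y : ℕ) : Prop := 8 * w.K * w.g ^ 4 * w.lv ^ 4 ≤ w.e * w.el ^ 2 * Y

end Pool.Agent.Lib.H92G
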